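import Pool.Agent.Lib.SubBisB.BGib

/-!
The chain rule: the sum of the conditional entropies of the elements in an order is the entropy.
-/

open scoped BigOperators

namespace Pool.Agent.Lib.SubBisB

open Finset

variable {n : ℕ}

/-- cross entropy of two probabilities of an event, in bits -/
noncomputable def ce (x y : ℝ) : ℝ := -(x * Real.logb 2 y + (1 - x) * Real.logb 2 (1 - y))

/-- binary entropy in bits -/
noncomputable def hb (x : ℝ) : ℝ := -(x * Real.logb 2 x + (1 - x) * Real.logb 2 (1 - x))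

theorem ce_self (x : ℝ) : ce x x = hb x := rfl

theorem logb_mul_le {x y : ℝ} (hx : 0 ≤ x) (hy : 0 < y) :
    x * Real.logb 2 y - x * Real.logb 2 x ≤ (y - x) / Real.log 2 := by
  have h2 : 0 < Real.log 2 := Real.log_pos (by norm_num)
  rcases hx.eq_or_lt with rfl | hx'
  · rw [zero_mul, zero_mul, sub_zero, sub_zero]
    positivity
  · have h1 : Real.log (y / x) ≤ y / x - 1 := Real.log_le_sub_one_of_pos (by positivity)
    rw [Real.log_div hy.ne' hx'.ne'] at h1
    have h3 : x * (Real.log y - Real.log x) ≤ x * (y / x - 1) :=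
      mul_le_mul_of_nonneg_left h1 hx
    have h4 : x * (y / x - 1) = y - x := by
      field_simp
    rw [h4] at h3
    unfold Real.logb
    rw [← mul_div_assoc, ← mul_div_assoc, ← sub_div]
    refine div_le_div_of_nonneg_right ?_ h2.le
    linarith

/-- The entropy is below the cross entropy. -/
theorem hb_le_ce {x y : ℝ} (hx : 0 ≤ x) (hx1 : x ≤ 1) (hy : 0 < y) (hy1 : y < 1) :
    hb x ≤ ce x y := by
  have h1 := logb_mul_le hx hy
  have h2 := logb_mul_le (x := 1 - x) (y := 1 - y) (by linarith) (by linarith)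
  have h3 : (y - x) / Real.log 2 + ((1 - y) - (1 - x)) / Real.log 2 = 0 := by
    rw [← add_div]
    have : y - x + (1 - y - (1 - x)) = 0 := by ring
    rw [this, zero_div]
  unfold hb ce
  linarith

variable {w : Finset (Fin n) → ℕ}

/-- With more conditions the mean entropy is smaller. -/
theorem ex_hb_mono (hw : ∀ s, 0 < w s) {R R' : Finset (Fin n)} (h : R ⊆ R') {v : Fin n}
    (hv : v ∉ R') :
    ex w (fun s => hb (pr w R' v s)) ≤ ex w fun s => hb (pr w R v s) := by
  have hvR : v ∉ R := fun h' => hv (h h')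
  have h1 : ex w (fun s => hb (pr w R' v s)) ≤ ex w fun s => ce (pr w R' v s) (pr w R v s) :=
    ex_mono fun s => hb_le_ce (pr_nonneg _ _ _) (pr_le_one hw _ _ _) (pr_pos hw hvR s)
      (pr_lt_one hw hvR s)
  refine h1.trans (le_of_eq ?_)
  have h2 : ∀ p : Finset (Fin n) → ℝ, (fun s => ce (p s) (pr w R v s)) = fun s =>
      p s * (Real.logb 2 (1 - pr w R v s) - Real.logb 2 (pr w R v s)) -
        Real.logb 2 (1 - pr w R v s) := by
    intro p
    funext s
    unfold ce
    ring
  have h3 : (fun s => hb (pr w R v s)) = fun s => ce (pr w R v s) (pr w R v s) := rfl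
  rw [h3, h2, h2, ex_sub, ex_sub]
  congr 1
  refine ex_two hw h v ?_
  intro s t hst
  show Real.logb 2 (1 - pr w R v s) - Real.logb 2 (pr w R v s) =
    Real.logb 2 (1 - pr w R v t) - Real.logb 2 (pr w R v t)
  rw [dep_pr R v s t hst]

section order

variable {B : ℕ} (β : Fin n → Fin B)

/-- the elements in earlier blocks -/
def Rb (v : Fin n) : Finset (Fin n) := univ.filter fun x => β x < β v

/-- the earlier elements in the order of pairs (block, number) -/
def Rl (v : Fin n) : Finset (Fin n) := univ.filter fun x => β x < β v ∨ (β x = β v ∧ x < v)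

theorem notMem_Rb (v : Fin n) : v ∉ Rb β v := by
  intro h
  exact lt_irrefl _ (mem_filter.1 h).2

theorem notMem_Rl (v : Fin n) : v ∉ Rl β v := by
  intro h
  rcases (mem_filter.1 h).2 with h1 | h1
  · exact lt_irrefl _ h1
  · exact lt_irrefl _ h1.2

theorem Rb_subset (v : Fin n) : Rb β v ⊆ Rl β v := by
  intro x hx
  exact mem_filter.2 ⟨mem_univ _, Or.inl (mem_filter.1 hx).2⟩

/-- The last element of a nonempty set. -/
theorem exists_last {S : Finset (Fin n)} (hS : S.Nonempty) :
    ∃ v ∈ S, ∀ x ∈ S, x ≠ v → x ∈ Rl β v := by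
  obtain ⟨v, hv, h⟩ := Finset.exists_max_image S (fun v => toLex (β v, v)) hS
  refine ⟨v, hv, fun x hx hxv => ?_⟩
  have h1 : toLex (β x, x) ≤ toLex (β v, v) := h x hx
  rw [Prod.Lex.toLex_le_toLex] at h1
  refine mem_filter.2 ⟨mem_univ x, ?_⟩
  rcases h1 with h1 | ⟨h1, h2⟩
  · exact Or.inl h1
  · exact Or.inr ⟨h1, lt_of_le_of_ne h2 hxv⟩

/-- The first element of a nonempty set. -/
theorem exists_first {S : Finset (Fin n)} (hS : S.Nonempty) :
    ∃ v ∈ S, ∀ x ∈ Rl β v, x ∉ S := by
  obtain ⟨v, hv, h⟩ := Finset.exists_min_image S (fun v => toLex (β v, v)) hS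
  refine ⟨v, hv, fun x hx hxS => ?_⟩
  have h1 : toLex (β v, v) ≤ toLex (β x, x) := h x hxS
  rw [Prod.Lex.toLex_le_toLex] at h1
  simp only at h1
  rcases (mem_filter.1 hx).2 with h2 | ⟨h2, h3⟩
  · rcases h1 with h1 | ⟨h1, _⟩
    · exact lt_asymm h1 h2
    · exact absurd h1 (ne_of_gt h2)
  · rcases h1 with h1 | ⟨_, h4⟩
    · exact absurd h2.symm (ne_of_lt h1)
    · exact absurd h3 (not_lt.2 h4)

theorem Rl_trans {v x : Fin n} (hx : x ∈ Rl β v) : Rl β x ⊆ Rl β v := by
  intro y hy
  rw [Rl, mem_filter] at hx hy ⊢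
  refine ⟨mem_univ y, ?_⟩
  rcases hx.2 with h1 | ⟨h1, h2⟩ <;> rcases hy.2 with h3 | ⟨h3, h4⟩
  · exact Or.inl (h3.trans h1)
  · exact Or.inl (h3 ▸ h1)
  · exact Or.inl (h1 ▸ h3)
  · exact Or.inr ⟨h3.trans h1, h4.trans h2⟩

/-- the conditional probability of the state of `v` in `s` -/
noncomputable def qr (w : Finset (Fin n) → ℕ) (R : Finset (Fin n)) (v : Fin n)
    (s : Finset (Fin n)) : ℝ := if v ∈ s then pr w R v s else 1 - pr w R v s

theorem filter_insert_mem {R s : Finset (Fin n)} {v : Fin n} (hv : v ∉ R) (hs : v ∈ s) :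
    (univ.filter fun t : Finset (Fin n) => t ∩ insert v R = s ∩ insert v R) =
      univ.filter fun t : Finset (Fin n) => t ∩ R = s ∩ R ∧ v ∈ t := by
  ext t
  rw [mem_filter, mem_filter]
  constructor
  · rintro ⟨h0, h⟩
    refine ⟨h0, ?_, ?_⟩
    · ext x
      have h1 := Finset.ext_iff.1 h x
      simp only [mem_inter, mem_insert] at h1 ⊢
      constructor
      · rintro ⟨h2, h3⟩
        exact ⟨(h1.1 ⟨h2, Or.inr h3⟩).1, h3⟩
      · rintro ⟨h2, h3⟩
        exact ⟨(h1.2 ⟨h2, Or.inr h3⟩).1, h3⟩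
    · have h1 := Finset.ext_iff.1 h v
      simp only [mem_inter, mem_insert] at h1
      exact (h1.2 ⟨hs, Or.inl trivial⟩).1
  · rintro ⟨h0, h, hvt⟩
    refine ⟨h0, ?_⟩
    ext x
    have h1 := Finset.ext_iff.1 h x
    simp only [mem_inter, mem_insert] at h1 ⊢
    constructor
    · rintro ⟨h2, rfl | h3⟩
      · exact ⟨hs, Or.inl rfl⟩
      · exact ⟨(h1.1 ⟨h2, h3⟩).1, Or.inr h3⟩
    · rintro ⟨h2, rfl | h3⟩
      · exact ⟨hvt, Or.inl rfl⟩
      · exact ⟨(h1.2 ⟨h2, h3⟩).1, Or.inr h3⟩

theorem filter_insert_notMem {R s : Finset (Fin n)} {v : Fin n} (hv : v ∉ R) (hs : v ∉ s) :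
    (univ.filter fun t : Finset (Fin n) => t ∩ insert v R = s ∩ insert v R) =
      univ.filter fun t : Finset (Fin n) => t ∩ R = s ∩ R ∧ v ∉ t := by
  ext t
  rw [mem_filter, mem_filter]
  constructor
  · rintro ⟨h0, h⟩
    refine ⟨h0, ?_, ?_⟩
    · ext x
      have h1 := Finset.ext_iff.1 h x
      simp only [mem_inter, mem_insert] at h1 ⊢
      constructor
      · rintro ⟨h2, h3⟩
        exact ⟨(h1.1 ⟨h2, Or.inr h3⟩).1, h3⟩
      · rintro ⟨h2, h3⟩
        exact ⟨(h1.2 ⟨h2, Or.inr h3⟩).1, h3⟩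
    · have h1 := Finset.ext_iff.1 h v
      simp only [mem_inter, mem_insert] at h1
      exact fun h2 => hs (h1.1 ⟨h2, Or.inl trivial⟩).1
  · rintro ⟨h0, h, hvt⟩
    refine ⟨h0, ?_⟩
    ext x
    have h1 := Finset.ext_iff.1 h x
    simp only [mem_inter, mem_insert] at h1 ⊢
    constructor
    · rintro ⟨h2, rfl | h3⟩
      · exact absurd h2 hvt
      · exact ⟨(h1.1 ⟨h2, h3⟩).1, Or.inr h3⟩
    · rintro ⟨h2, rfl | h3⟩
      · exact absurd h2 hs
      · exact ⟨(h1.2 ⟨h2, h3⟩).1, Or.inr h3⟩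

theorem qr_eq (hw : ∀ s, 0 < w s) {R : Finset (Fin n)} {v : Fin n} (hv : v ∉ R)
    (s : Finset (Fin n)) : qr w R v s = (cl w (insert v R) s : ℝ) / cl w R s := by
  have h0 : (cl w R s : ℝ) ≠ 0 := by
    have := cl_pos hw R s
    positivity
  unfold qr
  split_ifs with hs
  · unfold pr
    congr 2
    unfold cv
    rw [cl, filter_insert_mem hv hs]
  · have h1 : (cl w R s : ℝ) = cv w R v s + cl w (insert v R) s := by
      have h2 := cl_eq (w := w) R v s
      have h3 : cl w (insert v R) s =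
          ∑ t ∈ univ.filter (fun t : Finset (Fin n) => t ∩ R = s ∩ R ∧ v ∉ t), w t := by
        rw [cl, filter_insert_notMem hv hs]
      rw [← h3] at h2
      exact_mod_cast h2
    unfold pr
    rw [eq_div_iff h0, sub_mul, one_mul, div_mul_cancel₀ _ h0]
    linarith

/-- The product of the conditional probabilities over an initial segment of the order. -/
theorem prod_qr (hw : ∀ s, 0 < w s) (s D : Finset (Fin n)) (hD : ∀ v ∈ D, Rl β v ⊆ D) :
    ∏ v ∈ D, qr w (Rl β v) v s = (cl w D s : ℝ) / cl w ∅ s := by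
  classical
  have h0 : (cl w ∅ s : ℝ) ≠ 0 := by
    have := cl_pos hw ∅ s
    positivity
  induction h : D.card generalizing D with
  | zero =>
    rw [Finset.card_eq_zero.1 h, Finset.prod_empty, div_self h0]
  | succ k ih =>
    have hne : D.Nonempty := Finset.card_pos.1 (by omega)
    obtain ⟨v, hv, hl⟩ := exists_last β hne
    have h3 : D.erase v = Rl β v := by
      ext x
      rw [mem_erase]
      constructor
      · rintro ⟨h5, h6⟩
        exact hl x h6 h5
      · intro h5
        exact ⟨fun h7 => notMem_Rl β v (h7 ▸ h5), hD v hv h5⟩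
    have h4 : ∀ x ∈ D.erase v, Rl β x ⊆ D.erase v := by
      intro x hx
      rw [h3] at hx ⊢
      exact Rl_trans β hx
    have h1 := ih (D.erase v) h4 (by rw [card_erase_of_mem hv, h]; rfl)
    rw [← Finset.mul_prod_erase D _ hv, h1, qr_eq hw (notMem_Rl β v), ← h3, insert_erase hv]
    have h5 : (cl w (D.erase v) s : ℝ) ≠ 0 := by
      have := cl_pos hw (D.erase v) s
      positivity
    field_simp

theorem cl_univ (s : Finset (Fin n)) : cl w univ s = w s := by
  unfold cl
  have h : (univ.filter fun t : Finset (Fin n) => t ∩ univ = s ∩ univ) = {s} := by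
    ext t
    simp
  rw [h, sum_singleton]

theorem cl_empty (s : Finset (Fin n)) : cl w ∅ s = ∑ t, w t := by
  unfold cl
  simp

/-- The product of the conditional probabilities. -/
theorem prod_qr_univ (hw : ∀ s, 0 < w s) (s : Finset (Fin n)) :
    ∏ v, qr w (Rl β v) v s = (w s : ℝ) / ∑ t, (w t : ℝ) := by
  have h := prod_qr β hw s univ fun _ _ => subset_univ _
  rw [cl_univ, cl_empty] at h
  rw [h]
  push_cast
  rfl

theorem qr_pos (hw : ∀ s, 0 < w s) {R : Finset (Fin n)} {v : Fin n} (hv : v ∉ R)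
    (s : Finset (Fin n)) : 0 < qr w R v s := by
  unfold qr
  split_ifs
  · exact pr_pos hw hv s
  · have := pr_lt_one hw hv s
    linarith

/-- The mean of the logarithm of the conditional probability is the conditional entropy. -/
theorem ex_logb_qr (hw : ∀ s, 0 < w s) {R : Finset (Fin n)} {v : Fin n} :
    (ex w fun s => Real.logb 2 (qr w R v s)) = -ex w fun s => hb (pr w R v s) := by
  have h1 : (fun s => Real.logb 2 (qr w R v s)) = fun s =>
      (if v ∈ s then 1 else 0) * (Real.logb 2 (pr w R v s) - Real.logb 2 (1 - pr w R v s)) +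
        Real.logb 2 (1 - pr w R v s) := by
    funext s
    unfold qr
    split_ifs <;> ring
  have h2 : Dep R fun s => Real.logb 2 (pr w R v s) - Real.logb 2 (1 - pr w R v s) := by
    intro s t hst
    show Real.logb 2 (pr w R v s) - Real.logb 2 (1 - pr w R v s) =
      Real.logb 2 (pr w R v t) - Real.logb 2 (1 - pr w R v t)
    rw [dep_pr R v s t hst]
  have h3 := ex_tower hw R v h2
  rw [h1, ex_add, ← h3, ← ex_add]
  have h4 : (fun s => pr w R v s * (Real.logb 2 (pr w R v s) - Real.logb 2 (1 - pr w R v s)) +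
      Real.logb 2 (1 - pr w R v s)) = fun s => (-1) * hb (pr w R v s) := by
    funext s
    unfold hb
    ring
  rw [h4, ex_smul]
  ring

/-- The chain rule. -/
theorem chain (hw : ∀ s, 0 < w s) :
    ∑ v, ex w (fun s => hb (pr w (Rl β v) v s)) =
      Real.logb 2 (∑ t, (w t : ℝ)) - ex w fun s => Real.logb 2 (w s) := by
  have h1 : ∀ s, ∑ v, Real.logb 2 (qr w (Rl β v) v s) =
      Real.logb 2 (w s) - Real.logb 2 (∑ t, (w t : ℝ)) := by
    intro s
    have h2 : (w s : ℝ) ≠ 0 := by
      have := hw s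
      positivity
    rw [← Real.logb_div h2 (W_pos hw).ne', ← prod_qr_univ β hw s,
      Real.logb_prod _ _ fun v _ => (qr_pos hw (notMem_Rl β v) s).ne']
  have h3 : ∑ v, ex w (fun s => hb (pr w (Rl β v) v s)) =
      -∑ v, ex w fun s => Real.logb 2 (qr w (Rl β v) v s) := by
    rw [← sum_neg_distrib]
    refine sum_congr rfl fun v _ => ?_
    rw [ex_logb_qr hw, neg_neg]
  rw [h3, ← ex_sum]
  have h4 : (fun s => ∑ v, Real.logb 2 (qr w (Rl β v) v s)) = fun s =>
      Real.logb 2 (w s) - Real.logb 2 (∑ t, (w t : ℝ)) := funext h1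
  rw [h4, ex_sub, ex_const hw]
  ring

end order

end Pool.Agent.Lib.SubBisB
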