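import Pool.Agent.Lib.SubBisX.AccWorld

/-!
# Worlds with random blocks: definitions

The vertices are divided into `B` blocks by labels `β`. A world of level `r` consists of a digit for
every vertex and of hidden randomness for every block; on level `r + 1` a block carries `s` fresh
samples, each a world of level `r` with a noise vector. The value at a vertex `v` uses the digits of
the vertices of earlier blocks, the hidden randomness of the blocks up to its own, and its own digit.
-/

open scoped BigOperators

namespace Pool.Agent.Lib.SubBisB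

open Pool.Agent.Lib.SubBisX.Reg Pool.Agent.Lib.SubBisX.Acc

/-- The hidden randomness of a block at level `r`. -/
def HB (m n B s N : ℕ) : ℕ → Type
  | 0 => Unit
  | r + 1 => HB m n B s N r ×
      (Fin s → ((Fin n → Fin m) × (Fin B → HB m n B s N r)) × (Fin n → Fin N))

instance fintypeHB (m n B s N : ℕ) : ∀ r, Fintype (HB m n B s N r)
  | 0 => inferInstanceAs (Fintype Unit)
  | r + 1 =>
    haveI := fintypeHB m n B s N r
    inferInstanceAs (Fintype (HB m n B s N r ×
      (Fin s → ((Fin n → Fin m) × (Fin B → HB m n B s N r)) × (Fin n → Fin N))))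

instance nonemptyHB (m n B s N : ℕ) [NeZero m] [NeZero N] : ∀ r, Nonempty (HB m n B s N r)
  | 0 => inferInstanceAs (Nonempty Unit)
  | r + 1 =>
    haveI := nonemptyHB m n B s N r
    inferInstanceAs (Nonempty (HB m n B s N r ×
      (Fin s → ((Fin n → Fin m) × (Fin B → HB m n B s N r)) × (Fin n → Fin N))))

/-- A world of level `r`: the digits and the hidden randomness of the blocks. -/
abbrev WB (m n B s N r : ℕ) : Type := (Fin n → Fin m) × (Fin B → HB m n B s N r)

/-- A sample: a world of level `r` with a noise vector. -/
abbrev SmpB (m n B s N r : ℕ) : Type := WB m n B s N r × (Fin n → Fin N)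

variable {m n B s N : ℕ}

/-- The world of the level below. -/
def low {r : ℕ} (w : WB m n B s N (r + 1)) : WB m n B s N r := (w.1, fun j => (w.2 j).1)

/-- The samples of the block `j`. -/
def smp {r : ℕ} (w : WB m n B s N (r + 1)) (j : Fin B) : Fin s → SmpB m n B s N r := (w.2 j).2

/-- The noise of a sample. -/
def nz {r : ℕ} (b : SmpB m n B s N r) : Fin n → ℤ := fun x => (((b.2 x : ℕ) : ℤ))

section mix

variable [NeZero m] {H : Type}

/-- The world `w` before the block `j`, continued by `w'`, whose digits in the block `j` are shifted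
by `k`; the hidden randomness of the block `j` itself is that of `w`. -/
def mix (β : Fin n → Fin B) (j : Fin B) (k : Fin m) (w w' : (Fin n → Fin m) × (Fin B → H)) :
    (Fin n → Fin m) × (Fin B → H) :=
  (fun x => if β x < j then w.1 x else if β x = j then w'.1 x + k else w'.1 x,
    fun i => if i ≤ j then w.2 i else w'.2 i)

/-- The world `w` up to the vertex `v`, continued by `w'`: its digit at `v` is that of `w`. -/
def mixv (β : Fin n → Fin B) (v : Fin n) (w w' : (Fin n → Fin m) × (Fin B → H)) :
    (Fin n → Fin m) × (Fin B → H) :=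
  mix β (β v) (w.1 v - w'.1 v) w w'

end mix

/-- The function depends on the digits of the blocks before that of `v`, the hidden randomness of the
blocks up to that of `v`, and the digit of `v` only. -/
def PreB {H : Type} (β : Fin n → Fin B) (v : Fin n) {α : Sort*}
    (f : (Fin n → Fin m) × (Fin B → H) → α) : Prop :=
  ∀ a b : (Fin n → Fin m) × (Fin B → H), (∀ x, β x < β v → a.1 x = b.1 x) → a.1 v = b.1 v →
    (∀ i ≤ β v, a.2 i = b.2 i) → f a = f b

/-- The same for functions of the digits. -/
def PreD (β : Fin n → Fin B) (v : Fin n) {α : Sort*} (f : (Fin n → Fin m) → α) : Prop :=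
  ∀ a b : Fin n → Fin m, (∀ x, β x < β v → a x = b x) → a v = b v → f a = f b

section state

variable [NeZero m]

/-- The sample gradient at `v`: base world `a`, sample `b`, state function `f` of level `r`. -/
def sg {r : ℕ} (β : Fin n → Fin B) (g : Fin n → Fin m → (Fin n → ℤ) → ℤ)
    (f : WB m n B s N r → (Fin n → ℤ) × (Fin n → ℤ))
    (v : Fin n) (a : WB m n B s N r) (b : SmpB m n B s N r) : ℤ :=
  g v (a.1 v) fun x => qy r (f (mixv β v a b.1)) x + nz b x

/-- The state `(z, S)` of the accelerated method. -/
def St (β : Fin n → Fin B) (M : ℤ) (g : Fin n → Fin m → (Fin n → ℤ) → ℤ) :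
    ∀ r, WB m n B s N r → (Fin n → ℤ) × (Fin n → ℤ)
  | 0, _ => (0, 0)
  | r + 1, w =>
    (fun v => clip M ((St β M g r (low w)).1 v +
        (r + 1 : ℕ) * ∑ i : Fin s, sg β g (St β M g r) v (low w) (smp w (β v) i)),
      fun v => (St β M g r (low w)).2 v +
        (r + 1 : ℕ) * clip M ((St β M g r (low w)).1 v +
          (r + 1 : ℕ) * ∑ i : Fin s, sg β g (St β M g r) v (low w) (smp w (β v) i)))

/-- The averaged point after `r` steps. -/
def xo (β : Fin n → Fin B) (M : ℤ) (g : Fin n → Fin m → (Fin n → ℤ) → ℤ) (r : ℕ)
    (w : WB m n B s N r) : Fin n → ℤ := fun v => (St β M g r w).2 v / (wt r : ℤ)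

end state

end Pool.Agent.Lib.SubBisB
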