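import Pool.Agent.Lib.SubBisB.BChain
import Pool.Agent.Lib.SubBis.Ent

/-!
The entropy of one digit with a refined threshold.
-/

open scoped BigOperators

namespace Pool.Agent.Lib.SubBisB

open Finset SubBis

theorem hb_zero : hb 0 = 0 := by
  unfold hb
  simp

theorem hb_one : hb 1 = 0 := by
  unfold hb
  simp

theorem hb_symm (x : ℝ) : hb (1 - x) = hb x := by
  unfold hb
  rw [sub_sub_cancel]
  ring

/-- concavity, one point being zero -/
theorem hb_scale {t x : ℝ} (ht : 0 ≤ t) (ht1 : t ≤ 1) (hx : 0 ≤ x) (hx1 : x ≤ 1) :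
    t * hb x ≤ hb (t * x) := by
  have h0 : 0 ≤ t * x := mul_nonneg ht hx
  have h1 : t * x ≤ 1 := by nlinarith
  rcases h0.eq_or_lt with h | h
  · rcases mul_eq_zero.1 h.symm with h2 | h2
    · rw [h2, zero_mul, zero_mul, hb_zero]
    · rw [h2, mul_zero, hb_zero, mul_zero]
  rcases h1.eq_or_lt with h3 | h3
  · have h4 : t = 1 := by nlinarith
    rw [h4, one_mul, one_mul]
  have h5 := hb_le_ce hx hx1 h h3
  have h6 := hb_le_ce le_rfl zero_le_one h h3
  rw [hb_zero] at h6
  have h7 : t * ce x (t * x) + (1 - t) * ce 0 (t * x) = hb (t * x) := by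
    unfold ce hb
    ring
  rw [← h7]
  have h8 := mul_le_mul_of_nonneg_left h5 ht
  have h9 := mul_nonneg (sub_nonneg.2 ht1) h6
  linarith

theorem hb_add_le {a b : ℝ} (ha : 0 ≤ a) (hb0 : 0 ≤ b) (hab : a + b ≤ 1) :
    hb (a + b) ≤ hb a + hb b := by
  rcases (add_nonneg ha hb0).eq_or_lt with h | h
  · have h1 : a = 0 := by linarith
    have h2 : b = 0 := by linarith
    rw [h1, h2, add_zero, hb_zero, add_zero]
  · have h1 := hb_scale (t := a / (a + b)) (x := a + b) (by positivity)
      ((div_le_one h).2 (by linarith)) h.le hab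
    have h2 := hb_scale (t := b / (a + b)) (x := a + b) (by positivity)
      ((div_le_one h).2 (by linarith)) h.le hab
    rw [div_mul_cancel₀ _ h.ne'] at h1 h2
    have h3 : a / (a + b) * hb (a + b) + b / (a + b) * hb (a + b) = hb (a + b) := by
      field_simp
    linarith

/-- The entropy of a small probability. -/
theorem hb_small {m : ℕ} (hm : 2 ≤ m) {t : ℝ} (ht : 0 ≤ t) (ht1 : t ≤ 1) :
    hb (t / m) ≤ (Real.logb 2 m + 3) / m := by
  have hm0 : (2 : ℝ) ≤ m := by exact_mod_cast hm
  have hmp : (0 : ℝ) < m := by linarith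
  have h1 : t / m ≤ 1 := by
    rw [div_le_one hmp]
    linarith
  have hy : 0 < 1 / (m : ℝ) := by positivity
  have hy1 : 1 / (m : ℝ) < 1 := by
    rw [div_lt_one hmp]
    linarith
  have h2 := hb_le_ce (x := t / m) (y := 1 / (m : ℝ)) (by positivity) h1 hy hy1
  refine h2.trans ?_
  have h3 : Real.logb 2 (1 / (m : ℝ)) = -Real.logb 2 m := by
    rw [one_div, Real.logb_inv]
  have h4 : -Real.logb 2 (1 - 1 / (m : ℝ)) ≤ 3 / m := by
    have h5 : 0 < 1 - 1 / (m : ℝ) := by linarith
    have h6 : -Real.log (1 - 1 / (m : ℝ)) ≤ 2 / m := by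
      have h7 := Real.one_sub_inv_le_log_of_pos h5
      have h8 : 1 - (1 - 1 / (m : ℝ))⁻¹ = -(1 / (m - 1)) := by
        have : (m : ℝ) - 1 ≠ 0 := by linarith
        field_simp
        ring
      rw [h8] at h7
      have h9 : 1 / ((m : ℝ) - 1) ≤ 2 / m := by
        rw [div_le_div_iff₀ (by linarith) hmp]
        linarith
      linarith
    have h10 : 2 / 3 ≤ Real.log 2 := by
      have := Real.log_two_gt_d9
      linarith
    unfold Real.logb
    rw [← neg_div, div_le_iff₀ (by linarith)]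
    have h11 : (2 : ℝ) / m ≤ 3 / m * Real.log 2 := by
      rw [div_mul_eq_mul_div]
      refine div_le_div_of_nonneg_right ?_ hmp.le
      linarith
    linarith
  have h5 : 0 ≤ -Real.logb 2 (1 - 1 / (m : ℝ)) := by
    have : Real.logb 2 (1 - 1 / (m : ℝ)) ≤ 0 :=
      Real.logb_nonpos (by norm_num) (by linarith) (by linarith)
    linarith
  have h6 : 0 ≤ Real.logb 2 (m : ℝ) := Real.logb_nonneg (by norm_num) (by linarith)
  unfold ce
  rw [h3]
  have h7 : t / m * Real.logb 2 m ≤ Real.logb 2 m / m := by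
    rw [div_mul_eq_mul_div]
    refine div_le_div_of_nonneg_right ?_ hmp.le
    nlinarith
  have h8 : (1 - t / m) * (-Real.logb 2 (1 - 1 / (m : ℝ))) ≤ 3 / m := by
    have h9 : 0 ≤ t / m := by positivity
    have h10 : (1 - t / m) * (-Real.logb 2 (1 - 1 / (m : ℝ))) ≤
        1 * (-Real.logb 2 (1 - 1 / (m : ℝ))) :=
      mul_le_mul_of_nonneg_right (by linarith) h5
    linarith
  rw [add_div]
  linarith

/-! ### Binomial coefficients -/

/-- The largest term of the binomial expansion of `(k + (m - k)) ^ m`. -/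
theorem term_le {m k : ℕ} (hk : k ≤ m) (j : ℕ) (hjm0 : j ≤ m) :
    m.choose j * k ^ j * (m - k) ^ (m - j) ≤ m.choose k * k ^ k * (m - k) ^ (m - k) := by
  have key : ∀ j, j < m → (m.choose (j + 1) * k ^ (j + 1) * (m - k) ^ (m - (j + 1))) * (j + 1) =
      (m.choose j * k ^ j * (m - k) ^ (m - (j + 1))) * ((m - j) * k) := by
    intro j hj
    have h1 := Nat.choose_succ_right_eq m j
    calc (m.choose (j + 1) * k ^ (j + 1) * (m - k) ^ (m - (j + 1))) * (j + 1)
        = (m.choose (j + 1) * (j + 1)) * (k ^ (j + 1) * (m - k) ^ (m - (j + 1))) := by ring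
      _ = (m.choose j * (m - j)) * (k ^ (j + 1) * (m - k) ^ (m - (j + 1))) := by rw [h1]
      _ = _ := by ring
  have key2 : ∀ j, j < m → (m.choose j * k ^ j * (m - k) ^ (m - j)) * (j + 1) =
      (m.choose j * k ^ j * (m - k) ^ (m - (j + 1))) * ((j + 1) * (m - k)) := by
    intro j hj
    have h1 : m - j = (m - (j + 1)) + 1 := by omega
    rw [h1, pow_succ]
    ring
  have up : ∀ j, j < k → m.choose j * k ^ j * (m - k) ^ (m - j) ≤
      m.choose (j + 1) * k ^ (j + 1) * (m - k) ^ (m - (j + 1)) := by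
    intro i hi
    have him : i < m := by omega
    refine Nat.le_of_mul_le_mul_right ?_ (Nat.succ_pos i)
    show (m.choose i * k ^ i * (m - k) ^ (m - i)) * (i + 1) ≤
      (m.choose (i + 1) * k ^ (i + 1) * (m - k) ^ (m - (i + 1))) * (i + 1)
    rw [key i him, key2 i him]
    refine Nat.mul_le_mul_left _ ?_
    clear key key2
    obtain ⟨a, ha⟩ := Nat.exists_eq_add_of_le hk
    obtain ⟨b, hb⟩ := Nat.exists_eq_add_of_lt hi
    have h1 : m - k = a := by omega
    have h2 : m - i = b + 1 + a := by omega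
    rw [h1, h2, hb]
    nlinarith
  have down : ∀ j, k ≤ j → j < m → m.choose (j + 1) * k ^ (j + 1) * (m - k) ^ (m - (j + 1)) ≤
      m.choose j * k ^ j * (m - k) ^ (m - j) := by
    intro i hi him
    refine Nat.le_of_mul_le_mul_right ?_ (Nat.succ_pos i)
    show (m.choose (i + 1) * k ^ (i + 1) * (m - k) ^ (m - (i + 1))) * (i + 1) ≤
      (m.choose i * k ^ i * (m - k) ^ (m - i)) * (i + 1)
    rw [key i him, key2 i him]
    refine Nat.mul_le_mul_left _ ?_
    clear key key2 up
    obtain ⟨b, hb⟩ := Nat.exists_eq_add_of_le hi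
    obtain ⟨a, ha⟩ := Nat.exists_eq_add_of_lt him
    have h1 : m - k = b + a + 1 := by omega
    have h2 : m - i = a + 1 := by omega
    rw [h1, h2, hb]
    nlinarith
  rcases le_total j k with h | h
  · induction h' : k - j generalizing j with
    | zero =>
      have : j = k := by omega
      rw [this]
    | succ d ih =>
      exact (up j (by omega)).trans (ih (j + 1) (by omega) (by omega) (by omega))
  · induction h' : j - k generalizing j with
    | zero =>
      have : j = k := by omega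
      rw [this]
    | succ d ih =>
      obtain ⟨i, rfl⟩ : ∃ i, j = i + 1 := ⟨j - 1, by omega⟩
      exact (down i (by omega) (by omega)).trans (ih i (by omega) (by omega) (by omega))

theorem pow_le_choose {m k : ℕ} (hk : k ≤ m) :
    m ^ m ≤ (m + 1) * (m.choose k * k ^ k * (m - k) ^ (m - k)) := by
  have h1 : m ^ m = ∑ j ∈ range (m + 1), k ^ j * (m - k) ^ (m - j) * m.choose j := by
    have h2 := add_pow k (m - k) m
    rw [Nat.add_sub_cancel' hk] at h2
    exact h2
  rw [h1]
  refine (Finset.sum_le_card_nsmul _ _ (m.choose k * k ^ k * (m - k) ^ (m - k))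
    fun j hj => ?_).trans (le_of_eq ?_)
  · have hj' : j ≤ m := by
      rw [mem_range] at hj
      omega
    refine le_trans (le_of_eq ?_) (term_le hk j hj')
    ring
  · rw [card_range, smul_eq_mul]

theorem mul_logb_div {m k : ℕ} (hm : 0 < m) :
    (k : ℝ) * Real.logb 2 ((k : ℝ) / m) = k * Real.logb 2 k - k * Real.logb 2 m := by
  rcases Nat.eq_zero_or_pos k with rfl | hk
  · simp
  · rw [Real.logb_div (by positivity) (by positivity)]
    ring

/-- The entropy bound for binomial coefficients. -/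
theorem hb_le_choose {m k : ℕ} (hm : 0 < m) (hk : k ≤ m) :
    m * hb ((k : ℝ) / m) ≤ Real.logb 2 (m.choose k : ℝ) + Real.logb 2 ((m : ℝ) + 1) := by
  have hm' : (m : ℝ) ≠ 0 := by positivity
  have h1 : (1 : ℝ) - k / m = ((m - k : ℕ) : ℝ) / m := by
    rw [Nat.cast_sub hk]
    field_simp
  have h2 : m * hb ((k : ℝ) / m) = m * Real.logb 2 m - k * Real.logb 2 k -
      (m - k : ℕ) * Real.logb 2 ((m - k : ℕ) : ℝ) := by
    have h3 : m * hb ((k : ℝ) / m) = -(k * Real.logb 2 ((k : ℝ) / m) +
        ((m - k : ℕ) : ℝ) * Real.logb 2 (((m - k : ℕ) : ℝ) / m)) := by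
      unfold hb
      rw [h1]
      field_simp
    rw [h3, mul_logb_div hm, mul_logb_div hm]
    have h4 : ((m - k : ℕ) : ℝ) = m - k := Nat.cast_sub hk
    have h5 : ((m - k : ℕ) : ℝ) * Real.logb 2 m = m * Real.logb 2 m - k * Real.logb 2 m := by
      rw [h4]
      ring
    linarith
  rw [h2]
  have h6 : ((m : ℝ)) ^ m ≤ ((m : ℝ) + 1) *
      ((m.choose k : ℝ) * (k : ℝ) ^ k * ((m - k : ℕ) : ℝ) ^ (m - k)) := by
    exact_mod_cast pow_le_choose hk
  have h7 : 0 < m.choose k := Nat.choose_pos hk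
  have hpos : ∀ j : ℕ, (0 : ℝ) < (j : ℝ) ^ j := by
    intro j
    rcases Nat.eq_zero_or_pos j with rfl | hj
    · simp
    · positivity
  have h8 := Real.logb_le_logb_of_le (b := 2) (by norm_num) (hpos m) h6
  have h9 : (0 : ℝ) < m.choose k := by exact_mod_cast h7
  rw [Real.logb_mul (by positivity) (mul_pos (mul_pos h9 (hpos k)) (hpos (m - k))).ne',
    Real.logb_mul (mul_pos h9 (hpos k)).ne' (hpos (m - k)).ne',
    Real.logb_mul h9.ne' (hpos k).ne', Real.logb_pow, Real.logb_pow, Real.logb_pow] at h8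
  linarith

/-! ### Refined thresholds -/

theorem sum_ee_ge {m c k : ℕ} (hm : 0 < m) (hk : k ≤ m) :
    c * (m * hb ((k : ℝ) / m) - Real.logb 2 ((m : ℝ) + 1)) - k ≤
      ∑ j ∈ range k, (ee m c j : ℝ) := by
  have h1 : ∑ j ∈ range k, (c * dd m j - 1) ≤ ∑ j ∈ range k, (ee m c j : ℝ) := by
    refine sum_le_sum fun j hj => le_ee ?_
    rw [mem_range] at hj
    omega
  rw [sum_sub_distrib, ← mul_sum, sum_dd hk] at h1
  simp only [sum_const, card_range, nsmul_eq_mul, mul_one] at h1
  have h2 := hb_le_choose hm hk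
  have h3 : (c : ℝ) * (m * hb ((k : ℝ) / m) - Real.logb 2 ((m : ℝ) + 1)) ≤
      c * Real.logb 2 (m.choose k : ℝ) :=
    mul_le_mul_of_nonneg_left (by linarith) (Nat.cast_nonneg c)
  linarith

theorem sum_div_full (f : ℕ → ℝ) {L : ℕ} (hL : 0 < L) (k : ℕ) :
    ∑ x ∈ range (L * k), f (x / L) = L * ∑ j ∈ range k, f j := by
  induction k with
  | zero => simp
  | succ k ih =>
    rw [Nat.mul_succ, sum_range_add, ih, sum_range_succ, mul_add]
    congr 1
    have h : ∀ x ∈ range L, f ((L * k + x) / L) = f k := by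
      intro x hx
      rw [mem_range] at hx
      rw [Nat.mul_add_div hL, Nat.div_eq_of_lt hx, add_zero]
    rw [sum_congr rfl h]
    simp

theorem sum_rng_div (f : ℕ → ℝ) {L : ℕ} (hL : 0 < L) (k : ℕ) {r : ℕ} (hr : r ≤ L) :
    ∑ x ∈ range (L * k + r), f (x / L) = L * ∑ j ∈ range k, f j + r * f k := by
  rw [sum_range_add, sum_div_full f hL]
  congr 1
  have h : ∀ x ∈ range r, f ((L * k + x) / L) = f k := by
    intro x hx
    rw [mem_range] at hx
    rw [Nat.mul_add_div hL, Nat.div_eq_of_lt (by omega), add_zero]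
  rw [sum_congr rfl h]
  simp

/-- the error of one digit -/
noncomputable def dlt (m : ℕ) : ℝ :=
  (Real.logb 2 ((m : ℝ) + 1) + Real.logb 2 m + 3) / m

/-- The entropy of a digit with a refined threshold. -/
theorem digit {m c L t : ℕ} (hm : 2 ≤ m) (hL : 0 < L) (ht : t ≤ m * L) :
    c * hb ((t : ℝ) / (m * L : ℕ)) - c * dlt m - 1 ≤
      (∑ x ∈ range t, (ee m c (x / L) : ℝ)) / (m * L : ℕ) := by
  have hmp : (0 : ℝ) < m := by
    have : 0 < m := by omega
    positivity
  have hLp : (0 : ℝ) < L := by positivity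
  have hm0 : 0 < m := by omega
  -- quotient and remainder
  obtain ⟨k, r, hr, htk⟩ : ∃ k r, r < L ∧ t = L * k + r :=
    ⟨t / L, t % L, Nat.mod_lt _ hL, (Nat.div_add_mod t L).symm⟩
  have hkm : k ≤ m := by
    by_contra h
    push Not at h
    have h1 : L * (m + 1) ≤ L * k := Nat.mul_le_mul_left L h
    rw [Nat.mul_succ, Nat.mul_comm L m] at h1
    omega
  rw [htk, sum_rng_div (fun j => (ee m c j : ℝ)) hL k hr.le]
  rcases hkm.eq_or_lt with hk | hk
  · -- the full range
    have hr0 : r = 0 := by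
      rw [hk, Nat.mul_comm L m] at htk
      omega
    rw [hk, hr0]
    have h1 := sum_ee_ge (c := c) hm0 (le_refl m)
    rw [div_self hmp.ne', hb_one, mul_zero, zero_sub] at h1
    have h2 : ((L * m + 0 : ℕ) : ℝ) / (m * L : ℕ) = 1 := by
      rw [add_zero, Nat.mul_comm L m]
      exact div_self (by positivity)
    rw [h2, hb_one, mul_zero, zero_sub, Nat.cast_zero, zero_mul, add_zero]
    push_cast
    rw [mul_comm (m : ℝ) L, mul_div_mul_left _ _ hLp.ne', le_div_iff₀ hmp]
    have h3 : dlt m * m = Real.logb 2 ((m : ℝ) + 1) + Real.logb 2 m + 3 := by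
      unfold dlt
      rw [div_mul_cancel₀ _ hmp.ne']
    have h4 : (-(c * dlt m) - 1) * m = -(c * (dlt m * m)) - m := by ring
    rw [h4, h3]
    have h5 : 0 ≤ Real.logb 2 (m : ℝ) :=
      Real.logb_nonneg (by norm_num) (by exact_mod_cast hm0)
    have h6 : 0 ≤ (c : ℝ) * (Real.logb 2 (m : ℝ) + 3) := by positivity
    linarith
  · -- an intermediate threshold
    set θ : ℝ := (r : ℝ) / L with hθ
    have hθ0 : 0 ≤ θ := by positivity
    have hθ1 : θ ≤ 1 := by
      rw [hθ, div_le_one hLp]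
      exact_mod_cast hr.le
    have h1 := sum_ee_ge (c := c) hm0 hk.le
    have h2 := sum_ee_ge (c := c) hm0 (Nat.succ_le_of_lt hk)
    rw [Nat.succ_eq_add_one, sum_range_succ] at h2
    push_cast at h2
    set S := ∑ j ∈ range k, (ee m c j : ℝ) with hS
    set e : ℝ := (ee m c k : ℝ) with he
    have h3 : (L * S + r * e) / (m * L : ℕ) = ((1 - θ) * S + θ * (S + e)) / m := by
      rw [hθ]
      push_cast
      field_simp
      ring
    have h4 : ((L * k + r : ℕ) : ℝ) / (m * L : ℕ) = ((k : ℝ) + θ) / m := by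
      rw [hθ]
      push_cast
      field_simp
    rw [h3, h4]
    have hk1 : (k : ℝ) + 1 ≤ m := by exact_mod_cast hk
    have hk0 : (0 : ℝ) ≤ k := Nat.cast_nonneg k
    -- subadditivity
    have h5 : hb (((k : ℝ) + θ) / m) ≤ hb ((k : ℝ) / m) + (Real.logb 2 m + 3) / m := by
      have h6 := hb_add_le (a := (k : ℝ) / m) (b := θ / m) (by positivity) (by positivity)
        (by rw [← add_div, div_le_one hmp]; linarith)
      rw [← add_div] at h6
      have h7 := hb_small hm hθ0 hθ1
      linarith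
    have h8 : hb (((k : ℝ) + θ) / m) ≤ hb (((k : ℝ) + 1) / m) + (Real.logb 2 m + 3) / m := by
      have h6 := hb_add_le (a := 1 - ((k : ℝ) + 1) / m) (b := (1 - θ) / m)
        (by rw [sub_nonneg, div_le_one hmp]; exact hk1) (div_nonneg (by linarith) hmp.le)
        (by
          have : 1 - ((k : ℝ) + 1) / m + (1 - θ) / m = 1 - ((k : ℝ) + θ) / m := by
            field_simp
            ring
          rw [this]
          have : 0 ≤ ((k : ℝ) + θ) / m := by positivity
          linarith)
      have h7 := hb_small hm (t := 1 - θ) (by linarith) (by linarith)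
      have h9 : 1 - ((k : ℝ) + 1) / m + (1 - θ) / m = 1 - ((k : ℝ) + θ) / m := by
        field_simp
        ring
      rw [h9, hb_symm, hb_symm] at h6
      linarith
    have h10 : hb (((k : ℝ) + θ) / m) ≤ (1 - θ) * hb ((k : ℝ) / m) +
        θ * hb (((k : ℝ) + 1) / m) + (Real.logb 2 m + 3) / m := by
      have h11 := mul_le_mul_of_nonneg_left h5 (sub_nonneg.2 hθ1)
      have h12 := mul_le_mul_of_nonneg_left h8 hθ0
      linarith
    rw [le_div_iff₀ hmp]
    have h13 : dlt m * m = Real.logb 2 ((m : ℝ) + 1) + Real.logb 2 m + 3 := by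
      unfold dlt
      rw [div_mul_cancel₀ _ hmp.ne']
    have h14 : (Real.logb 2 (m : ℝ) + 3) / m * m = Real.logb 2 m + 3 :=
      div_mul_cancel₀ _ hmp.ne'
    have h15 : hb (((k : ℝ) + θ) / m) * m ≤ ((1 - θ) * hb ((k : ℝ) / m) +
        θ * hb (((k : ℝ) + 1) / m)) * m + (Real.logb 2 m + 3) := by
      have h16 := mul_le_mul_of_nonneg_right h10 hmp.le
      rw [add_mul _ ((Real.logb 2 (m : ℝ) + 3) / m), h14] at h16
      exact h16
    have h17 := mul_le_mul_of_nonneg_left h15 (Nat.cast_nonneg (α := ℝ) c)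
    have h18 := mul_le_mul_of_nonneg_left h1 (sub_nonneg.2 hθ1)
    have h19 := mul_le_mul_of_nonneg_left h2 hθ0
    have h20 : (c * hb (((k : ℝ) + θ) / m) - c * dlt m - 1) * m =
        c * (hb (((k : ℝ) + θ) / m) * m) - c * (dlt m * m) - m := by ring
    rw [h20, h13]
    nlinarith [h17, h18, h19]

end Pool.Agent.Lib.SubBisB
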