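import Pool.Agent.Lib.SubBisB.BTabDefs
import Pool.Agent.Lib.SubBisX.AccTabBridge

/-!
The tables of `BTabDefs` contain the states `St`, and `posB - negB` is the objective.

`C = B * s * m + 1`, `E = B * s + 1`. The world of a node: `nw r oH oD sh`. The node `X` of level `r` is
`nw r (trH (T - r) X) (trD (T - r) X) (trK (T - r) X)`.
-/

namespace Pool.Agent.Lib.SubBisB.BTab

open Finset Pool.Agent.Lib.SubBisX.Reg Pool.Agent.Lib.SubBisX.Core Pool.Agent.Lib.SubBisX.Acc
open Pool.Agent.Lib.SubBisX.Tab Pool.Agent.Lib.SubBisX.Seed Pool.Agent.Lib.SubBisX.AccTab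

variable {m n B s N : ℕ}

namespace BridgeAuxB

/-! ### The trace of a child -/

theorem kid_mod {P κ : ℕ} (hκ : κ < B * s * m + 1) :
    (P * (B * s * m + 1) + κ) % (B * s * m + 1) = κ := by
  rw [mul_comm, Nat.mul_add_mod, Nat.mod_eq_of_lt hκ]

theorem kid_div {P κ : ℕ} (hκ : κ < B * s * m + 1) :
    (P * (B * s * m + 1) + κ) / (B * s * m + 1) = P := by
  rw [mul_comm, Nat.mul_add_div (by omega), Nat.div_eq_of_lt hκ, add_zero]

theorem low_H (T d X l : ℕ) :
    trH m B s T (d + 1) (X * (B * s * m + 1)) l = trH m B s T d X l := by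
  have h1 := kid_mod (B := B) (s := s) (m := m) (P := X) (κ := 0) (Nat.succ_pos _)
  have h2 := kid_div (B := B) (s := s) (m := m) (P := X) (κ := 0) (Nat.succ_pos _)
  rw [Nat.add_zero] at h1 h2
  rw [trH, h1, h2, if_pos (Or.inl rfl)]

theorem low_D (T d X l : ℕ) :
    trD m B s T (d + 1) (X * (B * s * m + 1)) l = trD m B s T d X l := by
  have h1 := kid_mod (B := B) (s := s) (m := m) (P := X) (κ := 0) (Nat.succ_pos _)
  have h2 := kid_div (B := B) (s := s) (m := m) (P := X) (κ := 0) (Nat.succ_pos _)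
  rw [Nat.add_zero] at h1 h2
  rw [trD, h1, h2, if_pos (Or.inl rfl)]

theorem low_K (d X l : ℕ) :
    trK m B s (d + 1) (X * (B * s * m + 1)) l = trK m B s d X l := by
  have h1 := kid_mod (B := B) (s := s) (m := m) (P := X) (κ := 0) (Nat.succ_pos _)
  have h2 := kid_div (B := B) (s := s) (m := m) (P := X) (κ := 0) (Nat.succ_pos _)
  rw [Nat.add_zero] at h1 h2
  rw [trK, h1, h2, if_pos (Or.inl rfl)]

theorem code_lt {j i k : ℕ} (hj : j < B) (hi : i < s) (hk : k < m) :
    1 + (j * s + i) * m + k < B * s * m + 1 := by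
  have h : (j + 1) * s ≤ B * s := Nat.mul_le_mul_right _ hj
  have h1 : (j + 1) * s = j * s + s := by ring
  have h0 : j * s + i + 1 ≤ B * s := by omega
  have h3 : (j * s + i + 1) * m ≤ B * s * m := Nat.mul_le_mul_right _ h0
  have h2 : (j * s + i + 1) * m = (j * s + i) * m + m := by ring
  omega

theorem code_div {j i k : ℕ} (hk : k < m) : (1 + (j * s + i) * m + k - 1) / m = j * s + i := by
  have h : 1 + (j * s + i) * m + k - 1 = m * (j * s + i) + k := by
    rw [mul_comm m]
    omega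
  rw [h, Nat.mul_add_div (by omega), Nat.div_eq_of_lt hk, add_zero]

theorem code_mod {j i k : ℕ} (hk : k < m) : (1 + (j * s + i) * m + k - 1) % m = k := by
  have h : 1 + (j * s + i) * m + k - 1 = m * (j * s + i) + k := by
    rw [mul_comm m]
    omega
  rw [h, Nat.mul_add_mod, Nat.mod_eq_of_lt hk]

theorem blk_div {j i : ℕ} (hi : i < s) : (j * s + i) / s = j := by
  rw [mul_comm, Nat.mul_add_div (by omega), Nat.div_eq_of_lt hi, add_zero]

section kid

variable {j i k : ℕ} (hj : j < B) (hi : i < s) (hk : k < m)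

include hj hi hk

theorem kid_H (T d X l : ℕ) :
    trH m B s T (d + 1) (X * (B * s * m + 1) + (1 + (j * s + i) * m + k)) l =
      if l ≤ j then trH m B s T d X l
      else trH m B s T d X j + (1 + j * s + i) * (B * s + 1) ^ (T - (d + 1)) := by
  have hc := code_lt hj hi hk
  rw [trH, kid_mod hc, kid_div hc, code_div hk, blk_div hi, ← add_assoc 1 (j * s) i]
  by_cases h : l ≤ j
  · rw [if_pos (Or.inr h), if_pos h]
  · rw [if_neg (by omega), if_neg h]

theorem kid_D (T d X l : ℕ) :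
    trD m B s T (d + 1) (X * (B * s * m + 1) + (1 + (j * s + i) * m + k)) l =
      if l < j then trD m B s T d X l
      else trH m B s T d X j + (1 + j * s + i) * (B * s + 1) ^ (T - (d + 1)) := by
  have hc := code_lt hj hi hk
  rw [trD, kid_mod hc, kid_div hc, code_div hk, blk_div hi, ← add_assoc 1 (j * s) i]
  by_cases h : l < j
  · rw [if_pos (Or.inr h), if_pos h]
  · rw [if_neg (by omega), if_neg h]

theorem kid_K (d X l : ℕ) :
    trK m B s (d + 1) (X * (B * s * m + 1) + (1 + (j * s + i) * m + k)) l =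
      if l < j then trK m B s d X l else if l = j then k else 0 := by
  have hc := code_lt hj hi hk
  rw [trK, kid_mod hc, kid_div hc, code_div hk, blk_div hi, code_mod hk]
  by_cases h : l < j
  · rw [if_pos (Or.inr h), if_pos h]
  · rw [if_neg (by omega), if_neg h]

end kid

/-! ### The world of a node -/

variable [NeZero m]

/-- A number as a digit. -/
def toD (m : ℕ) [NeZero m] (a : ℕ) : Fin m := ⟨a % m, Nat.mod_lt _ (NeZero.pos m)⟩

/-- The world with the hidden randomness of `l` at the cell `oH l`, the digits of the block `l` at the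
cell `oD l`, shifted by `sh l`. -/
def nw (β : Fin n → Fin B) (d : ℕ → Fin m × Fin N) (r : ℕ) (oH oD sh : ℕ → ℕ) :
    WB m n B s N r :=
  (fun x => toD m ((d (oD (β x) * n + x)).1 + sh (β x)), fun l => decH m n B s N d r l (oH l))

variable (β : Fin n → Fin B) (d : ℕ → Fin m × Fin N)

theorem low_nw (r : ℕ) (oH oD sh : ℕ → ℕ) :
    SubBisB.low (nw (s := s) β d (r + 1) oH oD sh) = nw β d r oH oD sh := rfl

theorem nw_congr (r : ℕ) {oH oD sh oH' oD' sh' : ℕ → ℕ} (h1 : ∀ l < B, oH l = oH' l)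
    (h2 : ∀ l < B, oD l = oD' l) (h3 : ∀ l < B, sh l = sh' l) :
    nw (s := s) β d r oH oD sh = nw β d r oH' oD' sh' := by
  unfold nw
  refine Prod.ext (funext fun x => ?_) (funext fun l => ?_)
  · show toD m ((d (oD (β x) * n + x)).1 + sh (β x)) =
      toD m ((d (oD' (β x) * n + x)).1 + sh' (β x))
    rw [h2 _ (β x).isLt, h3 _ (β x).isLt]
  · show decH m n B s N d r l (oH l) = decH m n B s N d r l (oH' l)
    rw [h1 _ l.isLt]

theorem toD_coe (a : Fin m) : toD m (a : ℕ) = a := Fin.ext (Nat.mod_eq_of_lt a.isLt)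

theorem mix_nw (r : ℕ) (oH oD sh : ℕ → ℕ) (v : Fin n) (i : Fin s) :
    SubBisB.mixv β v (SubBisB.low (nw (s := s) β d (r + 1) oH oD sh))
      (SubBisB.smp (nw (s := s) β d (r + 1) oH oD sh) (β v) i).1 =
    nw β d r (fun l => if l ≤ (β v : ℕ) then oH l
        else oH (β v) + (1 + (β v : ℕ) * s + i) * (B * s + 1) ^ r)
      (fun l => if l < (β v : ℕ) then oD l
        else oH (β v) + (1 + (β v : ℕ) * s + i) * (B * s + 1) ^ r)
      (fun l => if l < (β v : ℕ) then sh l else if l = (β v : ℕ) then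
        (toD m ((d (oD (β v) * n + v)).1 + sh (β v)) -
          (d ((oH (β v) + (1 + (β v : ℕ) * s + i) * (B * s + 1) ^ r) * n + v)).1 : Fin m)
        else 0) := by
  refine Prod.ext (funext fun x => ?_) (funext fun l => ?_)
  · show (if β x < β v then toD m ((d (oD (β x) * n + x)).1 + sh (β x)) else
      if β x = β v then (d ((oH (β v) + (1 + (β v : ℕ) * s + i) * (B * s + 1) ^ r) * n + x)).1 +
        (toD m ((d (oD (β v) * n + v)).1 + sh (β v)) -
          (d ((oH (β v) + (1 + (β v : ℕ) * s + i) * (B * s + 1) ^ r) * n + v)).1)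
      else (d ((oH (β v) + (1 + (β v : ℕ) * s + i) * (B * s + 1) ^ r) * n + x)).1) =
      toD m ((d ((if ((β x : ℕ)) < (β v : ℕ) then oD (β x)
        else oH (β v) + (1 + (β v : ℕ) * s + i) * (B * s + 1) ^ r) * n + x)).1 +
        (if (β x : ℕ) < (β v : ℕ) then sh (β x) else if (β x : ℕ) = (β v : ℕ) then
          ((toD m ((d (oD (β v) * n + v)).1 + sh (β v)) -
            (d ((oH (β v) + (1 + (β v : ℕ) * s + i) * (B * s + 1) ^ r) * n + v)).1 : Fin m) : ℕ)
          else 0))
    by_cases h1 : β x < β v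
    · have h1' : (β x : ℕ) < (β v : ℕ) := h1
      rw [if_pos h1, if_pos h1', if_pos h1']
    · have h1' : ¬ (β x : ℕ) < (β v : ℕ) := h1
      rw [if_neg h1, if_neg h1', if_neg h1']
      by_cases h2 : β x = β v
      · have h2' : (β x : ℕ) = (β v : ℕ) := congrArg Fin.val h2
        rw [if_pos h2, if_pos h2']
        apply Fin.ext
        rw [Fin.val_add]
        rfl
      · have h2' : ¬ (β x : ℕ) = (β v : ℕ) := fun h => h2 (Fin.ext h)
        rw [if_neg h2, if_neg h2', add_zero, toD_coe]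
  · show (if l ≤ β v then decH m n B s N d r l (oH l)
      else decH m n B s N d r l (oH (β v) + (1 + (β v : ℕ) * s + i) * (B * s + 1) ^ r)) =
      decH m n B s N d r l (if (l : ℕ) ≤ (β v : ℕ) then oH l
        else oH (β v) + (1 + (β v : ℕ) * s + i) * (B * s + 1) ^ r)
    by_cases h : l ≤ β v
    · have h' : (l : ℕ) ≤ (β v : ℕ) := h
      rw [if_pos h, if_pos h']
    · have h' : ¬ (l : ℕ) ≤ (β v : ℕ) := h
      rw [if_neg h, if_neg h']

theorem nz_nw (r : ℕ) (oH oD sh : ℕ → ℕ) (j : Fin B) (i : Fin s) (x : Fin n) :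
    SubBisB.nz (SubBisB.smp (nw (s := s) β d (r + 1) oH oD sh) j i) x =
      (((d ((oH j + (1 + (j : ℕ) * s + i) * (B * s + 1) ^ r) * n + x)).2 : ℕ) : ℤ) := rfl

/-- The world of the node `X` of level `r`. -/
def nd (β : Fin n → Fin B) (d : ℕ → Fin m × Fin N) (s T r X : ℕ) : WB m n B s N r :=
  nw β d r (trH m B s T (T - r) X) (trD m B s T (T - r) X) (trK m B s (T - r) X)

theorem low_nd {T r : ℕ} (h : r < T) (X : ℕ) :
    SubBisB.low (nd β d s T (r + 1) X) = nd β d s T r (X * (B * s * m + 1)) := by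
  have e : T - r = (T - (r + 1)) + 1 := by omega
  unfold nd
  rw [low_nw, e]
  exact nw_congr β d r (fun l _ => (low_H _ _ _ _).symm) (fun l _ => (low_D _ _ _ _).symm)
    (fun l _ => (low_K _ _ _).symm)

theorem dg_nd (T r X : ℕ) (βN : ℕ → ℕ) (hβ : ∀ x : Fin n, βN x = β x) (x : Fin n) :
    ((nd β d s T r X).1 x : ℕ) =
      dgB n m B s T βN (fun j => (d j).1) r X x := by
  unfold dgB
  rw [hβ x]
  rfl

theorem mix_nd {T r : ℕ} (h : r < T) (X : ℕ) (βN : ℕ → ℕ) (hβ : ∀ x : Fin n, βN x = β x)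
    (v : Fin n) (i : Fin s) :
    SubBisB.mixv β v (SubBisB.low (nd β d s T (r + 1) X))
      (SubBisB.smp (nd β d s T (r + 1) X) (β v) i).1 =
    nd β d s T r (X * (B * s * m + 1) +
      chB n m B s T βN (fun j => (d j).1) r X v i) := by
  have e : T - r = (T - (r + 1)) + 1 := by omega
  have e2 : T - (T - (r + 1) + 1) = r := by omega
  have hm : 0 < m := NeZero.pos m
  set k : Fin m := (nd β d s T (r + 1) X).1 v -
    (d ((trH m B s T (T - (r + 1)) X (β v) +
      (1 + (β v : ℕ) * s + i) * (B * s + 1) ^ r) * n + v)).1 with hk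
  have hch : chB n m B s T βN (fun j => (d j).1) r X v i =
      1 + ((β v : ℕ) * s + i) * m + (k : ℕ) := by
    unfold chB foB
    rw [hβ v, ← dg_nd β d T (r + 1) X βN hβ v]
    congr 1
    rw [hk, Fin.sub_def]
    show _ = (m - _ + _) % m
    rw [Nat.add_comm]
  rw [hch]
  unfold nd
  rw [mix_nw, e]
  refine nw_congr β d r (fun l _ => ?_) (fun l _ => ?_) (fun l _ => ?_)
  · rw [kid_H (β v).isLt i.isLt k.isLt, e2]
  · rw [kid_D (β v).isLt i.isLt k.isLt, e2]
  · rw [kid_K (β v).isLt i.isLt k.isLt]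
    rfl

theorem St_fstB (M : ℤ) (g : Fin n → Fin m → (Fin n → ℤ) → ℤ) (r : ℕ)
    (w : WB m n B s N (r + 1)) (v : Fin n) :
    (SubBisB.St β M g (r + 1) w).1 v = clip M ((SubBisB.St β M g r (SubBisB.low w)).1 v +
      (r + 1 : ℕ) * ∑ i : Fin s, SubBisB.sg β g (SubBisB.St β M g r) v (SubBisB.low w)
        (SubBisB.smp w (β v) i)) := rfl

theorem St_sndB (M : ℤ) (g : Fin n → Fin m → (Fin n → ℤ) → ℤ) (r : ℕ)
    (w : WB m n B s N (r + 1)) (v : Fin n) :
    (SubBisB.St β M g (r + 1) w).2 v = (SubBisB.St β M g r (SubBisB.low w)).2 v +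
      (r + 1 : ℕ) * (SubBisB.St β M g (r + 1) w).1 v := rfl

theorem stB_nd (c M T : ℕ) (G : Finset ℕ → ℕ) (βN : ℕ → ℕ) (hβ : ∀ x : Fin n, βN x = β x)
    (r X : ℕ) (h : r ≤ T) (v : Fin n) :
    ((stB n m B s c M T G βN (fun j => (d j).1) (fun j => (d j).2) r X v).1 : ℤ) =
        (SubBisB.St β (M : ℤ) (gr c (GF G)) r (nd β d s T r X)).1 v ∧
      ((stB n m B s c M T G βN (fun j => (d j).1) (fun j => (d j).2) r X v).2 : ℤ) =
        (SubBisB.St β (M : ℤ) (gr c (GF G)) r (nd β d s T r X)).2 v := by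
  induction r generalizing X v with
  | zero => exact ⟨rfl, rfl⟩
  | succ r ih =>
    obtain ⟨h1, h2⟩ := ih (X * (B * s * m + 1)) (by omega) v
    rw [← low_nd β d (by omega) X] at h1 h2
    have hsum : ∑ i : Fin s, SubBisB.sg β (gr c (GF G)) (SubBisB.St β (M : ℤ) (gr c (GF G)) r) v
          (SubBisB.low (nd β d s T (r + 1) X)) (SubBisB.smp (nd β d s T (r + 1) X) (β v) i) =
        ∑ i : Fin s, gr c (GF G) v ((nd β d s T (r + 1) X).1 v)
          (fun x : Fin n => ((((stB n m B s c M T G βN (fun j => (d j).1) (fun j => (d j).2) r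
              (X * (B * s * m + 1) + chB n m B s T βN (fun j => (d j).1) r X v i) x).2 +
            (r + 1) * (stB n m B s c M T G βN (fun j => (d j).1) (fun j => (d j).2) r
              (X * (B * s * m + 1) + chB n m B s T βN (fun j => (d j).1) r X v i) x).1) /
                wt (r + 1) +
            ((d (foB m B s T βN r X v i * n + x)).2 : ℕ) : ℕ) : ℤ)) := by
      refine Finset.sum_congr rfl fun i _ => ?_
      unfold SubBisB.sg
      show gr c (GF G) v ((nd β d s T (r + 1) X).1 v) _ = _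
      rw [mix_nd β d (by omega) X βN hβ v i]
      congr 1
      funext x
      have e4 : SubBisB.nz (SubBisB.smp (nd β d s T (r + 1) X) (β v) i) x =
          (((d (foB m B s T βN r X v i * n + x)).2 : ℕ) : ℤ) := by
        unfold foB
        rw [hβ v]
        rfl
      rw [e4]
      obtain ⟨h3, h4⟩ := ih (X * (B * s * m + 1) +
        chB n m B s T βN (fun j => (d j).1) r X v i) (by omega) x
      show ((SubBisB.St β (M : ℤ) (gr c (GF G)) r _).2 x + (r + 1 : ℕ) *
        (SubBisB.St β (M : ℤ) (gr c (GF G)) r _).1 x) / (wt (r + 1) : ℤ) + _ = _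
      rw [← h3, ← h4]
      push_cast
      rfl
    have hz : ((stB n m B s c M T G βN (fun j => (d j).1) (fun j => (d j).2) (r + 1) X v).1 : ℤ) =
        (SubBisB.St β (M : ℤ) (gr c (GF G)) (r + 1) (nd β d s T (r + 1) X)).1 v := by
      rw [St_fstB, hsum, ← h1]
      rw [← Pool.Agent.Lib.SubBisX.AccTab.BridgeAux.newZ_eq c M (r + 1) G _ ((nd β d s T (r + 1) X).1 v)
        (yN := fun i x => ((stB n m B s c M T G βN (fun j => (d j).1) (fun j => (d j).2) r
              (X * (B * s * m + 1) + chB n m B s T βN (fun j => (d j).1) r X v i) x).2 +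
            (r + 1) * (stB n m B s c M T G βN (fun j => (d j).1) (fun j => (d j).2) r
              (X * (B * s * m + 1) + chB n m B s T βN (fun j => (d j).1) r X v i) x).1) /
                wt (r + 1) + ((d (foB m B s T βN r X v i * n + x)).2 : ℕ))
        (fun _ _ => rfl) v]
      rw [stB, dg_nd β d T (r + 1) X βN hβ v]
    refine ⟨hz, ?_⟩
    rw [St_sndB, ← hz, ← h2]
    have h5 : (stB n m B s c M T G βN (fun j => (d j).1) (fun j => (d j).2) (r + 1) X v).2 =
      (stB n m B s c M T G βN (fun j => (d j).1) (fun j => (d j).2) r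
        (X * (B * s * m + 1)) v).2 +
      (r + 1) * (stB n m B s c M T G βN (fun j => (d j).1) (fun j => (d j).2)
        (r + 1) X v).1 := rfl
    rw [h5]
    push_cast
    rfl

theorem nd_top (T : ℕ) : nd β d s T T 0 = (decWB m n B s N T d 0).1 := by
  unfold nd
  rw [Nat.sub_self]
  refine Prod.ext (funext fun x => ?_) rfl
  show toD m ((d (0 * n + x)).1 + 0) = (d (0 * n + x)).1
  rw [add_zero, toD_coe]

end BridgeAuxB

open BridgeAuxB

variable [NeZero m]

theorem stB_eq (c M T : ℕ) (G : Finset ℕ → ℕ) (d : ℕ → Fin m × Fin N) (β : Fin n → Fin B)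
    (βN : ℕ → ℕ) (hβ : ∀ x : Fin n, βN x = β x) (v : Fin n) :
    ((stB n m B s c M T G βN (fun j => (d j).1) (fun j => (d j).2) T 0 v).1 : ℤ) =
        (SubBisB.St β (M : ℤ) (gr c (GF G)) T (decWB m n B s N T d 0).1).1 v ∧
      ((stB n m B s c M T G βN (fun j => (d j).1) (fun j => (d j).2) T 0 v).2 : ℤ) =
        (SubBisB.St β (M : ℤ) (gr c (GF G)) T (decWB m n B s N T d 0).1).2 v := by
  have h := stB_nd (s := s) β d c M T G βN hβ T 0 le_rfl v
  rw [nd_top] at h
  exact h

theorem valB_eq (c M T : ℕ) (G : Finset ℕ → ℕ) (d : ℕ → Fin m × Fin N) (β : Fin n → Fin B)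
    (βN : ℕ → ℕ) (hβ : ∀ x : Fin n, βN x = β x) :
    (posB n m B s c M T G βN (fun j => (d j).1) (fun j => (d j).2) : ℤ) -
        negB n m B s c M T G βN (fun j => (d j).1) (fun j => (d j).2) =
      Phi c M (GF G) (decWB m n B s N T d 0).1.1
        (SubBisB.xo β (M : ℤ) (gr c (GF G)) T (decWB m n B s N T d 0).1) := by
  set w := (decWB m n B s N T d 0).1 with hw
  have hy : ∀ v : Fin n, SubBisB.xo β (M : ℤ) (gr c (GF G)) T w v =
      xoB n m B s c M T G βN (fun j => (d j).1) (fun j => (d j).2) v := by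
    intro v
    obtain ⟨-, h2⟩ := stB_eq (s := s) c M T G d β βN hβ v
    show (SubBisB.St β (M : ℤ) (gr c (GF G)) T w).2 v / (wt T : ℤ) = _
    rw [← h2]
    unfold xoB
    push_cast
    rfl
  have hd : ∀ v : Fin n, (w.1 v : ℕ) = ((d (v : ℕ)).1 : ℕ) := by
    intro v
    show ((d (0 * n + (v : ℕ))).1 : ℕ) = _
    rw [Nat.zero_mul, Nat.zero_add]
  unfold Phi posB negB
  have e1 : ∑ v : Fin n, SubBis.ee m c (w.1 v) * SubBisB.xo β (M : ℤ) (gr c (GF G)) T w v =
      ∑ v ∈ range n, ((Nat.log 2 ((m - ((d v).1 : ℕ)) ^ c) : ℤ) *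
          xoB n m B s c M T G βN (fun j => (d j).1) (fun j => (d j).2) v -
        (Nat.log 2 ((((d v).1 : ℕ) + 1) ^ c) : ℤ) *
          xoB n m B s c M T G βN (fun j => (d j).1) (fun j => (d j).2) v) := by
    rw [Finset.sum_range]
    refine Finset.sum_congr rfl fun v _ => ?_
    rw [hy v]
    unfold SubBis.ee
    rw [hd v]
    ring
  have e2 : ∑ i ∈ Icc 1 M, GF G (univ.filter fun x : Fin n => (i : ℤ) ≤
      SubBisB.xo β (M : ℤ) (gr c (GF G)) T w x) =
      ∑ i ∈ range M, (G ((range n).filter fun x =>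
        i < xoB n m B s c M T G βN (fun j => (d j).1) (fun j => (d j).2) x) : ℤ) := by
    refine Finset.sum_bij' (fun i _ => i - 1) (fun i _ => i + 1) ?_ ?_ ?_ ?_ ?_
    · intro i hi; simp at hi ⊢; omega
    · intro i hi; simp at hi ⊢; omega
    · intro i hi; simp at hi; omega
    · intro i hi; simp
    · intro i hi
      have hi' : 1 ≤ i ∧ i ≤ M := by simpa using hi
      show ((G ((univ.filter fun x : Fin n => (i : ℤ) ≤
        SubBisB.xo β (M : ℤ) (gr c (GF G)) T w x).map Fin.valEmbedding) : ℕ) : ℤ) = _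
      congr 2
      ext x
      simp only [mem_map, mem_filter, mem_univ, true_and, Fin.valEmbedding_apply, mem_range]
      constructor
      · rintro ⟨x, hx, rfl⟩
        refine ⟨x.isLt, ?_⟩
        rw [hy x] at hx
        have : i ≤ xoB n m B s c M T G βN (fun j => (d j).1) (fun j => (d j).2) x := by
          exact_mod_cast hx
        omega
      · rintro ⟨hx', hx⟩
        refine ⟨⟨x, hx'⟩, ?_, rfl⟩
        rw [hy ⟨x, hx'⟩]
        have : i ≤ xoB n m B s c M T G βN (fun j => (d j).1) (fun j => (d j).2) x := by omega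
        exact_mod_cast this
  rw [e1, e2, Finset.sum_sub_distrib]
  push_cast
  ring

end Pool.Agent.Lib.SubBisB.BTab
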