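import Pool.Agent.Lib.SubBisB.BDefs
import Pool.Agent.Lib.SubBisX.AccTabDefs

/-!
# The accelerated method with random blocks as a computation with tables of natural numbers

LAYOUT. `E = B * s + 1`. A world of level `r` with noise is coded by `E ^ r` cells, a cell consists of
`n` entries `(digit, noise)`; the entries of the cell `o` are `o * n + x`, `x < n`. The first cell
gives the digits and the own noise; the cells `(1 + j * s + i) * E ^ (r - 1) + …` code the sample `i` of
the block `j`.

NODES. `C = B * s * m + 1`. The worlds of level `r` below the world of level `T` are numbered by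
`X < C ^ (T - r)`, the children of the world `X` are `X * C + κ`, `κ < C`: the child `0` is the world
`low`, the child `1 + (j * s + i) * m + k` is `mix β j k` of `low` and the sample `i` of the block `j`.

TRACE. The world of a node is given for every block `l` by three numbers: the hidden randomness of `l`
is read at the cell `trH l`, the digits of the vertices of the block `l` are read in the cell `trD l`
and shifted by `trK l`.
-/

namespace Pool.Agent.Lib.SubBisB.BTab

open Finset Pool.Agent.Lib.SubBisX.Reg Pool.Agent.Lib.SubBisX.Core Pool.Agent.Lib.SubBisX.Acc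
open Pool.Agent.Lib.SubBisX.Tab Pool.Agent.Lib.SubBisX.Seed Pool.Agent.Lib.SubBisX.AccTab

/-! ## The decoder -/

/-- the hidden randomness of the block `j` read at the cell `o` -/
def decH (m n B s N : ℕ) (d : ℕ → Fin m × Fin N) : ∀ r, ℕ → ℕ → HB m n B s N r
  | 0, _, _ => ()
  | r + 1, j, o => (decH m n B s N d r j o, fun i : Fin s =>
      (((fun x : Fin n => (d ((o + (1 + j * s + i) * (B * s + 1) ^ r) * n + x)).1),
        (fun l : Fin B => decH m n B s N d r l (o + (1 + j * s + i) * (B * s + 1) ^ r))),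
        fun x : Fin n => (d ((o + (1 + j * s + i) * (B * s + 1) ^ r) * n + x)).2))

/-- a world with noise read at the cell `o` -/
def decWB (m n B s N r : ℕ) (d : ℕ → Fin m × Fin N) (o : ℕ) : SmpB m n B s N r :=
  (((fun x => (d (o * n + x)).1), fun l => decH m n B s N d r l o), fun x => (d (o * n + x)).2)

/-- the labels read off `n * lam` bits -/
def decL (lam n : ℕ) (b : ℕ → Bool) : Fin n → Fin (2 ^ lam) := fun v => rd lam fun i => b (v * lam + i)

/-- the number of random bits of a copy -/
def cbits (μ ν lam n s r : ℕ) : ℕ := n * lam + (2 ^ lam * s + 1) ^ r * n * (μ + ν)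

/-- a copy: labels and a world with noise -/
def decCB (μ ν lam n s r : ℕ) (b : ℕ → Bool) :
    (Fin n → Fin (2 ^ lam)) × SmpB (2 ^ μ) n (2 ^ lam) s (2 ^ ν) r :=
  (decL lam n b, decWB (2 ^ μ) n (2 ^ lam) s (2 ^ ν) r (fun j =>
    rdp μ ν fun i => b (n * lam + (j * (μ + ν) + i))) 0)

/-- `K` copies read off a bit stream -/
def decSB (μ ν lam n s r K : ℕ) (b : ℕ → Bool) :
    Fin K → (Fin n → Fin (2 ^ lam)) × SmpB (2 ^ μ) n (2 ^ lam) s (2 ^ ν) r :=
  fun k => decCB μ ν lam n s r fun i => b (k * cbits μ ν lam n s r + i)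

/-- the number of random bits used -/
def nbitsB (μ ν lam n s r K : ℕ) : ℕ := K * cbits μ ν lam n s r

/-- the labels of the `k`-th copy -/
def LkB (μ ν lam n s T k : ℕ) (b : ℕ → Bool) (v : ℕ) : ℕ :=
  bv lam fun i => b (k * cbits μ ν lam n s T + (v * lam + i))

/-- the digits of the `k`-th copy -/
def DkB (μ ν lam n s T k : ℕ) (b : ℕ → Bool) (j : ℕ) : ℕ :=
  bv μ fun i => b (k * cbits μ ν lam n s T + (n * lam + (j * (μ + ν) + i)))

/-- the noise of the `k`-th copy -/
def ZkB (μ ν lam n s T k : ℕ) (b : ℕ → Bool) (j : ℕ) : ℕ :=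
  bv ν fun i => b (k * cbits μ ν lam n s T + (n * lam + (j * (μ + ν) + (μ + i))))

/-! ## The trace -/

/-- The cell of the hidden randomness of the block `l` of the node `X` at depth `d`. -/
def trH (m B s T : ℕ) : ℕ → ℕ → ℕ → ℕ
  | 0, _, _ => 0
  | d + 1, X, l =>
    if X % (B * s * m + 1) = 0 ∨ l ≤ (X % (B * s * m + 1) - 1) / m / s then
      trH m B s T d (X / (B * s * m + 1)) l
    else trH m B s T d (X / (B * s * m + 1)) ((X % (B * s * m + 1) - 1) / m / s) +
      (1 + (X % (B * s * m + 1) - 1) / m) * (B * s + 1) ^ (T - (d + 1))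

/-- The cell of the digits of the block `l` of the node `X` at depth `d`. -/
def trD (m B s T : ℕ) : ℕ → ℕ → ℕ → ℕ
  | 0, _, _ => 0
  | d + 1, X, l =>
    if X % (B * s * m + 1) = 0 ∨ l < (X % (B * s * m + 1) - 1) / m / s then
      trD m B s T d (X / (B * s * m + 1)) l
    else trH m B s T d (X / (B * s * m + 1)) ((X % (B * s * m + 1) - 1) / m / s) +
      (1 + (X % (B * s * m + 1) - 1) / m) * (B * s + 1) ^ (T - (d + 1))

/-- The shift of the digits of the block `l` of the node `X` at depth `d`. -/
def trK (m B s : ℕ) : ℕ → ℕ → ℕ → ℕ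
  | 0, _, _ => 0
  | d + 1, X, l =>
    if X % (B * s * m + 1) = 0 ∨ l < (X % (B * s * m + 1) - 1) / m / s then
      trK m B s d (X / (B * s * m + 1)) l
    else if l = (X % (B * s * m + 1) - 1) / m / s then (X % (B * s * m + 1) - 1) % m else 0

/-- The digit of `x` in the node `X` of level `r`. -/
def dgB (n m B s T : ℕ) (β D : ℕ → ℕ) (r X x : ℕ) : ℕ :=
  (D (trD m B s T (T - r) X (β x) * n + x) + trK m B s (T - r) X (β x)) % m

/-- The cell of the sample `i` of the block of `v` in the node `X` of level `r + 1`. -/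
def foB (m B s T : ℕ) (β : ℕ → ℕ) (r X v i : ℕ) : ℕ :=
  trH m B s T (T - (r + 1)) X (β v) + (1 + β v * s + i) * (B * s + 1) ^ r

/-- The code of the child of the node `X` of level `r + 1` used by `v` and the sample `i`. -/
def chB (n m B s T : ℕ) (β D : ℕ → ℕ) (r X v i : ℕ) : ℕ :=
  1 + (β v * s + i) * m +
    (dgB n m B s T β D (r + 1) X v + (m - D (foB m B s T β r X v i * n + v))) % m

/-! ## The tables -/

/-- The state `(z, S)` at `v` of the node `X` of level `r`. -/
def stB (n m B s c M T : ℕ) (G : Finset ℕ → ℕ) (β D Z : ℕ → ℕ) : ℕ → ℕ → ℕ → ℕ × ℕ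
  | 0, _, _ => (0, 0)
  | r + 1, X, v =>
    let p := stB n m B s c M T G β D Z r (X * (B * s * m + 1)) v
    let z := newZ n m s c M (r + 1) G p.1 (dgB n m B s T β D (r + 1) X v) (fun i x =>
      ((stB n m B s c M T G β D Z r (X * (B * s * m + 1) + chB n m B s T β D r X v i) x).2 +
        (r + 1) * (stB n m B s c M T G β D Z r
          (X * (B * s * m + 1) + chB n m B s T β D r X v i) x).1) / wt (r + 1) +
          Z (foB m B s T β r X v i * n + x)) v
    (z, p.2 + (r + 1) * z)

/-- The state as a table of `2 * n` numbers: first `z`, then `S`. -/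
def stBT (n m B s c M T : ℕ) (G : Finset ℕ → ℕ) (β D Z : ℕ → ℕ) (r X i : ℕ) : ℕ :=
  if r ≤ T then
    (if i < n then (stB n m B s c M T G β D Z r X i).1 else (stB n m B s c M T G β D Z r X (i - n)).2)
  else 0

/-- The averaged point at `v`. -/
def xoB (n m B s c M T : ℕ) (G : Finset ℕ → ℕ) (β D Z : ℕ → ℕ) (v : ℕ) : ℕ :=
  (stB n m B s c M T G β D Z T 0 v).2 / wt T

/-- The positive part of the objective. -/
def posB (n m B s c M T : ℕ) (G : Finset ℕ → ℕ) (β D Z : ℕ → ℕ) : ℕ :=
  ∑ v ∈ range n, Nat.log 2 ((m - D v) ^ c) * xoB n m B s c M T G β D Z v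

/-- The negative part of the objective. -/
def negB (n m B s c M T : ℕ) (G : Finset ℕ → ℕ) (β D Z : ℕ → ℕ) : ℕ :=
  ∑ v ∈ range n, Nat.log 2 ((D v + 1) ^ c) * xoB n m B s c M T G β D Z v +
    c * ∑ i ∈ range M, G ((range n).filter fun w => i < xoB n m B s c M T G β D Z w)

end Pool.Agent.Lib.SubBisB.BTab
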