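import Pool.Agent.Lib.SubBisB.BTabVal
import Pool.Agent.Lib.SubBisB.BTabBridge
import Pool.Agent.Lib.SubBisX.AccTabSeed

/-!
The estimator of the accelerated method with random blocks computed from random bits in polynomial
time.
-/

namespace Pool.Agent.Lib.SubBisB.BTab

open Finset Pool.Agent.Lib.PolyTime Pool.Agent.Lib.Pa7c826 Pool.Agent.Lib.Pa7c826t
open Pool.Agent.Lib.SubBisX.Tab Pool.Agent.Lib.SubBisX.Reg Pool.Agent.Lib.SubBisX.Core
open Pool.Agent.Lib.SubBisX.Seed Pool.Agent.Lib.SubBisX.Node Pool.Agent.Lib.SubBisX.AccTab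

universe u

variable {α : Type u} {Dm : α → Prop} {ctx : List (α → List Bool)}

/-- The value of a copy. -/
noncomputable def VB {m n B s N : ℕ} [NeZero m] (c M : ℕ) (F : Finset (Fin n) → ℤ) (T : ℕ)
    (b : (Fin n → Fin B) × SmpB m n B s N T) : ℤ :=
  Phi c M F b.2.1.1 (SubBisB.xo b.1 (M : ℤ) (gr c F) T b.2.1)

theorem VB_dec {μ ν lam n s T K : ℕ} (c M : ℕ) (G : Finset ℕ → ℕ) (b : ℕ → Bool) (k : Fin K) :
    (posB n (2 ^ μ) (2 ^ lam) s c M T G (LkB μ ν lam n s T k b) (DkB μ ν lam n s T k b)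
        (ZkB μ ν lam n s T k b) : ℤ) -
      negB n (2 ^ μ) (2 ^ lam) s c M T G (LkB μ ν lam n s T k b) (DkB μ ν lam n s T k b)
        (ZkB μ ν lam n s T k b) =
      VB c M (GF G) T (decSB μ ν lam n s T K b k) :=
  valB_eq c M T G (fun j => rdp μ ν fun i =>
    b (k * cbits μ ν lam n s T + (n * lam + (j * (μ + ν) + i))))
    (decL lam n fun i => b (k * cbits μ ν lam n s T + i)) (LkB μ ν lam n s T k b) fun _ => rfl

namespace SeedAuxB

open Pool.Agent.Lib.SubBisX.Tab.TabAux Pool.Agent.Lib.SubBisX.Tab.TabSeedAux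
open Pool.Agent.Lib.P8e91ed.PT

/-- Numbers read off a bit string in polynomial time. -/
theorem poly_rdG {μ p q o L : α → ℕ} {r : α → List Bool} (hr : PolyC Dm ctx r)
    (hL : PolyN Dm ctx L) (hμ : PolyN Dm ctx μ) (hm : PolyN Dm ctx (fun a => 2 ^ μ a))
    (hp : PolyN Dm ctx p) (hq : PolyN Dm ctx q) (ho : PolyN Dm ctx o) :
    PolyArr Dm ctx (fun a => 2 ^ μ a) L
      (fun a j => bv (μ a) fun i => (r a).getD (p a + (j * q a + (o a + i))) false) := by
  refine PolyArr.mk hm hL ?_ (fun a _ i _ => (bv_lt _ _).le)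
  have r1 := up (n := L) hr
  have μ1 := upN (n := L) hμ
  have p1 := upN (n := L) hp
  have q1 := upN (n := L) hq
  have o1 := upN (n := L) ho
  have m1 := upN (n := L) hm
  have j1 := last (D := Dm) (ctx := ctx) (n := L)
  have key : PolyN (fun p : α × ℕ => Dm p.1 ∧ p.2 < L p.1) (PolyTime.lift ctx ++ [fun p => un p.2])
      (fun x => ∑ i ∈ range (μ x.1), if (r x.1).getD
        (p x.1 + (x.2 * q x.1 + (o x.1 + i))) false then 2 ^ i else 0) := by
    refine nSum (f := fun (x : α × ℕ) i => if (r x.1).getD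
      (p x.1 + (x.2 * q x.1 + (o x.1 + i))) false then 2 ^ i else 0) μ1 ?_
    have r2 := up (n := fun p : α × ℕ => μ p.1) r1
    have p2 := upN (n := fun p : α × ℕ => μ p.1) p1
    have q2 := upN (n := fun p : α × ℕ => μ p.1) q1
    have o2 := upN (n := fun p : α × ℕ => μ p.1) o1
    have m2 := upN (n := fun p : α × ℕ => μ p.1) m1
    have j2 := upN (n := fun p : α × ℕ => μ p.1) j1
    have i2 := last (D := fun p : α × ℕ => Dm p.1 ∧ p.2 < L p.1)
      (ctx := PolyTime.lift ctx ++ [fun p => un p.2]) (n := fun p : α × ℕ => μ p.1)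
    have hb := PolyB.getD r2 (p2.add ((j2.mul q2).add (o2.add i2)))
    have hp := powz (N := fun q : (α × ℕ) × ℕ => 2 ^ μ q.1.1) (PolyN.const 2) i2 m2
      (fun q hq => Nat.pow_le_pow_right (by omega) hq.2.le)
    exact itez hb (PolyC.mono hp fun _ h => h.1) (PolyN.const 0)
  exact key

section general

variable {n : α → ℕ} {G : α → Finset ℕ → ℕ} {μ ν lam s c M T K k : α → ℕ} {r : α → List Bool}

/-- The hypotheses of the estimator, for `n` sites and the set function `G`. -/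
structure HEG (Dm : α → Prop) (ctx : List (α → List Bool)) (n : α → ℕ)
    (G : α → Finset ℕ → ℕ) (μ ν lam s c M T : α → ℕ) (r : α → List Bool) : Prop where
  hn : PolyN Dm ctx n
  hG : PG Dm ctx n G
  hμ : PolyN Dm ctx μ
  hm : PolyN Dm ctx (fun a => 2 ^ μ a)
  hν : PolyN Dm ctx ν
  hN : PolyN Dm ctx (fun a => 2 ^ ν a)
  hlam : PolyN Dm ctx lam
  hB : PolyN Dm ctx (fun a => 2 ^ lam a)
  hs : PolyN Dm ctx s
  hc : PolyN Dm ctx c
  hM : PolyN Dm ctx M
  hT : PolyN Dm ctx T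
  hC : PolyN Dm ctx (fun x => (2 ^ lam x * s x * 2 ^ μ x + 1) ^ T x)
  hr : PolyC Dm ctx r

theorem HEG.up (h : HEG Dm ctx n G μ ν lam s c M T r) (k : α → ℕ) :
    HEG (fun p : α × ℕ => Dm p.1 ∧ p.2 < k p.1) (PolyTime.lift ctx ++ [fun p => un p.2])
      (fun b => n b.1) (fun b => G b.1) (fun b => μ b.1) (fun b => ν b.1) (fun b => lam b.1)
      (fun b => s b.1) (fun b => c b.1) (fun b => M b.1) (fun b => T b.1) (fun b => r b.1) :=
  ⟨nU h.hn, PG.lft h.hG Prod.fst (fun _ hb => hb.1)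
      (fun _ ht => Pool.Agent.Lib.Pa7c826.up (n := k) ht),
    nU h.hμ, nU h.hm, nU h.hν, nU h.hN, nU h.hlam, nU h.hB, nU h.hs,
    nU h.hc, nU h.hM, nU h.hT, nU h.hC, cU h.hr⟩

theorem HEG.E (h : HEG Dm ctx n G μ ν lam s c M T r) :
    PolyN Dm ctx (fun x => (2 ^ lam x * s x + 1) ^ T x) :=
  powz (N := fun x => (2 ^ lam x * s x * 2 ^ μ x + 1) ^ T x) (h.hB.mul h.hs).succ h.hT h.hC
    (fun a _ => Nat.pow_le_pow_left (Nat.succ_le_succ
      (Nat.le_mul_of_pos_right _ (Nat.two_pow_pos _))) _)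

theorem HEG.copy (h : HEG Dm ctx n G μ ν lam s c M T r) (hk : PolyN Dm ctx k) :
    HG Dm ctx n G (fun a => 2 ^ μ a) (fun a => 2 ^ lam a) s c M T (fun a => 2 ^ ν a)
      (fun a => LkB (μ a) (ν a) (lam a) (n a) (s a) (T a) (k a) fun i => (r a).getD i false)
      (fun a => DkB (μ a) (ν a) (lam a) (n a) (s a) (T a) (k a) fun i => (r a).getD i false)
      (fun a => ZkB (μ a) (ν a) (lam a) (n a) (s a) (T a) (k a)
        fun i => (r a).getD i false) := by
  have hn := h.hn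
  have hE := h.E
  have hl := hE.mul hn
  have hcb : PolyN Dm ctx (fun a => cbits (μ a) (ν a) (lam a) (n a) (s a) (T a)) :=
    (hn.mul h.hlam).add (hl.mul (h.hμ.add h.hν))
  have hp := hk.mul hcb
  refine ⟨h.hn, h.hG, h.hm, h.hB, h.hs, h.hN, h.hc, h.hM, h.hT, h.hC, hE, ?_, ?_, ?_,
    fun a _ => Nat.two_pow_pos _, fun a _ v _ => bv_lt _ _⟩
  · refine (poly_rdG (o := fun _ => 0) h.hr hn h.hlam h.hB hp h.hlam (PolyN.const 0)).congr
      (fun a _ i _ => ?_)
    unfold LkB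
    simp only [Nat.zero_add]
  · refine (poly_rdG (o := fun _ => 0) h.hr hl h.hμ h.hm (hp.add (hn.mul h.hlam))
      (h.hμ.add h.hν) (PolyN.const 0)).congr (fun a _ i _ => ?_)
    unfold DkB
    simp only [Nat.zero_add, Nat.add_assoc]
  · refine (poly_rdG (o := μ) h.hr hl h.hν h.hN (hp.add (hn.mul h.hlam))
      (h.hμ.add h.hν) h.hμ).congr (fun a _ i _ => ?_)
    unfold ZkB
    simp only [Nat.add_assoc]

/-- The positive part of the sum over the copies. -/
def totP (n μ ν lam s c M T K : ℕ) (G : Finset ℕ → ℕ) (b : ℕ → Bool) : ℕ :=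
  ∑ k ∈ range K, posB n (2 ^ μ) (2 ^ lam) s c M T G
    (LkB μ ν lam n s T k b) (DkB μ ν lam n s T k b) (ZkB μ ν lam n s T k b)

/-- The negative part of the sum over the copies. -/
def totN (n μ ν lam s c M T K : ℕ) (G : Finset ℕ → ℕ) (b : ℕ → Bool) : ℕ :=
  ∑ k ∈ range K, negB n (2 ^ μ) (2 ^ lam) s c M T G
    (LkB μ ν lam n s T k b) (DkB μ ν lam n s T k b) (ZkB μ ν lam n s T k b)

/-- The sum over the copies. -/
theorem totG_eq (n μ ν lam s c M T K : ℕ) (G : Finset ℕ → ℕ) (b : ℕ → Bool) :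
    (∑ k : Fin K, VB c M (GF G) T (decSB μ ν lam n s T K b k)) =
      (totP n μ ν lam s c M T K G b : ℤ) - (totN n μ ν lam s c M T K G b : ℤ) := by
  unfold totP totN
  push_cast
  rw [← sum_sub_distrib, ← Fin.sum_univ_eq_sum_range (fun k =>
    (posB n (2 ^ μ) (2 ^ lam) s c M T G
        (LkB μ ν lam n s T k b) (DkB μ ν lam n s T k b)
        (ZkB μ ν lam n s T k b) : ℤ) -
      negB n (2 ^ μ) (2 ^ lam) s c M T G
        (LkB μ ν lam n s T k b) (DkB μ ν lam n s T k b)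
        (ZkB μ ν lam n s T k b)) K]
  exact sum_congr rfl fun k _ => (VB_dec c M G b k).symm

theorem poly_totP (h : HEG Dm ctx n G μ ν lam s c M T r) (hK : PolyN Dm ctx K) :
    PolyN Dm ctx (fun a => totP (n a) (μ a) (ν a) (lam a) (s a) (c a) (M a) (T a) (K a) (G a)
      fun i => (r a).getD i false) :=
  nSum (f := fun a k => posB (n a) (2 ^ μ a) (2 ^ lam a) (s a) (c a) (M a) (T a) (G a)
      (LkB (μ a) (ν a) (lam a) (n a) (s a) (T a) k fun i => (r a).getD i false)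
      (DkB (μ a) (ν a) (lam a) (n a) (s a) (T a) k fun i => (r a).getD i false)
      (ZkB (μ a) (ν a) (lam a) (n a) (s a) (T a) k fun i => (r a).getD i false))
    hK (poly_posG ((h.up K).copy (last (D := Dm) (ctx := ctx) (n := K))))

theorem poly_totN (h : HEG Dm ctx n G μ ν lam s c M T r) (hK : PolyN Dm ctx K) :
    PolyN Dm ctx (fun a => totN (n a) (μ a) (ν a) (lam a) (s a) (c a) (M a) (T a) (K a) (G a)
      fun i => (r a).getD i false) :=
  nSum (f := fun a k => negB (n a) (2 ^ μ a) (2 ^ lam a) (s a) (c a) (M a) (T a) (G a)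
      (LkB (μ a) (ν a) (lam a) (n a) (s a) (T a) k fun i => (r a).getD i false)
      (DkB (μ a) (ν a) (lam a) (n a) (s a) (T a) k fun i => (r a).getD i false)
      (ZkB (μ a) (ν a) (lam a) (n a) (s a) (T a) k fun i => (r a).getD i false))
    hK (poly_negG ((h.up K).copy (last (D := Dm) (ctx := ctx) (n := K))))

end general

end SeedAuxB

open SeedAuxB Pool.Agent.Lib.SubBisX.Tab.TabAux Pool.Agent.Lib.SubBisX.Tab.TabSeedAux
open Pool.Agent.Lib.P8e91ed.PT

/-- The estimate of the logarithm of the number of independent subsets of `W`, computed from the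
random bits `r` in polynomial time. -/
theorem poly_eWB {w : α → List Bool} {W : α → Finset ℕ} {μ ν lam s c M T κ K den : α → ℕ}
    {r : α → List Bool} (hw : PolyC Dm ctx w) (hW : PolyS Dm ctx (fun x => nOf (w x)) W)
    (hμ : PolyN Dm ctx μ) (hm : PolyN Dm ctx (fun a => 2 ^ μ a)) (hν : PolyN Dm ctx ν)
    (hN : PolyN Dm ctx (fun a => 2 ^ ν a)) (hlam : PolyN Dm ctx lam)
    (hB : PolyN Dm ctx (fun a => 2 ^ lam a)) (hs : PolyN Dm ctx s) (hc : PolyN Dm ctx c)
    (hM : PolyN Dm ctx M) (hT : PolyN Dm ctx T) (hκ : PolyN Dm ctx κ) (hK : PolyN Dm ctx K)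
    (hden : PolyN Dm ctx den)
    (hC : PolyN Dm ctx (fun x => (2 ^ lam x * s x * 2 ^ μ x + 1) ^ T x)) (hr : PolyC Dm ctx r) :
    PolyN Dm ctx (fun a => eW (nOf (w a)) (aOf (w a)) (W a)
      (∑ k : Fin (K a), VB (c a) (M a) (FW (nOf (w a)) (aOf (w a)) (adjOf (w a)) (κ a) (W a))
        (T a) (decSB (μ a) (ν a) (lam a) (nOf (w a)) (s a) (T a) (K a)
          (fun i => (r a).getD i false) k)) (den a)) := by
  have hn := poly_nOf hw
  have h : HEG Dm ctx (fun a => nOf (w a)) (fun a => Gn (w a) (κ a) (W a)) μ ν lam s c M T r :=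
    ⟨hn, pg_Gn hw hκ hW, hμ, hm, hν, hN, hlam, hB, hs, hc, hM, hT, hC, hr⟩
  have P := poly_totP h hK
  have N := poly_totN h hK
  have ha := poly_aOf hw
  have C := PolyS.card hn hW
  have A1 := upN (n := fun x => nOf (w x)) ha
  have L1 := last (D := Dm) (ctx := ctx) (n := fun x => nOf (w x))
  have F := PolyS.card hn (PolyS.filter (φ := fun p : α × ℕ => decide (p.2 < aOf (w p.1))) hn hW
    (PolyB.lt L1 A1))
  have B1 := PolyB.natEq F (PolyN.const 0)
  have B2 := PolyB.le N P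
  have E := PolyN.sub (C.add (divz (PolyN.sub P N) hden)) hn
  refine (itez B1 (PolyC.mono C fun _ h => h.1) (itez (PolyC.mono B2 fun _ h => h.1)
    (PolyC.mono E fun _ h => h.1.1) (PolyN.const 0))).congr (fun a haD => ?_)
  rw [← GF_Gn, totG_eq, eW_nat (hW.2 a haD)]
  simp only [decide_eq_true_eq]

end Pool.Agent.Lib.SubBisB.BTab
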