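import Pool.Agent.Lib.SubBisB.BTabTr
import Pool.Agent.Lib.SubBisX.AccTabStep

/-!
The table of the states of the accelerated method with random blocks in polynomial time.
-/

namespace Pool.Agent.Lib.SubBisB.BTab

open Finset Pool.Agent.Lib.PolyTime Pool.Agent.Lib.Pa7c826 Pool.Agent.Lib.Pa7c826t
open Pool.Agent.Lib.SubBisX.Tab Pool.Agent.Lib.SubBisX.Tree

universe u

variable {α : Type u} {Dm : α → Prop} {ctx : List (α → List Bool)}

/-- The set function is computed in polynomial time, in every context that lifts the data. -/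
def PG (Dm : α → Prop) (ctx : List (α → List Bool)) (n : α → ℕ) (G : α → Finset ℕ → ℕ) : Prop :=
  ∀ (γ : Type u) (D' : γ → Prop) (ctx' : List (γ → List Bool)) (π : γ → α) (S : γ → Finset ℕ),
    (∀ b, D' b → Dm (π b)) →
    (∀ t : α → List Bool, PolyC Dm ctx t → PolyC D' ctx' (fun b => t (π b))) →
    PolyS D' ctx' (fun b => n (π b)) S → PolyN D' ctx' (fun b => G (π b) (S b))

/-- The hypotheses on the parameters, for `n` sites and the set function `G`. -/
structure HG (Dm : α → Prop) (ctx : List (α → List Bool)) (n : α → ℕ)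
    (G : α → Finset ℕ → ℕ) (m B s c M T N : α → ℕ) (β D Z : α → ℕ → ℕ) : Prop where
  hn : PolyN Dm ctx n
  hG : PG Dm ctx n G
  hm : PolyN Dm ctx m
  hB : PolyN Dm ctx B
  hs : PolyN Dm ctx s
  hN : PolyN Dm ctx N
  hc : PolyN Dm ctx c
  hM : PolyN Dm ctx M
  hT : PolyN Dm ctx T
  hC : PolyN Dm ctx (fun x => (B x * s x * m x + 1) ^ T x)
  hE : PolyN Dm ctx (fun x => (B x * s x + 1) ^ T x)
  hβ : PolyArr Dm ctx B n β
  hD : PolyArr Dm ctx m (fun x => (B x * s x + 1) ^ T x * n x) D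
  hZ : PolyArr Dm ctx N (fun x => (B x * s x + 1) ^ T x * n x) Z
  hm1 : ∀ a, Dm a → 0 < m a
  hβB : ∀ a, Dm a → ∀ v < n a, β a v < B a

namespace StepAuxB

open Pool.Agent.Lib.SubBisX.Tab.TabAux Pool.Agent.Lib.SubBisX.AccTab.StepAux

/-! ### Bounds -/

theorem blk_lt {B s j i : ℕ} (hj : j < B) (hi : i < s) : j * s + i < B * s := by
  have h : (j + 1) * s ≤ B * s := Nat.mul_le_mul_right _ hj
  have h1 : (j + 1) * s = j * s + s := by ring
  omega

theorem kidB_lt {B s m j i k : ℕ} (hj : j < B) (hi : i < s) (hk : k < m) :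
    1 + (j * s + i) * m + k < B * s * m + 1 := by
  have h := blk_lt hj hi
  have h1 : (j * s + i + 1) * m ≤ B * s * m := Nat.mul_le_mul_right _ h
  have h2 : (j * s + i + 1) * m = (j * s + i) * m + m := by ring
  omega

theorem chB_lt {n m B s T : ℕ} {β D : ℕ → ℕ} {r X v i : ℕ} (hm : 0 < m) (hβ : β v < B)
    (hi : i < s) : chB n m B s T β D r X v i < B * s * m + 1 :=
  kidB_lt hβ hi (Nat.mod_lt _ hm)

theorem foB_lt {m B s T : ℕ} {β : ℕ → ℕ} {r X v i : ℕ} (hr : r < T)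
    (hX : X < (B * s * m + 1) ^ (T - (r + 1))) (hβ : β v < B) (hi : i < s) :
    foB m B s T β r X v i < (B * s + 1) ^ T := by
  have h1 := trH_bound (m := m) (B := B) (s := s) (T := T) (T - (r + 1)) X (β v)
    (Nat.sub_le _ _) hX hβ
  have e : T - (T - (r + 1)) = r + 1 := by omega
  rw [e] at h1
  have h2 : 1 + β v * s + i < B * s + 1 := by
    have := blk_lt hβ hi
    omega
  have h3 : (1 + β v * s + i) * (B * s + 1) ^ r < (B * s + 1) * (B * s + 1) ^ r :=
    Nat.mul_lt_mul_of_pos_right h2 (Nat.pow_pos (Nat.succ_pos _))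
  have h4 : (B * s + 1) * (B * s + 1) ^ r = (B * s + 1) ^ (r + 1) := by
    rw [pow_succ, Nat.mul_comm]
  unfold foB
  omega

theorem trD_lt {m B s T r X l : ℕ} (hX : X < (B * s * m + 1) ^ (T - r)) (hl : l < B) :
    trD m B s T (T - r) X l < (B * s + 1) ^ T := by
  have h1 := trD_bound (m := m) (B := B) (s := s) (T := T) (T - r) X l (Nat.sub_le _ _) hX hl
  have h2 : 0 < (B * s + 1) ^ (T - (T - r)) := Nat.pow_pos (Nat.succ_pos _)
  omega

theorem ent_lt {o P n x : ℕ} (ho : o < P) (hx : x < n) : o * n + x < P * n := by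
  calc o * n + x < o * n + n := by omega
    _ = (o + 1) * n := by ring
    _ ≤ P * n := Nat.mul_le_mul_right _ ho

/-! ### The recursion on tables -/

theorem stB_bd (n m B s c M T : ℕ) (G : Finset ℕ → ℕ) (β D Z : ℕ → ℕ) (r X v : ℕ) :
    (stB n m B s c M T G β D Z r X v).1 ≤ M ∧
      (stB n m B s c M T G β D Z r X v).2 ≤ SubBisX.Acc.wt r * M := by
  induction r generalizing X with
  | zero => exact ⟨Nat.zero_le _, Nat.zero_le _⟩
  | succ r ih =>
    have h1 : (stB n m B s c M T G β D Z (r + 1) X v).1 ≤ M := min_le_left _ _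
    refine ⟨h1, ?_⟩
    rw [SubBisX.Acc.wt_succ, add_mul]
    exact Nat.add_le_add (ih _).2 (Nat.mul_le_mul_left _ h1)

theorem stBT_le (n m B s c M T : ℕ) (G : Finset ℕ → ℕ) (β D Z : ℕ → ℕ) (r X i : ℕ) :
    stBT n m B s c M T G β D Z r X i ≤ (SubBisX.Acc.wt T + 1) * M := by
  unfold stBT
  split_ifs with h1 h2
  · refine (stB_bd n m B s c M T G β D Z r X i).1.trans ?_
    rw [add_mul, one_mul]
    exact Nat.le_add_left _ _
  · refine (stB_bd n m B s c M T G β D Z r X (i - n)).2.trans ?_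
    exact Nat.mul_le_mul_right _ ((wt_mono h1).trans (Nat.le_succ _))
  · exact Nat.zero_le _

theorem stBT_fst {n m B s c M T : ℕ} {G : Finset ℕ → ℕ} {β D Z : ℕ → ℕ} {r X x : ℕ}
    (h : r ≤ T) (hx : x < n) :
    stBT n m B s c M T G β D Z r X x = (stB n m B s c M T G β D Z r X x).1 := by
  unfold stBT
  rw [if_pos h, if_pos hx]

theorem stBT_snd {n m B s c M T : ℕ} {G : Finset ℕ → ℕ} {β D Z : ℕ → ℕ} {r X x : ℕ}
    (h : r ≤ T) :
    stBT n m B s c M T G β D Z r X (n + x) = (stB n m B s c M T G β D Z r X x).2 := by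
  unfold stBT
  rw [if_pos h, if_neg (by omega), Nat.add_sub_cancel_left]

/-- The query point read off a table. -/
def qB (n m B s T : ℕ) (β D Z F : ℕ → ℕ) (r X v i x : ℕ) : ℕ :=
  (F ((X * (B * s * m + 1) + chB n m B s T β D r X v i) * (2 * n) + (n + x)) +
    (r + 1) * F ((X * (B * s * m + 1) + chB n m B s T β D r X v i) * (2 * n) + x)) /
      SubBisX.Acc.wt (r + 1) + Z (foB m B s T β r X v i * n + x)

/-- The new `z` from a table of the level below. -/
def cellB (n m B s c M T : ℕ) (G : Finset ℕ → ℕ) (β D Z F : ℕ → ℕ) (r X v : ℕ) : ℕ :=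
  SubBisX.AccTab.newZ n m s c M (r + 1) G (F (X * (B * s * m + 1) * (2 * n) + v))
    (dgB n m B s T β D (r + 1) X v) (qB n m B s T β D Z F r X v) v

theorem stBT_succ {n m B s c M T : ℕ} {G : Finset ℕ → ℕ} {β D Z F : ℕ → ℕ} {r X i : ℕ}
    (hm : 0 < m) (hβ : ∀ v < n, β v < B)
    (hr : r < T) (hX : X < (B * s * m + 1) ^ (T - (r + 1))) (hi : i < 2 * n)
    (hF : ∀ Y < (B * s * m + 1) ^ (T - r), ∀ k < 2 * n,
      F (Y * (2 * n) + k) = stBT n m B s c M T G β D Z r Y k) :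
    stBT n m B s c M T G β D Z (r + 1) X i =
      if i < n then cellB n m B s c M T G β D Z F r X i
      else F (X * (B * s * m + 1) * (2 * n) + i) +
        (r + 1) * cellB n m B s c M T G β D Z F r X (i - n) := by
  have h0 : X * (B * s * m + 1) < (B * s * m + 1) ^ (T - r) := by
    have := child_node (k := 0) hr hX (Nat.succ_pos _)
    rwa [Nat.add_zero] at this
  have key : ∀ v < n, cellB n m B s c M T G β D Z F r X v =
      (stB n m B s c M T G β D Z (r + 1) X v).1 := by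
    intro v hv
    unfold cellB
    rw [hF _ h0 v (by omega), stBT_fst hr.le hv]
    refine newZ_congr hv fun i hi x hx => ?_
    have h1 := child_node hr hX (chB_lt (n := n) (T := T) (D := D) (r := r) (X := X) hm
      (hβ v hv) hi)
    unfold qB
    rw [hF _ h1 (n + x) (by omega), hF _ h1 x (by omega), stBT_fst hr.le hx, stBT_snd hr.le]
  unfold stBT
  rw [if_pos (show r + 1 ≤ T from hr)]
  split_ifs with h
  · exact (key i h).symm
  · rw [key (i - n) (by omega), hF _ h0 i hi]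
    have e : i = n + (i - n) := by omega
    conv_rhs => rw [e, stBT_snd hr.le]
    simp only [Nat.add_sub_cancel_left]
    rfl

/-! ### Polynomial time -/

variable {n : α → ℕ} {G : α → Finset ℕ → ℕ} {m B s c M T N : α → ℕ} {β D Z : α → ℕ → ℕ}

theorem _root_.Pool.Agent.Lib.SubBisB.BTab.PG.lft (h : PG Dm ctx n G)
    {γ : Type u} {D' : γ → Prop}
    {ctx' : List (γ → List Bool)} (π : γ → α) (hπ : ∀ b, D' b → Dm (π b))
    (lf : ∀ t : α → List Bool, PolyC Dm ctx t → PolyC D' ctx' (fun b => t (π b))) :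
    PG D' ctx' (fun b => n (π b)) (fun b => G (π b)) :=
  fun δ D'' ctx'' π' S h1 h2 hS => h δ D'' ctx'' (fun b => π (π' b)) S
    (fun b hb => hπ _ (h1 b hb)) (fun t ht => h2 _ (lf t ht)) hS

/-- The sum of the gradients. -/
theorem poly_gsumG {s c u v : α → ℕ}
    {y : α → ℕ → ℕ → ℕ} (hn : PolyN Dm ctx n) (hG : PG Dm ctx n G)
    (hs : PolyN Dm ctx s) (hc : PolyN Dm ctx c)
    (hu : PolyN Dm ctx u) (hv : PolyN Dm ctx v)
    (hyv : PolyN (fun p : α × ℕ => Dm p.1 ∧ p.2 < s p.1) (PolyTime.lift ctx ++ [fun p => un p.2])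
      (fun p => y p.1 p.2 (v p.1)))
    (hy : PolyN (fun q : (α × ℕ) × ℕ => (Dm q.1.1 ∧ q.1.2 < s q.1.1) ∧ q.2 < n q.1.1)
      (PolyTime.lift (PolyTime.lift ctx ++ [fun p => un p.2]) ++ [fun q => un q.2])
      (fun q => y q.1.1 q.1.2 q.2)) :
    PolyN Dm ctx (fun a => ∑ i ∈ range (s a), (Nat.log 2 (u a ^ c a) +
      c a * G a (upoS (n a) (y a i) (v a)))) ∧
    PolyN Dm ctx (fun a => ∑ i ∈ range (s a), (Nat.log 2 (u a ^ c a) +
      c a * G a (upS (n a) (y a i) (v a)))) := by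
  have n1 := upN (n := s) hn
  have c1 := upN (n := s) hc
  have u1 := upN (n := s) hu
  have v1 := upN (n := s) hv
  constructor
  · exact P8e91ed.PT.nSum (f := fun a i => Nat.log 2 (u a ^ c a) +
      c a * G a (upoS (n a) (y a i) (v a))) hs ((poly_logpow u1 c1).add (c1.mul
      (hG _ _ _ Prod.fst (fun p : α × ℕ => upoS (n p.1) (y p.1 p.2) (v p.1)) (fun _ h => h.1)
        (fun _ ht => up (n := s) ht) (poly_upoS n1 v1 hyv hy))))
  · exact P8e91ed.PT.nSum (f := fun a i => Nat.log 2 (u a ^ c a) +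
      c a * G a (upS (n a) (y a i) (v a))) hs ((poly_logpow u1 c1).add (c1.mul
      (hG _ _ _ Prod.fst (fun p : α × ℕ => upS (n p.1) (y p.1 p.2) (v p.1)) (fun _ h => h.1)
        (fun _ ht => up (n := s) ht) (poly_upS n1 v1 hyv hy))))

theorem poly_newZG {m s c M t z0 u v : α → ℕ}
    {y : α → ℕ → ℕ → ℕ} (hn : PolyN Dm ctx n) (hG : PG Dm ctx n G)
    (hm : PolyN Dm ctx m) (hs : PolyN Dm ctx s) (hc : PolyN Dm ctx c) (hM : PolyN Dm ctx M)
    (ht : PolyN Dm ctx t) (hz0 : PolyN Dm ctx z0)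
    (hu : PolyN Dm ctx u) (hv : PolyN Dm ctx v)
    (hyv : PolyN (fun p : α × ℕ => Dm p.1 ∧ p.2 < s p.1) (PolyTime.lift ctx ++ [fun p => un p.2])
      (fun p => y p.1 p.2 (v p.1)))
    (hy : PolyN (fun q : (α × ℕ) × ℕ => (Dm q.1.1 ∧ q.1.2 < s q.1.1) ∧ q.2 < n q.1.1)
      (PolyTime.lift (PolyTime.lift ctx ++ [fun p => un p.2]) ++ [fun q => un q.2])
      (fun q => y q.1.1 q.1.2 q.2)) :
    PolyN Dm ctx (fun a => SubBisX.AccTab.newZ (n a) (m a) (s a) (c a) (M a) (t a)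
      (G a) (z0 a) (u a) (y a) (v a)) := by
  have A := hz0.add (ht.mul (poly_gsumG hn hG hs hc (PolyN.sub hm hu) hv hyv hy).1)
  have B := ht.mul (poly_gsumG hn hG hs hc hu.succ hv hyv hy).2
  have C := PolyN.sub A B
  refine (itez (PolyB.le hM C) (PolyC.mono hM fun _ h => h.1)
    (PolyC.mono C fun _ h => h.1)).congr (fun a _ => ?_)
  unfold SubBisX.AccTab.newZ
  simp only [decide_eq_true_eq]
  split_ifs with h
  · exact (min_eq_left h).symm
  · exact (min_eq_right (not_le.1 h).le).symm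

theorem _root_.Pool.Agent.Lib.SubBisB.BTab.HG.lft (h : HG Dm ctx n G m B s c M T N β D Z)
    {γ : Type u} {D' : γ → Prop}
    {ctx' : List (γ → List Bool)} (π : γ → α) (hπ : ∀ b, D' b → Dm (π b))
    (lf : ∀ t : α → List Bool, PolyC Dm ctx t → PolyC D' ctx' (fun b => t (π b))) :
    HG D' ctx' (fun b => n (π b)) (fun b => G (π b)) (fun b => m (π b)) (fun b => B (π b))
      (fun b => s (π b)) (fun b => c (π b)) (fun b => M (π b)) (fun b => T (π b))
      (fun b => N (π b)) (fun b => β (π b)) (fun b => D (π b))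
      (fun b => Z (π b)) :=
  ⟨lf _ h.hn, h.hG.lft π hπ lf, lf _ h.hm, lf _ h.hB, lf _ h.hs,
    lf _ h.hN, lf _ h.hc, lf _ h.hM, lf _ h.hT, lf _ h.hC, lf _ h.hE,
    ⟨lf _ h.hβ.1, fun b hb => h.hβ.2 _ (hπ b hb)⟩,
    ⟨lf _ h.hD.1, fun b hb => h.hD.2 _ (hπ b hb)⟩,
    ⟨lf _ h.hZ.1, fun b hb => h.hZ.2 _ (hπ b hb)⟩,
    fun b hb => h.hm1 _ (hπ b hb), fun b hb => h.hβB _ (hπ b hb)⟩

theorem _root_.Pool.Agent.Lib.SubBisB.BTab.HG.up (h : HG Dm ctx n G m B s c M T N β D Z)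
    (k : α → ℕ) :
    HG (fun p : α × ℕ => Dm p.1 ∧ p.2 < k p.1) (PolyTime.lift ctx ++ [fun p => un p.2])
      (fun b => n b.1) (fun b => G b.1) (fun b => m b.1) (fun b => B b.1)
      (fun b => s b.1) (fun b => c b.1) (fun b => M b.1) (fun b => T b.1)
      (fun b => N b.1) (fun b => β b.1) (fun b => D b.1)
      (fun b => Z b.1) :=
  h.lft Prod.fst (fun _ hb => hb.1) (fun _ ht => Pool.Agent.Lib.Pa7c826.up (n := k) ht)

theorem poly_dgB {r X x : α → ℕ} (h : HG Dm ctx n G m B s c M T N β D Z)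
    (hr : PolyN Dm ctx r) (hX : PolyN Dm ctx X) (hx : PolyN Dm ctx x)
    (hXn : ∀ a, Dm a → X a < (B a * s a * m a + 1) ^ (T a - r a))
    (hxn : ∀ a, Dm a → x a < n a) :
    PolyN Dm ctx (fun a => dgB (n a) (m a) (B a) (s a) (T a) (β a) (D a) (r a) (X a)
      (x a)) := by
  have hn := h.hn
  have hb := PolyArr.get h.hβ h.hB hx hxn
  have hbB : ∀ a, Dm a → β a (x a) < B a := fun a ha => h.hβB a ha _ (hxn a ha)
  obtain ⟨-, t2, t3⟩ := poly_tr (d := fun a => T a - r a) h.hm h.hB h.hs h.hT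
    (PolyN.sub h.hT hr) hX hb h.hC h.hE h.hm1 (fun a _ => Nat.sub_le _ _) hXn hbB
  have hd := PolyArr.get h.hD h.hm ((t2.mul hn).add hx)
    (fun a ha => ent_lt (trD_lt (hXn a ha) (hbB a ha)) (hxn a ha))
  exact modz (hd.add t3) h.hm

theorem poly_foB {r X v i : α → ℕ} (h : HG Dm ctx n G m B s c M T N β D Z)
    (hr : PolyN Dm ctx r) (hX : PolyN Dm ctx X) (hv : PolyN Dm ctx v) (hi : PolyN Dm ctx i)
    (hrT : ∀ a, Dm a → r a < T a)
    (hXn : ∀ a, Dm a → X a < (B a * s a * m a + 1) ^ (T a - (r a + 1)))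
    (hvn : ∀ a, Dm a → v a < n a) :
    PolyN Dm ctx (fun a => foB (m a) (B a) (s a) (T a) (β a) (r a) (X a) (v a) (i a)) := by
  have hb := PolyArr.get h.hβ h.hB hv hvn
  have hbB : ∀ a, Dm a → β a (v a) < B a := fun a ha => h.hβB a ha _ (hvn a ha)
  obtain ⟨t1, -, -⟩ := poly_tr (d := fun a => T a - (r a + 1)) h.hm h.hB h.hs h.hT
    (PolyN.sub h.hT hr.succ) hX hb h.hC h.hE h.hm1 (fun a _ => Nat.sub_le _ _) hXn hbB
  have P := powz (N := fun a => (B a * s a + 1) ^ T a) (h.hB.mul h.hs).succ hr h.hE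
    (fun a ha => Nat.pow_le_pow_right (Nat.succ_pos _) (hrT a ha).le)
  exact t1.add ((((PolyN.const 1).add (hb.mul h.hs)).add hi).mul P)

theorem poly_chB {r X v i : α → ℕ} (h : HG Dm ctx n G m B s c M T N β D Z)
    (hr : PolyN Dm ctx r) (hX : PolyN Dm ctx X) (hv : PolyN Dm ctx v) (hi : PolyN Dm ctx i)
    (hrT : ∀ a, Dm a → r a < T a)
    (hXn : ∀ a, Dm a → X a < (B a * s a * m a + 1) ^ (T a - (r a + 1)))
    (hvn : ∀ a, Dm a → v a < n a) (his : ∀ a, Dm a → i a < s a) :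
    PolyN Dm ctx (fun a => chB (n a) (m a) (B a) (s a) (T a) (β a) (D a) (r a) (X a)
      (v a) (i a)) := by
  have hn := h.hn
  have hb := PolyArr.get h.hβ h.hB hv hvn
  have hbB : ∀ a, Dm a → β a (v a) < B a := fun a ha => h.hβB a ha _ (hvn a ha)
  have d1 := poly_dgB h hr.succ hX hv hXn hvn
  have f1 := poly_foB h hr hX hv hi hrT hXn hvn
  have d2 := PolyArr.get h.hD h.hm ((f1.mul hn).add hv)
    (fun a ha => ent_lt (foB_lt (hrT a ha) (hXn a ha) (hbB a ha) (his a ha)) (hvn a ha))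
  exact ((PolyN.const 1).add (((hb.mul h.hs).add hi).mul h.hm)).add
    (modz (d1.add (PolyN.sub h.hm d2)) h.hm)

theorem poly_qB {r X v i x : α → ℕ} {F : α → ℕ → ℕ}
    (h : HG Dm ctx n G m B s c M T N β D Z)
    (hr : PolyN Dm ctx r) (hX : PolyN Dm ctx X) (hv : PolyN Dm ctx v) (hi : PolyN Dm ctx i)
    (hx : PolyN Dm ctx x)
    (hF : PolyArr Dm ctx (fun a => (SubBisX.Acc.wt (T a) + 1) * M a)
      (fun a => (B a * s a * m a + 1) ^ T a * (2 * n a)) F)
    (hrT : ∀ a, Dm a → r a < T a)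
    (hXn : ∀ a, Dm a → X a < (B a * s a * m a + 1) ^ (T a - (r a + 1)))
    (hvn : ∀ a, Dm a → v a < n a) (his : ∀ a, Dm a → i a < s a)
    (hxn : ∀ a, Dm a → x a < n a) :
    PolyN Dm ctx (fun a => qB (n a) (m a) (B a) (s a) (T a) (β a) (D a) (Z a) (F a) (r a)
      (X a) (v a) (i a) (x a)) := by
  have hn := h.hn
  have hBd : PolyN Dm ctx (fun a => (SubBisX.Acc.wt (T a) + 1) * M a) :=
    (poly_wt h.hT).succ.mul h.hM
  have hCC : PolyN Dm ctx (fun a => B a * s a * m a + 1) := ((h.hB.mul h.hs).mul h.hm).succ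
  have hL : PolyN Dm ctx (fun a => 2 * n a) := (PolyN.const 2).mul hn
  have hbB : ∀ a, Dm a → β a (v a) < B a := fun a ha => h.hβB a ha _ (hvn a ha)
  have k1 := poly_chB h hr hX hv hi hrT hXn hvn his
  have f1 := poly_foB h hr hX hv hi hrT hXn hvn
  have a1 := PolyArr.get hF hBd ((((hX.mul hCC).add k1).mul hL).add (hn.add hx)) (fun a ha =>
    child_lt (L := 2 * n a) (hrT a ha) (hXn a ha) (chB_lt (h.hm1 a ha) (hbB a ha)
      (his a ha)) (by have := hxn a ha; omega))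
  have a2 := PolyArr.get hF hBd ((((hX.mul hCC).add k1).mul hL).add hx) (fun a ha =>
    child_lt (L := 2 * n a) (hrT a ha) (hXn a ha) (chB_lt (h.hm1 a ha) (hbB a ha)
      (his a ha)) (by have := hxn a ha; omega))
  have z1 := PolyArr.get h.hZ h.hN ((f1.mul hn).add hx)
    (fun a ha => ent_lt (foB_lt (hrT a ha) (hXn a ha) (hbB a ha) (his a ha)) (hxn a ha))
  exact (divz (a1.add (hr.succ.mul a2)) (poly_wt hr.succ)).add z1

theorem poly_cellB {r X v : α → ℕ} {F : α → ℕ → ℕ} (h : HG Dm ctx n G m B s c M T N β D Z)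
    (hr : PolyN Dm ctx r) (hX : PolyN Dm ctx X) (hv : PolyN Dm ctx v)
    (hF : PolyArr Dm ctx (fun a => (SubBisX.Acc.wt (T a) + 1) * M a)
      (fun a => (B a * s a * m a + 1) ^ T a * (2 * n a)) F)
    (hrT : ∀ a, Dm a → r a < T a)
    (hXn : ∀ a, Dm a → X a < (B a * s a * m a + 1) ^ (T a - (r a + 1)))
    (hvn : ∀ a, Dm a → v a < n a) :
    PolyN Dm ctx (fun a => cellB (n a) (m a) (B a) (s a) (c a) (M a) (T a)
      (G a) (β a) (D a) (Z a) (F a) (r a) (X a) (v a)) := by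
  have hn := h.hn
  have hBd : PolyN Dm ctx (fun a => (SubBisX.Acc.wt (T a) + 1) * M a) :=
    (poly_wt h.hT).succ.mul h.hM
  have hCC : PolyN Dm ctx (fun a => B a * s a * m a + 1) := ((h.hB.mul h.hs).mul h.hm).succ
  have hL : PolyN Dm ctx (fun a => 2 * n a) := (PolyN.const 2).mul hn
  have hu := poly_dgB h hr.succ hX hv hXn hvn
  have hz0 := PolyArr.get hF hBd (((hX.mul hCC).mul hL).add hv) (fun a ha => by
    have := child_lt (k := 0) (L := 2 * n a) (i := v a) (hrT a ha) (hXn a ha)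
      (Nat.succ_pos _) (by have := hvn a ha; omega)
    rwa [Nat.add_zero] at this)
  have h1 := h.up s
  refine poly_newZG hn h.hG h.hm h.hs h.hc h.hM hr.succ hz0 hu hv ?_ ?_
  · exact poly_qB h1 (upN (n := s) hr) (upN (n := s) hX) (upN (n := s) hv)
      (last (D := Dm) (ctx := ctx) (n := s)) (upN (n := s) hv) (hF.up (k := s))
      (fun p hp => hrT _ hp.1) (fun p hp => hXn _ hp.1) (fun p hp => hvn _ hp.1)
      (fun p hp => hp.2) (fun p hp => hvn _ hp.1)
  · have h2 := h1.up fun p => n p.1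
    exact poly_qB h2 (upN (n := fun p : α × ℕ => n p.1) (upN (n := s) hr))
      (upN (n := fun p : α × ℕ => n p.1) (upN (n := s) hX))
      (upN (n := fun p : α × ℕ => n p.1) (upN (n := s) hv))
      (upN (n := fun p : α × ℕ => n p.1) (last (D := Dm) (ctx := ctx) (n := s)))
      (last (D := fun p : α × ℕ => Dm p.1 ∧ p.2 < s p.1)
        (ctx := PolyTime.lift ctx ++ [fun p => un p.2]) (n := fun p : α × ℕ => n p.1))
      ((hF.up (k := s)).up (k := fun p : α × ℕ => n p.1))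
      (fun p hp => hrT _ hp.1.1) (fun p hp => hXn _ hp.1.1) (fun p hp => hvn _ hp.1.1)
      (fun p hp => hp.1.2) (fun p hp => hp.2)

theorem step_stB (h : HG Dm ctx n G m B s c M T N β D Z) :
    TStep Dm ctx (fun a => B a * s a * m a + 1) T (fun a => 2 * n a)
      (fun a => (SubBisX.Acc.wt (T a) + 1) * M a)
      (fun a => stBT (n a) (m a) (B a) (s a) (c a) (M a) (T a) (G a)
        (β a) (D a) (Z a)) := by
  intro γ D' ctx' π r X i F h1 h2 h3 h4 lf hr hX hi hF hFv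
  have g := h.lft π h1 lf
  have hn := g.hn
  have hBd : PolyN D' ctx' (fun b => (SubBisX.Acc.wt (T (π b)) + 1) * M (π b)) :=
    (poly_wt g.hT).succ.mul g.hM
  have hCC : PolyN D' ctx' (fun b => B (π b) * s (π b) * m (π b) + 1) :=
    ((g.hB.mul g.hs).mul g.hm).succ
  have hL : PolyN D' ctx' (fun b => 2 * n (π b)) := (PolyN.const 2).mul hn
  have hφ := PolyB.lt hi hn
  have e0 := PolyArr.get hF hBd (((hX.mul hCC).mul hL).add hi) (fun b hb => by
    have := child_lt (k := 0) (L := 2 * n (π b)) (i := i b) (h2 b hb) (h3 b hb)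
      (Nat.succ_pos _) (h4 b hb)
    rwa [Nat.add_zero] at this)
  have g1 : HG (fun b => D' b ∧ decide (i b < n (π b)) = true) ctx'
      _ _ _ _ _ _ _ _ _ _ _ _ :=
    g.lft id (fun _ hb => hb.1) (fun _ ht => PolyC.mono ht fun _ h => h.1)
  have g2 : HG (fun b => D' b ∧ decide (i b < n (π b)) = false) ctx'
      _ _ _ _ _ _ _ _ _ _ _ _ :=
    g.lft id (fun _ hb => hb.1) (fun _ ht => PolyC.mono ht fun _ h => h.1)
  have A := poly_cellB g1 (PolyC.mono hr fun _ h => h.1) (PolyC.mono hX fun _ h => h.1)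
    (PolyC.mono hi fun _ h => h.1) (hF.mono fun _ h => h.1) (fun b hb => h2 b hb.1)
    (fun b hb => h3 b hb.1) (fun b hb => of_decide_eq_true hb.2)
  have Bc := poly_cellB g2 (PolyC.mono hr fun _ h => h.1) (PolyC.mono hX fun _ h => h.1)
    (PolyC.mono (PolyN.sub hi hn) fun _ h => h.1) (hF.mono fun _ h => h.1)
    (fun b hb => h2 b hb.1) (fun b hb => h3 b hb.1) (fun b hb => by
      have e1 := of_decide_eq_false hb.2
      have e2 := h4 b hb.1
      simp only [id] at e1 e2 ⊢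
      omega)
  have E0 : PolyN (fun b => D' b ∧ decide (i b < n (π b)) = false) ctx' _ :=
    PolyC.mono e0 fun _ h => h.1
  have R0 : PolyN (fun b => D' b ∧ decide (i b < n (π b)) = false) ctx'
      (fun b => r b + 1) := PolyC.mono hr.succ fun _ h => h.1
  refine (itez hφ A (E0.add (R0.mul Bc))).congr (fun b hb => ?_)
  simp only [decide_eq_true_eq, id]
  exact (stBT_succ (g.hm1 b hb) (g.hβB b hb) (h2 b hb) (h3 b hb) (h4 b hb) (hFv b hb)).symm

end StepAuxB

open StepAuxB Pool.Agent.Lib.SubBisX.AccTab.StepAux Pool.Agent.Lib.SubBisX.Tab.TabAux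

section general

variable {n : α → ℕ} {G : α → Finset ℕ → ℕ} {m B s c M T N : α → ℕ} {β D Z : α → ℕ → ℕ}

/-- The averaged point. -/
theorem poly_xoG {v : α → ℕ} (h : HG Dm ctx n G m B s c M T N β D Z)
    (hv : PolyN Dm ctx v) (hvn : ∀ a, Dm a → v a < n a) :
    PolyN Dm ctx (fun a => xoB (n a) (m a) (B a) (s a) (c a) (M a) (T a)
      (G a) (β a) (D a) (Z a) (v a)) := by
  have hn := h.hn
  have P := poly_tree (i := fun a => n a + v a) ((h.hB.mul h.hs).mul h.hm).succ h.hT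
    ((PolyN.const 2).mul hn) ((poly_wt h.hT).succ.mul h.hM) h.hC
    (fun a r X i => stBT_le (n a) (m a) (B a) (s a) (c a) (M a) (T a)
      (G a) (β a) (D a) (Z a) r X i) (fun a X i => by
        unfold stBT
        split_ifs <;> rfl)
    (step_stB h) (fun _ _ => Nat.succ_pos _) h.hT (PolyN.const 0) (hn.add hv)
    (fun _ _ => le_rfl) (fun a _ => Nat.pow_pos (Nat.succ_pos _)) (fun a ha => by
      have := hvn a ha
      omega)
  refine (divz P (poly_wt h.hT)).congr (fun a ha => ?_)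
  unfold xoB
  rw [stBT_snd le_rfl]

end general

/-! ## The matching number -/

/-- The hypotheses on the parameters. -/
structure HB0 (Dm : α → Prop) (ctx : List (α → List Bool)) (w : α → List Bool)
    (W : α → Finset ℕ) (m B s c M T κ N : α → ℕ) (β D Z : α → ℕ → ℕ) : Prop where
  hw : PolyC Dm ctx w
  hW : PolyS Dm ctx (fun x => nOf (w x)) W
  hm : PolyN Dm ctx m
  hB : PolyN Dm ctx B
  hs : PolyN Dm ctx s
  hN : PolyN Dm ctx N
  hc : PolyN Dm ctx c
  hM : PolyN Dm ctx M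
  hT : PolyN Dm ctx T
  hκ : PolyN Dm ctx κ
  hC : PolyN Dm ctx (fun x => (B x * s x * m x + 1) ^ T x)
  hE : PolyN Dm ctx (fun x => (B x * s x + 1) ^ T x)
  hβ : PolyArr Dm ctx B (fun x => nOf (w x)) β
  hD : PolyArr Dm ctx m (fun x => (B x * s x + 1) ^ T x * nOf (w x)) D
  hZ : PolyArr Dm ctx N (fun x => (B x * s x + 1) ^ T x * nOf (w x)) Z
  hm1 : ∀ a, Dm a → 0 < m a
  hβB : ∀ a, Dm a → ∀ v < nOf (w a), β a v < B a

variable {w : α → List Bool} {W : α → Finset ℕ} {m B s c M T κ N : α → ℕ} {β D Z : α → ℕ → ℕ}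

theorem pg_Gn (hw : PolyC Dm ctx w) (hκ : PolyN Dm ctx κ)
    (hW : PolyS Dm ctx (fun x => nOf (w x)) W) :
    PG Dm ctx (fun a => nOf (w a)) (fun a => Gn (w a) (κ a) (W a)) :=
  fun _ _ _ π _ h1 lf hS => poly_Gn (lf _ hw) (lf _ hκ)
    ⟨lf _ hW.1, fun b hb => hW.2 (π b) (h1 b hb)⟩ hS

theorem HB0.toHG (h : HB0 Dm ctx w W m B s c M T κ N β D Z) :
    HG Dm ctx (fun a => nOf (w a)) (fun a => Gn (w a) (κ a) (W a)) m B s c M T N β D Z :=
  ⟨poly_nOf h.hw, pg_Gn h.hw h.hκ h.hW, h.hm, h.hB, h.hs, h.hN, h.hc, h.hM, h.hT, h.hC, h.hE, h.hβ,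
    h.hD, h.hZ, h.hm1, h.hβB⟩

/-- The averaged point. -/
theorem poly_xoB {v : α → ℕ} (h : HB0 Dm ctx w W m B s c M T κ N β D Z)
    (hv : PolyN Dm ctx v) (hvn : ∀ a, Dm a → v a < nOf (w a)) :
    PolyN Dm ctx (fun a => xoB (nOf (w a)) (m a) (B a) (s a) (c a) (M a) (T a)
      (Gn (w a) (κ a) (W a)) (β a) (D a) (Z a) (v a)) :=
  poly_xoG h.toHG hv hvn

end Pool.Agent.Lib.SubBisB.BTab
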