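import Pool.Agent.Lib.SubBisB.BTabDefs
import Pool.Agent.Lib.SubBisX.TreePoly

/-!
The trace of a node: bounds and polynomial time.

The trace of the ancestors of a node is kept as an array of `3 * B` numbers, one step per level.
-/

namespace Pool.Agent.Lib.SubBisB.BTab

open Finset Pool.Agent.Lib.PolyTime Pool.Agent.Lib.Pa7c826 Pool.Agent.Lib.Pa7c826t
open Pool.Agent.Lib.SubBisX.Tab Pool.Agent.Lib.SubBisX.Tab.TabAux

universe u

variable {α : Type u} {Dm : α → Prop} {ctx : List (α → List Bool)}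

namespace TrAux

theorem blk_lt {B s m κ : ℕ} (hκ : κ < B * s * m + 1) (hB : 0 < B) : (κ - 1) / m / s < B := by
  rcases Nat.eq_zero_or_pos κ with h | h
  · rw [h]
    simpa using hB
  · refine Nat.div_lt_of_lt_mul (Nat.div_lt_of_lt_mul ?_)
    calc κ - 1 < B * s * m := by omega
      _ = m * (s * B) := by ring

theorem add_le {B s m T d κ : ℕ} (hd : d + 1 ≤ T) (h0 : κ ≠ 0) (hκ : κ < B * s * m + 1) :
    (1 + (κ - 1) / m) * (B * s + 1) ^ (T - (d + 1)) + (B * s + 1) ^ (T - (d + 1)) ≤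
      (B * s + 1) ^ (T - d) := by
  have h1 : (κ - 1) / m < B * s := by
    refine Nat.div_lt_of_lt_mul ?_
    calc κ - 1 < B * s * m := by omega
      _ = m * (B * s) := by ring
  have e : T - d = (T - (d + 1)) + 1 := by omega
  rw [e, pow_succ]
  calc (1 + (κ - 1) / m) * (B * s + 1) ^ (T - (d + 1)) + (B * s + 1) ^ (T - (d + 1))
      = (B * s + 1) ^ (T - (d + 1)) * (1 + (κ - 1) / m + 1) := by ring
    _ ≤ _ := Nat.mul_le_mul_left _ (by omega)

theorem par_lt {C d X : ℕ} (h : X < (C + 1) ^ (d + 1)) : X / (C + 1) < (C + 1) ^ d := by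
  rw [Nat.div_lt_iff_lt_mul (Nat.succ_pos _), ← pow_succ]
  exact h

end TrAux

open TrAux

theorem trH_bound {m B s T : ℕ} : ∀ (d X l : ℕ), d ≤ T → X < (B * s * m + 1) ^ d → l < B →
    trH m B s T d X l + (B * s + 1) ^ (T - d) ≤ (B * s + 1) ^ T := by
  intro d
  induction d with
  | zero =>
    intro X l _ _ _
    show 0 + (B * s + 1) ^ (T - 0) ≤ (B * s + 1) ^ T
    rw [Nat.sub_zero, zero_add]
  | succ d ih =>
    intro X l hd hX hl
    have hκ : X % (B * s * m + 1) < B * s * m + 1 := Nat.mod_lt _ (Nat.succ_pos _)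
    have hX' := par_lt hX
    rw [trH]
    split_ifs with h
    · have h1 := ih (X / (B * s * m + 1)) l (by omega) hX' hl
      have h2 : (B * s + 1) ^ (T - (d + 1)) ≤ (B * s + 1) ^ (T - d) :=
        Nat.pow_le_pow_right (Nat.succ_pos _) (by omega)
      omega
    · have h0 : X % (B * s * m + 1) ≠ 0 := fun h1 => h (Or.inl h1)
      have h1 := ih (X / (B * s * m + 1)) ((X % (B * s * m + 1) - 1) / m / s) (by omega) hX'
        (blk_lt hκ (by omega))
      have h2 := add_le hd h0 hκ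
      omega

theorem trD_bound {m B s T : ℕ} : ∀ (d X l : ℕ), d ≤ T → X < (B * s * m + 1) ^ d → l < B →
    trD m B s T d X l + (B * s + 1) ^ (T - d) ≤ (B * s + 1) ^ T := by
  intro d
  induction d with
  | zero =>
    intro X l _ _ _
    show 0 + (B * s + 1) ^ (T - 0) ≤ (B * s + 1) ^ T
    rw [Nat.sub_zero, zero_add]
  | succ d ih =>
    intro X l hd hX hl
    have hκ : X % (B * s * m + 1) < B * s * m + 1 := Nat.mod_lt _ (Nat.succ_pos _)
    have hX' := par_lt hX
    rw [trD]
    split_ifs with h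
    · have h1 := ih (X / (B * s * m + 1)) l (by omega) hX' hl
      have h2 : (B * s + 1) ^ (T - (d + 1)) ≤ (B * s + 1) ^ (T - d) :=
        Nat.pow_le_pow_right (Nat.succ_pos _) (by omega)
      omega
    · have h0 : X % (B * s * m + 1) ≠ 0 := fun h1 => h (Or.inl h1)
      have h1 := trH_bound (m := m) (B := B) (s := s) (T := T) d (X / (B * s * m + 1))
        ((X % (B * s * m + 1) - 1) / m / s) (by omega) hX' (blk_lt hκ (by omega))
      have h2 := add_le hd h0 hκ
      omega

theorem trK_lt {m B s : ℕ} (hm : 0 < m) : ∀ (d X l : ℕ), trK m B s d X l < m := by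
  intro d
  induction d with
  | zero =>
    intro X l
    exact hm
  | succ d ih =>
    intro X l
    rw [trK]
    split_ifs
    · exact ih _ _
    · exact Nat.mod_lt _ hm
    · exact hm

namespace TrAux

/-- The trace after `e` of `d` steps as an array of `3 * B` numbers. -/
def fA (m B s T d X e i : ℕ) : ℕ :=
  if i < B then trH m B s T e (X / (B * s * m + 1) ^ (d - e)) i
  else if i < 2 * B then trD m B s T e (X / (B * s * m + 1) ^ (d - e)) (i - B)
  else trK m B s e (X / (B * s * m + 1) ^ (d - e)) (i - 2 * B)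

/-- The digit of the next step. -/
def kA (m B s d X e : ℕ) : ℕ := (X / (B * s * m + 1) ^ (d - (e + 1))) % (B * s * m + 1)

/-- The trace does not change in this step. -/
def cA (B j κ i : ℕ) : Prop :=
  κ = 0 ∨ (if i < B then i ≤ j else if i < 2 * B then i < B + j else i < 2 * B + j)

instance (B j κ i : ℕ) : Decidable (cA B j κ i) := by
  unfold cA
  infer_instance

theorem fA_zero (m B s T d X i : ℕ) : fA m B s T d X 0 i = 0 := by
  unfold fA
  split_ifs <;> rfl

theorem fA_succ {m B s T d X e i : ℕ} (he : e < d) (hB : 0 < B) :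
    fA m B s T d X (e + 1) i =
      if cA B ((kA m B s d X e - 1) / m / s) (kA m B s d X e) i then fA m B s T d X e i
      else if i < 2 * B then fA m B s T d X e ((kA m B s d X e - 1) / m / s) +
        (1 + (kA m B s d X e - 1) / m) * (B * s + 1) ^ (T - (e + 1))
      else if i = 2 * B + (kA m B s d X e - 1) / m / s then (kA m B s d X e - 1) % m else 0 := by
  have e1 : X / (B * s * m + 1) ^ (d - (e + 1)) / (B * s * m + 1) =
      X / (B * s * m + 1) ^ (d - e) := by
    rw [Nat.div_div_eq_div_mul, ← pow_succ]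
    congr 2
    omega
  have hκ : kA m B s d X e < B * s * m + 1 := Nat.mod_lt _ (Nat.succ_pos _)
  have hj : (kA m B s d X e - 1) / m / s < B := blk_lt hκ hB
  have ek : X / (B * s * m + 1) ^ (d - (e + 1)) % (B * s * m + 1) = kA m B s d X e := rfl
  have e2 : fA m B s T d X e ((kA m B s d X e - 1) / m / s) =
      trH m B s T e (X / (B * s * m + 1) ^ (d - e)) ((kA m B s d X e - 1) / m / s) := by
    unfold fA
    rw [if_pos hj]
  rw [e2]
  generalize hκ' : kA m B s d X e = κ at *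
  generalize hj' : (κ - 1) / m / s = j at *
  unfold fA cA
  rw [trH, trD, trK, e1, ek, hj']
  by_cases h0 : κ = 0
  · simp only [h0, true_or, if_true]
  by_cases h1 : i < B
  · have h2 : i < 2 * B := by omega
    simp only [h0, h1, h2, false_or, if_true]
  by_cases h2 : i < 2 * B
  · have h3 : (i - B < j) ↔ (i < B + j) := by omega
    simp only [h0, h1, h2, false_or, if_true, if_false, h3]
  · have h3 : (i - 2 * B < j) ↔ (i < 2 * B + j) := by omega
    have h4 : (i - 2 * B = j) ↔ (i = 2 * B + j) := by omega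
    simp only [h0, h1, h2, false_or, if_false, h3, h4]

theorem fA_le {m B s T d X e i : ℕ} (hm : 0 < m) (hd : d ≤ T) (hX : X < (B * s * m + 1) ^ d)
    (he : e ≤ d) (_hi : i < 3 * B) : fA m B s T d X e i ≤ (B * s + 1) ^ T + m := by
  have h1 : X / (B * s * m + 1) ^ (d - e) < (B * s * m + 1) ^ e := by
    rw [Nat.div_lt_iff_lt_mul (Nat.pow_pos (Nat.succ_pos _)), ← pow_add]
    have : e + (d - e) = d := by omega
    rw [this]
    exact hX
  unfold fA
  split_ifs with h2 h3
  · have := trH_bound (m := m) (B := B) (s := s) (T := T) e _ i (by omega) h1 h2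
    omega
  · have := trD_bound (m := m) (B := B) (s := s) (T := T) e _ (i - B) (by omega) h1 (by omega)
    omega
  · have := trK_lt (B := B) (s := s) hm e (X / (B * s * m + 1) ^ (d - e)) (i - 2 * B)
    omega

/-- The array of the trace. -/
theorem poly_fA {m B s T d X : α → ℕ} (hm : PolyN Dm ctx m) (hB : PolyN Dm ctx B)
    (hs : PolyN Dm ctx s) (hT : PolyN Dm ctx T) (hd : PolyN Dm ctx d) (hX : PolyN Dm ctx X)
    (hE : PolyN Dm ctx (fun a => (B a * s a + 1) ^ T a)) (hm1 : ∀ a, Dm a → 0 < m a)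
    (hdT : ∀ a, Dm a → d a ≤ T a) (hXC : ∀ a, Dm a → X a < (B a * s a * m a + 1) ^ d a)
    (hB0 : ∀ a, Dm a → 0 < B a) :
    PolyArr Dm ctx (fun a => (B a * s a + 1) ^ T a + m a) (fun a => 3 * B a)
      (fun a => fA (m a) (B a) (s a) (T a) (d a) (X a) (d a)) := by
  have hN := hE.add hm
  have hL := (PolyN.const (D := Dm) (ctx := ctx) 3).mul hB
  refine polyArr_rec (fun a e => fA (m a) (B a) (s a) (T a) (d a) (X a) e) hN hL hd ?_ ?_
  · exact (PolyArr.mk (f := fun _ _ => 0) hN hL (PolyN.const 0)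
      (fun _ _ _ _ => Nat.zero_le _)).congr (fun a _ i _ => (fA_zero _ _ _ _ _ _ _).symm)
  set st : α × ℕ → List Bool := fun p => arr ((B p.1 * s p.1 + 1) ^ T p.1 + m p.1) (3 * B p.1)
    (fA (m p.1) (B p.1) (s p.1) (T p.1) (d p.1) (X p.1) p.2) with hst
  have U : ∀ {t : α → List Bool}, PolyC Dm ctx t →
      PolyC (fun p : α × ℕ => Dm p.1 ∧ p.2 < d p.1)
        (PolyTime.lift ctx ++ [fun p => un p.2, st]) (fun p => t p.1) := fun h => up2 h
  have F1 : PolyArr (fun p : α × ℕ => Dm p.1 ∧ p.2 < d p.1)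
      (PolyTime.lift ctx ++ [fun p => un p.2, st])
      (fun p => (B p.1 * s p.1 + 1) ^ T p.1 + m p.1) (fun p => 3 * B p.1)
      (fun p => fA (m p.1) (B p.1) (s p.1) (T p.1) (d p.1) (X p.1) p.2) :=
    ⟨PolyC.var (by simp [hst]), fun p hp i hi =>
      fA_le (hm1 p.1 hp.1) (hdT p.1 hp.1) (hXC p.1 hp.1) hp.2.le hi⟩
  have m1 : PolyN _ _ (fun p : α × ℕ => m p.1) := U hm
  have B1 : PolyN _ _ (fun p : α × ℕ => B p.1) := U hB
  have s1 : PolyN _ _ (fun p : α × ℕ => s p.1) := U hs
  have T1 : PolyN _ _ (fun p : α × ℕ => T p.1) := U hT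
  have d1 : PolyN _ _ (fun p : α × ℕ => d p.1) := U hd
  have X1 : PolyN _ _ (fun p : α × ℕ => X p.1) := U hX
  have E1 : PolyN _ _ (fun p : α × ℕ => (B p.1 * s p.1 + 1) ^ T p.1) := U hE
  have N1 : PolyN _ _ (fun p : α × ℕ => (B p.1 * s p.1 + 1) ^ T p.1 + m p.1) := U hN
  have L1 : PolyN _ _ (fun p : α × ℕ => 3 * B p.1) := U hL
  have e1 : PolyN (fun p : α × ℕ => Dm p.1 ∧ p.2 < d p.1)
      (PolyTime.lift ctx ++ [fun p => un p.2, st]) (fun p => p.2) := PolyC.var (by simp)
  refine PolyArr.mk N1 L1 ?_ (fun p hp i hi =>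
    fA_le (hm1 p.1 hp.1) (hdT p.1 hp.1) (hXC p.1 hp.1) hp.2 hi)
  set len : α × ℕ → ℕ := fun p => 3 * B p.1 with hlen
  have m2 := upN (n := len) m1
  have B2 := upN (n := len) B1
  have s2 := upN (n := len) s1
  have T2 := upN (n := len) T1
  have d2 := upN (n := len) d1
  have X2 := upN (n := len) X1
  have E2 := upN (n := len) E1
  have N2 := upN (n := len) N1
  have e2 := upN (n := len) e1
  have F2 := F1.up (k := len)
  have i2 := last (D := fun p : α × ℕ => Dm p.1 ∧ p.2 < d p.1)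
    (ctx := PolyTime.lift ctx ++ [fun p => un p.2, st]) (n := len)
  have C2 := (B2.mul s2).mul m2
  have k2 : PolyN _ _ (fun q : (α × ℕ) × ℕ => kA (m q.1.1) (B q.1.1) (s q.1.1) (d q.1.1)
      (X q.1.1) q.1.2) := modz (poly_divPow C2 X2 (PolyN.sub d2 e2.succ)) C2.succ
  have o2 := divz (PolyN.sub k2 (PolyN.const 1)) m2
  have j2 := divz o2 s2
  have BB2 := (PolyN.const (D := fun q : (α × ℕ) × ℕ => (Dm q.1.1 ∧ q.1.2 < d q.1.1) ∧
    q.2 < len q.1) (ctx := PolyTime.lift (PolyTime.lift ctx ++ [fun p => un p.2, st]) ++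
      [fun p => un p.2]) 2).mul B2
  have hφ := (PolyB.natEq k2 (PolyN.const 0)).or
    (PolyB.ite (PolyB.lt i2 B2) (PolyC.mono (PolyB.le i2 j2) fun _ h => h.1)
      (PolyC.mono (PolyB.ite (PolyB.lt i2 BB2) (PolyC.mono (PolyB.lt i2 (B2.add j2)) fun _ h => h.1)
        (PolyC.mono (PolyB.lt i2 (BB2.add j2)) fun _ h => h.1)) fun _ h => h.1))
  have v1 := PolyArr.get F2 N2 i2 (fun q hq => hq.2)
  have v2 := PolyArr.get F2 N2 j2 (fun q hq => by
    have h1 := blk_lt (B := B q.1.1) (s := s q.1.1) (m := m q.1.1)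
      (κ := kA (m q.1.1) (B q.1.1) (s q.1.1) (d q.1.1) (X q.1.1) q.1.2)
      (Nat.mod_lt _ (Nat.succ_pos _)) (hB0 q.1.1 hq.1.1)
    have h2 := hB0 q.1.1 hq.1.1
    show _ < 3 * B q.1.1
    omega)
  have pw := powz (N := fun q : (α × ℕ) × ℕ => (B q.1.1 * s q.1.1 + 1) ^ T q.1.1)
    (B2.mul s2).succ (PolyN.sub T2 e2.succ) E2
    (fun q hq => Nat.pow_le_pow_right (Nat.succ_pos _) (Nat.sub_le _ _))
  have v3 := v2.add (((PolyN.const 1).add o2).mul pw)
  have v4 := itez (PolyB.natEq i2 (BB2.add j2))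
    (PolyC.mono (modz (PolyN.sub k2 (PolyN.const 1)) m2) fun _ h => h.1) (PolyN.const 0)
  refine (itez hφ (PolyC.mono v1 fun _ h => h.1) (PolyC.mono (itez (PolyB.lt i2 BB2)
    (PolyC.mono v3 fun _ h => h.1) (PolyC.mono v4 fun _ h => h.1)) fun _ h => h.1)).congr ?_
  rintro ⟨⟨a, e⟩, i⟩ ⟨⟨h1, h2⟩, h3⟩
  rw [fA_succ h2 (hB0 a h1)]
  unfold cA
  simp only [Bool.or_eq_true, decide_eq_true_eq]
  by_cases h4 : i < B a
  · simp only [h4, if_true, decide_eq_true_eq]
  by_cases h5 : i < 2 * B a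
  · simp only [h4, h5, if_true, if_false, decide_eq_true_eq]
  · simp only [h4, h5, if_false, decide_eq_true_eq]

end TrAux

/-- The trace. -/
theorem poly_tr {m B s T d X l : α → ℕ} (hm : PolyN Dm ctx m) (hB : PolyN Dm ctx B)
    (hs : PolyN Dm ctx s) (hT : PolyN Dm ctx T) (hd : PolyN Dm ctx d) (hX : PolyN Dm ctx X)
    (hl : PolyN Dm ctx l) (hC : PolyN Dm ctx (fun a => (B a * s a * m a + 1) ^ T a))
    (hE : PolyN Dm ctx (fun a => (B a * s a + 1) ^ T a)) (hm1 : ∀ a, Dm a → 0 < m a)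
    (hdT : ∀ a, Dm a → d a ≤ T a) (hXC : ∀ a, Dm a → X a < (B a * s a * m a + 1) ^ d a)
    (hlB : ∀ a, Dm a → l a < B a) :
    PolyN Dm ctx (fun a => trH (m a) (B a) (s a) (T a) (d a) (X a) (l a)) ∧
    PolyN Dm ctx (fun a => trD (m a) (B a) (s a) (T a) (d a) (X a) (l a)) ∧
    PolyN Dm ctx (fun a => trK (m a) (B a) (s a) (d a) (X a) (l a)) := by
  have hA := poly_fA hm hB hs hT hd hX hE hm1 hdT hXC fun a ha => by
    have := hlB a ha
    omega
  have hN := hE.add hm
  refine ⟨?_, ?_, ?_⟩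
  · refine (PolyArr.get hA hN hl fun a ha => ?_).congr fun a ha => ?_
    · have := hlB a ha
      omega
    · unfold fA
      rw [if_pos (hlB a ha), Nat.sub_self, pow_zero, Nat.div_one]
  · refine (PolyArr.get hA hN (hB.add hl) fun a ha => ?_).congr fun a ha => ?_
    · have := hlB a ha
      omega
    · have h1 := hlB a ha
      unfold fA
      rw [if_neg (by omega), if_pos (by omega), Nat.sub_self, pow_zero, Nat.div_one,
        Nat.add_sub_cancel_left]
  · refine (PolyArr.get hA hN (((PolyN.const 2).mul hB).add hl) fun a ha => ?_).congr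
      fun a ha => ?_
    · have := hlB a ha
      omega
    · have h1 := hlB a ha
      unfold fA
      rw [if_neg (by omega), if_neg (by omega), Nat.sub_self, pow_zero, Nat.div_one,
        Nat.add_sub_cancel_left]

end Pool.Agent.Lib.SubBisB.BTab
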