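import Pool.Agent.Lib.SubBisB.BDefs
import Pool.Agent.Lib.SubBisX.Seed

/-!
Uniform random bits give uniform random labels and block worlds.

With `B` blocks and `C = 1 + B s`, a sample of level `r` is read off `C ^ r` cells, a cell is one entry
`(digit, noise)` for every vertex: the first block of `C ^ (r - 1)` cells gives the digits, the hidden
randomness of the level below and the noise, the block `1 + (j s + i)` is the sample `i` of the block
`j`. One copy is read off `n b` label bits, `B = 2 ^ b`, and `C ^ T n` entries of `μ + ν` bits.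
-/

set_option autoImplicit false

open Finset
open scoped BigOperators

namespace Pool.Agent.Lib.SubBisB

open Pool.Agent.Lib.SubBisX.Reg Pool.Agent.Lib.SubBisX.Seed

section

variable {α β γ : Type} [Fintype α] [Fintype β] [Fintype γ]

theorem unif_equivB {L : ℕ} {dec : (ℕ → α) → β} (h : Unif L dec) (e : β ≃ γ) :
    Unif L (fun s => e (dec s)) := by
  refine ⟨fun s s' hs => ?_, fun z F => ?_⟩
  · show e (dec s) = e (dec s')
    rw [h.1 s s' hs]
  · rw [h.2 z fun b => F (e b)]
    exact av_equiv e F

theorem unif_congrB {L L' : ℕ} {dec dec' : (ℕ → α) → β} (h : Unif L dec) (e : L = L')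
    (e' : ∀ s, dec s = dec' s) : Unif L' dec' := by
  have : dec = dec' := funext e'
  rw [← this, ← e]
  exact h

end

/-- a cell: one entry for every vertex -/
abbrev Cell (m n N : ℕ) : Type := Fin n → Fin m × Fin N

/-- a sample read off `(1 + B s) ^ r` cells -/
def decB (m n B s N : ℕ) : ∀ r, (ℕ → Cell m n N) → SmpB m n B s N r
  | 0, d => ((fun x => (d 0 x).1, fun _ => ()), fun x => (d 0 x).2)
  | r + 1, d => (((decB m n B s N r d).1.1, fun j => ((decB m n B s N r d).1.2 j, fun i =>
      decB m n B s N r fun k => d ((1 + ((j : ℕ) * s + (i : ℕ))) * (1 + B * s) ^ r + k))),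
        (decB m n B s N r d).2)

theorem decB_succ (m n B s N r : ℕ) (d : ℕ → Cell m n N) :
    decB m n B s N (r + 1) d = (((decB m n B s N r d).1.1, fun (j : Fin B) =>
      ((decB m n B s N r d).1.2 j, fun (i : Fin s) =>
        decB m n B s N r fun k => d ((1 + ((j : ℕ) * s + (i : ℕ))) * (1 + B * s) ^ r + k))),
        (decB m n B s N r d).2) := rfl

/-- a cell as a sample of level `0` -/
def cellEquiv (m n B s N : ℕ) : Cell m n N ≃ SmpB m n B s N 0 where
  toFun d := ((fun x => (d x).1, fun _ => ()), fun x => (d x).2)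
  invFun p := fun x => (p.1.1 x, p.2 x)
  left_inv _ := rfl
  right_inv _ := rfl

/-- the regrouping of the components -/
def regroupB (m n B s N r : ℕ) :
    (SmpB m n B s N r × (Fin B → Fin s → SmpB m n B s N r)) ≃ SmpB m n B s N (r + 1) where
  toFun p := ((p.1.1.1, fun j => (p.1.1.2 j, p.2 j)), p.1.2)
  invFun p := (((p.1.1, fun j => (p.1.2 j).1), p.2), fun j => (p.1.2 j).2)
  left_inv _ := rfl
  right_inv _ := rfl

theorem unif_decB (m n B s N : ℕ) : ∀ r, Unif ((1 + B * s) ^ r) (decB m n B s N r)
  | 0 => by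
    have h := unif_equivB (unif_one (α := Cell m n N)) (cellEquiv m n B s N)
    exact unif_congrB h (by simp) fun _ => rfl
  | r + 1 => by
    have ih := unif_decB m n B s N r
    have h1 := unif_equivB (ih.prod ((ih.pow s).pow B)) (regroupB m n B s N r)
    refine unif_congrB h1 (by ring) fun d => ?_
    rw [decB_succ]
    have e1 : (fun (j : Fin B) (i : Fin s) => decB m n B s N r fun k =>
        d ((1 + B * s) ^ r + ((j : ℕ) * (s * (1 + B * s) ^ r) + ((i : ℕ) * (1 + B * s) ^ r + k)))) =
        fun (j : Fin B) (i : Fin s) =>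
          decB m n B s N r fun k => d ((1 + ((j : ℕ) * s + (i : ℕ))) * (1 + B * s) ^ r + k) := by
      funext j i
      congr 1
      funext k
      congr 1
      ring
    have e2 : ∀ j : Fin B, (fun (i : Fin s) => decB m n B s N r fun k =>
        d ((1 + B * s) ^ r + ((j : ℕ) * (s * (1 + B * s) ^ r) + ((i : ℕ) * (1 + B * s) ^ r + k)))) =
        fun (i : Fin s) =>
          decB m n B s N r fun k => d ((1 + ((j : ℕ) * s + (i : ℕ))) * (1 + B * s) ^ r + k) :=
      fun j => congrFun e1 j
    show (((decB m n B s N r d).1.1, fun (j : Fin B) => ((decB m n B s N r d).1.2 j,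
      fun (i : Fin s) => decB m n B s N r fun k =>
        d ((1 + B * s) ^ r + ((j : ℕ) * (s * (1 + B * s) ^ r) + ((i : ℕ) * (1 + B * s) ^ r + k))))),
          (decB m n B s N r d).2) = _
    simp only [e2]

/-- a sample read off `(1 + B s) ^ r * n` entries -/
def decEB (m n B s N r : ℕ) (d : ℕ → Fin m × Fin N) : SmpB m n B s N r :=
  decB m n B s N r fun c x => d (c * n + x)

theorem unif_decEB (m n B s N r : ℕ) :
    Unif ((1 + B * s) ^ r * n) (decEB m n B s N r) := by
  have h := (unif_one (α := Fin m × Fin N)).pow n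
  have h2 := h.comp (unif_decB m n B s N r)
  refine unif_congrB h2 (by ring) fun d => ?_
  show decB m n B s N r _ = decB m n B s N r _
  congr 1
  funext c x
  show d (c * (n * 1) + ((x : ℕ) * 1 + 0)) = _
  congr 1
  ring

/-- an entry read off `μ + ν` bits: the digit, then the noise -/
def rdEB (μ ν : ℕ) (b : ℕ → Bool) : Fin (2 ^ μ) × Fin (2 ^ ν) := (rd μ b, rd ν fun i => b (μ + i))

/-- a copy: the labels and a sample -/
abbrev CpB (μ n b s ν T : ℕ) : Type :=
  (Fin n → Fin (2 ^ b)) × SmpB (2 ^ μ) n (2 ^ b) s (2 ^ ν) T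

/-- the number of bits of a copy -/
def lenB (μ n b s ν T : ℕ) : ℕ := n * b + (1 + 2 ^ b * s) ^ T * n * (μ + ν)

/-- a copy read off its bits -/
def decCB (μ n b s ν T : ℕ) (t : ℕ → Bool) : CpB μ n b s ν T :=
  (fun x => rd b fun i => t (x * b + i),
    decEB (2 ^ μ) n (2 ^ b) s (2 ^ ν) T fun e => rdEB μ ν fun i => t (n * b + (e * (μ + ν) + i)))

theorem unif_decCB (μ n b s ν T : ℕ) : Unif (lenB μ n b s ν T) (decCB μ n b s ν T) :=
  ((unif_rd b).pow n).prod
    ((((unif_rd μ).prod (unif_rd ν)).comp (unif_decEB (2 ^ μ) n (2 ^ b) s (2 ^ ν) T)))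

/-- `K` copies read off a stream of bits -/
def decSB (μ n b s ν T K : ℕ) (t : ℕ → Bool) : Fin K → CpB μ n b s ν T :=
  fun k => decCB μ n b s ν T fun i => t (k * lenB μ n b s ν T + i)

/-- the number of random bits used -/
def nbitsB (μ n b s ν T K : ℕ) : ℕ := K * lenB μ n b s ν T

theorem unif_decSB (μ n b s ν T K : ℕ) : Unif (nbitsB μ n b s ν T K) (decSB μ n b s ν T K) :=
  (unif_decCB μ n b s ν T).pow K

end Pool.Agent.Lib.SubBisB
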