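import Pool.Agent.Lib.SubBisB.BTabDefs
import Pool.Agent.Lib.SubBisB.SeedB
import Pool.Agent.Lib.SubBisX.AccSeed

/-!
Uniformly random bits give uniformly random labels and worlds with noise (`unif_decSB`), by the
uniformity of the decoders of `SeedB.lean`, which have the same layout.
-/

namespace Pool.Agent.Lib.SubBisB.BTab

open Finset Pool.Agent.Lib.SubBisX.Reg Pool.Agent.Lib.SubBisX.Acc
open Pool.Agent.Lib.SubBisX.Seed Pool.Agent.Lib.SubBisX.AccTab

/-- the two decoders agree -/
theorem decB_eq_decWB (m n B s N : ℕ) (d : ℕ → Fin m × Fin N) : ∀ (r o : ℕ),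
    decB m n B s N r (fun c x => d ((o + c) * n + x)) = decWB m n B s N r d o
  | 0, _ => rfl
  | r + 1, o => by
    rw [decB_succ, decB_eq_decWB m n B s N d r o]
    have h : ∀ (j : Fin B) (i : Fin s),
        (decB m n B s N r fun k => (fun (c : ℕ) (x : Fin n) => d ((o + c) * n + x))
          ((1 + ((j : ℕ) * s + (i : ℕ))) * (1 + B * s) ^ r + k)) =
        decWB m n B s N r d (o + (1 + j * s + i) * (B * s + 1) ^ r) := by
      intro j i
      rw [← decB_eq_decWB m n B s N d r]
      congr 1
      funext k x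
      show d ((o + ((1 + ((j : ℕ) * s + (i : ℕ))) * (1 + B * s) ^ r + k)) * n + x) =
        d ((o + (1 + j * s + i) * (B * s + 1) ^ r + k) * n + x)
      rw [add_comm (B * s) 1, ← add_assoc, ← add_assoc 1]
    simp only [h]
    rfl

theorem unif_decWB (m n B s N r : ℕ) :
    Unif ((B * s + 1) ^ r * n) (fun d => decWB m n B s N r d 0) := by
  have h := unif_decEB m n B s N r
  refine unif_congrB h (by rw [add_comm 1]) fun d => ?_
  rw [← decB_eq_decWB]
  show decB m n B s N r _ = decB m n B s N r _
  congr 1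
  funext c x
  rw [zero_add]

theorem unif_decL (lam n : ℕ) : Unif (n * lam) (decL lam n) := (unif_rd lam).pow n

theorem unif_decCB (μ ν lam n s r : ℕ) :
    Unif (cbits μ ν lam n s r) (decCB μ ν lam n s r) :=
  (unif_decL lam n).prod ((unif_rdp μ ν).comp (unif_decWB (2 ^ μ) n (2 ^ lam) s (2 ^ ν) r))

theorem unif_decSB (μ ν lam n s r K : ℕ) :
    Unif (nbitsB μ ν lam n s r K) (decSB μ ν lam n s r K) :=
  (unif_decCB μ ν lam n s r).pow K

end Pool.Agent.Lib.SubBisB.BTab
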