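import Pool.Agent.Lib.SubBisB.BTabStep
import Pool.Agent.Lib.SubBisX.AccTabVal

/-!
The value of the accelerated method with random blocks in polynomial time, for a general number of
sites and set function (`poly_posG`, `poly_negG`), and for the matching number.
-/

namespace Pool.Agent.Lib.SubBisB.BTab

open Finset Pool.Agent.Lib.PolyTime Pool.Agent.Lib.Pa7c826 Pool.Agent.Lib.Pa7c826t
open Pool.Agent.Lib.SubBisX.Tab

universe u

variable {α : Type u} {Dm : α → Prop} {ctx : List (α → List Bool)}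

section general

variable {n : α → ℕ} {G : α → Finset ℕ → ℕ} {m B s c M T N v k : α → ℕ} {β D Z : α → ℕ → ℕ}

namespace ValAuxB

theorem dig (h : HG Dm ctx n G m B s c M T N β D Z) (hv : PolyN Dm ctx v)
    (hvn : ∀ a, Dm a → v a < n a) : PolyN Dm ctx (fun a => D a (v a)) :=
  h.hD.get h.hm hv fun a ha => (hvn a ha).trans_le
    (Nat.le_mul_of_pos_left _ (Nat.pow_pos (Nat.succ_pos _)))

/-- The level sets. -/
theorem lev (h : HG Dm ctx n G m B s c M T N β D Z) (hk : PolyN Dm ctx k) :
    PolyS Dm ctx n (fun a => (range (n a)).filter fun x =>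
      k a < xoB (n a) (m a) (B a) (s a) (c a) (M a) (T a) (G a) (β a) (D a) (Z a) x) := by
  have Y := poly_xoG (h.up n) (v := fun p => p.2) (last (D := Dm) (ctx := ctx) (n := n))
    (fun p hp => hp.2)
  refine (PolyS.filter h.hn (PolyS.range h.hn)
    (PolyB.lt (upN (n := n) hk) Y)).congr (fun a _ => ?_)
  ext x
  simp only [mem_filter, decide_eq_true_eq]

end ValAuxB

open ValAuxB Pool.Agent.Lib.P8e91ed.PT

theorem poly_posG (h : HG Dm ctx n G m B s c M T N β D Z) :
    PolyN Dm ctx (fun a => posB (n a) (m a) (B a) (s a) (c a) (M a) (T a) (G a) (β a) (D a)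
      (Z a)) := by
  refine nSum h.hn ?_
  have h2 := h.up n
  have V : PolyN (Dx Dm n) (cx ctx) (fun p => p.2) := nL
  have Y := poly_xoG h2 V (fun p hp => hp.2)
  have Dg := dig h2 V (fun p hp => hp.2)
  exact (poly_logpow (PolyN.sub h2.hm Dg) h2.hc).mul Y

theorem poly_negG (h : HG Dm ctx n G m B s c M T N β D Z) :
    PolyN Dm ctx (fun a => negB (n a) (m a) (B a) (s a) (c a) (M a) (T a) (G a) (β a) (D a)
      (Z a)) := by
  refine PolyN.add (nSum h.hn ?_) (h.hc.mul (nSum h.hM ?_))
  · have h2 := h.up n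
    have V : PolyN (Dx Dm n) (cx ctx) (fun p => p.2) := nL
    have Y := poly_xoG h2 V (fun p hp => hp.2)
    have Dg := dig h2 V (fun p hp => hp.2)
    exact (poly_logpow Dg.succ h2.hc).mul Y
  · have h2 := h.up M
    have I : PolyN (Dx Dm M) (cx ctx) (fun p => p.2) := nL
    exact h2.hG _ _ _ id _ (fun _ hb => hb) (fun _ ht => ht) (lev h2 I)

end general

variable {w : α → List Bool} {W : α → Finset ℕ} {m B s c M T κ N : α → ℕ} {β D Z : α → ℕ → ℕ}

theorem poly_posB (h : HB0 Dm ctx w W m B s c M T κ N β D Z) :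
    PolyN Dm ctx (fun a => posB (nOf (w a)) (m a) (B a) (s a) (c a) (M a) (T a)
      (Gn (w a) (κ a) (W a)) (β a) (D a) (Z a)) :=
  poly_posG h.toHG

theorem poly_negB (h : HB0 Dm ctx w W m B s c M T κ N β D Z) :
    PolyN Dm ctx (fun a => negB (nOf (w a)) (m a) (B a) (s a) (c a) (M a) (T a)
      (Gn (w a) (κ a) (W a)) (β a) (D a) (Z a)) :=
  poly_negG h.toHG

end Pool.Agent.Lib.SubBisB.BTab
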