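import Pool.Agent.Lib.SubBisX.Bounds

/-!
# The upper bound for worlds with blocks

`Y w v` depends on the digits of the blocks before that of `v`, the hidden randomness of the blocks
up to that of `v`, and the digit of `v`. Then the mean of the objective is at most
`M (c log₂ Z + n)`. Sorting the vertices by their labels reduces the statement to `upper_int`: every
vertex carries its digit and hidden randomness for all blocks, that of block `j` is read at the first
vertex whose label is at least `j`.
-/

open scoped BigOperators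

namespace Pool.Agent.Lib.SubBisB

open Finset SubBis Pool.Agent.Lib.SubBisX.Reg Pool.Agent.Lib.SubBisX.Bounds

section pimap

variable {α β : Type} [Fintype α] [Fintype β] [Nonempty α] [Nonempty β]

/-- The average over a product of a function of the images of the coordinates. -/
theorem av_pimap (K : ℕ) (π : Fin K → α → β) (h : ∀ j, ∀ f : β → ℝ, av (fun x => f (π j x)) = av f)
    (G : (Fin K → β) → ℝ) : av (fun w : Fin K → α => G fun j => π j (w j)) = av G := by
  induction K with
  | zero =>
    have e1 : (fun w : Fin 0 → α => G fun j => π j (w j)) = fun _ => G (fun j => j.elim0) := by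
      funext w
      congr 1
      funext k
      exact k.elim0
    have e2 : G = fun _ => G (fun j => j.elim0) := by
      funext w
      congr 1
      funext k
      exact k.elim0
    rw [e1, av_const]
    conv_rhs => rw [e2]
    rw [av_const]
  | succ K ih =>
    have h3 := av_equiv (Fin.consEquiv (fun _ : Fin (K + 1) => α))
      (fun w : Fin (K + 1) → α => G fun j => π j (w j))
    have h4 := av_equiv (Fin.consEquiv (fun _ : Fin (K + 1) => β)) G
    rw [← h3, ← h4, av_prod, av_prod]
    have h5 : ∀ a : α, (av fun b : Fin K → α =>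
        G fun j => π j (Fin.consEquiv (fun _ : Fin (K + 1) => α) (a, b) j)) =
        av fun b : Fin K → β => G (Fin.cons (π 0 a) b) := by
      intro a
      rw [← ih (fun j => π j.succ) (fun j => h j.succ) fun b => G (Fin.cons (π 0 a) b)]
      refine congrArg av (funext fun b => ?_)
      congr 1
      funext k
      refine Fin.cases ?_ (fun k => ?_) k
      · rfl
      · rfl
    rw [funext h5]
    exact h 0 fun x => av fun b : Fin K → β => G (Fin.cons x b)

end pimap

variable {n m B : ℕ}

/-- Permuting the sites does not change the partition function. -/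
theorem logZ_map (F : Finset (Fin n) → ℤ) (σ : Equiv.Perm (Fin n)) :
    logZ (fun S => F (S.map σ.toEmbedding)) = logZ F := by
  unfold logZ
  congr 1
  refine Finset.sum_bij' (fun S _ => S.map σ.toEmbedding) (fun S _ => S.map σ.symm.toEmbedding)
    ?_ ?_ ?_ ?_ ?_
  · intro S _; simp
  · intro S _; simp
  · intro S _
    ext x
    simp
  · intro S _
    ext x
    simp
  · intro S _; rfl

theorem Fhat_map (F : Finset (Fin n) → ℤ) (σ : Equiv.Perm (Fin n)) (M : ℕ) (Y : Fin n → ℤ) :
    Fhat (fun S => F (S.map σ.toEmbedding)) M (fun i => Y (σ i)) = Fhat F M Y := by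
  unfold Fhat
  refine Finset.sum_congr rfl fun i _ => congrArg F ?_
  ext x
  simp only [mem_map, mem_filter, mem_univ, true_and, Equiv.coe_toEmbedding]
  constructor
  · rintro ⟨y, hy, rfl⟩
    exact hy
  · intro hx
    exact ⟨σ.symm x, by simpa using hx, by simp⟩

/-- The case without sites. -/
theorem upper_zero {Ω : Type*} [Fintype Ω] [Nonempty Ω] (c M : ℕ) (F : Finset (Fin 0) → ℤ)
    (e : Ω → Fin 0 → ℤ) (Y : Ω → Fin 0 → ℤ) :
    (av fun w => ((∑ v, e w v * Y w v - c * Fhat F M (Y w) : ℤ) : ℝ))
      ≤ M * (c * logZ F + (0 : ℕ)) := by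
  have h1 : ∀ w : Ω, ∑ v, e w v * Y w v - c * Fhat F M (Y w) = -(c * (M * F ∅)) := by
    intro w
    have h2 : ∀ i ∈ range M, F (univ.filter fun v : Fin 0 => ((i : ℤ) + 1) ≤ Y w v) = F ∅ := by
      intro i _
      congr 1
    unfold Fhat
    rw [Finset.sum_congr rfl h2]
    simp
  simp only [h1]
  rw [av_const]
  have h3 : logZ F = -(F ∅ : ℝ) := by
    unfold logZ
    have : (univ : Finset (Finset (Fin 0))) = {∅} := rfl
    rw [this, Finset.sum_singleton, Real.logb_rpow (by norm_num) (by norm_num)]
  rw [h3]
  push_cast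
  apply le_of_eq
  ring

section up

variable {H : Type} [Fintype H] [Nonempty H]

/-- the first index whose label is at least `j` (or the index `0`) -/
noncomputable def first (hn : 0 < n) (γ : Fin n → Fin B) (j : Fin B) : Fin n := by
  classical
  exact if h : ∃ i, j ≤ γ i then (univ.filter fun i => j ≤ γ i).min'
    (by obtain ⟨i, hi⟩ := h; exact ⟨i, by simpa using hi⟩) else ⟨0, hn⟩

theorem first_le (hn : 0 < n) (γ : Fin n → Fin B) {j : Fin B} {i : Fin n} (h : j ≤ γ i) :
    first hn γ j ≤ i := by
  classical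
  unfold first
  rw [dif_pos ⟨i, h⟩]
  exact Finset.min'_le _ _ (by simpa using h)

/-- The upper bound for worlds with blocks. -/
theorem upper_block [NeZero m] (c M : ℕ) (β : Fin n → Fin B) (F : Finset (Fin n) → ℤ)
    (Y : (Fin n → Fin m) × (Fin B → H) → Fin n → ℤ)
    (hY0 : ∀ w v, 0 ≤ Y w v) (hY1 : ∀ w v, Y w v ≤ M)
    (hY : ∀ v, ∀ a b : (Fin n → Fin m) × (Fin B → H), (∀ x, β x < β v → a.1 x = b.1 x) →
      a.1 v = b.1 v → (∀ i ≤ β v, a.2 i = b.2 i) → Y a v = Y b v) :
    (av fun w : (Fin n → Fin m) × (Fin B → H) =>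
      ((∑ v, ee m c (w.1 v) * Y w v - c * Fhat F M (Y w) : ℤ) : ℝ)) ≤ M * (c * logZ F + n) := by
  classical
  rcases Nat.eq_zero_or_pos n with h0 | hn
  · subst h0
    exact upper_zero c M F (fun w v => ee m c (w.1 v)) Y
  set σ : Equiv.Perm (Fin n) := Tuple.sort β with hσ
  have hmono : Monotone (β ∘ σ) := Tuple.monotone_sort β
  set fj : Fin B → Fin n := first hn (β ∘ σ) with hfj
  -- the world read off a family of (digit, hidden randomness for all blocks)
  set W : (Fin n → Fin m × (Fin B → H)) → (Fin n → Fin m) × (Fin B → H) :=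
    fun ω => (fun x => (ω (σ.symm x)).1, fun j => (ω (fj j)).2 j) with hW
  have h := upper_int (X := Fin m × (Fin B → H)) c M Prod.fst (fun f => av_fst f)
    (fun S => F (S.map σ.toEmbedding)) (fun ω i => Y (W ω) (σ i))
    (fun ω i => hY0 _ _) (fun ω i => hY1 _ _) (by
      intro i a b hab
      show Y (W a) (σ i) = Y (W b) (σ i)
      refine hY (σ i) (W a) (W b) ?_ ?_ ?_
      · intro x hx
        show (a (σ.symm x)).1 = (b (σ.symm x)).1
        have h1 : σ.symm x ≤ i := by
          by_contra hlt
          push Not at hlt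
          have h2 := hmono hlt.le
          simp only [Function.comp_apply, Equiv.apply_symm_apply] at h2
          exact absurd hx (not_lt.2 h2)
        rw [hab _ h1]
      · show (a (σ.symm (σ i))).1 = (b (σ.symm (σ i))).1
        rw [Equiv.symm_apply_apply, hab i le_rfl]
      · intro j hj
        show (a (fj j)).2 j = (b (fj j)).2 j
        rw [hab _ (first_le hn (β ∘ σ) hj)])
  rw [logZ_map] at h
  refine le_trans (le_of_eq ?_) h
  -- the integrand
  have h1 : (fun ω : Fin n → Fin m × (Fin B → H) =>
      ((∑ i, ee m c ((ω i).1) * Y (W ω) (σ i)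
        - c * Fhat (fun S => F (S.map σ.toEmbedding)) M (fun i => Y (W ω) (σ i)) : ℤ) : ℝ)) =
      fun ω => (fun w : (Fin n → Fin m) × (Fin B → H) =>
        ((∑ v, ee m c (w.1 v) * Y w v - c * Fhat F M (Y w) : ℤ) : ℝ)) (W ω) := by
    funext ω
    rw [Fhat_map]
    have h2 : ∑ i, ee m c ((ω i).1) * Y (W ω) (σ i)
        = ∑ v, ee m c ((W ω).1 v) * Y (W ω) v := by
      rw [← Equiv.sum_comp σ (fun v => ee m c ((W ω).1 v) * Y (W ω) v)]
      refine Finset.sum_congr rfl fun i _ => ?_
      have : (W ω).1 (σ i) = (ω i).1 := by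
        show (ω (σ.symm (σ i))).1 = (ω i).1
        rw [Equiv.symm_apply_apply]
      rw [this]
    rw [h2]
  rw [h1]
  generalize (fun w : (Fin n → Fin m) × (Fin B → H) =>
        ((∑ v, ee m c (w.1 v) * Y w v - c * Fhat F M (Y w) : ℤ) : ℝ)) = G
  -- the law
  have h2 := av_equiv (Equiv.arrowProdEquivProdArrow (Fin n) (fun _ => Fin m)
    (fun _ => Fin B → H))
    (fun p : (Fin n → Fin m) × (Fin n → Fin B → H) =>
      G (fun x => p.1 (σ.symm x), fun j => p.2 (fj j) j))
  have h3 : (fun ω : Fin n → Fin m × (Fin B → H) => G (W ω)) =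
      fun ω => (fun p : (Fin n → Fin m) × (Fin n → Fin B → H) =>
      G (fun x => p.1 (σ.symm x), fun j => p.2 (fj j) j))
        (Equiv.arrowProdEquivProdArrow (Fin n) (fun _ => Fin m) (fun _ => Fin B → H) ω) := rfl
  rw [h3, h2, av_prod, av_prod]
  have h4 : ∀ a : Fin n → Fin m, (av fun b : Fin n → Fin B → H =>
      G (fun x => a (σ.symm x), fun j => b (fj j) j)) =
      av fun h : Fin B → H => G (fun x => a (σ.symm x), h) := by
    intro a
    have h5 := av_equiv (Equiv.piComm (fun (_ : Fin n) (_ : Fin B) => H))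
      (fun b : Fin B → Fin n → H => G (fun x => a (σ.symm x), fun j => b j (fj j)))
    have h6 := av_pimap B (fun j (x : Fin n → H) => x (fj j)) (fun j f => av_coord (fj j) f)
      (fun h => G (fun x => a (σ.symm x), h))
    rw [← h6, ← h5]
    rfl
  rw [funext h4]
  have h7 := av_equiv (Equiv.arrowCongr σ (Equiv.refl (Fin m)))
    (fun a : Fin n → Fin m => av fun h : Fin B → H => G (a, h))
  rw [← h7]
  rfl

end up

end Pool.Agent.Lib.SubBisB
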