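import Pool.Agent.Lib.SubBisB.BDefs
import Pool.Agent.Lib.SubBisX.AccFrame

/-!
# Worlds with random blocks: adaptedness, involution, the frame of the accelerated method
-/

open scoped BigOperators

namespace Pool.Agent.Lib.SubBisB

open Pool.Agent.Lib.SubBisX.Reg Pool.Agent.Lib.SubBisX.Acc

variable {n m B s N : ℕ}

section mix

variable [NeZero m] {H : Type} (β : Fin n → Fin B)

set_option linter.unusedSectionVars false

theorem mixv_lt {v x : Fin n} (h : β x < β v) (w w' : (Fin n → Fin m) × (Fin B → H)) :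
    (mixv β v w w').1 x = w.1 x := if_pos h

theorem mixv_eq {v x : Fin n} (h : β x = β v) (w w' : (Fin n → Fin m) × (Fin B → H)) :
    (mixv β v w w').1 x = w'.1 x + (w.1 v - w'.1 v) := by
  show (if β x < β v then w.1 x else if β x = β v then w'.1 x + (w.1 v - w'.1 v) else w'.1 x) = _
  rw [if_neg (by rw [h]; exact lt_irrefl _), if_pos h]

theorem mixv_gt {v x : Fin n} (h : β v < β x) (w w' : (Fin n → Fin m) × (Fin B → H)) :
    (mixv β v w w').1 x = w'.1 x := by
  show (if β x < β v then w.1 x else if β x = β v then w'.1 x + (w.1 v - w'.1 v) else w'.1 x) = _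
  rw [if_neg h.not_gt, if_neg h.ne']

theorem mixv_self (v : Fin n) (w w' : (Fin n → Fin m) × (Fin B → H)) :
    (mixv β v w w').1 v = w.1 v := by
  rw [mixv_eq β rfl]
  exact add_sub_cancel _ _

theorem mixv_le {v : Fin n} {i : Fin B} (h : i ≤ β v) (w w' : (Fin n → Fin m) × (Fin B → H)) :
    (mixv β v w w').2 i = w.2 i := if_pos h

theorem mixv_nle {v : Fin n} {i : Fin B} (h : ¬ i ≤ β v) (w w' : (Fin n → Fin m) × (Fin B → H)) :
    (mixv β v w w').2 i = w'.2 i := if_neg h

theorem mixv_mixv (v : Fin n) (w w' : (Fin n → Fin m) × (Fin B → H)) :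
    mixv β v (mixv β v w w') (mixv β v w' w) = w := by
  refine Prod.ext (funext fun x => ?_) (funext fun i => ?_)
  · rcases lt_trichotomy (β x) (β v) with h | h | h
    · rw [mixv_lt β h, mixv_lt β h]
    · rw [mixv_eq β h, mixv_eq β h, mixv_self, mixv_self]
      abel
    · rw [mixv_gt β h, mixv_gt β h]
  · by_cases h : i ≤ β v
    · rw [mixv_le β h, mixv_le β h]
    · rw [mixv_nle β h, mixv_nle β h]

/-- The exchange of the parts after `v`. -/
def swapB (v : Fin n) :
    (((Fin n → Fin m) × (Fin B → H)) × ((Fin n → Fin m) × (Fin B → H))) ≃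
      (((Fin n → Fin m) × (Fin B → H)) × ((Fin n → Fin m) × (Fin B → H))) where
  toFun p := (mixv β v p.1 p.2, mixv β v p.2 p.1)
  invFun p := (mixv β v p.1 p.2, mixv β v p.2 p.1)
  left_inv p := by
    show (mixv β v (mixv β v p.1 p.2) (mixv β v p.2 p.1),
      mixv β v (mixv β v p.2 p.1) (mixv β v p.1 p.2)) = p
    rw [mixv_mixv, mixv_mixv]
  right_inv p := by
    show (mixv β v (mixv β v p.1 p.2) (mixv β v p.2 p.1),
      mixv β v (mixv β v p.2 p.1) (mixv β v p.1 p.2)) = p
    rw [mixv_mixv, mixv_mixv]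

theorem pre_mixv {v : Fin n} {α : Sort*} {f : (Fin n → Fin m) × (Fin B → H) → α}
    (hf : PreB β v f) (w w' : (Fin n → Fin m) × (Fin B → H)) : f (mixv β v w w') = f w :=
  hf _ _ (fun _ hx => mixv_lt β hx w w') (mixv_self β v w w') fun _ hi => mixv_le β hi w w'

theorem av_swapB [Fintype H] [Nonempty H] (v : Fin n)
    (h f : (Fin n → Fin m) × (Fin B → H) → ℝ) (hh : PreB β v h) :
    (av fun a : (Fin n → Fin m) × (Fin B → H) => av fun b : (Fin n → Fin m) × (Fin B → H) =>
      h a * f (mixv β v a b)) = av fun a => h a * f a := by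
  have h1 := av_equiv (swapB (m := m) (H := H) β v)
    (fun p : ((Fin n → Fin m) × (Fin B → H)) × ((Fin n → Fin m) × (Fin B → H)) => h p.1 * f p.1)
  rw [av_fst (Ω' := (Fin n → Fin m) × (Fin B → H)) (fun a => h a * f a)] at h1
  have h0 := av_prod (fun p : ((Fin n → Fin m) × (Fin B → H)) ×
    ((Fin n → Fin m) × (Fin B → H)) => h (mixv β v p.1 p.2) * f (mixv β v p.1 p.2))
  have h2 : (av fun a : (Fin n → Fin m) × (Fin B → H) =>
      av fun b : (Fin n → Fin m) × (Fin B → H) => h a * f (mixv β v a b)) =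
      av fun a : (Fin n → Fin m) × (Fin B → H) =>
      av fun b : (Fin n → Fin m) × (Fin B → H) => h (mixv β v a b) * f (mixv β v a b) := by
    refine congrArg av (funext fun a => congrArg av (funext fun b => ?_))
    rw [pre_mixv β hh]
  exact h2.trans (h0.symm.trans h1)

/-- `mixv` depends on the first world through its part up to `v` only. -/
theorem mixv_congr {v : Fin n} {a b : (Fin n → Fin m) × (Fin B → H)}
    (h1 : ∀ x, β x < β v → a.1 x = b.1 x) (h2 : a.1 v = b.1 v) (h3 : ∀ i ≤ β v, a.2 i = b.2 i)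
    (c : (Fin n → Fin m) × (Fin B → H)) : mixv β v a c = mixv β v b c := by
  refine Prod.ext (funext fun x => ?_) (funext fun i => ?_)
  · rcases lt_trichotomy (β x) (β v) with h | h | h
    · rw [mixv_lt β h, mixv_lt β h, h1 x h]
    · rw [mixv_eq β h, mixv_eq β h, h2]
    · rw [mixv_gt β h, mixv_gt β h]
  · by_cases h : i ≤ β v
    · rw [mixv_le β h, mixv_le β h, h3 i h]
    · rw [mixv_nle β h, mixv_nle β h]

end mix

section state

variable [NeZero m] (β : Fin n → Fin B) {M : ℤ} {g : Fin n → Fin m → (Fin n → ℤ) → ℤ}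

theorem St_pre (r : ℕ) (v : Fin n) (a b : WB m n B s N r) (h1 : ∀ x, β x < β v → a.1 x = b.1 x)
    (h2 : a.1 v = b.1 v) (h3 : ∀ i ≤ β v, a.2 i = b.2 i) :
    (St β M g r a).1 v = (St β M g r b).1 v ∧ (St β M g r a).2 v = (St β M g r b).2 v := by
  induction r generalizing v with
  | zero => exact ⟨rfl, rfl⟩
  | succ r ih =>
    have k1 : ∀ x, β x < β v → (low a).1 x = (low b).1 x := h1
    have k2 : (low a).1 v = (low b).1 v := h2
    have k3 : ∀ i ≤ β v, (low a).2 i = (low b).2 i := fun i hi => congrArg Prod.fst (h3 i hi)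
    have k4 : smp a (β v) = smp b (β v) := congrArg Prod.snd (h3 (β v) le_rfl)
    obtain ⟨k5, k6⟩ := ih v (low a) (low b) k1 k2 k3
    have k7 : ∀ i, sg β g (St β M g r) v (low a) (smp a (β v) i) =
        sg β g (St β M g r) v (low b) (smp b (β v) i) := by
      intro i
      unfold sg
      rw [k4, k2, mixv_congr β k1 k2 k3]
    have k8 : (St β M g (r + 1) a).1 v = (St β M g (r + 1) b).1 v := by
      show clip M ((St β M g r (low a)).1 v +
        (r + 1 : ℕ) * ∑ i : Fin s, sg β g (St β M g r) v (low a) (smp a (β v) i)) =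
        clip M ((St β M g r (low b)).1 v +
        (r + 1 : ℕ) * ∑ i : Fin s, sg β g (St β M g r) v (low b) (smp b (β v) i))
      rw [k5, Finset.sum_congr rfl fun i _ => k7 i]
    refine ⟨k8, ?_⟩
    show (St β M g r (low a)).2 v + (r + 1 : ℕ) * (St β M g (r + 1) a).1 v =
      (St β M g r (low b)).2 v + (r + 1 : ℕ) * (St β M g (r + 1) b).1 v
    rw [k6, k8]

theorem z_pre (r : ℕ) (v : Fin n) :
    PreB β v fun w : WB m n B s N r => (St β M g r w).1 v :=
  fun a b h1 h2 h3 => (St_pre β r v a b h1 h2 h3).1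

theorem S_pre (r : ℕ) (v : Fin n) :
    PreB β v fun w : WB m n B s N r => (St β M g r w).2 v :=
  fun a b h1 h2 h3 => (St_pre β r v a b h1 h2 h3).2

theorem xo_pre (r : ℕ) (v : Fin n) : PreB β v fun w : WB m n B s N r => xo β M g r w v := by
  intro a b h1 h2 h3
  have h4 := (St_pre (M := M) (g := g) β r v a b h1 h2 h3).2
  show (St β M g r a).2 v / (wt r : ℤ) = (St β M g r b).2 v / (wt r : ℤ)
  rw [h4]

end state

/-! ## Averages -/

theorem av_smpB [NeZero m] [NeZero N] (r : ℕ) (j : Fin B)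
    (F : WB m n B s N r → (Fin s → SmpB m n B s N r) → ℝ) :
    (av fun w : WB m n B s N (r + 1) => F (low w) (smp w j)) = av fun a => av fun b => F a b := by
  have h1 := av_equiv ((Equiv.prodCongr (Equiv.refl (Fin n → Fin m))
    (Equiv.arrowProdEquivProdArrow (Fin B) (fun _ => HB m n B s N r)
      (fun _ => Fin s → SmpB m n B s N r))).trans (Equiv.prodAssoc (Fin n → Fin m)
        (Fin B → HB m n B s N r) (Fin B → Fin s → SmpB m n B s N r)).symm)
    (fun p : WB m n B s N r × (Fin B → (Fin s → SmpB m n B s N r)) => F p.1 (p.2 j))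
  have h0 := av_prod (fun p : WB m n B s N r × (Fin B → (Fin s → SmpB m n B s N r)) =>
    F p.1 (p.2 j))
  have h2 : (fun a => av fun b : Fin B → (Fin s → SmpB m n B s N r) => F a (b j)) =
      fun a => av fun b => F a b := funext fun a => av_coord j (F a)
  calc (av fun w : WB m n B s N (r + 1) => F (low w) (smp w j))
      = av fun a => av fun b : Fin B → (Fin s → SmpB m n B s N r) => F a (b j) := h1.trans h0
    _ = _ := by rw [h2]

theorem av_lowB [NeZero m] [NeZero N] (r : ℕ) (F : WB m n B s N r → ℝ) :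
    (av fun w : WB m n B s N (r + 1) => F (low w)) = av F := by
  have h1 := av_equiv ((Equiv.prodCongr (Equiv.refl (Fin n → Fin m))
    (Equiv.arrowProdEquivProdArrow (Fin B) (fun _ => HB m n B s N r)
      (fun _ => Fin s → SmpB m n B s N r))).trans (Equiv.prodAssoc (Fin n → Fin m)
        (Fin B → HB m n B s N r) (Fin B → Fin s → SmpB m n B s N r)).symm)
    (fun p : WB m n B s N r × (Fin B → (Fin s → SmpB m n B s N r)) => F p.1)
  rw [av_fst] at h1
  exact h1

theorem av_digB [NeZero m] [NeZero N] (r : ℕ) (F : (Fin n → Fin m) → ℝ) :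
    (av fun w : WB m n B s N r => F w.1) = av F := av_fst F

/-! ## The frame -/

section frame

variable [NeZero m] [NeZero N] (β : Fin n → Fin B) (M : ℤ)
  (g : Fin n → Fin m → (Fin n → ℤ) → ℤ)

/-- The conditional mean gradient. -/
noncomputable def gb (r : ℕ) (v : Fin n) (a : WB m n B s N r) : ℝ :=
  av fun c : WB m n B s N r => mg N g v (a.1 v) (qy r (St β M g r (mixv β v a c)))

theorem av_sg (r : ℕ) (v : Fin n) (a : WB m n B s N r) :
    (av fun b : SmpB m n B s N r => ((sg β g (St β M g r) v a b : ℤ) : ℝ)) = gb β M g r v a := by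
  rw [av_prod]
  rfl

variable [NeZero s]

theorem av_ghB (r : ℕ) (v : Fin n) (a : WB m n B s N r) :
    (av fun b : Fin s → SmpB m n B s N r =>
      (∑ i : Fin s, ((sg β g (St β M g r) v a (b i) : ℤ) : ℝ)) / s) = gb β M g r v a := by
  have hs : (s : ℝ) ≠ 0 := by exact_mod_cast NeZero.ne s
  have h1 : (av fun b : Fin s → SmpB m n B s N r =>
      ∑ i : Fin s, ((sg β g (St β M g r) v a (b i) : ℤ) : ℝ)) = s * gb β M g r v a := by
    rw [av_sum, Finset.sum_congr rfl fun i _ =>
      (av_coord i fun b : SmpB m n B s N r => ((sg β g (St β M g r) v a b : ℤ) : ℝ)),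
      Finset.sum_const, av_sg, Finset.card_univ, Fintype.card_fin, nsmul_eq_mul]
  have h2 : (fun b : Fin s → SmpB m n B s N r =>
      (∑ i : Fin s, ((sg β g (St β M g r) v a (b i) : ℤ) : ℝ)) / s) = fun b =>
      (s : ℝ)⁻¹ * ∑ i : Fin s, ((sg β g (St β M g r) v a (b i) : ℤ) : ℝ) := by
    funext b
    rw [div_eq_inv_mul]
  rw [h2, av_smul, h1, ← mul_assoc, inv_mul_cancel₀ hs, one_mul]

theorem crossB (r : ℕ) (v : Fin n) {Ω : Type*} [Fintype Ω]
    (h : WB m n B s N r → Ω → ℝ) (hh : ∀ b, PreB β v fun a => h a b) :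
    (av fun a : WB m n B s N r => av fun b : Ω =>
      h a b * mg N g v (a.1 v) (qy r (St β M g r a))) =
    av fun a : WB m n B s N r => av fun b : Ω => h a b * gb β M g r v a := by
  rw [av_comm, av_comm (Ω := WB m n B s N r)]
  refine congrArg av (funext fun b => ?_)
  have h1 := av_swapB β v (fun a => h a b)
    (fun a : WB m n B s N r => mg N g v (a.1 v) (qy r (St β M g r a))) (hh b)
  rw [← h1]
  refine congrArg av (funext fun a => ?_)
  rw [av_smul]
  congr 1
  unfold gb
  refine congrArg av (funext fun c => ?_)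
  rw [mixv_self]

/-- The block worlds are a frame. -/
noncomputable def frB (s : ℕ) [NeZero s] : Fr n m s N M g where
  W r := WB m n B s N r
  fin r := inferInstance
  ne r := inferInstance
  low r w := low w
  dg r w := w.1
  z r w := (St β M g r w).1
  S r w := (St β M g r w).2
  sgr r w v i := sg β g (St β M g r) v (low w) (smp w (β v) i)
  gb r v a := gb β M g r v a
  Leg v h := PreD β v h
  dg_low r w := rfl
  z_zero w v := rfl
  S_zero w v := rfl
  z_succ r w v := rfl
  S_succ r w v := rfl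
  av_low r F := av_lowB r F
  av_dg r F := av_digB r F
  x1 r v zs hzs := by
    have h1 : ∀ b : Fin s → SmpB m n B s N r, PreB β v fun a : WB m n B s N r =>
        ((clip M ((St β M g r a).1 v + (r + 1 : ℕ) *
          ∑ i : Fin s, sg β g (St β M g r) v a (b i)) - zs a.1 : ℤ) : ℝ) := by
      intro b a a' k1 k2 k3
      have h2 := (St_pre (M := M) (g := g) β r v a a' k1 k2 k3).1
      have h3 : zs a.1 = zs a'.1 := hzs a.1 a'.1 k1 k2
      have h6 : ∀ i, sg β g (St β M g r) v a (b i) = sg β g (St β M g r) v a' (b i) := by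
        intro i
        unfold sg
        rw [k2, mixv_congr β k1 k2 k3]
      show ((clip M ((St β M g r a).1 v + (r + 1 : ℕ) *
          ∑ i : Fin s, sg β g (St β M g r) v a (b i)) - zs a.1 : ℤ) : ℝ) =
        ((clip M ((St β M g r a').1 v +
          (r + 1 : ℕ) * ∑ i : Fin s, sg β g (St β M g r) v a' (b i)) - zs a'.1 : ℤ) : ℝ)
      rw [h2, h3, Finset.sum_congr rfl fun i _ => h6 i]
    have h4 := crossB β M g r v (fun (a : WB m n B s N r) (b : Fin s → SmpB m n B s N r) =>
        ((clip M ((St β M g r a).1 v + (r + 1 : ℕ) *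
          ∑ i : Fin s, sg β g (St β M g r) v a (b i)) - zs a.1 : ℤ) : ℝ)) h1
    have h5 := av_smpB (m := m) (n := n) (s := s) (N := N) r (β v) fun a b =>
      ((clip M ((St β M g r a).1 v + (r + 1 : ℕ) *
        ∑ i : Fin s, sg β g (St β M g r) v a (b i)) - zs a.1 : ℤ) : ℝ) *
          mg N g v (a.1 v) (qy r (St β M g r a))
    have h6 := av_smpB (m := m) (n := n) (s := s) (N := N) r (β v) fun a b =>
      ((clip M ((St β M g r a).1 v + (r + 1 : ℕ) *
        ∑ i : Fin s, sg β g (St β M g r) v a (b i)) - zs a.1 : ℤ) : ℝ) * gb β M g r v a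
    exact h5.trans (h4.trans h6.symm)
  x2 r v k := by
    have h1 := av_smpB (m := m) (n := n) (s := s) (N := N) r (β v) fun a b =>
      k a * ((∑ i : Fin s, ((sg β g (St β M g r) v a (b i) : ℤ) : ℝ)) / s)
    refine h1.trans ?_
    refine congrArg av (funext fun a => ?_)
    rw [av_smul, av_ghB]
  x3 r v D hD := by
    have h1 := av_smpB (m := m) (n := n) (s := s) (N := N) r (β v) fun a b =>
      ((∑ i : Fin s, ((sg β g (St β M g r) v a (b i) : ℤ) : ℝ)) / s - gb β M g r v a) ^ 2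
    refine (le_of_eq h1).trans ?_
    refine (av_mono fun a => ?_).trans (le_of_eq (av_const (D ^ 2 / s)))
    obtain ⟨e, he⟩ := hD (a.1 v)
    have h2 := av_var (s := s)
      (fun b : SmpB m n B s N r => ((sg β g (St β M g r) v a b : ℤ) : ℝ)) e D fun b => he _
    rw [av_sg] at h2
    exact h2

/-- **Regret of the accelerated method on the block worlds.** -/
theorem acc_regretB {M : ℤ} {g : Fin n → Fin m → (Fin n → ℤ) → ℤ} (hM : 0 ≤ M)
    (Psi : (Fin n → Fin m) → (Fin n → ℤ) → ℝ) (psi : (Fin n → Fin m) → ℝ) {L G D : ℝ}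
    (hcv : ∀ U y z, (∀ v, 0 ≤ y v ∧ y v ≤ M) → (∀ v, 0 ≤ z v ∧ z v ≤ M) →
      Psi U z ≤ Psi U y + ∑ v, mg N g v (U v) y * ((z v - y v : ℤ) : ℝ))
    (hsm : ∀ U y z, (∀ v, 0 ≤ y v ∧ y v ≤ M) → (∀ v, 0 ≤ z v ∧ z v ≤ M) →
      Psi U y + ∑ v, mg N g v (U v) y * ((z v - y v : ℤ) : ℝ) -
        L * ∑ v, ((z v - y v : ℤ) : ℝ) ^ 2 ≤ Psi U z)
    (zs : (Fin n → Fin m) → Fin n → ℤ) (hz0 : ∀ U v, 0 ≤ zs U v) (hz1 : ∀ U v, zs U v ≤ M)
    (hleg : ∀ v, PreD β v fun U => zs U v)
    (hz : ∀ U y, (∀ v, 0 ≤ y v ∧ y v ≤ M) →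
      psi U ≤ Psi U y + ∑ v, mg N g v (U v) y * ((zs U v - y v : ℤ) : ℝ))
    (hL0 : 0 ≤ L) (hL : 16 * s * L ≤ 1) (hG : ∀ v u y, |mg N g v u y| ≤ G)
    (hD : ∀ v u, ∃ e : ℝ, ∀ y, |((g v u y : ℤ) : ℝ) - e| ≤ D) (T : ℕ) :
    (wt T : ℝ) * av psi - n * (M : ℝ) ^ 2 / (2 * s) -
      (∑ a ∈ Finset.range T, ((a + 1 : ℕ) : ℝ) ^ 2) * (n * D ^ 2) -
      (∑ a ∈ Finset.range T, (wt (a + 1) : ℝ)) * (n * (G + 1)) ≤
      (wt T : ℝ) * av fun w : WB m n B s N T => Psi w.1 (xo β M g T w) :=
  acc_regret (frB (N := N) β M g s) hM Psi psi hcv hsm zs hz0 hz1 hleg hz hL0 hL hG hD T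

/-- the state of the averaged point lies in `[0, M]` -/
theorem xo_memB {M : ℤ} {g : Fin n → Fin m → (Fin n → ℤ) → ℤ} (hM : 0 ≤ M) (r : ℕ)
    (w : WB m n B s N r) (v : Fin n) : 0 ≤ xo β M g r w v ∧ xo β M g r w v ≤ M :=
  (frB (N := N) β M g s).xf_mem hM r w v

end frame

end Pool.Agent.Lib.SubBisB
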