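import Pool.Agent.Lib.SubBisB.Gib
import Pool.Agent.Lib.SubBis.Ent

/-!
The chain rule for a positive weight on the subsets of a finite set, in the order of an injective
key: product formula, entropy, and a common denominator of the conditional probabilities.
-/

open scoped BigOperators

namespace Pool.Agent.Lib.SubBisB.Gib

open Finset SubBis

variable {V : Type*} [Fintype V] [DecidableEq V] {w : Finset V → ℝ} {R : Finset V}
  {κ : Type*} [LinearOrder κ]

/-- the elements with a smaller key -/
def below (key : V → κ) (v : V) : Finset V := univ.filter fun x => key x < key v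

omit [DecidableEq V] in
theorem not_mem_below (key : V → κ) (v : V) : v ∉ below key v := by
  simp [below]

omit [Fintype V] in
theorem inter_insert_iff (v : V) (R S T : Finset V) :
    T ∩ insert v R = S ∩ insert v R ↔ T ∩ R = S ∩ R ∧ (v ∈ T ↔ v ∈ S) := by
  constructor
  · intro h
    refine ⟨inter_of_subset (subset_insert v R) h, ?_⟩
    have h1 := Finset.ext_iff.1 h v
    simpa using h1
  · rintro ⟨h1, h2⟩
    ext x
    have h3 := Finset.ext_iff.1 h1 x
    simp only [mem_inter, mem_insert] at h3 ⊢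
    constructor
    · rintro ⟨h4, rfl | h5⟩
      · exact ⟨h2.1 h4, Or.inl rfl⟩
      · exact ⟨(h3.1 ⟨h4, h5⟩).1, Or.inr h5⟩
    · rintro ⟨h4, rfl | h5⟩
      · exact ⟨h2.2 h4, Or.inl rfl⟩
      · exact ⟨(h3.2 ⟨h4, h5⟩).1, Or.inr h5⟩

theorem cls_insert (v : V) (R S : Finset V) :
    cls (insert v R) S = (cls R S).filter fun T => (v ∈ T ↔ v ∈ S) := by
  ext T
  rw [mem_cls, mem_filter, mem_cls, inter_insert_iff]

/-- the conditional probability of the status of `v` in `S` -/
noncomputable def qf (w : Finset V → ℝ) (R : Finset V) (v : V) (S : Finset V) : ℝ :=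
  if v ∈ S then pc w R v S else 1 - pc w R v S

theorem qf_eq (hw : ∀ S, 0 < w S) (R : Finset V) (v : V) (S : Finset V) :
    qf w R v S = Zc w (insert v R) S / Zc w R S := by
  have hZ := (Zc_pos hw R S).ne'
  unfold qf pc ce
  have h1 : Zc w (insert v R) S = ∑ T ∈ cls R S, if (v ∈ T ↔ v ∈ S) then w T else 0 := by
    unfold Zc
    rw [cls_insert, sum_filter]
  by_cases h : v ∈ S
  · rw [if_pos h, h1]
    congr 1
    exact sum_congr rfl fun T _ => by simp [h]
  · rw [if_neg h, h1, eq_div_iff hZ, sub_mul, div_mul_cancel₀ _ hZ, one_mul]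
    unfold Zc
    rw [← sum_sub_distrib]
    exact sum_congr rfl fun T _ => by
      by_cases h2 : v ∈ T <;> simp [h, h2]

theorem qf_pos (hw : ∀ S, 0 < w S) (R : Finset V) (v : V) (S : Finset V) : 0 < qf w R v S := by
  rw [qf_eq hw]
  exact div_pos (Zc_pos hw _ _) (Zc_pos hw _ _)

theorem Zc_empty (w : Finset V → ℝ) (S : Finset V) : Zc w ∅ S = ∑ T, w T := by
  unfold Zc
  congr 1
  ext T
  simp [cls]

theorem Zc_univ (w : Finset V → ℝ) (S : Finset V) : Zc w univ S = w S := by
  unfold Zc
  have h : cls univ S = {S} := by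
    ext T
    simp [cls]
  rw [h, sum_singleton]

theorem prod_Zc (hw : ∀ S, 0 < w S) (key : V → κ) (hkey : Function.Injective key)
    (S U : Finset V) :
    ∏ v ∈ U, (Zc w (insert v (U.filter fun x => key x < key v)) S /
      Zc w (U.filter fun x => key x < key v) S) = Zc w U S / Zc w ∅ S := by
  induction U using Finset.induction_on_max_value key with
  | empty =>
    rw [prod_empty, div_self (Zc_pos hw _ _).ne']
  | insert a s has hmax ih =>
    have h1 : ∀ x ∈ s, key x < key a := fun x hx =>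
      lt_of_le_of_ne (hmax x hx) fun h => has (hkey h ▸ hx)
    have h2 : (insert a s).filter (fun x => key x < key a) = s := by
      rw [filter_insert, if_neg (lt_irrefl _)]
      exact filter_true_of_mem h1
    have h3 : ∀ v ∈ s, (insert a s).filter (fun x => key x < key v) =
        s.filter fun x => key x < key v := fun v hv => by
      rw [filter_insert, if_neg (not_lt.2 (hmax v hv))]
    rw [prod_insert has, h2, prod_congr rfl fun v hv => by rw [h3 v hv], ih]
    have h4 := (Zc_pos hw s S).ne'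
    have h5 := (Zc_pos hw ∅ S).ne'
    field_simp

/-- (i) the product formula -/
theorem prod_q (hw : ∀ S, 0 < w S) (key : V → κ) (hkey : Function.Injective key)
    (S : Finset V) : ∏ v, qf w (below key v) v S = w S / ∑ T, w T := by
  have h := prod_Zc hw key hkey S univ
  rw [Zc_univ, Zc_empty] at h
  rw [← h]
  exact prod_congr rfl fun v _ => qf_eq hw _ v S

theorem h2_eq (p : ℝ) : h2 p = (Real.log 2)⁻¹ * Real.binEntropy p := by
  unfold h2 Real.binEntropy Real.logb
  rw [Real.log_inv, Real.log_inv]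
  ring

theorem concave_h2 : ConcaveOn ℝ (Set.Icc 0 1) h2 := by
  have h : ConcaveOn ℝ (Set.Icc 0 1) fun p => (Real.log 2)⁻¹ • Real.binEntropy p :=
    Real.strictConcave_binEntropy.concaveOn.smul
      (inv_nonneg.2 (Real.log_nonneg (by norm_num)))
  have e : h2 = fun p => (Real.log 2)⁻¹ • Real.binEntropy p := funext fun p => by
    rw [h2_eq, smul_eq_mul]
  rw [e]
  exact h

theorem sum_h2 (hw : ∀ S, 0 < w S) (R : Finset V) (v : V) :
    ∑ S, w S * h2 (pc w R v S) = -∑ S, w S * Real.logb 2 (qf w R v S) := by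
  have hd1 : Dep R fun S => Real.logb 2 (pc w R v S) := fun S S' h => by
    simp only [pc_dep w R v S S' h]
  have hd2 : Dep R fun S => Real.logb 2 (1 - pc w R v S) := fun S S' h => by
    simp only [pc_dep w R v S S' h]
  have h1 := sum_pc_mul hw v hd1
  have h2' := sum_pc_mul hw v hd2
  have h3 : ∀ S, w S * h2 (pc w R v S) = -(w S * (pc w R v S * Real.logb 2 (pc w R v S))) -
      w S * Real.logb 2 (1 - pc w R v S) +
        w S * (pc w R v S * Real.logb 2 (1 - pc w R v S)) := fun S => by
    unfold h2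
    ring
  simp only [h3]
  rw [sum_add_distrib, sum_sub_distrib, sum_neg_distrib, h1, h2', ← sum_neg_distrib,
    ← sum_sub_distrib, ← sum_add_distrib, ← sum_neg_distrib]
  refine sum_congr rfl fun S _ => ?_
  unfold qf
  split_ifs <;> ring

/-- (P3): the chain rule for the entropy -/
theorem sum_sum_h2 (hw : ∀ S, 0 < w S) (key : V → κ) (hkey : Function.Injective key) :
    ∑ v, ∑ S, w S * h2 (pc w (below key v) v S) =
      ∑ S, w S * (Real.logb 2 (∑ T, w T) - Real.logb 2 (w S)) := by
  have hT : 0 < ∑ T, w T := sum_pos (fun T _ => hw T) ⟨∅, mem_univ _⟩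
  simp only [sum_h2 hw]
  rw [sum_neg_distrib, sum_comm, ← sum_neg_distrib]
  refine sum_congr rfl fun S _ => ?_
  rw [← mul_sum]
  have h1 : ∑ v, Real.logb 2 (qf w (below key v) v S) = Real.logb 2 (w S / ∑ T, w T) := by
    rw [← prod_q hw key hkey S, Real.logb_prod]
    exact fun v _ => (qf_pos hw _ v S).ne'
  rw [h1, Real.logb_div (hw S).ne' hT.ne']
  ring

/-! ### A common denominator -/

/-- (iii) -/
theorem exists_denom (w : Finset V → ℕ) (hw : ∀ S, 0 < w S) :
    ∃ L : ℕ, 0 < L ∧ ∃ P : Finset V → V → Finset V → ℕ, (∀ R v S, P R v S ≤ L) ∧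
      (∀ R v S, pc (fun S => (w S : ℝ)) R v S = P R v S / L) ∧
      ∀ R v S S', S ∩ R = S' ∩ R → P R v S = P R v S' := by
  classical
  set L : ℕ := (∑ T, w T).factorial with hL
  have hL0 : 0 < L := Nat.factorial_pos _
  have hZ0 : ∀ R S, 0 < ∑ T ∈ cls R S, w T := fun R S =>
    sum_pos (fun T _ => hw T) ⟨S, self_mem_cls S⟩
  have hZL : ∀ R S, (∑ T ∈ cls R S, w T) ∣ L := fun R S =>
    Nat.dvd_factorial (hZ0 R S) (sum_le_sum_of_subset (subset_univ _))
  refine ⟨L, hL0, fun R v S => (∑ T ∈ cls R S, if v ∈ T then w T else 0) *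
    (L / ∑ T ∈ cls R S, w T), ?_, ?_, ?_⟩
  · intro R v S
    have h1 : (∑ T ∈ cls R S, if v ∈ T then w T else 0) ≤ ∑ T ∈ cls R S, w T :=
      sum_le_sum fun T _ => by split_ifs <;> simp
    calc (∑ T ∈ cls R S, if v ∈ T then w T else 0) * (L / ∑ T ∈ cls R S, w T)
        ≤ (∑ T ∈ cls R S, w T) * (L / ∑ T ∈ cls R S, w T) := Nat.mul_le_mul_right _ h1
      _ = L := Nat.mul_div_cancel' (hZL R S)
  · intro R v S
    obtain ⟨j, hj⟩ := hZL R S
    have hZ := hZ0 R S
    have h2 : L / ∑ T ∈ cls R S, w T = j := by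
      rw [hj]
      exact Nat.mul_div_cancel_left j hZ
    have hj0 : 0 < j := by
      rcases Nat.eq_zero_or_pos j with h | h
      · rw [h, mul_zero] at hj
        omega
      · exact h
    unfold pc ce Zc
    simp only []
    rw [h2, hj]
    have hZr : (0 : ℝ) < ((∑ T ∈ cls R S, w T : ℕ) : ℝ) := by exact_mod_cast hZ
    have hjr : (0 : ℝ) < (j : ℝ) := by exact_mod_cast hj0
    have e1 : (∑ T ∈ cls R S, (w T : ℝ) * (if v ∈ T then 1 else 0)) =
        ((∑ T ∈ cls R S, if v ∈ T then w T else 0 : ℕ) : ℝ) := by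
      push_cast
      exact sum_congr rfl fun T _ => by split_ifs <;> simp
    have e2 : (∑ T ∈ cls R S, (w T : ℝ)) = ((∑ T ∈ cls R S, w T : ℕ) : ℝ) := by
      push_cast
      rfl
    rw [e1, e2]
    push_cast at hZr ⊢
    field_simp
  · intro R v S S' h
    simp only [cls_congr h]

/-- (iv) the product formula in natural numbers -/
theorem prod_denom (w : Finset V → ℕ) (hw : ∀ S, 0 < w S) (key : V → κ)
    (hkey : Function.Injective key) {L : ℕ} (hL : 0 < L) {P : Finset V → V → Finset V → ℕ}
    (hP : ∀ R v S, P R v S ≤ L)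
    (hpc : ∀ R v S, pc (fun S => (w S : ℝ)) R v S = P R v S / L) (S : Finset V) :
    (∏ v, if v ∈ S then P (below key v) v S else L - P (below key v) v S) * ∑ T, w T =
      L ^ Fintype.card V * w S := by
  have hw' : ∀ S, 0 < (fun S => (w S : ℝ)) S := fun S => Nat.cast_pos.2 (hw S)
  have h := prod_q hw' key hkey S
  have hLr : (0 : ℝ) < (L : ℝ) := by exact_mod_cast hL
  have hT : (0 : ℝ) < ∑ T, (w T : ℝ) := sum_pos (fun T _ => hw' T) ⟨∅, mem_univ _⟩
  have h1 : ∀ v, (L : ℝ) * qf (fun S => (w S : ℝ)) (below key v) v S =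
      ((if v ∈ S then P (below key v) v S else L - P (below key v) v S : ℕ) : ℝ) := by
    intro v
    unfold qf
    rw [hpc]
    split_ifs with h2
    · field_simp
    · rw [Nat.cast_sub (hP _ _ _)]
      field_simp
  have h2 : (L : ℝ) ^ Fintype.card V * ∏ v, qf (fun S => (w S : ℝ)) (below key v) v S =
      ∏ v, ((if v ∈ S then P (below key v) v S else L - P (below key v) v S : ℕ) : ℝ) := by
    rw [← prod_congr rfl fun v _ => h1 v, prod_mul_distrib, prod_const, card_univ]
  rw [h, mul_div_assoc', div_eq_iff hT.ne'] at h2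
  have h3 : ((∏ v, if v ∈ S then P (below key v) v S else L - P (below key v) v S : ℕ) : ℝ) *
      ((∑ T, w T : ℕ) : ℝ) = (L : ℝ) ^ Fintype.card V * (w S : ℝ) := by
    push_cast at h2 ⊢
    rw [h2]
  exact_mod_cast h3

end Pool.Agent.Lib.SubBisB.Gib
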