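import Pool.Agent.Lib.SubBisB.GDefs

/-!
# The average over the labels
-/

open scoped BigOperators

namespace Pool.Agent.Lib.SubBisB

open Finset Pool.Agent.Lib.SubBisX.Reg

namespace LabBAux

theorem sqrt_le {b x : ℝ} (hb : 0 < b) (hx : 0 ≤ x) :
    Real.sqrt x ≤ (b * x + 1 / b) / 2 := by
  have h1 : Real.sqrt x * Real.sqrt x = x := Real.mul_self_sqrt hx
  have h2 : b * (1 / b) = 1 := by field_simp
  have h3 : 0 ≤ (b * Real.sqrt x - 1) ^ 2 := sq_nonneg _
  have h4 : 0 ≤ b * (b * x + 1 / b - 2 * Real.sqrt x) := by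
    have h5 : b * (b * x + 1 / b - 2 * Real.sqrt x) = (b * Real.sqrt x - 1) ^ 2 := by
      calc b * (b * x + 1 / b - 2 * Real.sqrt x)
          = b * b * x + b * (1 / b) - 2 * b * Real.sqrt x := by ring
        _ = b * b * (Real.sqrt x * Real.sqrt x) + 1 - 2 * b * Real.sqrt x := by rw [h1, h2]
        _ = (b * Real.sqrt x - 1) ^ 2 := by ring
    rw [h5]
    exact h3
  have h6 : 0 ≤ b * x + 1 / b - 2 * Real.sqrt x := by
    by_contra h7
    push Not at h7
    exact absurd h4 (not_le.2 (mul_neg_of_pos_of_neg hb h7))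
  linarith

theorem tele {n B : ℕ} (ψ : Fin n → Finset (Fin n) → ℝ)
    (h0 : ∀ v R, 0 ≤ ψ v R) (h1 : ∀ v R, ψ v R ≤ 1) (hm : ∀ v R R', R ⊆ R' → ψ v R ≤ ψ v R')
    (v : Fin n) (w : Fin n → Fin B) :
    ∑ x : Fin B, (ψ v (Rp (Function.update w v x) v) - ψ v (Rb (Function.update w v x) v)) ≤
      1 := by
  classical
  have h2 : ∀ x : Fin B,
      ψ v (Rp (Function.update w v x) v) - ψ v (Rb (Function.update w v x) v) ≤
        ψ v (univ.filter fun y => y ≠ v ∧ (w y : ℕ) < (x : ℕ) + 1) -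
          ψ v (univ.filter fun y => y ≠ v ∧ (w y : ℕ) < (x : ℕ)) := by
    intro x
    have h3 : ψ v (Rp (Function.update w v x) v) ≤
        ψ v (univ.filter fun y => y ≠ v ∧ (w y : ℕ) < (x : ℕ) + 1) := by
      apply hm
      intro y hy
      have h4 := (mem_filter.1 hy).2
      rw [Function.update_self] at h4
      have h5 : y ≠ v := by
        rintro rfl
        rw [Function.update_self] at h4
        rcases h4 with h4 | h4
        · exact lt_irrefl _ h4
        · exact lt_irrefl _ h4.2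
      rw [Function.update_of_ne h5] at h4
      rw [mem_filter]
      refine ⟨mem_univ _, h5, ?_⟩
      rcases h4 with h4 | h4
      · have h6 : (w y : ℕ) < (x : ℕ) := h4
        omega
      · rw [h4.1]
        omega
    have h4 : ψ v (univ.filter fun y => y ≠ v ∧ (w y : ℕ) < (x : ℕ)) ≤
        ψ v (Rb (Function.update w v x) v) := by
      apply hm
      intro y hy
      obtain ⟨h5, h6⟩ := (mem_filter.1 hy).2
      unfold Rb
      rw [mem_filter]
      refine ⟨mem_univ _, ?_⟩
      rw [Function.update_self, Function.update_of_ne h5]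
      exact h6
    linarith
  refine (Finset.sum_le_sum fun x _ => h2 x).trans ?_
  rw [Fin.sum_univ_eq_sum_range (fun k =>
    ψ v (univ.filter fun y => y ≠ v ∧ (w y : ℕ) < k + 1) -
      ψ v (univ.filter fun y => y ≠ v ∧ (w y : ℕ) < k)) B,
    Finset.sum_range_sub (fun k => ψ v (univ.filter fun y => y ≠ v ∧ (w y : ℕ) < k)) B]
  have h3 := h0 v (univ.filter fun y => y ≠ v ∧ (w y : ℕ) < 0)
  have h4 := h1 v (univ.filter fun y => y ≠ v ∧ (w y : ℕ) < B)
  linarith

end LabBAux

/-- The average over random blocks of the sum of the square roots of the increments inside a block. -/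
theorem label_av {n B : ℕ} (hB : 0 < B) (ψ : Fin n → Finset (Fin n) → ℝ)
    (h0 : ∀ v R, 0 ≤ ψ v R) (h1 : ∀ v R, ψ v R ≤ 1) (hm : ∀ v R R', R ⊆ R' → ψ v R ≤ ψ v R') :
    (av fun β : Fin n → Fin B => ∑ v, Real.sqrt (ψ v (Rp β v) - ψ v (Rb β v))) ≤
      n / Real.sqrt B := by
  classical
  have : Nonempty (Fin B) := ⟨⟨0, hB⟩⟩
  have hb : (0 : ℝ) < B := by exact_mod_cast hB
  have hs : 0 < Real.sqrt B := Real.sqrt_pos.2 hb
  have hss : Real.sqrt B * Real.sqrt B = B := Real.mul_self_sqrt hb.le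
  have hsub : ∀ (β : Fin n → Fin B) v, Rb β v ⊆ Rp β v := by
    intro β v y hy
    exact mem_filter.2 ⟨mem_univ _, Or.inl (mem_filter.1 hy).2⟩
  have h2 : ∀ v : Fin n,
      (av fun β : Fin n → Fin B => ψ v (Rp β v) - ψ v (Rb β v)) ≤ 1 / B := by
    intro v
    rw [← SubBisX.Bounds.av_update v (fun β : Fin n → Fin B => ψ v (Rp β v) - ψ v (Rb β v))]
    refine (av_mono (g := fun _ => 1 / (B : ℝ)) fun w => ?_).trans (av_const _).le
    unfold av
    rw [Fintype.card_fin]
    exact div_le_div_of_nonneg_right (LabBAux.tele ψ h0 h1 hm v w) hb.le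
  have h3 : (av fun β : Fin n → Fin B => ∑ v, Real.sqrt (ψ v (Rp β v) - ψ v (Rb β v))) ≤
      av fun β : Fin n → Fin B => ∑ v : Fin n,
        (Real.sqrt B * (ψ v (Rp β v) - ψ v (Rb β v)) + 1 / Real.sqrt B) / 2 := by
    refine av_mono fun β => Finset.sum_le_sum fun v _ => LabBAux.sqrt_le hs ?_
    have := hm v _ _ (hsub β v)
    linarith
  refine h3.trans ?_
  rw [av_sum]
  have h4 : ∀ v : Fin n, (av fun β : Fin n → Fin B =>
      (Real.sqrt B * (ψ v (Rp β v) - ψ v (Rb β v)) + 1 / Real.sqrt B) / 2) ≤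
        1 / Real.sqrt B := by
    intro v
    have h5 : (av fun β : Fin n → Fin B =>
        (Real.sqrt B * (ψ v (Rp β v) - ψ v (Rb β v)) + 1 / Real.sqrt B) / 2) =
        (Real.sqrt B / 2) * (av fun β : Fin n → Fin B => ψ v (Rp β v) - ψ v (Rb β v)) +
          1 / Real.sqrt B / 2 := by
      rw [← av_smul, ← av_const (Ω := Fin n → Fin B) (1 / Real.sqrt B / 2), ← av_add]
      congr 1
      funext β
      ring
    rw [h5]
    have h6 := mul_le_mul_of_nonneg_left (h2 v) (by positivity : 0 ≤ Real.sqrt B / 2)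
    have h7 : Real.sqrt B / 2 * (1 / (B : ℝ)) = 1 / Real.sqrt B / 2 := by
      calc Real.sqrt B / 2 * (1 / (B : ℝ))
          = Real.sqrt B / 2 * (1 / (Real.sqrt B * Real.sqrt B)) := by rw [hss]
        _ = 1 / Real.sqrt B / 2 := by
          field_simp
    linarith
  refine (Finset.sum_le_sum fun v _ => h4 v).trans ?_
  rw [Finset.sum_const, Finset.card_univ, Fintype.card_fin, nsmul_eq_mul]
  exact le_of_eq (by ring)

end Pool.Agent.Lib.SubBisB
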