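import Pool.Agent.Lib.SubBisB.LowB
import Pool.Agent.Lib.SubBisB.LabB
import Pool.Agent.Lib.SubBisB.BUp
import Pool.Agent.Lib.SubBisB.BWorld
import Pool.Agent.Lib.SubBisX.AccInstB
import Pool.Agent.Lib.SubBisX.AccCore

/-!
The mean of the output of the accelerated method on the worlds with random blocks.
-/

open scoped BigOperators

namespace Pool.Agent.Lib.SubBisB

open Finset SubBis Pool.Agent.Lib.SubBisX Pool.Agent.Lib.SubBisX.Reg Pool.Agent.Lib.SubBisX.Core
  Pool.Agent.Lib.SubBisX.Acc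

variable {n : ℕ}

/-- The entropy loss is at most `1 / (2 q)`. -/
theorem dl_le_half {q : ℕ} (hq : 0 < q) : dl (2 ^ (2 * q.size + 3)) ≤ 1 / (2 * q) := by
  set k := q.size with hk
  have hm : 2 ≤ 2 ^ (2 * k + 3) := by
    calc 2 = 2 ^ 1 := rfl
      _ ≤ 2 ^ (2 * k + 3) := Nat.pow_le_pow_right (by norm_num) (by omega)
  have hm0 : (0 : ℝ) < (2 : ℝ) ^ (2 * k + 3) := by positivity
  have h1 := h2_one_div_le hm
  unfold dl
  push_cast at h1 ⊢
  have h3 : Real.logb 2 ((2 : ℝ) ^ (2 * k + 3)) = 2 * k + 3 := by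
    rw [Real.logb_pow, Real.logb_self_eq_one (by norm_num)]
    push_cast
    ring
  have h4 : Real.logb 2 ((2 : ℝ) ^ (2 * k + 3) + 1) ≤ 2 * k + 4 := by
    have h5 : (2 : ℝ) ^ (2 * k + 3) + 1 ≤ 2 ^ (2 * k + 4) := by
      have : (1 : ℝ) ≤ 2 ^ (2 * k + 3) := one_le_pow₀ (by norm_num)
      rw [pow_succ (2 : ℝ) (2 * k + 3)]
      linarith
    have h := Real.logb_le_logb_of_le (b := 2) (by norm_num) (by positivity) h5
    refine h.trans (le_of_eq ?_)
    rw [Real.logb_pow, Real.logb_self_eq_one (by norm_num)]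
    push_cast
    ring
  rw [h3] at h1
  have h6 : Real.logb 2 ((2 : ℝ) ^ (2 * k + 3) + 1) / 2 ^ (2 * k + 3) ≤
      (2 * k + 4) / 2 ^ (2 * k + 3) := div_le_div_of_nonneg_right h4 hm0.le
  have h7 : (2 * (k : ℝ) + 4) / 2 ^ (2 * k + 3) + (2 * k + 3 + 2) / 2 ^ (2 * k + 3) =
      (4 * k + 9) / 2 ^ (2 * k + 3) := by
    rw [← add_div]
    ring
  have h8 : (4 * (k : ℝ) + 9) / 2 ^ (2 * k + 3) ≤ 1 / (2 * q) := by
    have hq' : (0 : ℝ) < q := by exact_mod_cast hq
    rw [div_le_div_iff₀ hm0 (by positivity), one_mul]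
    have h9 : q < 2 ^ k := Nat.lt_size_self q
    have h10 : 1 ≤ k := by
      rw [hk]
      exact Nat.size_pos.2 hq
    have h12 : (4 * k + 9) * (2 * q) ≤ 2 ^ (2 * k + 3) := by
      rcases Nat.lt_or_ge k 3 with h13 | h13
      · have h14 : k = 1 ∨ k = 2 := by omega
        rcases h14 with h14 | h14
        · rw [h14] at h9 ⊢
          norm_num at h9 ⊢
          omega
        · rw [h14] at h9 ⊢
          norm_num at h9 ⊢
          omega
      · have h11 : (4 * k + 9) * 2 ≤ 2 ^ (k + 3) := by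
          obtain ⟨e, he⟩ := Nat.exists_eq_add_of_le h13
          rw [he]
          clear_value k
          clear he
          induction e with
          | zero => norm_num
          | succ e ih =>
            have : 2 ^ (3 + (e + 1) + 3) = 2 * 2 ^ (3 + e + 3) := by ring
            omega
        calc (4 * k + 9) * (2 * q) = (4 * k + 9) * 2 * q := by ring
          _ ≤ 2 ^ (k + 3) * 2 ^ k := Nat.mul_le_mul h11 h9.le
          _ = 2 ^ (2 * k + 3) := by rw [← pow_add]; congr 1; omega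
    exact_mod_cast h12
  linarith

/-- The error budget with the parameters of `ParA` and `4 ^ nu` blocks. -/
theorem bcore_budget {q : ℕ} (hq : 1 ≤ q) {n : ℕ} {lZ X e g : ℝ} (he : e ≤ 1 / (2 * q))
    (hg : g ≤ n / ParA.ss q)
    (h : X ≤ lZ + n / q ∧
      lZ - ((n * (1 + q * e) + q * ParA.kap q * g) / q +
        2 * (q * (ParA.kap q * (n * ParA.NN q))) / (q * ParA.MM q) +
        n * ParA.MM q / (q * ParA.ss q * ParA.TT q ^ 2) +
        n * ParA.TT q * (q * ParA.kap q) ^ 2 / (q * ParA.MM q) +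
        n * ParA.TT q * ((q * ParA.mu q + q * ParA.kap q) + 1) / (q * ParA.MM q)) ≤ X) :
    |X - lZ| ≤ 6 * n / q := by
  obtain ⟨h1, h2⟩ := h
  have hq' : (1 : ℝ) ≤ q := by exact_mod_cast hq
  have hn : (0 : ℝ) ≤ n := Nat.cast_nonneg n
  have hs : (0 : ℝ) < ParA.ss q := by exact_mod_cast ParA.ss_pos q
  have hsz : (1 : ℝ) ≤ q.size := by exact_mod_cast Nat.size_pos.2 hq
  have hsk : (q : ℝ) * (q.size + 1) ≤ ParA.ss q := by exact_mod_cast (ParA.lt_ss q).le
  have hM : (ParA.MM q : ℝ) = 128 * (ParA.ss q : ℝ) ^ 3 := by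
    rw [ParA.MM_eq]; push_cast; ring
  have hN : (ParA.NN q : ℝ) = 128 * (ParA.ss q : ℝ) ^ 2 := by
    rw [ParA.NN_eq]; push_cast; ring
  have hT : (ParA.TT q : ℝ) = 12 * ParA.ss q := by
    unfold ParA.TT; push_cast; ring
  have hk : (ParA.kap q : ℝ) = q.size + 1 := by
    unfold ParA.kap; push_cast; ring
  have hmu : (ParA.mu q : ℝ) = 2 * q.size + 3 := by
    unfold ParA.mu; push_cast; ring
  set S : ℝ := (ParA.ss q : ℝ) with hS
  set z : ℝ := (q.size : ℝ) with hz
  have hq0 : (0 : ℝ) < q := by linarith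
  -- the five terms
  have t1 : ((n : ℝ) * (1 + q * e) + q * ParA.kap q * g) / q ≤ (5 / 2) * (n / q) := by
    have h4 : (q : ℝ) * e ≤ 1 / 2 := by
      have := mul_le_mul_of_nonneg_left he hq0.le
      refine this.trans (le_of_eq ?_)
      field_simp
    have h6 : (q : ℝ) * ParA.kap q * g ≤ n := by
      rw [hk]
      have h7 : (q : ℝ) * (z + 1) * g ≤ q * (z + 1) * (n / S) :=
        mul_le_mul_of_nonneg_left hg (by positivity)
      refine h7.trans ?_
      rw [mul_div_assoc', div_le_iff₀ hs]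
      nlinarith
    rw [div_le_iff₀ hq0]
    have h5 : 5 / 2 * ((n : ℝ) / q) * q = 5 / 2 * n := by field_simp
    rw [h5]
    nlinarith
  have t2 : 2 * ((q : ℝ) * (ParA.kap q * (n * ParA.NN q))) / (q * ParA.MM q) ≤ 2 * (n / q) := by
    rw [hk, hN, hM, div_le_iff₀ (by positivity)]
    have h3 : 2 * ((n : ℝ) / q) * (q * (128 * S ^ 3)) = 256 * n * S ^ 3 := by
      field_simp
      ring
    rw [h3]
    have h4 := mul_le_mul_of_nonneg_left hsk (show (0 : ℝ) ≤ 256 * n * S ^ 2 by positivity)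
    nlinarith
  have t3 : (n : ℝ) * ParA.MM q / (q * S * ParA.TT q ^ 2) ≤ (8 / 9) * (n / q) := by
    rw [hM, hT]
    refine le_of_eq ?_
    field_simp
    ring
  have hS2 : ((q : ℝ) * (z + 1)) ^ 2 ≤ S ^ 2 := pow_le_pow_left₀ (by positivity) hsk 2
  have t4 : (n : ℝ) * ParA.TT q * (q * ParA.kap q) ^ 2 / (q * ParA.MM q) ≤ (12 / 128) * (n / q) := by
    rw [hk, hM, hT, div_le_iff₀ (by positivity)]
    have h3 : (12 / 128) * ((n : ℝ) / q) * (q * (128 * S ^ 3)) = 12 * n * S ^ 3 := by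
      field_simp
    rw [h3]
    have h4 := mul_le_mul_of_nonneg_left hS2 (show (0 : ℝ) ≤ 12 * n * S by positivity)
    nlinarith
  have t5 : (n : ℝ) * ParA.TT q * ((q * ParA.mu q + q * ParA.kap q) + 1) / (q * ParA.MM q) ≤
      (48 / 128) * (n / q) := by
    rw [hk, hM, hT, hmu, div_le_iff₀ (by positivity)]
    have h3 : (48 / 128) * ((n : ℝ) / q) * (q * (128 * S ^ 3)) = 48 * n * S ^ 3 := by
      field_simp
    rw [h3]
    have h4 : (q : ℝ) * (2 * z + 3) + q * (z + 1) + 1 ≤ 4 * (q * (z + 1)) * (q * (z + 1)) := by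
      have h5 : (2 : ℝ) ≤ q * (z + 1) := by nlinarith
      have h6 : (q : ℝ) * (2 * z + 3) + q * (z + 1) + 1 ≤ 4 * (q * (z + 1)) + 1 := by nlinarith
      nlinarith
    have h5 := mul_le_mul_of_nonneg_left (h4.trans (show
      4 * ((q : ℝ) * (z + 1)) * (q * (z + 1)) ≤ 4 * S ^ 2 by nlinarith))
      (show (0 : ℝ) ≤ n * (12 * S) by positivity)
    nlinarith
  have h0 : (0 : ℝ) ≤ n / q := by positivity
  have e5 : (6 : ℝ) * n / q = 6 * (n / q) := by ring
  rw [e5, abs_le]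
  constructor <;> linarith

/-- The estimates for fixed labels. -/
theorem coreB_fix {q : ℕ} (hq : 1 ≤ q) {F : Finset (Fin n) → ℤ} (h0 : F ∅ = 0)
    (hF : FCS.Subm F) (hk : ∀ S v, |F (insert v S) - F S| ≤ ParA.kap q) {B : ℕ}
    (β : Fin n → Fin B) :
    (av fun w : WB (2 ^ ParA.mu q) n B (ParA.ss q) (ParA.NN q) (ParA.TT q) =>
        (Phi q (ParA.MM q) F w.1 (xo β (ParA.MM q : ℤ) (gr q F) (ParA.TT q) w) : ℝ)) /
        (q * ParA.MM q) ≤ Bounds.logZ F + n / q ∧
      Bounds.logZ F - ((n * (1 + q * dl (2 ^ ParA.mu q)) + q * ParA.kap q * gap F β) / q +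
        2 * (q * (ParA.kap q * (n * ParA.NN q))) / (q * ParA.MM q) +
        n * ParA.MM q / (q * ParA.ss q * ParA.TT q ^ 2) +
        n * ParA.TT q * (q * ParA.kap q) ^ 2 / (q * ParA.MM q) +
        n * ParA.TT q * ((q * ParA.mu q + q * ParA.kap q) + 1) / (q * ParA.MM q)) ≤
      (av fun w : WB (2 ^ ParA.mu q) n B (ParA.ss q) (ParA.NN q) (ParA.TT q) =>
        (Phi q (ParA.MM q) F w.1 (xo β (ParA.MM q : ℤ) (gr q F) (ParA.TT q) w) : ℝ)) /
        (q * ParA.MM q) := by
  have : NeZero (ParA.ss q) := ⟨(ParA.ss_pos q).ne'⟩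
  have : NeZero (ParA.NN q) := ⟨(Nat.pow_pos (by norm_num)).ne'⟩
  have hm : 2 ≤ 2 ^ ParA.mu q := by
    calc 2 = 2 ^ 1 := rfl
      _ ≤ 2 ^ ParA.mu q := Nat.pow_le_pow_right (by norm_num) (by unfold ParA.mu; omega)
  obtain ⟨S, S', hS, hSL⟩ := exists_compare hm q (ParA.kap q) F β
  have hM0 : (0 : ℤ) ≤ (ParA.MM q : ℤ) := Int.natCast_nonneg _
  have hMp : 0 < ParA.MM q := Nat.pow_pos (by norm_num)
  have hTp : 0 < ParA.TT q := Nat.mul_pos (by norm_num) (ParA.ss_pos q)
  have hphi : ∀ (U : Fin n → Fin (2 ^ ParA.mu q)) (y : Fin n → ℤ),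
      ((∑ v, ee (2 ^ ParA.mu q) q (U v) * y v - q * Bounds.Fhat F (ParA.MM q) y : ℤ) : ℝ) =
        (Phi q (ParA.MM q) F U y : ℝ) := by
    intro U y
    unfold Phi
    rw [Bounds.Fhat_eq_nat]
  set psi0 : (Fin n → Fin (2 ^ ParA.mu q)) → ℝ := fun U =>
    ((∑ v, ee (2 ^ ParA.mu q) q (U v) * (if v ∈ S U then (ParA.MM q : ℤ) else 0) : ℤ) : ℝ) -
      q * (ParA.MM q * (F (S' U) + ParA.kap q * (symmDiff (S U) (S' U)).card) +
        ParA.kap q * (n * ParA.NN q)) with hpsi
  have hreg : (wt (ParA.TT q) : ℝ) * (av psi0) - n * (ParA.MM q : ℝ) ^ 2 / (2 * ParA.ss q) -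
      (∑ a ∈ range (ParA.TT q), ((a : ℝ) + 1) ^ 2) * n * ((q : ℝ) * ParA.kap q) ^ 2 -
      (∑ a ∈ range (ParA.TT q), (wt (a + 1) : ℝ)) * n *
        (((q : ℝ) * ParA.mu q + q * ParA.kap q) + 1) ≤
      wt (ParA.TT q) * av fun w : WB (2 ^ ParA.mu q) n B (ParA.ss q) (ParA.NN q) (ParA.TT q) =>
        AccI.Psi q (ParA.NN q) F w.1 (xo β (ParA.MM q : ℤ) (gr q F) (ParA.TT q) w) := by
    have hss : (0 : ℝ) < ParA.ss q := by exact_mod_cast ParA.ss_pos q
    have hNN : (ParA.NN q : ℝ) = 128 * (ParA.ss q : ℝ) ^ 2 := by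
      rw [ParA.NN_eq]; push_cast; ring
    have hqk : (q : ℝ) * ParA.kap q ≤ ParA.ss q := by exact_mod_cast (ParA.lt_ss q).le
    have h := acc_regretB (n := n) (s := ParA.ss q) (N := ParA.NN q) (g := gr q F) β hM0
      (fun U y => AccI.Psi q (ParA.NN q) F U y) psi0
      (L := 5 * q * ParA.kap q / ParA.NN q) (G := (q : ℝ) * ParA.mu q + q * ParA.kap q)
      (D := (q : ℝ) * ParA.kap q)
      (fun U y z _ _ => AccI.hcv hF h0 q U y z) (fun U y z _ _ => AccI.hsm hF h0 hk U y z)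
      (fun U v => if v ∈ S U then (ParA.MM q : ℤ) else 0)
      (fun U v => by split_ifs <;> simp) (fun U v => by split_ifs <;> simp)
      (fun v a b h1 h2 => by
        have h3 := hS v a b h1 h2
        simp only [h3])
      (fun U y _ => AccI.hzB hF h0 hk q (ParA.MM q) U y (S U) (S' U)) (by positivity) ?_ ?_ ?_
      (ParA.TT q)
    · refine le_trans (le_of_eq ?_) h
      have e1 : ∑ a ∈ range (ParA.TT q), ((a + 1 : ℕ) : ℝ) ^ 2 =
          ∑ a ∈ range (ParA.TT q), ((a : ℝ) + 1) ^ 2 :=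
        sum_congr rfl fun a _ => by push_cast; rfl
      rw [e1]
      push_cast
      ring
    · rw [hNN]
      have e1 : 16 * (ParA.ss q : ℝ) * (5 * q * ParA.kap q / (128 * (ParA.ss q : ℝ) ^ 2)) =
          80 * (q * ParA.kap q) / (128 * ParA.ss q) := by
        field_simp
        ring
      rw [e1, div_le_one (by positivity)]
      linarith
    · intro v u y
      unfold mg
      rw [abs_le]
      constructor
      · rw [← av_const (Ω := Fin n → Fin (ParA.NN q)) (-((q : ℝ) * ParA.mu q + q * ParA.kap q))]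
        refine av_mono fun ξ => ?_
        have h1 := (abs_le.1 (AccI.hG (mu := ParA.mu q) (c := q) hk v u
          fun x => y x + (((ξ x : ℕ) : ℤ)))).1
        exact_mod_cast h1
      · rw [← av_const (Ω := Fin n → Fin (ParA.NN q)) ((q : ℝ) * ParA.mu q + q * ParA.kap q)]
        refine av_mono fun ξ => ?_
        have h1 := (abs_le.1 (AccI.hG (mu := ParA.mu q) (c := q) hk v u
          fun x => y x + (((ξ x : ℕ) : ℤ)))).2
        exact_mod_cast h1
    · intro v u
      obtain ⟨e, he⟩ := AccI.hD (c := q) hk v u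
      refine ⟨e, fun y => ?_⟩
      have h1 := he y
      exact_mod_cast h1
  have hgap : (n : ℝ) * ((1 + q * dl (2 ^ ParA.mu q)) + q * ParA.kap q * gap F β / n) =
      n * (1 + q * dl (2 ^ ParA.mu q)) + q * ParA.kap q * gap F β := by
    rcases Nat.eq_zero_or_pos n with hn | hn
    · subst hn
      have : gap F β = 0 := by
        unfold gap
        exact Finset.sum_of_isEmpty _
      rw [this]
      simp
    · have hn' : (n : ℝ) ≠ 0 := by exact_mod_cast hn.ne'
      field_simp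
  have hmain := acore_num (n := n) (c := q) (M := ParA.MM q) (T := ParA.TT q) (s := ParA.ss q)
    (lZ := Bounds.logZ F) (AX := av fun w : WB (2 ^ ParA.mu q) n B (ParA.ss q) (ParA.NN q)
      (ParA.TT q) => (Phi q (ParA.MM q) F w.1 (xo β (ParA.MM q : ℤ) (gr q F) (ParA.TT q) w) : ℝ))
    (dl := q * (ParA.kap q * (n * ParA.NN q)))
    (el := (1 + q * dl (2 ^ ParA.mu q)) + q * ParA.kap q * gap F β / n)
    hq hMp hTp (ParA.ss_pos q) (by positivity) hreg ?_ ?_ ?_
  · refine ⟨hmain.1, le_trans (le_of_eq ?_) hmain.2⟩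
    rw [hgap]
  · have h := upper_block (H := HB (2 ^ ParA.mu q) n B (ParA.ss q) (ParA.NN q) (ParA.TT q))
      q (ParA.MM q) β F
      (fun w => xo β (ParA.MM q : ℤ) (gr q F) (ParA.TT q) w)
      (fun w v => (xo_memB β hM0 _ w v).1) (fun w v => (xo_memB β hM0 _ w v).2)
      (fun v a b h1 h2 h3 => xo_pre β _ v a b h1 h2 h3)
    refine (le_of_eq (congrArg av (funext fun w => ?_))).trans h
    exact (hphi w.1 _).symm
  · rw [← av_sub]
    rw [abs_le]
    constructor
    · rw [← av_const (Ω := WB (2 ^ ParA.mu q) n B (ParA.ss q) (ParA.NN q) (ParA.TT q))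
        (-((q : ℝ) * (ParA.kap q * (n * ParA.NN q))))]
      refine av_mono fun w => ?_
      exact (abs_le.1 (AccI.abs_Psi_sub (M := ParA.MM q) hF h0 hk w.1
        (fun v => (xo_memB (g := gr q F) β hM0 _ w v).1)
        (fun v => (xo_memB (g := gr q F) β hM0 _ w v).2))).1
    · rw [← av_const (Ω := WB (2 ^ ParA.mu q) n B (ParA.ss q) (ParA.NN q) (ParA.TT q))
        ((q : ℝ) * (ParA.kap q * (n * ParA.NN q)))]
      refine av_mono fun w => ?_
      exact (abs_le.1 (AccI.abs_Psi_sub (M := ParA.MM q) hF h0 hk w.1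
        (fun v => (xo_memB (g := gr q F) β hM0 _ w v).1)
        (fun v => (xo_memB (g := gr q F) β hM0 _ w v).2))).2
  · have h1 : av psi0 = ParA.MM q * (av fun U : Fin n → Fin (2 ^ ParA.mu q) =>
        (((∑ v, ee (2 ^ ParA.mu q) q (U v) * (if v ∈ S U then 1 else 0) : ℤ) : ℝ) -
          q * (F (S' U) + ParA.kap q * (symmDiff (S U) (S' U)).card))) -
          (q : ℝ) * (ParA.kap q * (n * ParA.NN q)) := by
      rw [← av_smul, ← av_const (Ω := Fin n → Fin (2 ^ ParA.mu q))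
        ((q : ℝ) * (ParA.kap q * (n * ParA.NN q))), ← av_sub]
      refine congrArg av (funext fun U => ?_)
      rw [hpsi]
      have e1 : (∑ v, ee (2 ^ ParA.mu q) q (U v) * (if v ∈ S U then (ParA.MM q : ℤ) else 0)) =
          (ParA.MM q : ℤ) * ∑ v, ee (2 ^ ParA.mu q) q (U v) * (if v ∈ S U then 1 else 0) := by
        rw [mul_sum]
        refine sum_congr rfl fun v _ => ?_
        split_ifs <;> ring
      simp only [e1]
      rw [Int.cast_mul, Int.cast_natCast]
      ring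
    rw [h1, hgap]
    have h2 := mul_le_mul_of_nonneg_left hSL (Nat.cast_nonneg (α := ℝ) (ParA.MM q))
    linarith

/-- **The core of the method with random blocks**: the mean of the output over the labels and the
worlds is the logarithm of the partition function up to `6 n / q`. -/
theorem coreB {q : ℕ} (hq : 1 ≤ q) (F : Finset (Fin n) → ℤ) (h0 : F ∅ = 0) (hF : FCS.Subm F)
    (hk : ∀ S v, |F (insert v S) - F S| ≤ ParA.kap q) :
    |(av fun p : (Fin n → Fin (2 ^ (2 * ParA.nu q))) × WB (2 ^ ParA.mu q) n (2 ^ (2 * ParA.nu q))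
        (ParA.ss q) (2 ^ (2 * ParA.nu q + 7)) (ParA.TT q) =>
        (Phi q (ParA.MM q) F p.2.1 (xo p.1 (ParA.MM q : ℤ) (gr q F) (ParA.TT q) p.2) : ℝ)) /
        (q * ParA.MM q) - Bounds.logZ F| ≤ 6 * n / q := by
  have hB : 0 < 2 ^ (2 * ParA.nu q) := Nat.pow_pos (by norm_num)
  have : NeZero (2 ^ (2 * ParA.nu q)) := ⟨hB.ne'⟩
  have hq0 : (0 : ℝ) < q := by exact_mod_cast hq
  have hM0 : (0 : ℝ) < ParA.MM q := by
    have : 0 < ParA.MM q := Nat.pow_pos (by norm_num)
    exact_mod_cast this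
  have hgapav := label_av hB (psi F) (psi_nonneg' F) (psi_le_one' F) (psi_mono' F)
  have hsq : Real.sqrt ((2 ^ (2 * ParA.nu q) : ℕ) : ℝ) = ParA.ss q := by
    have h1 : ((2 ^ (2 * ParA.nu q) : ℕ) : ℝ) = (ParA.ss q : ℝ) ^ 2 := by
      unfold ParA.ss
      push_cast
      rw [← pow_mul, mul_comm]
    rw [h1]
    exact Real.sqrt_sq (Nat.cast_nonneg _)
  rw [hsq] at hgapav
  refine bcore_budget (e := dl (2 ^ ParA.mu q)) (g := av fun β : Fin n → Fin (2 ^ (2 * ParA.nu q)) =>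
    gap F β) hq (dl_le_half hq) hgapav ?_
  rw [av_prod]
  set R : ℝ := 2 * (q * (ParA.kap q * (n * ParA.NN q))) / (q * ParA.MM q) +
        n * ParA.MM q / (q * ParA.ss q * ParA.TT q ^ 2) +
        n * ParA.TT q * (q * ParA.kap q) ^ 2 / (q * ParA.MM q) +
        n * ParA.TT q * ((q * ParA.mu q + q * ParA.kap q) + 1) / (q * ParA.MM q) with hR
  set A : (Fin n → Fin (2 ^ (2 * ParA.nu q))) → ℝ := fun β =>
    av fun w : WB (2 ^ ParA.mu q) n (2 ^ (2 * ParA.nu q)) (ParA.ss q) (2 ^ (2 * ParA.nu q + 7))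
      (ParA.TT q) =>
        (Phi q (ParA.MM q) F w.1 (xo β (ParA.MM q : ℤ) (gr q F) (ParA.TT q) w) : ℝ) with hA
  have hfix : ∀ β, A β / (q * ParA.MM q) ≤ Bounds.logZ F + n / q ∧
      Bounds.logZ F - ((n * (1 + q * dl (2 ^ ParA.mu q)) + q * ParA.kap q * gap F β) / q + R) ≤
        A β / (q * ParA.MM q) := by
    intro β
    have h1 := coreB_fix hq h0 hF hk β
    refine ⟨h1.1, le_trans (le_of_eq ?_) h1.2⟩
    rw [hR]
    ring
  constructor
  · rw [div_le_iff₀ (by positivity)]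
    rw [← av_const (Ω := Fin n → Fin (2 ^ (2 * ParA.nu q)))
      ((Bounds.logZ F + n / q) * (q * ParA.MM q))]
    refine av_mono fun β => ?_
    have h1 := (hfix β).1
    rwa [div_le_iff₀ (by positivity)] at h1
  · rw [le_div_iff₀ (by positivity)]
    have h2 : (Bounds.logZ F - ((n * (1 + q * dl (2 ^ ParA.mu q)) + q * ParA.kap q *
        av fun β : Fin n → Fin (2 ^ (2 * ParA.nu q)) => gap F β) / q + R)) * (q * ParA.MM q) =
        av fun β : Fin n → Fin (2 ^ (2 * ParA.nu q)) =>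
          (Bounds.logZ F - (n * (1 + q * dl (2 ^ ParA.mu q)) / q + R)) * (q * ParA.MM q) -
            (ParA.kap q * (q * ParA.MM q)) * gap F β := by
      rw [av_sub, av_const, av_smul]
      field_simp
      ring
    refine le_trans (le_of_eq ?_) (le_trans (le_of_eq h2) (av_mono fun β => ?_))
    · rw [hR]
      ring
    · have h1 := (hfix β).2
      rw [le_div_iff₀ (by positivity)] at h1
      refine le_trans (le_of_eq ?_) h1
      field_simp
      ring

end Pool.Agent.Lib.SubBisB
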