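import Pool.Agent.Lib.SubBisB.SamDig

/-!
# The sum of the digit values below a threshold
-/

open scoped BigOperators

namespace Pool.Agent.Lib.SubBisB

open Finset SubBis

/-- The entropy loss for `m` digits. -/
noncomputable def dl (m : ℕ) : ℝ := Real.logb 2 ((m : ℝ) + 1) / m + h2 (1 / m)

/-- The mean digit value below the threshold `t` on the scale `m L` is at least `c` times the
entropy, up to small terms. -/
theorem ee_sum_ge {m L t c : ℕ} (hm : 2 ≤ m) (hL : 0 < L) (ht : t ≤ m * L) :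
    c * h2 ((t : ℝ) / ((m * L : ℕ) : ℝ)) - c * dl m - 1 ≤
      (∑ i ∈ range t, (ee m c (i / L) : ℝ)) / ((m * L : ℕ) : ℝ) := by
  have h := Sm.gain_ge (c := c) hm hL ht
  rw [Nat.cast_mul]
  exact h

/-- The entropy of a small probability. -/
theorem h2_one_div_le {m : ℕ} (hm : 2 ≤ m) : h2 (1 / (m : ℝ)) ≤ (Real.logb 2 m + 2) / m := by
  have hm0 : (0 : ℝ) < m := by
    have : 0 < m := by omega
    exact_mod_cast this
  have hm2 : (2 : ℝ) ≤ m := by exact_mod_cast hm
  have hl2 : 0 < Real.log 2 := Real.log_pos (by norm_num)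
  unfold h2
  have e1 : -(1 / (m : ℝ) * Real.logb 2 (1 / m)) = Real.logb 2 m / m := by
    rw [one_div, Real.logb_inv]
    ring
  have e2 : -((1 - 1 / (m : ℝ)) * Real.logb 2 (1 - 1 / m)) ≤ 2 / m := by
    have h1 : (0 : ℝ) < 1 - 1 / m := by
      have : (1 : ℝ) / m ≤ 1 / 2 := one_div_le_one_div_of_le (by norm_num) hm2
      linarith
    have h2' : -Real.log (1 - 1 / (m : ℝ)) ≤ (1 - 1 / (m : ℝ))⁻¹ - 1 := by
      have h3 := Real.log_le_sub_one_of_pos (inv_pos.2 h1)
      rw [Real.log_inv] at h3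
      linarith
    have h3 : (1 - 1 / (m : ℝ)) * -Real.log (1 - 1 / (m : ℝ)) ≤ 1 / m := by
      have h4 := mul_le_mul_of_nonneg_left h2' h1.le
      have h5 : (1 - 1 / (m : ℝ)) * ((1 - 1 / (m : ℝ))⁻¹ - 1) = 1 / m := by
        rw [mul_sub, mul_inv_cancel₀ h1.ne', mul_one]
        ring
      rw [h5] at h4
      exact h4
    have h6 : (1 : ℝ) / 2 < Real.log 2 := by
      have := Real.log_two_gt_d9
      linarith
    unfold Real.logb
    have h7 : -((1 - 1 / (m : ℝ)) * (Real.log (1 - 1 / m) / Real.log 2)) =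
        ((1 - 1 / (m : ℝ)) * -Real.log (1 - 1 / (m : ℝ))) / Real.log 2 := by ring
    rw [h7, div_le_iff₀ hl2]
    refine h3.trans ?_
    rw [div_mul_eq_mul_div]
    refine div_le_div_of_nonneg_right ?_ hm0.le
    linarith
  rw [add_div, ← e1]
  linarith

/-- The entropy loss is small. -/
theorem dl_le {q : ℕ} (hq : 0 < q) : dl (2 ^ (2 * q.size + 3)) ≤ 1 / q := by
  set k := q.size with hk
  have hm : 2 ≤ 2 ^ (2 * k + 3) := by
    calc 2 = 2 ^ 1 := rfl
      _ ≤ 2 ^ (2 * k + 3) := Nat.pow_le_pow_right (by norm_num) (by omega)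
  have hm0 : (0 : ℝ) < (2 : ℝ) ^ (2 * k + 3) := by positivity
  have h1 := h2_one_div_le hm
  unfold dl
  push_cast at h1 ⊢
  have h3 : Real.logb 2 ((2 : ℝ) ^ (2 * k + 3)) = 2 * k + 3 := by
    rw [Real.logb_pow, Real.logb_self_eq_one (by norm_num)]
    push_cast
    ring
  have h4 : Real.logb 2 ((2 : ℝ) ^ (2 * k + 3) + 1) ≤ 2 * k + 4 := by
    have h5 : (2 : ℝ) ^ (2 * k + 3) + 1 ≤ 2 ^ (2 * k + 4) := by
      have : (1 : ℝ) ≤ 2 ^ (2 * k + 3) := one_le_pow₀ (by norm_num)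
      rw [pow_succ (2 : ℝ) (2 * k + 3)]
      linarith
    have h := Real.logb_le_logb_of_le (b := 2) (by norm_num) (by positivity) h5
    refine h.trans (le_of_eq ?_)
    rw [Real.logb_pow, Real.logb_self_eq_one (by norm_num)]
    push_cast
    ring
  rw [h3] at h1
  have h6 : Real.logb 2 ((2 : ℝ) ^ (2 * k + 3) + 1) / 2 ^ (2 * k + 3) ≤
      (2 * k + 4) / 2 ^ (2 * k + 3) := div_le_div_of_nonneg_right h4 hm0.le
  have h7 : (2 * (k : ℝ) + 4) / 2 ^ (2 * k + 3) + (2 * k + 3 + 2) / 2 ^ (2 * k + 3) =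
      (4 * k + 9) / 2 ^ (2 * k + 3) := by
    rw [← add_div]
    ring
  have h8 : (4 * (k : ℝ) + 9) / 2 ^ (2 * k + 3) ≤ 1 / q := by
    have hq' : (0 : ℝ) < q := by exact_mod_cast hq
    rw [div_le_div_iff₀ hm0 hq', one_mul]
    have h9 : q < 2 ^ k := Nat.lt_size_self q
    have h10 : 1 ≤ k := by
      rw [hk]
      exact Nat.size_pos.2 hq
    have h11 : 4 * k + 9 ≤ 2 ^ (k + 3) := by
      obtain ⟨e, he⟩ := Nat.exists_eq_add_of_le h10
      rw [he]
      clear_value k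
      clear he
      induction e with
      | zero => norm_num
      | succ e ih =>
        have : 2 ^ (1 + (e + 1) + 3) = 2 * 2 ^ (1 + e + 3) := by ring
        omega
    have h12 : (4 * k + 9) * q ≤ 2 ^ (2 * k + 3) := by
      calc (4 * k + 9) * q ≤ 2 ^ (k + 3) * 2 ^ k := Nat.mul_le_mul h11 h9.le
        _ = 2 ^ (2 * k + 3) := by rw [← pow_add]; congr 1; omega
    exact_mod_cast h12
  linarith

end Pool.Agent.Lib.SubBisB
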