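import Pool.Agent.Lib.SubBisB.ParB

/-!
# The numerical bounds for the parameters of the method with random blocks

`qB x` is the largest quality `q ≥ 1` with `tbB q ≤ x`, and `q ≥ c · log x / (log log x) ^ 2`.
-/

namespace Pool.Agent.Lib.SubBisB.ParB

open Finset Pool.Agent.Lib.SubBisX

theorem nu_mono {i j : ℕ} (h : i ≤ j) : ParA.nu i ≤ ParA.nu j :=
  Nat.size_le_size (Nat.mul_le_mul h (Nat.add_le_add_right (Nat.size_le_size h) 1))

theorem mu_mono {i j : ℕ} (h : i ≤ j) : ParA.mu i ≤ ParA.mu j :=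
  Nat.add_le_add_right (Nat.mul_le_mul_left _ (Nat.size_le_size h)) _

theorem tbB_mono {i j : ℕ} (h : i ≤ j) : tbB i ≤ tbB j := by
  unfold tbB ParA.TT
  have h1 := ParA.ss_mono h
  have h2 : 2 ^ (2 * ParA.nu i) ≤ 2 ^ (2 * ParA.nu j) :=
    Nat.pow_le_pow_right (by norm_num) (Nat.mul_le_mul_left _ (nu_mono h))
  have h3 : 2 ^ ParA.mu i ≤ 2 ^ ParA.mu j := Nat.pow_le_pow_right (by norm_num) (mu_mono h)
  calc (2 ^ (2 * ParA.nu i) * ParA.ss i * 2 ^ ParA.mu i + 1) ^ (12 * ParA.ss i)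
      ≤ (2 ^ (2 * ParA.nu j) * ParA.ss j * 2 ^ ParA.mu j + 1) ^ (12 * ParA.ss i) :=
        Nat.pow_le_pow_left (Nat.add_le_add_right (Nat.mul_le_mul (Nat.mul_le_mul h2 h1) h3) 1) _
    _ ≤ (2 ^ (2 * ParA.nu j) * ParA.ss j * 2 ^ ParA.mu j + 1) ^ (12 * ParA.ss j) :=
        Nat.pow_le_pow_right (by omega) (Nat.mul_le_mul_left _ h1)

theorem base_pos (q : ℕ) : 1 ≤ 2 ^ (2 * ParA.nu q) * ParA.ss q * 2 ^ ParA.mu q :=
  Nat.mul_pos (Nat.mul_pos (Nat.pow_pos (by norm_num)) (ParA.ss_pos q)) (Nat.pow_pos (by norm_num))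

theorem lt_tbB (x : ℕ) : x < tbB x.size := by
  unfold tbB ParA.TT
  have h3 := base_pos x.size
  calc x < 2 ^ x.size := Nat.lt_size_self x
    _ ≤ (2 ^ (2 * ParA.nu x.size) * ParA.ss x.size * 2 ^ ParA.mu x.size + 1) ^ x.size :=
        Nat.pow_le_pow_left (by omega) _
    _ ≤ (2 ^ (2 * ParA.nu x.size) * ParA.ss x.size * 2 ^ ParA.mu x.size + 1) ^
          (12 * ParA.ss x.size) := Nat.pow_le_pow_right (by omega) (by
        have := ParA.le_ss x.size
        omega)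

theorem qB_eq (x : ℕ) :
    ∃ q, qB x = q ∧ (1 ≤ q → tbB q ≤ x) ∧ x < tbB (q + 1) ∧ q ≤ x.size := by
  classical
  have hbig : x < tbB x.size := lt_tbB x
  set P : ℕ → Prop := fun i => x < tbB i with hP
  have hex : ∃ i, P (i + 1) := ⟨x.size, lt_of_lt_of_le hbig (tbB_mono (by omega))⟩
  set q := Nat.find hex with hq
  have h1 : P (q + 1) := Nat.find_spec hex
  have h2 : ∀ i, i < q → ¬ P (i + 1) := fun i hi => Nat.find_min hex hi
  have h3 : q ≤ x.size := by
    apply Nat.find_min' hex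
    exact lt_of_lt_of_le hbig (tbB_mono (by omega))
  refine ⟨q, ?_, ?_, h1, h3⟩
  · unfold qB
    have h4 : ((range (x.size + 1)).filter fun i => 1 ≤ i ∧ tbB i ≤ x) = Icc 1 q := by
      ext i
      simp only [mem_filter, mem_range, mem_Icc]
      constructor
      · rintro ⟨-, h5, h6⟩
        refine ⟨h5, ?_⟩
        by_contra h7
        have h8 : x < tbB i := lt_of_lt_of_le h1 (tbB_mono (by omega))
        omega
      · rintro ⟨h5, h6⟩
        refine ⟨by omega, h5, ?_⟩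
        have h7 := h2 (i - 1) (by omega)
        rw [hP] at h7
        simp only [not_lt] at h7
        rwa [Nat.sub_add_cancel h5] at h7
    rw [h4, Nat.card_Icc, Nat.add_sub_cancel]
  · intro h4
    have h5 := h2 (q - 1) (by omega)
    rw [hP] at h5
    simp only [not_lt] at h5
    rwa [Nat.sub_add_cancel h4] at h5

theorem tbB_qB {x : ℕ} (h : 1 ≤ qB x) : tbB (qB x) ≤ x := by
  obtain ⟨q, hq, hq1, -, -⟩ := qB_eq x
  rw [hq] at h ⊢
  exact hq1 h

theorem lt_tbB_qB (x : ℕ) : x < tbB (qB x + 1) := by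
  obtain ⟨q, hq, -, hq2, -⟩ := qB_eq x
  rw [hq]
  exact hq2

theorem qB_le_size (x : ℕ) : qB x ≤ x.size := by
  obtain ⟨q, hq, -, -, hq3⟩ := qB_eq x
  rw [hq]
  exact hq3

/-- the exponent of the number of samples -/
theorem nu_le {q : ℕ} (hq : 1 ≤ q) : ParA.nu q ≤ 2 * q.size + 1 := by
  have h0 := ParA.ss_le hq
  have h1 : q < 2 ^ q.size := Nat.lt_size_self q
  have h2 : q.size + 1 ≤ 2 ^ q.size := Nat.lt_two_pow_self
  have h3 : ParA.ss q < 2 ^ (2 * q.size + 1 + 1) := by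
    have h4 : q * (q.size + 1) < 2 ^ q.size * 2 ^ q.size :=
      Nat.mul_lt_mul_of_lt_of_le h1 h2 (by omega)
    have h5 : 2 ^ (2 * q.size + 1 + 1) = 4 * (2 ^ q.size * 2 ^ q.size) := by ring
    omega
  have h6 := (Nat.pow_lt_pow_iff_right (a := 2) (by norm_num)).1 h3
  omega

/-- the size of the table is at most `2 ^ (720 q (size q) ^ 2)` -/
theorem tbB_le {q : ℕ} (hq : 1 ≤ q) : tbB q ≤ 2 ^ (720 * q * q.size ^ 2) := by
  have hs : 1 ≤ q.size := Nat.size_pos.2 hq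
  have h1 := nu_le hq
  have h2 := ParA.ss_le hq
  have h3 : 2 ^ (2 * ParA.nu q) * ParA.ss q * 2 ^ ParA.mu q + 1 ≤ 2 ^ (15 * q.size) := by
    have h4 : 2 ^ (2 * ParA.nu q) * ParA.ss q * 2 ^ ParA.mu q =
        2 ^ (3 * ParA.nu q + ParA.mu q) := by
      unfold ParA.ss
      rw [← pow_add, ← pow_add]
      congr 1
      ring
    have h5 : 3 * ParA.nu q + ParA.mu q + 1 ≤ 15 * q.size := by
      unfold ParA.mu
      omega
    calc 2 ^ (2 * ParA.nu q) * ParA.ss q * 2 ^ ParA.mu q + 1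
        = 2 ^ (3 * ParA.nu q + ParA.mu q) + 1 := by rw [h4]
      _ ≤ 2 ^ (3 * ParA.nu q + ParA.mu q + 1) := by
          rw [pow_succ]
          have : 1 ≤ 2 ^ (3 * ParA.nu q + ParA.mu q) := Nat.one_le_two_pow
          omega
      _ ≤ 2 ^ (15 * q.size) := Nat.pow_le_pow_right (by norm_num) h5
  have h6 : ParA.TT q ≤ 48 * (q * q.size) := by
    unfold ParA.TT
    have h7 : q * (q.size + 1) ≤ 2 * (q * q.size) := by
      have h8 : q * 1 ≤ q * q.size := Nat.mul_le_mul_left _ hs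
      have h9 : q * (q.size + 1) = q * q.size + q * 1 := by ring
      omega
    omega
  unfold tbB
  calc (2 ^ (2 * ParA.nu q) * ParA.ss q * 2 ^ ParA.mu q + 1) ^ ParA.TT q
      ≤ (2 ^ (15 * q.size)) ^ ParA.TT q := Nat.pow_le_pow_left h3 _
    _ = 2 ^ (15 * q.size * ParA.TT q) := (pow_mul _ _ _).symm
    _ ≤ 2 ^ (15 * q.size * (48 * (q * q.size))) :=
        Nat.pow_le_pow_right (by norm_num) (Nat.mul_le_mul_left _ h6)
    _ = 2 ^ (720 * q * q.size ^ 2) := by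
        congr 1
        ring

/-- the size of a natural number and its binary logarithm -/
theorem size_le_logb {n : ℕ} (hn : 1 ≤ n) : (n.size : ℝ) ≤ Real.logb 2 n + 1 := by
  have h1 : 1 ≤ n.size := Nat.size_pos.2 hn
  have h2 : 2 ^ (n.size - 1) ≤ n := by
    have : n.size - 1 < n.size := by omega
    exact Nat.lt_size.1 this
  have h3 : ((n.size - 1 : ℕ) : ℝ) ≤ Real.logb 2 n := by
    rw [Real.le_logb_iff_rpow_le one_lt_two (by exact_mod_cast hn), Real.rpow_natCast]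
    exact_mod_cast h2
  rw [Nat.cast_sub h1] at h3
  push_cast at h3
  linarith

/-- the main numerical estimate -/
theorem main (x : ℕ) (hx : 1 ≤ x) :
    2 ≤ Real.logb 2 ((x : ℝ) + 4) ∧ 1 ≤ Real.logb 2 (Real.logb 2 ((x : ℝ) + 4)) ∧
      Real.logb 2 ((x : ℝ) + 4) ≤
        6483 * ((qB x : ℝ) + 1) * Real.logb 2 (Real.logb 2 ((x : ℝ) + 4)) ^ 2 := by
  set L := Real.logb 2 ((x : ℝ) + 4) with hL
  set l := Real.logb 2 L with hl
  have hx1 : (1 : ℝ) ≤ x := by exact_mod_cast hx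
  have hL2 : 2 ≤ L := by
    rw [hL, Real.le_logb_iff_rpow_le one_lt_two (by positivity)]
    norm_num
  have hl1 : 1 ≤ l := by
    rw [hl, Real.le_logb_iff_rpow_le one_lt_two (by linarith), Real.rpow_one]
    exact hL2
  refine ⟨hL2, hl1, ?_⟩
  -- the size of `q + 1`
  have h1 : Real.logb 2 (x : ℝ) ≤ L := by
    rw [hL]
    exact Real.logb_le_logb_of_le one_lt_two (by linarith) (by linarith)
  have h2 : ((qB x : ℝ) + 1) ≤ 2 * L := by
    have h3 : (qB x : ℝ) ≤ x.size := by exact_mod_cast qB_le_size x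
    have h4 := size_le_logb hx
    linarith
  have h3 : (((qB x + 1).size : ℕ) : ℝ) ≤ 3 * l := by
    have h4 := size_le_logb (n := qB x + 1) (by omega)
    have h5 : Real.logb 2 (((qB x + 1 : ℕ) : ℝ)) ≤ Real.logb 2 (2 * L) :=
      Real.logb_le_logb_of_le one_lt_two (by positivity) (by
        push_cast
        exact h2)
    have h6 : Real.logb 2 (2 * L) = 1 + l := by
      rw [Real.logb_mul (by norm_num) (by positivity), hl]
      rw [Real.logb_self_eq_one one_lt_two]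
    linarith
  -- `x < tbB (q + 1)`
  have h4 : Real.logb 2 (x : ℝ) ≤ 720 * ((qB x : ℝ) + 1) * (((qB x + 1).size : ℕ) : ℝ) ^ 2 := by
    have h5 : x < 2 ^ (720 * (qB x + 1) * (qB x + 1).size ^ 2) :=
      lt_of_lt_of_le (lt_tbB_qB x) (tbB_le (by omega))
    have h6 : (x : ℝ) ≤ (2 : ℝ) ^ (720 * (qB x + 1) * (qB x + 1).size ^ 2) := by
      exact_mod_cast h5.le
    have h7 := Real.logb_le_logb_of_le one_lt_two (by linarith) h6
    rw [Real.logb_pow, Real.logb_self_eq_one one_lt_two, mul_one] at h7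
    push_cast at h7
    exact h7
  have h5 : L ≤ Real.logb 2 (x : ℝ) + 3 := by
    have h6 : L ≤ Real.logb 2 ((x : ℝ) * 2 ^ 3) := by
      rw [hL]
      exact Real.logb_le_logb_of_le one_lt_two (by positivity) (by linarith)
    rw [Real.logb_mul (by positivity) (by norm_num), Real.logb_pow,
      Real.logb_self_eq_one one_lt_two] at h6
    norm_num at h6
    exact h6
  have h6 : (((qB x + 1).size : ℕ) : ℝ) ^ 2 ≤ 9 * l ^ 2 := by
    have h7 : (0 : ℝ) ≤ (((qB x + 1).size : ℕ) : ℝ) := by positivity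
    calc (((qB x + 1).size : ℕ) : ℝ) ^ 2 ≤ (3 * l) ^ 2 := pow_le_pow_left₀ h7 h3 2
      _ = 9 * l ^ 2 := by ring
  have h7 : (0 : ℝ) ≤ (qB x : ℝ) := by positivity
  have h8 : 720 * ((qB x : ℝ) + 1) * (((qB x + 1).size : ℕ) : ℝ) ^ 2 ≤
      720 * ((qB x : ℝ) + 1) * (9 * l ^ 2) := mul_le_mul_of_nonneg_left h6 (by positivity)
  have h9 : 1 ≤ ((qB x : ℝ) + 1) * l ^ 2 := by
    have h10 : 1 ≤ l ^ 2 := one_le_pow₀ hl1
    have h11 : (1 : ℝ) ≤ (qB x : ℝ) + 1 := by linarith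
    calc (1 : ℝ) = 1 * 1 := by norm_num
      _ ≤ _ := mul_le_mul h11 h10 (by norm_num) (by linarith)
  nlinarith

/-- the quality is at least `c · log x / (log log x) ^ 2` -/
theorem bound : ∃ C : ℝ, 0 ≤ C ∧ ∀ x : ℕ, 1 ≤ x →
    (qB x = 0 → 1 ≤ C * (Real.logb 2 (Real.logb 2 (x + 4))) ^ 2 / Real.logb 2 (x + 4)) ∧
    (1 ≤ qB x →
      10 / (qB x : ℝ) ≤ C * (Real.logb 2 (Real.logb 2 (x + 4))) ^ 2 / Real.logb 2 (x + 4)) := by
  refine ⟨129660, by norm_num, fun x hx => ?_⟩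
  obtain ⟨hL, hl, h⟩ := main x hx
  set L := Real.logb 2 ((x : ℝ) + 4) with hLd
  set l := Real.logb 2 L with hld
  have hL0 : 0 < L := by linarith
  have hl0 : 0 ≤ l ^ 2 := by positivity
  constructor
  · intro h0
    rw [h0] at h
    rw [le_div_iff₀ hL0]
    push_cast at h
    nlinarith
  · intro h0
    have h1 : (1 : ℝ) ≤ qB x := by exact_mod_cast h0
    have h2 : (0 : ℝ) < qB x := by linarith
    rw [div_le_div_iff₀ h2 hL0]
    have h3 : L ≤ 12966 * (qB x : ℝ) * l ^ 2 := by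
      have h4 : 6483 * ((qB x : ℝ) + 1) * l ^ 2 ≤ 6483 * (2 * (qB x : ℝ)) * l ^ 2 :=
        mul_le_mul_of_nonneg_right (by linarith) hl0
      linarith
    nlinarith

end Pool.Agent.Lib.SubBisB.ParB
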