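import Pool.Agent.Lib.SubBisX.ParA

/-!
# The parameters of the method with random blocks

As for the accelerated method, with `2 ^ (2 ν)` blocks.
-/

namespace Pool.Agent.Lib.SubBisB.ParB

open Finset Pool.Agent.Lib.SubBisX

/-- The number of nodes of the tree. -/
def tbB (q : ℕ) : ℕ := (2 ^ (2 * ParA.nu q) * ParA.ss q * 2 ^ ParA.mu q + 1) ^ ParA.TT q

/-- The quality for the input size `x`. -/
def qB (x : ℕ) : ℕ := ((range (x.size + 1)).filter fun i => 1 ≤ i ∧ tbB i ≤ x).card

end Pool.Agent.Lib.SubBisB.ParB
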