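import Pool.Agent.Lib.SubBisX.ParPoly
import Pool.Agent.Lib.SubBisX.SmallN
import Pool.Agent.Lib.SubBisB.ParB

/-!
# The parameters of the method with random blocks in polynomial time
-/

namespace Pool.Agent.Lib.SubBisB.ParB

open Finset Pool.Agent.Lib.PolyTime Pool.Agent.Lib.Pa7c826 Pool.Agent.Lib.P8e91ed.PT
open Pool.Agent.Lib.SubBisX

variable {α : Type*} {D : α → Prop} {ctx : List (α → List Bool)}

theorem poly_kap {q : α → ℕ} (hq : PolyN D ctx q) : PolyN D ctx (fun a => ParA.kap (q a)) :=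
  (Par.poly_size hq).succ.congr fun _ _ => rfl

theorem poly_mu {q : α → ℕ} (hq : PolyN D ctx q) : PolyN D ctx (fun a => ParA.mu (q a)) :=
  (((PolyN.const 2).mul (Par.poly_size hq)).add (PolyN.const 3)).congr fun _ _ => rfl

theorem poly_nu {q : α → ℕ} (hq : PolyN D ctx q) : PolyN D ctx (fun a => ParA.nu (q a)) :=
  (Par.poly_size (hq.mul (Par.poly_size hq).succ)).congr fun _ _ => rfl

theorem poly_ss {q : α → ℕ} (hq : PolyN D ctx q) : PolyN D ctx (fun a => ParA.ss (q a)) :=
  (Par.poly_two_size (hq.mul (Par.poly_size hq).succ)).congr fun _ _ => rfl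

theorem poly_TT {q : α → ℕ} (hq : PolyN D ctx q) : PolyN D ctx (fun a => ParA.TT (q a)) :=
  ((PolyN.const 12).mul (poly_ss hq)).congr fun _ _ => rfl

theorem poly_two_mu {q : α → ℕ} (hq : PolyN D ctx q) :
    PolyN D ctx (fun a => 2 ^ ParA.mu (q a)) := by
  have h1 := Par.poly_two_size hq
  exact ((PolyN.const 8).mul (h1.mul h1)).congr (fun a _ => by unfold ParA.mu; ring)

theorem poly_NN {q : α → ℕ} (hq : PolyN D ctx q) : PolyN D ctx (fun a => 2 ^ (2 * ParA.nu (q a) + 7)) := by
  have h1 := poly_ss hq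
  exact ((PolyN.const 128).mul (h1.mul h1)).congr (fun a _ => by
    have h := ParA.NN_eq (q a)
    unfold ParA.NN at h
    rw [h]
    ring)

theorem poly_BB {q : α → ℕ} (hq : PolyN D ctx q) : PolyN D ctx (fun a => 2 ^ (2 * ParA.nu (q a))) := by
  have h1 := poly_ss hq
  exact (h1.mul h1).congr (fun a _ => by
    unfold ParA.ss
    ring)

theorem poly_MM {q : α → ℕ} (hq : PolyN D ctx q) : PolyN D ctx (fun a => ParA.MM (q a)) := by
  have h1 := poly_ss hq
  exact ((PolyN.const 128).mul (h1.mul (h1.mul h1))).congr (fun a _ => by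
    rw [ParA.MM_eq]
    ring)

theorem poly_KK {n q : α → ℕ} (hn : PolyN D ctx n) (hq : PolyN D ctx q) :
    PolyN D ctx (fun a => ParA.KK (n a) (q a)) := by
  have h1 : PolyN D ctx (fun a => 3 * (q a).size + 5) :=
    ((PolyN.const 3).mul (Par.poly_size hq)).add (PolyN.const 5)
  exact ((((PolyN.const 8).mul (hq.mul hq)).mul (h1.mul h1)).mul (hn.add (PolyN.const 3))).congr
    (fun a _ => by unfold ParA.KK; ring)

/-- the number of children plus one -/
theorem poly_ch {q : α → ℕ} (hq : PolyN D ctx q) :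
    PolyN D ctx (fun a => 2 ^ (2 * ParA.nu (q a)) * ParA.ss (q a) * 2 ^ ParA.mu (q a) + 1) :=
  (((poly_BB hq).mul (poly_ss hq)).mul (poly_two_mu hq)).succ

/-- the quality is computed in polynomial time from `x` in unary -/
theorem poly_qB {x : α → ℕ} (hx : PolyN D ctx x) : PolyN D ctx (fun a => qB (x a)) := by
  have hs : PolyN D ctx (fun a => (x a).size + 1) := (Par.poly_size hx).succ
  have L := last (D := D) (ctx := ctx) (n := fun a => (x a).size + 1)
  have hx' := upN (n := fun a => (x a).size + 1) hx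
  have h1 : PolyP (Dx D (fun a => (x a).size + 1)) (cx ctx)
      (fun p : α × ℕ => 1 ≤ p.2 ∧ tbB p.2 ≤ x p.1) :=
    PolyP.and (PolyP.le (PolyN.const 1) L)
      (PolyP.binle (bin_pow (bin_ofN (poly_ch L)) (poly_TT L)) (bin_ofN hx'))
  exact (n_card (P := fun a i => 1 ≤ i ∧ tbB i ≤ x a) hs h1).congr
    (fun a _ => by unfold qB; congr 1)

/-- the number of nodes, if it is bounded -/
theorem poly_tbB {q : α → ℕ} (hq : PolyN D ctx q) (hb : Bdd D ctx (fun a => tbB (q a))) :
    PolyN D ctx (fun a => tbB (q a)) :=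
  n_pow (poly_ch hq) (poly_TT hq) hb

/-- all subsets are tried -/
theorem poly_brute' {D : α → Prop} {ctx : List (α → List Bool)} {w : α → List Bool} {N : α → ℕ}
    (hw : PolyC D ctx w) (hN : PolyN D ctx N) (hb : ∀ x, D x → 2 ^ nOf (w x) ≤ N x) :
    PolyN D ctx (fun x => ind (adjOf (w x)) (range (nOf (w x)))) := by
  have h2 : PolyN D ctx (fun x => 2 ^ nOf (w x)) :=
    n_pow (PolyN.const 2) (poly_nOf hw) ((Bdd.ofN hN).le hb)
  have hS : PolyS D ctx (fun x => nOf (w x)) (fun x => range (nOf (w x))) :=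
    PolyS.range (poly_nOf hw)
  have W := up (n := fun x => 2 ^ nOf (w x)) hw
  have SS := hS.up (m := fun x => 2 ^ nOf (w x))
  have L := last (D := D) (ctx := ctx) (n := fun x => 2 ^ nOf (w x))
  refine (PolyN.count (φ := fun p : α × ℕ => indB (nOf (w p.1)) (adjOf (w p.1))
    (sel (range (nOf (w p.1))) p.2)) h2 (poly_indB W (poly_sel W SS L))).congr fun x _ => ?_
  rw [ind_eq_count]

end Pool.Agent.Lib.SubBisB.ParB
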