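import Pool.Agent.Lib.SubBisX.GenProb
import Pool.Agent.Lib.SubBisX.AccCore
import Pool.Agent.Lib.SubBisB.BTabUnif
import Pool.Agent.Lib.SubBisB.BWorld

/-!
The method with random blocks: for seven eighths of the seeds the estimates of all induced subgraphs
are good; success probability over uniform random bits.
-/

set_option autoImplicit false

open Finset
open scoped BigOperators

namespace Pool.Agent.Lib.SubBisB.BS

open Pool.Agent.Lib.Pa7c826 Pool.Agent.Lib.Pa7c826t Pool.Agent.Lib.SubBisX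
  Pool.Agent.Lib.SubBisX.Node Pool.Agent.Lib.SubBisX.Sys Pool.Agent.Lib.SubBisX.Gen SubBis
  Pool.Agent.Lib.SubBisX.Core Pool.Agent.Lib.SubBisX.Prob

/-- one copy: labels and a block world with a noise vector that is not used -/
abbrev Cp (n q : ℕ) : Type :=
  CpB (ParA.mu q) n (2 * ParA.nu q) (ParA.ss q) (2 * ParA.nu q + 7) (ParA.TT q)

/-- a seed: `KK n q` independent copies -/
abbrev Seed (n q : ℕ) : Type := Fin (ParA.KK n q) → Cp n q

/-- the objective at the averaged point, for the labels `β` and the world `w` -/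
def BVal {m n B s N : ℕ} [NeZero m] (c M : ℕ) (F : Finset (Fin n) → ℤ) (T : ℕ)
    (β : Fin n → Fin B) (w : WB m n B s N T) : ℤ :=
  Phi c M F w.1 (xo β (M : ℤ) (gr c F) T w)

/-- the random value of a copy for the set `W` of vertices -/
def VV (n a : ℕ) (adj : ℕ → ℕ → Bool) (q : ℕ) (W : Finset ℕ) (p : Cp n q) : ℤ :=
  BVal q (ParA.MM q) (FW n a adj (ParA.kap q) W) (ParA.TT q) p.1 p.2.1

/-- the estimate of the binary logarithm of the number of independent subsets of `W` -/
def es (n a : ℕ) (adj : ℕ → ℕ → Bool) (q : ℕ) (s : Seed n q) (W : Finset ℕ) : ℕ :=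
  eG n a (VV n a adj q) (q * ParA.MM q) s W

theorem es_eq (n a : ℕ) (adj : ℕ → ℕ → Bool) (q : ℕ) (s : Seed n q) (W : Finset ℕ) :
    es n a adj q s W = eW n a W (∑ k, VV n a adj q W (s k)) (ParA.KK n q * (q * ParA.MM q)) := rfl

theorem av_cp {A W Z : Type*} [Fintype A] [Fintype W] [Fintype Z] [Nonempty Z]
    (F : A → W → ℝ) :
    (Reg.av fun p : A × (W × Z) => F p.1 p.2.1) = Reg.av fun p : A × W => F p.1 p.2 := by
  have h1 := Reg.av_equiv (Equiv.prodAssoc A W Z)
    (fun p : A × (W × Z) => F p.1 p.2.1)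
  rw [← h1]
  exact Reg.av_fst fun p : A × W => F p.1 p.2

theorem MM_pos (q : ℕ) : 0 < ParA.MM q := by
  unfold ParA.MM
  positivity

/-- the range of the value -/
theorem range_BVal {n B q : ℕ} {F : Finset (Fin n) → ℤ} (h0 : F ∅ = 0)
    (hk : ∀ S v, |F (insert v S) - F S| ≤ ParA.kap q) {s N T : ℕ} [NeZero s] [NeZero N]
    (β : Fin n → Fin B)
    (w : WB (2 ^ ParA.mu q) n B s N T) :
    |BVal q (ParA.MM q) F T β w| ≤ q * ParA.MM q * (n * (3 * q.size + 5)) := by
  have hM0 : (0 : ℤ) ≤ (ParA.MM q : ℤ) := Int.natCast_nonneg _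
  have h1 := CA.abs_Phi_le (mu := ParA.mu q) (c := q) (M := ParA.MM q) h0 hk w.1
    (fun v => (xo_memB (β := β) (g := gr q F) hM0 T w v).1)
    (fun v => (xo_memB (β := β) (g := gr q F) hM0 T w v).2)
  refine h1.trans ?_
  refine mul_le_mul_of_nonneg_left (mul_le_mul_of_nonneg_left ?_ (Int.natCast_nonneg n))
    (by positivity)
  unfold ParA.mu ParA.kap
  push_cast
  linarith

open Classical in
/-- **Most seeds are good.** -/
theorem good_seeds {n a : ℕ} {adj : ℕ → ℕ → Bool} {q : ℕ}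
    (hcore : ∀ F : Finset (Fin n) → ℤ, F ∅ = 0 → FCS.Subm F →
      (∀ S v, |F (insert v S) - F S| ≤ ParA.kap q) →
      |(Reg.av fun p : (Fin n → Fin (2 ^ (2 * ParA.nu q))) ×
          WB (2 ^ ParA.mu q) n (2 ^ (2 * ParA.nu q)) (ParA.ss q) (2 ^ (2 * ParA.nu q + 7))
            (ParA.TT q) => (BVal q (ParA.MM q) F (ParA.TT q) p.1 p.2 : ℝ)) / (q * ParA.MM q) -
          Bounds.logZ F| ≤ 6 * n / q)
    (hq : 1 ≤ q) (hs : ∀ u v, adj u v = adj v u)
    (hbip : ∀ u v, adj u v = true → (u < a ↔ ¬ v < a)) :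
    8 * (univ.filter fun s : Seed n q => ¬ GoodE n a adj (8 * n / q + 1) (es n a adj q s)).card ≤
      Fintype.card (Seed n q) := by
  have hq0 : (0 : ℝ) < q := by exact_mod_cast hq
  rcases Nat.eq_zero_or_pos n with hn | hn
  · subst hn
    have h1 : (univ.filter fun s : Seed 0 q =>
        ¬ GoodE 0 a adj (8 * (0 : ℕ) / q + 1) (es 0 a adj q s)) = ∅ := by
      rw [filter_eq_empty_iff]
      intro s _
      rw [not_not]
      exact goodE_zero hbip (by positivity) _ _ s
    rw [h1, card_empty]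
    exact Nat.zero_le _
  · have hn0 : (0 : ℝ) < n := by exact_mod_cast hn
    have hM := MM_pos q
    refine good_seedsE (D := q * ParA.MM q) (K := ParA.KK n q) (κ := ParA.kap q)
      (V := VV n a adj q) (δ₁ := 6 * n / q) (δ₂ := n / q) (B := n * (3 * q.size + 5))
      (Nat.mul_pos hq hM) ?_ hs hbip (by positivity) (div_pos hn0 hq0) ?_ ?_ ?_ ?_ hn
    · unfold ParA.KK
      positivity
    · intro W hW
      have h1 := hcore (FW n a adj (ParA.kap q) W) (FW_empty hW hs hbip)
        (fun S S' => FW_sub hW hs hbip S S') (fun S v => FW_insert hW hs hbip v S)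
      have h2 := av_cp (A := Fin n → Fin (2 ^ (2 * ParA.nu q)))
        (W := WB (2 ^ ParA.mu q) n (2 ^ (2 * ParA.nu q)) (ParA.ss q) (2 ^ (2 * ParA.nu q + 7))
            (ParA.TT q))
        (Z := Fin n → Fin (2 ^ (2 * ParA.nu q + 7)))
        fun β w => (BVal q (ParA.MM q) (FW n a adj (ParA.kap q) W) (ParA.TT q) β w : ℝ)
      have h3 : (Reg.av fun b : Cp n q => (VV n a adj q W b : ℝ)) =
          Reg.av fun p : (Fin n → Fin (2 ^ (2 * ParA.nu q))) ×
          WB (2 ^ ParA.mu q) n (2 ^ (2 * ParA.nu q)) (ParA.ss q) (2 ^ (2 * ParA.nu q + 7))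
            (ParA.TT q) =>
              (BVal q (ParA.MM q) (FW n a adj (ParA.kap q) W) (ParA.TT q) p.1 p.2 : ℝ) := h2
      rw [h3]
      push_cast
      exact h1
    · intro W hW b
      have : NeZero (ParA.ss q) := ⟨(ParA.ss_pos q).ne'⟩
      have h1 := range_BVal (F := FW n a adj (ParA.kap q) W)
        (FW_empty hW hs hbip) (fun S v => FW_insert hW hs hbip v S) b.1 b.2.1
      have h2 : |(VV n a adj q W b : ℝ)| ≤
          ((q * ParA.MM q * (n * (3 * q.size + 5)) : ℤ) : ℝ) := by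
        exact_mod_cast h1
      refine h2.trans (le_of_eq ?_)
      push_cast
      ring
    · unfold ParA.KK
      push_cast
      apply le_of_eq
      field_simp
    · have h9 : (n : ℝ) * (2 / 2 ^ ParA.kap q) ≤ n / q := by
        have h10 : (q : ℝ) ≤ 2 ^ q.size := by exact_mod_cast (Nat.lt_size_self q).le
        have h11 : (2 : ℝ) / 2 ^ ParA.kap q = 1 / 2 ^ q.size := by
          unfold ParA.kap
          rw [pow_succ]
          field_simp
        rw [h11, mul_one_div]
        exact div_le_div_of_nonneg_left hn0.le hq0 h10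
      have h12 : (8 : ℝ) * n / q = 6 * n / q + n / q + n / q := by ring
      linarith

/-- the number of bits of the seed -/
def off (n q : ℕ) : ℕ :=
  BTab.nbitsB (ParA.mu q) (2 * ParA.nu q + 7) (2 * ParA.nu q) n (ParA.ss q) (ParA.TT q)
    (ParA.KK n q)

/-- the seed read off a stream of bits -/
def dec (n q : ℕ) (b : ℕ → Bool) : Seed n q :=
  BTab.decSB (ParA.mu q) (2 * ParA.nu q + 7) (2 * ParA.nu q) n (ParA.ss q) (ParA.TT q)
    (ParA.KK n q) b

/-- the seed read off the tape -/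
def seedT (n q : ℕ) (l : List Bool) : Seed n q := dec n q (str l)

/-- the estimate of the tape -/
def esT (n a : ℕ) (adj : ℕ → ℕ → Bool) (q : ℕ) (l : List Bool) (W : Finset ℕ) : ℕ :=
  es n a adj q (seedT n q l) W

/-- the final size of the population -/
def cntT (n a : ℕ) (adj : ℕ → ℕ → Bool) (q K cap : ℕ) (l : List Bool) : ℕ :=
  cntE n a adj (esT n a adj q l) K cap (9 * n + 1) (off n q) l

theorem unif_dec (n q : ℕ) : SubBisX.Seed.Unif (off n q) (dec n q) :=
  BTab.unif_decSB _ _ _ _ _ _ _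

variable {n a : ℕ} {adj : ℕ → ℕ → Bool} {q : ℕ}

open Classical in
/-- **The success probability of the approximation scheme.** -/
theorem prob_S
    (hcore : ∀ F : Finset (Fin n) → ℤ, F ∅ = 0 → FCS.Subm F →
      (∀ S v, |F (insert v S) - F S| ≤ ParA.kap q) →
      |(Reg.av fun p : (Fin n → Fin (2 ^ (2 * ParA.nu q))) ×
          WB (2 ^ ParA.mu q) n (2 ^ (2 * ParA.nu q)) (ParA.ss q) (2 ^ (2 * ParA.nu q + 7))
            (ParA.TT q) => (BVal q (ParA.MM q) F (ParA.TT q) p.1 p.2 : ℝ)) / (q * ParA.MM q) -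
          Bounds.logZ F| ≤ 6 * n / q)
    (hq : 1 ≤ q) (ha : a ≤ n) (hs : ∀ u v, adj u v = adj v u)
    (hbip : ∀ u v, adj u v = true → (u < a ↔ ¬ v < a)) {K cap m : ℕ} {t : ℝ} (ht : 1 ≤ t)
    (hK0 : 0 < K) (hK : 8 * (a * ((2 : ℝ) ^ ((8 : ℝ) * n / q + 1)) ^ 2 * t ^ 2) ≤ K)
    (hcap : 2 * ((2 : ℝ) ^ ((8 : ℝ) * n / q + 1)) ^ 2 * K ≤ cap)
    (hm : off n q + a * cap * 2 * (9 * n + 1) ≤ m) :
    3 * 2 ^ m ≤ 4 * (univ.filter fun τ : Fin m → Bool =>
      |(cntT n a adj q K cap (List.ofFn τ) : ℝ) * 2 ^ esT n a adj q (List.ofFn τ) (range n) -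
        K * ind adj (range n)| ≤ K * ind adj (range n) / t).card := by
  have hdm : (n : ℝ) + ((8 : ℝ) * n / q + 1) ≤ ((9 * n + 1 : ℕ) : ℝ) := by
    have h7 : (8 : ℝ) * n / q ≤ 8 * n := div_le_self (by positivity) (by exact_mod_cast hq)
    push_cast
    linarith
  exact prob_SE (unif_dec n q) (e := es n a adj q) (good_seeds hcore hq hs hbip) ha hs hbip ht hdm
    hK0 hK hcap hm

open Classical in
/-- **The success probability of the estimate of the logarithm.** -/
theorem prob_P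
    (hcore : ∀ F : Finset (Fin n) → ℤ, F ∅ = 0 → FCS.Subm F →
      (∀ S v, |F (insert v S) - F S| ≤ ParA.kap q) →
      |(Reg.av fun p : (Fin n → Fin (2 ^ (2 * ParA.nu q))) ×
          WB (2 ^ ParA.mu q) n (2 ^ (2 * ParA.nu q)) (ParA.ss q) (2 ^ (2 * ParA.nu q + 7))
            (ParA.TT q) => (BVal q (ParA.MM q) F (ParA.TT q) p.1 p.2 : ℝ)) / (q * ParA.MM q) -
          Bounds.logZ F| ≤ 6 * n / q)
    (hq : 1 ≤ q) (hs : ∀ u v, adj u v = adj v u)
    (hbip : ∀ u v, adj u v = true → (u < a ↔ ¬ v < a)) {m : ℕ} (hm : off n q ≤ m) :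
    3 * 2 ^ m ≤ 4 * (univ.filter fun τ : Fin m → Bool =>
      |(esT n a adj q (List.ofFn τ) (range n) : ℝ) - Real.logb 2 (ind adj (range n))| ≤
        8 * n / q + 1).card :=
  prob_PE (unif_dec n q) (e := es n a adj q) (good_seeds hcore hq hs hbip) hm

end Pool.Agent.Lib.SubBisB.BS
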