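import Pool.Agent.Lib.SubBisX.FinalP
import Pool.Agent.Lib.SubBisB.ParBPoly
import Pool.Agent.Lib.SubBisB.ParBNum
import Pool.Agent.Lib.SubBisB.SysB
import Pool.Agent.Lib.SubBisB.BTabSeed

/-!
A randomised algorithm approximates the number of independent sets of all bipartite graphs up to a
factor `2 ^ o(n)` in polynomial time.
-/

namespace Pool.Agent.Lib.SubBisB.Fin2

open Finset Pool.Agent.Lib.PolyTime Pool.Agent.Lib.Pa7c826 Pool.Agent.Lib.Pa7c826t
open Pool.Agent.Lib.SubBisX Pool.Agent.Lib.SubBisX.Prob Pool.Agent.Lib.P8e91ed.PT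

/-- the quality for the code `w` -/
def qw (w : List Bool) : ℕ := ParB.qB (nOf w + tOf w)

/-- the estimate of the logarithm -/
def est (w r : List Bool) : ℕ :=
  BS.esT (nOf w) (aOf w) (adjOf w) (qw w) r (range (nOf w))

/-- the output as a number -/
def val (w r : List Bool) : ℕ :=
  if decide (nOf w < (nOf w + tOf w).size) then ind (adjOf w) (range (nOf w))
  else 2 ^ (if decide (qw w = 0) then 0 else est w r)

/-- the number of random bits -/
def nb (w : List Bool) : ℕ := BS.off (nOf w) (qw w)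

section poly

variable {α : Type} {D : α → Prop} {ctx : List (α → List Bool)} {w r : α → List Bool}

theorem poly_qw (hw : PolyC D ctx w) : PolyN D ctx (fun x => qw (w x)) :=
  ParB.poly_qB ((poly_nOf hw).add (poly_tOf hw))

theorem tbB_qw_le (w : List Bool) : ParB.tbB (qw w) ≤ nOf w + tOf w + ParB.tbB 0 := by
  unfold qw
  rcases Nat.eq_zero_or_pos (ParB.qB (nOf w + tOf w)) with h | h
  · rw [h]
    omega
  · exact (ParB.tbB_qB h).trans (Nat.le_add_right _ _)

theorem bdd_tbB (hw : PolyC D ctx w) : Bdd D ctx (fun x => ParB.tbB (qw (w x))) :=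
  (Bdd.ofN (((poly_nOf hw).add (poly_tOf hw)).add (PolyN.const (ParB.tbB 0)))).le
    fun x _ => tbB_qw_le (w x)

theorem poly_tbB (hw : PolyC D ctx w) : PolyN D ctx (fun x => ParB.tbB (qw (w x))) :=
  ParB.poly_tbB (poly_qw hw) (bdd_tbB hw)

theorem poly_est (hw : PolyC D ctx w) (hr : PolyC D ctx r) :
    PolyN D ctx (fun x => est (w x) (r x)) := by
  have hq := poly_qw hw
  have hn := poly_nOf hw
  have h := BTab.poly_eWB (W := fun x => range (nOf (w x))) (μ := fun x => ParA.mu (qw (w x)))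
    (ν := fun x => 2 * ParA.nu (qw (w x)) + 7) (lam := fun x => 2 * ParA.nu (qw (w x)))
    (s := fun x => ParA.ss (qw (w x))) (c := fun x => qw (w x)) (M := fun x => ParA.MM (qw (w x)))
    (T := fun x => ParA.TT (qw (w x))) (κ := fun x => ParA.kap (qw (w x)))
    (K := fun x => ParA.KK (nOf (w x)) (qw (w x)))
    (den := fun x => ParA.KK (nOf (w x)) (qw (w x)) * (qw (w x) * ParA.MM (qw (w x))))
    hw (PolyS.range hn) (ParB.poly_mu hq) (ParB.poly_two_mu hq)
    (((PolyN.const 2).mul (ParB.poly_nu hq)).add (PolyN.const 7)) (ParB.poly_NN hq)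
    ((PolyN.const 2).mul (ParB.poly_nu hq)) (ParB.poly_BB hq) (ParB.poly_ss hq) hq
    (ParB.poly_MM hq) (ParB.poly_TT hq) (ParB.poly_kap hq) (ParB.poly_KK hn hq)
    ((ParB.poly_KK hn hq).mul (hq.mul (ParB.poly_MM hq))) (poly_tbB hw) hr
  exact h

theorem poly_val (hw : PolyC D ctx w) (hr : PolyC D ctx r) :
    PolyBin D ctx (fun x => val (w x) (r x)) := by
  have hx := (poly_nOf hw).add (poly_tOf hw)
  refine PolyBin.ite (PolyB.lt (poly_nOf hw) (Par.poly_size hx)) ?_ ?_
  · refine bin_ofN (ParB.poly_brute' (N := fun x => nOf (w x) + tOf (w x))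
      (PolyC.mono hw fun _ h => h.1) (PolyC.mono hx fun _ h => h.1) fun x hx' => ?_)
    have h1 := hx'.2
    rw [decide_eq_true_eq] at h1
    exact Nat.lt_size.1 h1
  · refine PolyBin.pow2 (PolyC.mono ?_ fun _ h => h.1)
    exact Pool.Agent.Lib.SubBisX.Tab.TabAux.itez (PolyB.natEq (poly_qw hw) (PolyN.const 0)) (PolyN.const 0)
      (PolyC.mono (poly_est hw hr) fun _ h => h.1)

theorem poly_nb (hw : PolyC D ctx w) : PolyN D ctx (fun x => nb (w x)) := by
  have hq := poly_qw hw
  have hn := poly_nOf hw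
  have hlam : PolyN D ctx (fun x => 2 * ParA.nu (qw (w x))) :=
    (PolyN.const 2).mul (ParB.poly_nu hq)
  have hC : PolyN D ctx (fun x =>
      (2 ^ (2 * ParA.nu (qw (w x))) * ParA.ss (qw (w x)) + 1) ^ ParA.TT (qw (w x))) := by
    refine n_pow ((ParB.poly_BB hq).mul (ParB.poly_ss hq)).succ (ParB.poly_TT hq)
      ((bdd_tbB hw).le fun x _ => ?_)
    unfold ParB.tbB
    refine Nat.pow_le_pow_left (Nat.add_le_add_right (Nat.le_mul_of_pos_right _ ?_) 1) _
    positivity
  exact ((ParB.poly_KK hn hq).mul ((hn.mul hlam).add ((hC.mul hn).mul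
    ((ParB.poly_mu hq).add (hlam.add (PolyN.const 7)))))).congr fun _ _ => rfl

end poly

/-! ### numbers -/

section num

variable {x n : ℕ}

theorem two_le_log (x : ℕ) : (2 : ℝ) ≤ Real.logb 2 ((x : ℝ) + 4) := by
  rw [Real.le_logb_iff_rpow_le one_lt_two (by positivity)]
  have : (0 : ℝ) ≤ x := Nat.cast_nonneg x
  have h : (2 : ℝ) ^ (2 : ℝ) = 4 := by
    rw [show (2 : ℝ) = ((2 : ℕ) : ℝ) by norm_num, Real.rpow_natCast]
    norm_num
  rw [h]
  linarith

theorem one_le_loglog (x : ℕ) : (1 : ℝ) ≤ Real.logb 2 (Real.logb 2 ((x : ℝ) + 4)) := by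
  have h := two_le_log x
  rw [Real.le_logb_iff_rpow_le one_lt_two (by linarith), Real.rpow_one]
  exact h

/-- the additive error `1` is absorbed -/
theorem one_le_main (h1 : 1 ≤ n) (hn : x.size ≤ n) :
    (1 : ℝ) ≤ 3 * n * (Real.logb 2 (Real.logb 2 ((x : ℝ) + 4))) ^ 2 /
      Real.logb 2 ((x : ℝ) + 4) := by
  have h2 := two_le_log x
  have h3 := one_le_loglog x
  have hn1 : (1 : ℝ) ≤ n := by exact_mod_cast h1
  have h4 : Real.logb 2 ((x : ℝ) + 4) ≤ n + 2 := by
    rw [Real.logb_le_iff_le_rpow one_lt_two (by positivity)]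
    have h5 : x < 2 ^ n := lt_of_lt_of_le (Nat.lt_size_self x) (Nat.pow_le_pow_right (by norm_num) hn)
    have h6 : ((x : ℝ) + 1) ≤ 2 ^ n := by exact_mod_cast h5
    have h7 : (2 : ℝ) ^ ((n : ℝ) + 2) = 4 * 2 ^ n := by
      rw [show (n : ℝ) + 2 = ((n + 2 : ℕ) : ℝ) by push_cast; ring, Real.rpow_natCast, pow_add]
      ring
    rw [h7]
    have h8 : (0 : ℝ) ≤ x := Nat.cast_nonneg x
    linarith
  rw [le_div_iff₀ (by linarith), one_mul]
  have h9 : (1 : ℝ) ≤ (Real.logb 2 (Real.logb 2 ((x : ℝ) + 4))) ^ 2 := one_le_pow₀ h3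
  have h10 : (3 : ℝ) * n * 1 ≤ 3 * n * (Real.logb 2 (Real.logb 2 ((x : ℝ) + 4))) ^ 2 :=
    mul_le_mul_of_nonneg_left h9 (by positivity)
  linarith

end num

/-- The statement about the mean value. -/
def Core (q n : ℕ) : Prop :=
  ∀ F : Finset (Fin n) → ℤ, F ∅ = 0 → FCS.Subm F →
    (∀ S v, |F (insert v S) - F S| ≤ ParA.kap q) →
    |(Reg.av fun p : (Fin n → Fin (2 ^ (2 * ParA.nu q))) ×
        WB (2 ^ ParA.mu q) n (2 ^ (2 * ParA.nu q)) (ParA.ss q) (2 ^ (2 * ParA.nu q + 7))
          (ParA.TT q) => (BS.BVal q (ParA.MM q) F (ParA.TT q) p.1 p.2 : ℝ)) / (q * ParA.MM q) -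
        Bounds.logZ F| ≤ 6 * n / q

/-- **Theorem.** -/
theorem rscheme_log (hcore : ∀ q n : ℕ, 1 ≤ q → Core q n) :
    ∃ C : ℝ, RScheme fun n t => C * n *
      (Real.logb 2 (Real.logb 2 ((n : ℝ) + t + 4))) ^ 2 / Real.logb 2 ((n : ℝ) + t + 4) := by
  classical
  obtain ⟨C0, hC0, hbd⟩ := ParB.bound
  refine ⟨C0 + 3, ?_⟩
  have hv : PolyC (fun x : BGraph × ℕ => 1 ≤ x.2) [fun x => inCode x.1 x.2]
      (fun x => inCode x.1 x.2) := PolyC.var (by simp)
  obtain ⟨m, hm⟩ := PolyC.length_le (poly_nb hv)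
  have hb : ∀ (G : BGraph) (t : ℕ), 1 ≤ t → nb (inCode G t) ≤ m.eval (inCode G t).length := by
    intro G t ht
    have h3 := hm (G, t) ht
    simp only [vals_cons, vals_nil, total_cons, total_nil, Nat.add_zero, un_length] at h3
    exact h3
  let D : BGraph × ℕ × List Bool → Prop := fun x =>
    1 ≤ x.2.1 ∧ x.2.2.length = m.eval (inCode x.1 x.2.1).length
  let enc : BGraph × ℕ × List Bool → List Bool := fun x => inCode x.1 x.2.1 ++ x.2.2
  have hw : PolyC D [enc] enc := PolyC.var (by simp)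
  have hlen : PolyN D [enc] (fun x => (inCode x.1 x.2.1).length) :=
    (((poly_tOf hw).add ((poly_aOf hw).add ((poly_bOf hw).add
      ((poly_aOf hw).mul (poly_bOf hw))))).add (PolyN.const 3)).congr (fun x _ =>
        lenOf_append x.1 x.2.1 x.2.2)
  have hpre : PolyC D [enc] (fun x => inCode x.1 x.2.1) :=
    (PolyC.take hw hlen).congr (fun x _ => List.take_left)
  have hsuf : PolyC D [enc] (fun x => x.2.2) :=
    (PolyC.drop hw hlen).congr (fun x _ => List.drop_left)
  obtain ⟨u, hu, hval⟩ := poly_val hpre hsuf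
  have hout : PolyC D [enc] (fun x => false :: u x) := PolyC.cons false hu
  refine ⟨m, fun G t r => false :: u (G, t, r),
    PolyC.toTM2 enc (fun x => false :: u x) id hout, fun G t ht => ?_⟩
  have hout' : ∀ r : Fin (m.eval (inCode G t).length) → Bool,
      outVal (false :: u (G, t, List.ofFn r)) = (val (inCode G t) (List.ofFn r) : ℚ) := by
    intro r
    have h1 := hval (G, t, List.ofFn r) ⟨ht, List.length_ofFn⟩
    show ((binVal (u (G, t, List.ofFn r)) : ℕ) : ℚ) = _
    rw [binVal_eq_bval, h1]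
  have hn : nOf (inCode G t) = G.a + G.b := nOf_inCode G t
  have htt : tOf (inCode G t) = t := tOf_inCode G t
  have hind : (ind (adjOf (inCode G t)) (range (nOf (inCode G t)))) = numIndep G.graph := by
    rw [hn]
    exact ind_eq_numIndep G t
  have hbip : ∀ u v, adjOf (inCode G t) u v = true →
      (u < aOf (inCode G t) ↔ ¬ v < aOf (inCode G t)) := by
    intro u v h
    rcases adjOf_bip h with h | h <;> omega
  have hpos : 0 < numIndep G.graph := by
    rw [← hind]
    exact card_pos.2 ⟨∅, by simp⟩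
  -- the error
  set x : ℕ := G.a + G.b + t with hx
  have hx1 : 1 ≤ x := by omega
  have hcast : ((G.a + G.b : ℕ) : ℝ) + t + 4 = (x : ℝ) + 4 := by
    rw [hx]
    push_cast
    ring
  set lam := Real.logb 2 ((x : ℝ) + 4) with hlam
  set L := Real.logb 2 lam with hL
  have hlam2 : 2 ≤ lam := two_le_log x
  have hL1 : 1 ≤ L := one_le_loglog x
  have he : (fun n t : ℕ => (C0 + 3) * (n : ℝ) *
      (Real.logb 2 (Real.logb 2 ((n : ℝ) + t + 4))) ^ 2 / Real.logb 2 ((n : ℝ) + t + 4))
      (G.a + G.b) t = (C0 + 3) * ((G.a + G.b : ℕ) : ℝ) * L ^ 2 / lam := by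
    show (C0 + 3) * ((G.a + G.b : ℕ) : ℝ) *
      (Real.logb 2 (Real.logb 2 (((G.a + G.b : ℕ) : ℝ) + t + 4))) ^ 2 /
        Real.logb 2 (((G.a + G.b : ℕ) : ℝ) + t + 4) = _
    rw [hcast]
  set e : ℝ := (C0 + 3) * ((G.a + G.b : ℕ) : ℝ) * L ^ 2 / lam with hedef
  have he0 : 0 ≤ e := by
    rw [hedef]
    have : (0 : ℝ) ≤ ((G.a + G.b : ℕ) : ℝ) := Nat.cast_nonneg _
    positivity
  -- it is enough to have many good strings
  suffices h : ∃ P : (Fin (m.eval (inCode G t).length) → Bool) → Prop,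
      3 * 2 ^ m.eval (inCode G t).length ≤ 4 * (univ.filter fun r => P r).card ∧
        ∀ r, P r → |Real.logb 2 (val (inCode G t) (List.ofFn r) : ℝ) -
          Real.logb 2 (numIndep G.graph : ℝ)| ≤ e ∧ 0 < val (inCode G t) (List.ofFn r) by
    obtain ⟨P, h1, h2⟩ := h
    refine h1.trans (Nat.mul_le_mul_left 4 ?_)
    rw [Nat.card_eq_fintype_card, Fintype.card_subtype]
    refine card_le_card fun r hr => mem_filter.2 ⟨mem_univ r, ?_⟩
    obtain ⟨h3, h4⟩ := h2 r (mem_filter.1 hr).2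
    refine ⟨?_, ?_⟩
    · rw [hout' r]
      exact_mod_cast h4
    · rw [hout' r, Rat.cast_natCast]
      exact h3.trans (le_of_eq he.symm)
  have hall : 3 * 2 ^ m.eval (inCode G t).length ≤
      4 * (univ.filter fun _ : Fin (m.eval (inCode G t).length) → Bool => True).card := by
    rw [filter_true_of_mem fun _ _ => trivial, card_univ, Fintype.card_fun, Fintype.card_bool,
      Fintype.card_fin]
    omega
  by_cases h1 : nOf (inCode G t) < (nOf (inCode G t) + tOf (inCode G t)).size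
  · refine ⟨fun _ => True, by convert hall, fun r _ => ?_⟩
    have h2 : val (inCode G t) (List.ofFn r) = numIndep G.graph := by
      unfold val
      rw [if_pos (decide_eq_true h1), hind]
    rw [h2, sub_self, abs_zero]
    exact ⟨he0, hpos⟩
  · have hsz : x.size ≤ G.a + G.b := by
      rw [hn, htt, ← hx] at h1
      omega
    have hn1 : 1 ≤ G.a + G.b := by
      have : 0 < x.size := Nat.size_pos.2 hx1
      omega
    have h2 : ∀ r, val (inCode G t) (List.ofFn r) = 2 ^ (if decide (qw (inCode G t) = 0) = true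
        then 0 else est (inCode G t) (List.ofFn (r : Fin (m.eval (inCode G t).length) → Bool))) := by
      intro r
      unfold val
      rw [if_neg (by rw [decide_eq_true_eq]; exact h1)]
    have hqx : qw (inCode G t) = ParB.qB x := by
      unfold qw
      rw [hn, htt]
    obtain ⟨hb0, hb1⟩ := hbd x hx1
    have hlog : Real.logb 2 (numIndep G.graph : ℝ) ≤ ((G.a + G.b : ℕ) : ℝ) := by
      rw [Real.logb_le_iff_le_rpow one_lt_two (by exact_mod_cast hpos), Real.rpow_natCast]
      have h3 : numIndep G.graph ≤ 2 ^ (G.a + G.b) := by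
        rw [← hind, hn]
        refine (ind_le_two_pow _).trans (le_of_eq ?_)
        rw [card_range]
      exact_mod_cast h3
    have hlog0 : 0 ≤ Real.logb 2 (numIndep G.graph : ℝ) :=
      Real.logb_nonneg one_lt_two (by exact_mod_cast hpos)
    rcases Nat.eq_zero_or_pos (ParB.qB x) with hq0 | hq0
    · refine ⟨fun _ => True, by convert hall, fun r _ => ?_⟩
      rw [h2 r, hqx, if_pos (decide_eq_true hq0)]
      refine ⟨?_, by norm_num⟩
      have h4 := hb0 hq0
      have h5 : Real.logb 2 ((2 ^ 0 : ℕ) : ℝ) = 0 := by norm_num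
      rw [h5, zero_sub, abs_neg, abs_of_nonneg hlog0]
      refine hlog.trans ?_
      have h6 : ((G.a + G.b : ℕ) : ℝ) * 1 ≤ ((G.a + G.b : ℕ) : ℝ) * (C0 * L ^ 2 / lam) :=
        mul_le_mul_of_nonneg_left h4 (Nat.cast_nonneg _)
      have h7 : 0 ≤ 3 * ((G.a + G.b : ℕ) : ℝ) * L ^ 2 / lam := by positivity
      have h8 : e = ((G.a + G.b : ℕ) : ℝ) * (C0 * L ^ 2 / lam) +
          3 * ((G.a + G.b : ℕ) : ℝ) * L ^ 2 / lam := by
        rw [hedef]
        ring
      rw [h8]
      linarith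
    · have hP := BS.prob_P (n := nOf (inCode G t)) (a := aOf (inCode G t))
        (adj := adjOf (inCode G t)) (q := ParB.qB x) (hcore _ _ hq0) hq0 (adjOf_symm _) hbip
        (m := m.eval (inCode G t).length) (by
          have := hb G t ht
          unfold nb at this
          rw [hqx] at this
          exact this)
      refine ⟨_, hP, fun r hr => ?_⟩
      rw [h2 r, hqx, if_neg (by rw [decide_eq_true_eq]; omega)]
      refine ⟨?_, by positivity⟩
      have h5 : Real.logb 2 ((2 ^ est (inCode G t) (List.ofFn r) : ℕ) : ℝ) =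
          (est (inCode G t) (List.ofFn r) : ℝ) := by
        push_cast
        rw [Real.logb_pow, Real.logb_self_eq_one (by norm_num), mul_one]
      rw [h5, ← hind]
      have h6 : est (inCode G t) (List.ofFn r) = BS.esT (nOf (inCode G t)) (aOf (inCode G t))
          (adjOf (inCode G t)) (ParB.qB x) (List.ofFn r) (range (nOf (inCode G t))) := by
        unfold est
        rw [hqx]
      rw [h6]
      refine le_trans hr ?_
      rw [hn]
      have h7 := hb1 hq0
      have h8 : e = ((G.a + G.b : ℕ) : ℝ) * (C0 * L ^ 2 / lam) +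
          3 * ((G.a + G.b : ℕ) : ℝ) * L ^ 2 / lam := by
        rw [hedef]
        ring
      have h9 : (1 : ℝ) ≤ 3 * ((G.a + G.b : ℕ) : ℝ) * L ^ 2 / lam := one_le_main hn1 hsz
      have h10 : ((G.a + G.b : ℕ) : ℝ) * (10 / (ParB.qB x : ℝ)) ≤
          ((G.a + G.b : ℕ) : ℝ) * (C0 * L ^ 2 / lam) :=
        mul_le_mul_of_nonneg_left h7 (Nat.cast_nonneg _)
      have h11 : 8 * ((G.a + G.b : ℕ) : ℝ) / (ParB.qB x : ℝ) ≤
          ((G.a + G.b : ℕ) : ℝ) * (10 / (ParB.qB x : ℝ)) := by
        have hq1 : (0 : ℝ) < (ParB.qB x : ℝ) := by exact_mod_cast hq0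
        rw [← mul_div_assoc]
        refine div_le_div_of_nonneg_right ?_ hq1.le
        have : (0 : ℝ) ≤ ((G.a + G.b : ℕ) : ℝ) := Nat.cast_nonneg _
        linarith
      rw [h8]
      linarith

end Pool.Agent.Lib.SubBisB.Fin2
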