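import Pool.Agent.Lib.SubBisX.Bounds
import Pool.Agent.Lib.SubBisX.CoreDefs
import Pool.Agent.Lib.SubBisB.BDefs

/-!
# The Gibbs measure of a set function and its conditional probabilities

`F : Finset (Fin n) → ℤ`; the measure gives the set `S` the weight `2 ^ (-F S)`.
-/

open scoped BigOperators

namespace Pool.Agent.Lib.SubBisB

open Finset SubBis Pool.Agent.Lib.SubBisX.Reg

variable {n m B : ℕ}

/-- The weight of a set. -/
noncomputable def wt2 (F : Finset (Fin n) → ℤ) (S : Finset (Fin n)) : ℝ := (2 : ℝ) ^ (-(F S : ℝ))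

/-- The total weight. -/
noncomputable def ZF (F : Finset (Fin n) → ℤ) : ℝ := ∑ S, wt2 F S

/-- The mean under the Gibbs measure. -/
noncomputable def EG (F : Finset (Fin n) → ℤ) (f : Finset (Fin n) → ℝ) : ℝ :=
  (∑ S, wt2 F S * f S) / ZF F

/-- The sets that agree with `S` on `R`. -/
def sm (R S : Finset (Fin n)) : Finset (Finset (Fin n)) := univ.filter fun S' => S' ∩ R = S ∩ R

/-- The conditional mean of `f`, given the set on `R`. -/
noncomputable def ce (F : Finset (Fin n) → ℤ) (R : Finset (Fin n)) (f : Finset (Fin n) → ℝ)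
    (S : Finset (Fin n)) : ℝ := (∑ S' ∈ sm R S, wt2 F S' * f S') / ∑ S' ∈ sm R S, wt2 F S'

/-- The function depends on the part of the set in `R` only. -/
def Dep (R : Finset (Fin n)) {α : Sort*} (f : Finset (Fin n) → α) : Prop :=
  ∀ S S' : Finset (Fin n), S ∩ R = S' ∩ R → f S = f S'

/-- The indicator of `v`. -/
def ind1 (v : Fin n) (S : Finset (Fin n)) : ℝ := if v ∈ S then 1 else 0

/-- The conditional probability of `v`, given the set on `R`. -/
noncomputable def pv (F : Finset (Fin n) → ℤ) (v : Fin n) (R S : Finset (Fin n)) : ℝ :=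
  ce F R (ind1 v) S

/-- The second moment of the conditional probability. -/
noncomputable def psi (F : Finset (Fin n) → ℤ) (v : Fin n) (R : Finset (Fin n)) : ℝ :=
  EG F fun S => pv F v R S ^ 2

/-- The vertices of the blocks before that of `v`. -/
def Rb (β : Fin n → Fin B) (v : Fin n) : Finset (Fin n) := univ.filter fun x => β x < β v

/-- The vertices before `v` in the order of the blocks. -/
def Rp (β : Fin n → Fin B) (v : Fin n) : Finset (Fin n) :=
  univ.filter fun x => β x < β v ∨ (β x = β v ∧ x < v)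

theorem Rb_subset_Rp (β : Fin n → Fin B) (v : Fin n) : Rb β v ⊆ Rp β v := fun x hx =>
  mem_filter.2 ⟨mem_univ x, Or.inl (mem_filter.1 hx).2⟩

/-- The threshold of `v` on the scale `D`. -/
noncomputable def tt (F : Finset (Fin n) → ℤ) (D : ℕ) (v : Fin n) (R S : Finset (Fin n)) : ℕ :=
  ⌊(D : ℝ) * pv F v R S⌋₊

/-- `D` is a common denominator of all conditional probabilities. -/
def CD (F : Finset (Fin n) → ℤ) (D : ℕ) : Prop :=
  0 < D ∧ ∀ v R S, ((tt F D v R S : ℕ) : ℝ) = D * pv F v R S

/-- A sampler of the Gibbs measure in the order of the blocks: `v` is in the set if its number is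
below the threshold given by the part of the set before `v`. -/
def Samp (F : Finset (Fin n) → ℤ) (β : Fin n → Fin B) (D : ℕ)
    (z : (Fin n → Fin D) → Finset (Fin n)) : Prop :=
  ∀ U v, v ∈ z U ↔ ((U v : ℕ)) < tt F D v (Rp β v) (z U)

end Pool.Agent.Lib.SubBisB
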