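import Mathlib

/-!
Finite conditional expectations: a positive weight `w` on the subsets of a finite set `V`, and the
conditional expectation `ce w R g S` of `g` given the intersection of the random set with `R`.
-/

open scoped BigOperators

namespace Pool.Agent.Lib.SubBisB.Gib

open Finset

variable {V : Type*} [Fintype V] [DecidableEq V]

/-- the sets that agree with `S` on `R` -/
def cls (R S : Finset V) : Finset (Finset V) := univ.filter fun T => T ∩ R = S ∩ R

/-- the weight of the class of `S` -/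
noncomputable def Zc (w : Finset V → ℝ) (R S : Finset V) : ℝ := ∑ T ∈ cls R S, w T

/-- the conditional expectation of `g` given the intersection with `R` -/
noncomputable def ce (w : Finset V → ℝ) (R : Finset V) (g : Finset V → ℝ) (S : Finset V) : ℝ :=
  (∑ T ∈ cls R S, w T * g T) / Zc w R S

/-- the conditional probability of `v ∈ S` given `S ∩ R` -/
noncomputable def pc (w : Finset V → ℝ) (R : Finset V) (v : V) (S : Finset V) : ℝ :=
  ce w R (fun T => if v ∈ T then 1 else 0) S

/-- `f` depends on the intersection with `R` only -/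
def Dep (R : Finset V) (f : Finset V → ℝ) : Prop := ∀ S S', S ∩ R = S' ∩ R → f S = f S'

variable {w : Finset V → ℝ} {R R' : Finset V}

theorem mem_cls {S T : Finset V} : T ∈ cls R S ↔ T ∩ R = S ∩ R := by
  simp [cls]

theorem self_mem_cls (S : Finset V) : S ∈ cls R S := mem_cls.2 rfl

theorem cls_congr {S S' : Finset V} (h : S ∩ R = S' ∩ R) : cls R S = cls R S' := by
  ext T; rw [mem_cls, mem_cls, h]

omit [Fintype V] in
theorem inter_of_subset (hR : R ⊆ R') {S S' : Finset V} (h : S ∩ R' = S' ∩ R') :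
    S ∩ R = S' ∩ R := by
  have h1 : S ∩ R = (S ∩ R') ∩ R := by
    rw [inter_assoc, inter_eq_right.2 hR]
  have h2 : S' ∩ R = (S' ∩ R') ∩ R := by
    rw [inter_assoc, inter_eq_right.2 hR]
  rw [h1, h, h2]

omit [Fintype V] in
theorem Dep.mono (hR : R ⊆ R') {f : Finset V → ℝ} (hf : Dep R f) : Dep R' f :=
  fun _ _ h => hf _ _ (inter_of_subset hR h)

theorem Zc_pos (hw : ∀ S, 0 < w S) (R S : Finset V) : 0 < Zc w R S :=
  sum_pos (fun T _ => hw T) ⟨S, self_mem_cls S⟩

theorem Zc_dep (w : Finset V → ℝ) (R : Finset V) : Dep R (Zc w R) := by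
  intro S S' h
  unfold Zc
  rw [cls_congr h]

theorem ce_dep (w : Finset V → ℝ) (R : Finset V) (g : Finset V → ℝ) : Dep R (ce w R g) := by
  intro S S' h
  unfold ce
  rw [cls_congr h, Zc_dep w R _ _ h]

theorem pc_dep (w : Finset V → ℝ) (R : Finset V) (v : V) : Dep R (pc w R v) := ce_dep w R _

/-- exchange of a double sum over classes -/
theorem sum_cls_comm (R : Finset V) (a : Finset V → Finset V → ℝ) :
    ∑ S, ∑ T ∈ cls R S, a S T = ∑ T, ∑ S ∈ cls R T, a S T := by
  have h1 : ∀ S, ∑ T ∈ cls R S, a S T = ∑ T, if T ∩ R = S ∩ R then a S T else 0 := fun S => by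
    rw [cls, sum_filter]
  have h2 : ∀ T, ∑ S ∈ cls R T, a S T = ∑ S, if T ∩ R = S ∩ R then a S T else 0 := fun T => by
    rw [cls, sum_filter]
    exact sum_congr rfl fun S _ => by simp only [eq_comm]
  simp only [h1, h2]
  exact sum_comm

/-- the defining property of the conditional expectation -/
theorem sum_ce_mul (hw : ∀ S, 0 < w S) (g : Finset V → ℝ) {f : Finset V → ℝ} (hf : Dep R f) :
    ∑ S, w S * (ce w R g S * f S) = ∑ S, w S * (g S * f S) := by
  have h1 : ∀ S, w S * (ce w R g S * f S) =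
      ∑ T ∈ cls R S, (w S / Zc w R S) * f S * (w T * g T) := by
    intro S
    rw [← mul_sum]
    unfold ce
    ring
  simp only [h1]
  rw [sum_cls_comm]
  refine sum_congr rfl fun T _ => ?_
  have h2 : ∀ S ∈ cls R T, (w S / Zc w R S) * f S * (w T * g T) =
      w S * (f T * (w T * g T) / Zc w R T) := by
    intro S hS
    have h := mem_cls.1 hS
    rw [hf S T h, Zc_dep w R S T h]
    ring
  rw [sum_congr rfl h2, ← sum_mul]
  have h3 : (∑ S ∈ cls R T, w S) = Zc w R T := rfl
  have h4 := (Zc_pos hw R T).ne'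
  rw [h3]
  field_simp

theorem sum_ce (hw : ∀ S, 0 < w S) (g : Finset V → ℝ) :
    ∑ S, w S * ce w R g S = ∑ S, w S * g S := by
  have h := sum_ce_mul (R := R) hw g (f := fun _ => 1) (fun _ _ _ => rfl)
  simpa using h

/-- restricted version of the defining property -/
theorem sum_cls_ce (hw : ∀ S, 0 < w S) (hR : R ⊆ R') (g : Finset V → ℝ) (S : Finset V) :
    ∑ T ∈ cls R S, w T * ce w R' g T = ∑ T ∈ cls R S, w T * g T := by
  have h := sum_ce_mul (R := R') hw g (f := fun T => if T ∩ R = S ∩ R then 1 else 0) (by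
    intro T T' h
    have := inter_of_subset hR h
    simp only [this])
  have e : ∀ a : Finset V → ℝ, ∑ T, w T * (a T * (if T ∩ R = S ∩ R then 1 else 0)) =
      ∑ T ∈ cls R S, w T * a T := by
    intro a
    rw [cls, sum_filter]
    exact sum_congr rfl fun T _ => by split_ifs <;> simp
  rw [e, e] at h
  exact h

theorem ce_tower (hw : ∀ S, 0 < w S) (hR : R ⊆ R') (g : Finset V → ℝ) (S : Finset V) :
    ce w R (ce w R' g) S = ce w R g S := by
  unfold ce
  rw [show (∑ T ∈ cls R S, w T * ((∑ T' ∈ cls R' T, w T' * g T') / Zc w R' T)) =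
    ∑ T ∈ cls R S, w T * ce w R' g T from rfl, sum_cls_ce hw hR]

theorem ce_mono (hw : ∀ S, 0 < w S) {g g' : Finset V → ℝ} (h : ∀ S, g S ≤ g' S) (S : Finset V) :
    ce w R g S ≤ ce w R g' S :=
  div_le_div_of_nonneg_right
    (sum_le_sum fun T _ => mul_le_mul_of_nonneg_left (h T) (hw T).le) (Zc_pos hw R S).le

theorem ce_const (hw : ∀ S, 0 < w S) (a : ℝ) (S : Finset V) : ce w R (fun _ => a) S = a := by
  unfold ce
  rw [← sum_mul]
  have h4 := (Zc_pos hw R S).ne'
  have h3 : (∑ T ∈ cls R S, w T) = Zc w R S := rfl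
  rw [h3]
  field_simp

theorem ce_mem (hw : ∀ S, 0 < w S) {g : Finset V → ℝ} (hg : ∀ S, 0 ≤ g S ∧ g S ≤ 1)
    (S : Finset V) : 0 ≤ ce w R g S ∧ ce w R g S ≤ 1 := by
  constructor
  · rw [← ce_const hw (R := R) 0 S]
    exact ce_mono hw (fun T => (hg T).1) S
  · rw [← ce_const hw (R := R) 1 S]
    exact ce_mono hw (fun T => (hg T).2) S

/-- conditional Jensen inequality -/
theorem ce_jensen (hw : ∀ S, 0 < w S) {φ : ℝ → ℝ} (hφ : ConcaveOn ℝ (Set.Icc 0 1) φ)
    {g : Finset V → ℝ} (hg : ∀ S, 0 ≤ g S ∧ g S ≤ 1) (S : Finset V) :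
    ce w R (fun T => φ (g T)) S ≤ φ (ce w R g S) := by
  have hZ := Zc_pos hw R S
  have h := hφ.le_map_sum (t := cls R S) (w := fun T => w T / Zc w R S) (p := g)
    (fun T _ => div_nonneg (hw T).le hZ.le) (by
      rw [← sum_div]
      exact div_self hZ.ne') (fun T _ => Set.mem_Icc.2 (hg T))
  simp only [smul_eq_mul] at h
  unfold ce
  rw [sum_div, sum_div]
  have e : ∀ a : Finset V → ℝ, ∑ T ∈ cls R S, w T * a T / Zc w R S =
      ∑ T ∈ cls R S, w T / Zc w R S * a T := fun a => sum_congr rfl fun T _ => by ring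
  rw [e, e]
  exact h

/-! ### Conditional probabilities -/

omit [Fintype V] in
theorem ind_mem (v : V) (S : Finset V) :
    0 ≤ (if v ∈ S then (1 : ℝ) else 0) ∧ (if v ∈ S then (1 : ℝ) else 0) ≤ 1 := by
  split_ifs <;> norm_num

theorem pc_mem (hw : ∀ S, 0 < w S) (R : Finset V) (v : V) (S : Finset V) :
    0 ≤ pc w R v S ∧ pc w R v S ≤ 1 := ce_mem hw (ind_mem v) S

/-- (P) -/
theorem sum_pc_mul (hw : ∀ S, 0 < w S) (v : V) {f : Finset V → ℝ} (hf : Dep R f) :
    ∑ S, w S * (pc w R v S * f S) = ∑ S, w S * (if v ∈ S then f S else 0) := by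
  unfold pc
  rw [sum_ce_mul hw _ hf]
  exact sum_congr rfl fun S _ => by split_ifs <;> simp

theorem ce_pc (hw : ∀ S, 0 < w S) (hR : R ⊆ R') (v : V) (S : Finset V) :
    ce w R (pc w R' v) S = pc w R v S := ce_tower hw hR _ S

/-- (P2): more information, less entropy -/
theorem sum_concave_le (hw : ∀ S, 0 < w S) {φ : ℝ → ℝ} (hφ : ConcaveOn ℝ (Set.Icc 0 1) φ)
    (hR : R ⊆ R') (v : V) :
    ∑ S, w S * φ (pc w R' v S) ≤ ∑ S, w S * φ (pc w R v S) := by
  rw [← sum_ce (R := R) hw fun S => φ (pc w R' v S)]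
  refine sum_le_sum fun S _ => mul_le_mul_of_nonneg_left ?_ (hw S).le
  rw [← ce_pc hw hR v S]
  exact ce_jensen hw hφ (pc_mem hw R' v) S

/-- the second moment of the conditional probability (times the total weight) -/
noncomputable def psi (w : Finset V → ℝ) (v : V) (R : Finset V) : ℝ := ∑ S, w S * pc w R v S ^ 2

/-- (P1): the second moment of the increments -/
theorem sum_sq_sub (hw : ∀ S, 0 < w S) (hR : R ⊆ R') (v : V) :
    ∑ S, w S * (pc w R' v S - pc w R v S) ^ 2 = psi w v R' - psi w v R := by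
  have h1 : ∑ S, w S * (pc w R' v S * pc w R v S) = ∑ S, w S * (pc w R v S * pc w R v S) := by
    rw [← sum_ce_mul (R := R) hw (pc w R' v) (pc_dep w R v)]
    exact sum_congr rfl fun S _ => by rw [ce_pc hw hR]
  have h2 : ∀ S, w S * (pc w R' v S - pc w R v S) ^ 2 = w S * pc w R' v S ^ 2 -
      2 * (w S * (pc w R' v S * pc w R v S)) + w S * (pc w R v S * pc w R v S) := fun S => by ring
  have h3 : ∀ S, w S * pc w R v S ^ 2 = w S * (pc w R v S * pc w R v S) := fun S => by ring
  unfold psi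
  simp only [h2, h3]
  rw [sum_add_distrib, sum_sub_distrib, ← mul_sum, h1]
  ring

theorem psi_mono (hw : ∀ S, 0 < w S) (hR : R ⊆ R') (v : V) : psi w v R ≤ psi w v R' := by
  have h := sum_sq_sub hw hR v
  have h1 : 0 ≤ ∑ S, w S * (pc w R' v S - pc w R v S) ^ 2 :=
    sum_nonneg fun S _ => mul_nonneg (hw S).le (sq_nonneg _)
  linarith

theorem psi_nonneg (hw : ∀ S, 0 < w S) (v : V) (R : Finset V) : 0 ≤ psi w v R :=
  sum_nonneg fun S _ => mul_nonneg (hw S).le (sq_nonneg _)

theorem psi_le (hw : ∀ S, 0 < w S) (v : V) (R : Finset V) : psi w v R ≤ ∑ S, w S := by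
  refine sum_le_sum fun S _ => ?_
  have h := pc_mem hw R v S
  have h1 : pc w R v S ^ 2 ≤ 1 := pow_le_one₀ h.1 h.2
  nlinarith [hw S]

/-- (P1) for the first moment, by the inequality of Cauchy and Schwarz -/
theorem sum_abs_sub_le (hw : ∀ S, 0 < w S) (hR : R ⊆ R') (v : V) :
    (∑ S, w S * |pc w R' v S - pc w R v S|) ^ 2 ≤
      (∑ S, w S) * (psi w v R' - psi w v R) := by
  rw [← sum_sq_sub hw hR v]
  have key := Finset.sum_mul_sq_le_sq_mul_sq univ (fun S : Finset V => Real.sqrt (w S))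
    (fun S => Real.sqrt (w S) * |pc w R' v S - pc w R v S|)
  have e1 : ∀ S, Real.sqrt (w S) * (Real.sqrt (w S) * |pc w R' v S - pc w R v S|) =
      w S * |pc w R' v S - pc w R v S| := fun S => by
    rw [← mul_assoc, Real.mul_self_sqrt (hw S).le]
  have e2 : ∀ S, Real.sqrt (w S) ^ 2 = w S := fun S => Real.sq_sqrt (hw S).le
  have e3 : ∀ S, (Real.sqrt (w S) * |pc w R' v S - pc w R v S|) ^ 2 =
      w S * (pc w R' v S - pc w R v S) ^ 2 := fun S => by
    rw [mul_pow, Real.sq_sqrt (hw S).le, sq_abs]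
  simp only [e1, e2, e3] at key
  exact key

end Pool.Agent.Lib.SubBisB.Gib
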