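import Pool.Agent.Lib.SubBisB.GDefs
import Pool.Agent.Lib.SubBisB.Chain

/-!
# The Gibbs measure of a set function: conditional means
-/

open scoped BigOperators

namespace Pool.Agent.Lib.SubBisB

open Finset SubBis Pool.Agent.Lib.SubBisX.Reg

variable {n : ℕ} {F : Finset (Fin n) → ℤ}

theorem wt2_pos (S : Finset (Fin n)) : 0 < wt2 F S := Real.rpow_pos_of_pos (by norm_num) _

theorem ZF_pos : 0 < ZF F := sum_pos (fun S _ => wt2_pos S) ⟨∅, mem_univ _⟩

theorem EG_add (f g : Finset (Fin n) → ℝ) : EG F (fun S => f S + g S) = EG F f + EG F g := by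
  unfold EG
  rw [← add_div, ← sum_add_distrib]
  congr 1
  exact sum_congr rfl fun S _ => by ring

theorem EG_sub (f g : Finset (Fin n) → ℝ) : EG F (fun S => f S - g S) = EG F f - EG F g := by
  unfold EG
  rw [← sub_div, ← sum_sub_distrib]
  congr 1
  exact sum_congr rfl fun S _ => by ring

theorem EG_smul (c : ℝ) (f : Finset (Fin n) → ℝ) : EG F (fun S => c * f S) = c * EG F f := by
  unfold EG
  rw [← mul_div_assoc, mul_sum]
  congr 1
  exact sum_congr rfl fun S _ => by ring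

theorem EG_const (c : ℝ) : EG F (fun _ => c) = c := by
  unfold EG
  rw [← sum_mul]
  exact mul_div_cancel_left₀ c ZF_pos.ne'

theorem EG_sum {ι : Type*} (s : Finset ι) (f : ι → Finset (Fin n) → ℝ) :
    EG F (fun S => ∑ i ∈ s, f i S) = ∑ i ∈ s, EG F (f i) := by
  unfold EG
  rw [← sum_div]
  congr 1
  rw [sum_comm]
  exact sum_congr rfl fun S _ => by rw [mul_sum]

theorem EG_mono {f g : Finset (Fin n) → ℝ} (h : ∀ S, f S ≤ g S) : EG F f ≤ EG F g :=
  div_le_div_of_nonneg_right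
    (sum_le_sum fun S _ => mul_le_mul_of_nonneg_left (h S) (wt2_pos S).le) ZF_pos.le

/-- Cauchy-Schwarz. -/
theorem EG_abs_le (f : Finset (Fin n) → ℝ) :
    EG F (fun S => |f S|) ≤ Real.sqrt (EG F fun S => f S ^ 2) := by
  refine Real.le_sqrt_of_sq_le ?_
  have h1 : EG F (fun S => |f S| ^ 2 - (2 * EG F fun S => |f S|) * |f S| +
      (EG F fun S => |f S|) ^ 2) = (EG F fun S => f S ^ 2) - (EG F fun S => |f S|) ^ 2 := by
    rw [EG_add, EG_sub, EG_smul, EG_const]
    simp only [sq_abs]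
    ring
  have h2 : 0 ≤ EG F (fun S => |f S| ^ 2 - (2 * EG F fun S => |f S|) * |f S| +
      (EG F fun S => |f S|) ^ 2) := by
    rw [← EG_const (F := F) 0]
    refine EG_mono fun S => ?_
    rw [show |f S| ^ 2 - (2 * EG F fun S => |f S|) * |f S| + (EG F fun S => |f S|) ^ 2 =
      (|f S| - EG F fun S => |f S|) ^ 2 by ring]
    exact sq_nonneg _
  linarith

theorem dep_ce (R : Finset (Fin n)) (f : Finset (Fin n) → ℝ) : Dep R (ce F R f) :=
  Gib.ce_dep (wt2 F) R f

theorem Dep.mono {R R' : Finset (Fin n)} (h : R ⊆ R') {α : Sort*} {f : Finset (Fin n) → α}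
    (hf : Dep R f) : Dep R' f := fun S S' hS => hf S S' (Gib.inter_of_subset h hS)

/-- The tower property. -/
theorem tower (R : Finset (Fin n)) (f g : Finset (Fin n) → ℝ) (hg : Dep R g) :
    EG F (fun S => g S * ce F R f S) = EG F fun S => g S * f S := by
  have h := Gib.sum_ce_mul (R := R) (w := wt2 F) wt2_pos f (f := g) hg
  unfold EG
  congr 1
  calc ∑ S, wt2 F S * (g S * ce F R f S)
      = ∑ S, wt2 F S * (Gib.ce (wt2 F) R f S * g S) :=
        sum_congr rfl fun S _ => by rw [mul_comm (g S)]; rfl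
    _ = ∑ S, wt2 F S * (f S * g S) := h
    _ = _ := sum_congr rfl fun S _ => by ring

theorem ce_ce {R R' : Finset (Fin n)} (h : R ⊆ R') (f : Finset (Fin n) → ℝ)
    (S : Finset (Fin n)) : ce F R (ce F R' f) S = ce F R f S :=
  Gib.ce_tower (w := wt2 F) wt2_pos h f S

theorem dep_pv (v : Fin n) (R : Finset (Fin n)) : Dep R (pv F v R) := dep_ce R _

theorem pv_eq_pc (v : Fin n) (R S : Finset (Fin n)) : pv F v R S = Gib.pc (wt2 F) R v S := rfl

theorem pv_nonneg (v : Fin n) (R S : Finset (Fin n)) : 0 ≤ pv F v R S :=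
  (Gib.pc_mem (w := wt2 F) wt2_pos R v S).1

theorem pv_le_one (v : Fin n) (R S : Finset (Fin n)) : pv F v R S ≤ 1 :=
  (Gib.pc_mem (w := wt2 F) wt2_pos R v S).2

theorem pv_insert {v : Fin n} {R : Finset (Fin n)} (h : v ∉ R) (S : Finset (Fin n)) :
    pv F v R S = Gib.qf (wt2 F) R v (insert v S) := by
  have h1 : pv F v R S = pv F v R (insert v S) :=
    dep_pv v R S (insert v S) (by rw [insert_inter_of_notMem h])
  rw [h1]
  unfold Gib.qf
  rw [if_pos (mem_insert_self v S)]
  rfl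

theorem one_sub_pv_erase {v : Fin n} {R : Finset (Fin n)} (h : v ∉ R) (S : Finset (Fin n)) :
    1 - pv F v R S = Gib.qf (wt2 F) R v (S.erase v) := by
  have h1 : pv F v R S = pv F v R (S.erase v) := by
    refine dep_pv v R S (S.erase v) ?_
    ext x
    simp only [mem_inter, mem_erase]
    constructor
    · rintro ⟨h2, h3⟩
      exact ⟨⟨fun h4 => h (h4 ▸ h3), h2⟩, h3⟩
    · rintro ⟨⟨_, h2⟩, h3⟩
      exact ⟨h2, h3⟩
  rw [h1]
  unfold Gib.qf
  rw [if_neg (notMem_erase v S)]
  rfl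

theorem pv_pos {v : Fin n} {R : Finset (Fin n)} (h : v ∉ R) (S : Finset (Fin n)) :
    0 < pv F v R S := by
  rw [pv_insert h]
  exact Gib.qf_pos wt2_pos _ _ _

theorem pv_lt_one {v : Fin n} {R : Finset (Fin n)} (h : v ∉ R) (S : Finset (Fin n)) :
    pv F v R S < 1 := by
  have h1 := one_sub_pv_erase (F := F) h S
  have h2 := Gib.qf_pos (w := wt2 F) wt2_pos R v (S.erase v)
  linarith

theorem EG_ind1_mul (v : Fin n) (R : Finset (Fin n)) (f : Finset (Fin n) → ℝ) (hf : Dep R f) :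
    EG F (fun S => ind1 v S * f S) = EG F fun S => pv F v R S * f S := by
  have h := tower (F := F) R (ind1 v) f hf
  calc EG F (fun S => ind1 v S * f S) = EG F fun S => f S * ind1 v S :=
        congrArg (EG F) (funext fun S => mul_comm _ _)
    _ = EG F (fun S => f S * ce F R (ind1 v) S) := h.symm
    _ = _ := congrArg (EG F) (funext fun S => mul_comm _ _)

theorem psi_eq (v : Fin n) (R : Finset (Fin n)) : psi F v R = Gib.psi (wt2 F) v R / ZF F := rfl

theorem psi_nonneg (v : Fin n) (R : Finset (Fin n)) : 0 ≤ psi F v R := by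
  rw [psi_eq]
  exact div_nonneg (Gib.psi_nonneg wt2_pos v R) ZF_pos.le

theorem psi_le_one (v : Fin n) (R : Finset (Fin n)) : psi F v R ≤ 1 := by
  rw [psi_eq, div_le_one ZF_pos]
  exact Gib.psi_le wt2_pos v R

theorem EG_sq_sub {R R' : Finset (Fin n)} (h : R ⊆ R') (v : Fin n) :
    EG F (fun S => (pv F v R' S - pv F v R S) ^ 2) = psi F v R' - psi F v R := by
  rw [psi_eq, psi_eq, ← sub_div, ← Gib.sum_sq_sub wt2_pos h v]
  rfl

theorem psi_mono {R R' : Finset (Fin n)} (h : R ⊆ R') (v : Fin n) : psi F v R ≤ psi F v R' := by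
  rw [psi_eq, psi_eq]
  exact div_le_div_of_nonneg_right (Gib.psi_mono wt2_pos h v) ZF_pos.le

theorem EG_abs_pv_sub {R R' : Finset (Fin n)} (h : R ⊆ R') (v : Fin n) :
    EG F (fun S => |pv F v R' S - pv F v R S|) ≤ Real.sqrt (psi F v R' - psi F v R) := by
  rw [← EG_sq_sub h v]
  exact EG_abs_le _

/-- Conditioning on more does not increase the entropy. -/
theorem EG_h2_mono {R R' : Finset (Fin n)} (h : R ⊆ R') (v : Fin n) :
    EG F (fun S => h2 (pv F v R' S)) ≤ EG F fun S => h2 (pv F v R S) :=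
  div_le_div_of_nonneg_right (Gib.sum_concave_le wt2_pos Gib.concave_h2 h v) ZF_pos.le

end Pool.Agent.Lib.SubBisB
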