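import Pool.Agent.Lib.SubBisB.GibA

/-!
# The chain rule for the Gibbs measure of a set function
-/

open scoped BigOperators

namespace Pool.Agent.Lib.SubBisB

open Finset SubBis Pool.Agent.Lib.SubBisX Pool.Agent.Lib.SubBisX.Reg

variable {n B : ℕ}

/-- The key of the order of the blocks. -/
def bkey (β : Fin n → Fin B) (v : Fin n) : Fin B ×ₗ Fin n := toLex (β v, v)

theorem bkey_inj (β : Fin n → Fin B) : Function.Injective (bkey β) := by
  intro v v' h
  have h1 := congrArg (fun p => (ofLex p).2) h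
  exact h1

theorem below_bkey (β : Fin n → Fin B) (v : Fin n) : Gib.below (bkey β) v = Rp β v := by
  ext x
  unfold Gib.below Rp bkey
  simp only [mem_filter, mem_univ, true_and]
  exact Prod.Lex.toLex_lt_toLex

/-- The product of the conditional probabilities in the order of the blocks. -/
theorem prod_pv (F : Finset (Fin n) → ℤ) (β : Fin n → Fin B) (S : Finset (Fin n)) :
    ∏ v, (if v ∈ S then pv F v (Rp β v) S else 1 - pv F v (Rp β v) S) = wt2 F S / ZF F := by
  have h := Gib.prod_q (w := wt2 F) wt2_pos (bkey β) (bkey_inj β) S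
  unfold ZF
  rw [← h]
  refine prod_congr rfl fun v _ => ?_
  rw [below_bkey]
  rfl

/-- The chain rule. -/
theorem chain (F : Finset (Fin n) → ℤ) (β : Fin n → Fin B) :
    ∑ v, EG F (fun S => h2 (pv F v (Rp β v) S)) =
      EG F (fun S => (F S : ℝ)) + Bounds.logZ F := by
  have h := Gib.sum_sum_h2 (w := wt2 F) wt2_pos (bkey β) (bkey_inj β)
  have h1 : ∑ v, EG F (fun S => h2 (pv F v (Rp β v) S)) =
      (∑ v, ∑ S, wt2 F S * h2 (Gib.pc (wt2 F) (Gib.below (bkey β) v) v S)) / ZF F := by
    rw [sum_div]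
    refine sum_congr rfl fun v _ => ?_
    rw [below_bkey]
    rfl
  rw [h1, h]
  have h2' : ∀ S, Real.logb 2 (wt2 F S) = -(F S : ℝ) := fun S => by
    unfold wt2
    rw [Real.logb_rpow (by norm_num) (by norm_num)]
  have h3 : EG F (fun S => (F S : ℝ)) + Bounds.logZ F =
      EG F fun S => (F S : ℝ) + Bounds.logZ F := by
    rw [EG_add, EG_const]
  rw [h3]
  unfold EG
  congr 1
  refine sum_congr rfl fun S _ => ?_
  rw [h2' S]
  unfold Bounds.logZ
  rw [show (∑ T, wt2 F T) = ∑ T : Finset (Fin n), (2 : ℝ) ^ (-(F T : ℝ)) from rfl]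
  ring

end Pool.Agent.Lib.SubBisB
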