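import Pool.Agent.Lib.SubBis.Ent
import Mathlib.Analysis.SpecialFunctions.BinaryEntropy

/-!
# The gain of a threshold rule in terms of the binary entropy (MP_a7c826_lc)

A threshold with real position `x = K / (m L)`: the mean of the integer increments below it is at
least `c h₂(x)` up to a small error.
-/

namespace Pool.Agent.Lib.SubBisB.Sm

open Finset SubBis

/-! ### binomial coefficients -/

/-- the terms of the binomial expansion of `(k + (m - k)) ^ m` -/
def bt (m k j : ℕ) : ℕ := Nat.choose m j * (k ^ j * (m - k) ^ (m - j))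

theorem bt_succ {m k j : ℕ} (hj : j < m) :
    bt m k (j + 1) * ((j + 1) * (m - k)) = bt m k j * ((m - j) * k) := by
  unfold bt
  have h1 : Nat.choose m (j + 1) * (j + 1) = Nat.choose m j * (m - j) :=
    Nat.choose_succ_right_eq m j
  have h2 : m - j = (m - (j + 1)) + 1 := by omega
  calc Nat.choose m (j + 1) * (k ^ (j + 1) * (m - k) ^ (m - (j + 1))) * ((j + 1) * (m - k))
      = (Nat.choose m (j + 1) * (j + 1)) * (k ^ j * ((m - k) ^ (m - (j + 1)) * (m - k))) * k := by
        ring
    _ = (Nat.choose m j * (m - j)) * (k ^ j * (m - k) ^ (m - j)) * k := by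
        rw [h1, ← pow_succ, ← h2]
    _ = _ := by ring

theorem bt_le_succ {m k j : ℕ} (hj : j + 1 ≤ k) (hk : k < m) : bt m k j ≤ bt m k (j + 1) := by
  have h1 := bt_succ (m := m) (k := k) (j := j) (by omega)
  have h2 : (j + 1) * (m - k) ≤ (m - j) * k := by
    obtain ⟨d, rfl⟩ := Nat.exists_eq_add_of_lt hk
    obtain ⟨e, rfl⟩ := Nat.exists_eq_add_of_le hj
    have h3 : j + 1 + e + d + 1 - (j + 1 + e) = d + 1 := by omega
    have h4 : j + 1 + e + d + 1 - j = e + d + 2 := by omega
    rw [h3, h4]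
    nlinarith [Nat.zero_le e, Nat.zero_le d, Nat.zero_le j]
  have h3 : 0 < (m - j) * k := Nat.mul_pos (by omega) (by omega)
  refine Nat.le_of_mul_le_mul_right ?_ h3
  rw [← h1]
  exact Nat.mul_le_mul_left _ h2

theorem bt_succ_le {m k j : ℕ} (hj : k ≤ j) (hjm : j < m) : bt m k (j + 1) ≤ bt m k j := by
  have h1 := bt_succ (m := m) (k := k) hjm
  have h2 : (m - j) * k ≤ (j + 1) * (m - k) := by
    obtain ⟨e, rfl⟩ := Nat.exists_eq_add_of_le hj
    obtain ⟨d, rfl⟩ := Nat.exists_eq_add_of_lt hjm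
    have h3 : k + e + d + 1 - (k + e) = d + 1 := by omega
    have h4 : k + e + d + 1 - k = e + d + 1 := by omega
    rw [h3, h4]
    nlinarith [Nat.zero_le e, Nat.zero_le d, Nat.zero_le k]
  have h3 : 0 < (j + 1) * (m - k) := Nat.mul_pos (by omega) (by omega)
  refine Nat.le_of_mul_le_mul_right ?_ h3
  rw [h1]
  exact Nat.mul_le_mul_left _ h2

theorem bt_le {m k : ℕ} (hk : k < m) : ∀ j ≤ m, bt m k j ≤ bt m k k := by
  have hup : ∀ d ≤ k, bt m k (k - d) ≤ bt m k k := by
    intro d
    induction d with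
    | zero => intro _; exact le_rfl
    | succ d ih =>
      intro hd
      have h1 := bt_le_succ (m := m) (k := k) (j := k - (d + 1)) (by omega) hk
      have h2 : k - (d + 1) + 1 = k - d := by omega
      rw [h2] at h1
      exact h1.trans (ih (by omega))
  have hdown : ∀ d, k + d ≤ m → bt m k (k + d) ≤ bt m k k := by
    intro d
    induction d with
    | zero => intro _; exact le_rfl
    | succ d ih =>
      intro hd
      have h1 := bt_succ_le (m := m) (k := k) (j := k + d) (by omega) (by omega)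
      exact h1.trans (ih (by omega))
  intro j hj
  rcases le_total j k with h | h
  · have := hup (k - j) (by omega)
    rwa [Nat.sub_sub_self h] at this
  · obtain ⟨d, rfl⟩ := Nat.exists_eq_add_of_le h
    exact hdown d hj

theorem pow_le_bt {m k : ℕ} (hk : k < m) : m ^ m ≤ (m + 1) * bt m k k := by
  have h1 : (k + (m - k)) ^ m = ∑ j ∈ range (m + 1), bt m k j := by
    rw [add_pow]
    refine sum_congr rfl fun j _ => ?_
    unfold bt
    rw [mul_comm]
    rfl
  have h2 : k + (m - k) = m := by omega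
  rw [h2] at h1
  calc m ^ m = ∑ j ∈ range (m + 1), bt m k j := h1
    _ ≤ ∑ _j ∈ range (m + 1), bt m k k :=
        sum_le_sum fun j hj => bt_le hk j (by rw [mem_range] at hj; omega)
    _ = (m + 1) * bt m k k := by rw [sum_const, card_range, smul_eq_mul]

theorem h2_zero : h2 0 = 0 := by simp [h2]

theorem h2_one : h2 1 = 0 := by simp [h2]

/-- The lower bound for a binomial coefficient. -/
theorem choose_ge {m k : ℕ} (hm : 0 < m) (hk : k ≤ m) :
    m * h2 ((k : ℝ) / m) ≤ Real.logb 2 (Nat.choose m k : ℝ) + Real.logb 2 ((m : ℝ) + 1) := by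
  have hm' : (0 : ℝ) < m := by exact_mod_cast hm
  have hlm : 0 ≤ Real.logb 2 ((m : ℝ) + 1) := Real.logb_nonneg (by norm_num) (by linarith)
  have hc1 : (1 : ℝ) ≤ Nat.choose m k := by exact_mod_cast Nat.choose_pos hk
  have hlc : 0 ≤ Real.logb 2 (Nat.choose m k : ℝ) := Real.logb_nonneg (by norm_num) hc1
  rcases Nat.eq_zero_or_pos k with h0 | h0
  · subst h0
    rw [Nat.cast_zero, zero_div, h2_zero, mul_zero]
    linarith
  rcases Nat.lt_or_ge k m with h1 | h1
  · have hk' : (0 : ℝ) < k := by exact_mod_cast h0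
    have hmk : (0 : ℝ) < (m - k : ℕ) := by
      have : 0 < m - k := by omega
      exact_mod_cast this
    have h3 := pow_le_bt h1
    have h4 : ((m : ℝ)) ^ m ≤ ((m : ℝ) + 1) * ((Nat.choose m k : ℝ) *
        ((k : ℝ) ^ k * ((m - k : ℕ) : ℝ) ^ (m - k))) := by
      unfold bt at h3
      exact_mod_cast h3
    have h5 := Real.logb_le_logb_of_le (b := 2) (by norm_num) (by positivity) h4
    rw [Real.logb_mul (by positivity) (by positivity), Real.logb_mul (by positivity) (by positivity),
      Real.logb_mul (by positivity) (by positivity), Real.logb_pow, Real.logb_pow,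
      Real.logb_pow] at h5
    have h6 : (m : ℝ) * h2 ((k : ℝ) / m) = m * Real.logb 2 m - k * Real.logb 2 k -
        ((m - k : ℕ) : ℝ) * Real.logb 2 ((m - k : ℕ) : ℝ) := by
      have h7 : (1 : ℝ) - k / m = ((m - k : ℕ) : ℝ) / m := by
        rw [Nat.cast_sub hk]
        field_simp
      unfold h2
      rw [h7, Real.logb_div hk'.ne' hm'.ne', Real.logb_div hmk.ne' hm'.ne']
      have h8 : ((m - k : ℕ) : ℝ) = m - k := Nat.cast_sub hk
      field_simp
      rw [h8]
      ring
    rw [h6]
    linarith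
  · have h2' : k = m := le_antisymm hk h1
    subst h2'
    rw [div_self hm'.ne', h2_one, mul_zero]
    linarith

/-! ### the binary entropy -/

theorem h2_eq (x : ℝ) : h2 x = Real.binEntropy x / Real.log 2 := by
  unfold h2 Real.binEntropy Real.logb
  rw [Real.log_inv, Real.log_inv]
  ring

theorem log_two_pos : 0 < Real.log 2 := Real.log_pos (by norm_num)

theorem h2_symm (x : ℝ) : h2 (1 - x) = h2 x := by
  rw [h2_eq, h2_eq, Real.binEntropy_one_sub]

theorem h2_nonneg {x : ℝ} (h0 : 0 ≤ x) (h1 : x ≤ 1) : 0 ≤ h2 x := by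
  rw [h2_eq]
  exact div_nonneg (Real.binEntropy_nonneg h0 h1) log_two_pos.le

theorem h2_mono {x y : ℝ} (h0 : 0 ≤ x) (hxy : x ≤ y) (h1 : y ≤ 1 / 2) : h2 x ≤ h2 y := by
  rw [h2_eq, h2_eq]
  refine div_le_div_of_nonneg_right ?_ log_two_pos.le
  have h2' : (1 / 2 : ℝ) = 2⁻¹ := by norm_num
  rw [h2'] at h1
  exact Real.binEntropy_strictMonoOn.monotoneOn ⟨h0, hxy.trans h1⟩ ⟨h0.trans hxy, h1⟩ hxy

theorem h2_concave : ConcaveOn ℝ (Set.Icc 0 1) h2 := by
  have h := Real.strictConcave_binEntropy.concaveOn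
  have h3 : h2 = fun x => (Real.log 2)⁻¹ • Real.binEntropy x := by
    funext x
    rw [h2_eq, smul_eq_mul]
    ring
  rw [h3]
  exact h.smul (by positivity)

/-- Subadditivity. -/
theorem h2_add {x y : ℝ} (hx : 0 ≤ x) (hy : 0 ≤ y) (h1 : x + y ≤ 1) : h2 (x + y) ≤ h2 x + h2 y := by
  rcases hx.eq_or_lt with h0 | h0
  · rw [← h0, h2_zero]
    simp
  rcases hy.eq_or_lt with h0' | h0'
  · rw [← h0', h2_zero]
    simp
  have hs : 0 < x + y := by linarith
  have key : ∀ u v : ℝ, 0 < u → 0 < v → u + v ≤ 1 → u / (u + v) * h2 (u + v) ≤ h2 u := by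
    intro u v hu hv huv
    have huv0 : 0 < u + v := by linarith
    have h := h2_concave.2 (Set.mem_Icc.2 ⟨le_rfl, zero_le_one⟩)
      (Set.mem_Icc.2 ⟨huv0.le, huv⟩) (div_nonneg hv.le huv0.le) (div_nonneg hu.le huv0.le)
      (by rw [← add_div, add_comm v u, div_self huv0.ne'])
    simp only [smul_eq_mul, mul_zero, zero_add, h2_zero] at h
    rwa [div_mul_cancel₀ _ huv0.ne'] at h
  have k1 := key x y h0 h0' h1
  have k2 := key y x h0' h0 (by linarith)
  rw [add_comm y x] at k2
  have k3 : x / (x + y) * h2 (x + y) + y / (x + y) * h2 (x + y) = h2 (x + y) := by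
    rw [← add_mul, ← add_div, div_self hs.ne', one_mul]
  linarith

/-- Interpolation of the entropy between two multiples of `1 / m`. -/
theorem h2_interp {m k : ℕ} (hm : 2 ≤ m) (hk : k + 1 ≤ m) {θ : ℝ} (h0 : 0 ≤ θ) (h1 : θ ≤ 1) :
    h2 ((k + θ) / m) ≤ (1 - θ) * h2 ((k : ℝ) / m) + θ * h2 (((k + 1 : ℕ) : ℝ) / m) +
      h2 (1 / m) := by
  have hm' : (0 : ℝ) < m := by
    have : 0 < m := by omega
    exact_mod_cast this
  have hkm : (k : ℝ) + 1 ≤ m := by exact_mod_cast hk
  have hm2 : (1 : ℝ) / m ≤ 1 / 2 := by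
    have : (2 : ℝ) ≤ m := by exact_mod_cast hm
    exact one_div_le_one_div_of_le (by norm_num) this
  have a1 : h2 ((k + θ) / m) ≤ h2 ((k : ℝ) / m) + h2 (1 / m) := by
    rw [add_div]
    refine (h2_add (by positivity) (by positivity) ?_).trans ?_
    · rw [← add_div, div_le_one hm']
      linarith
    · have := h2_mono (x := θ / m) (y := 1 / m) (by positivity)
        (div_le_div_of_nonneg_right h1 hm'.le) hm2
      linarith
  have a2 : h2 ((k + θ) / m) ≤ h2 (((k + 1 : ℕ) : ℝ) / m) + h2 (1 / m) := by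
    rw [← h2_symm ((k + θ) / m), ← h2_symm (((k + 1 : ℕ) : ℝ) / m)]
    have e1 : 1 - (k + θ) / m = (1 - ((k + 1 : ℕ) : ℝ) / m) + (1 - θ) / m := by
      push_cast
      field_simp
      ring
    rw [e1]
    have b1 : ((k + 1 : ℕ) : ℝ) / m ≤ 1 := by
      rw [div_le_one hm']
      push_cast
      exact hkm
    have b2 : 0 ≤ (1 - θ) / m := div_nonneg (by linarith) hm'.le
    refine (h2_add (by linarith) b2 ?_).trans ?_
    · rw [← e1]
      have : 0 ≤ ((k : ℝ) + θ) / m := by positivity
      linarith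
    · have := h2_mono (x := (1 - θ) / m) (y := 1 / m) b2
        (div_le_div_of_nonneg_right (by linarith) hm'.le) hm2
      linarith
  nlinarith [mul_le_mul_of_nonneg_left a1 (sub_nonneg.2 h1), mul_le_mul_of_nonneg_left a2 h0]

/-! ### the gain -/

/-- The sum of the first increments. -/
theorem sum_ee_ge {m c k : ℕ} (hm : 0 < m) (hk : k ≤ m) :
    c * (m * h2 ((k : ℝ) / m) - Real.logb 2 ((m : ℝ) + 1)) - m ≤
      ∑ u ∈ range k, (ee m c u : ℝ) := by
  have h1 : ∑ u ∈ range k, ((c : ℝ) * dd m u - 1) ≤ ∑ u ∈ range k, (ee m c u : ℝ) :=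
    sum_le_sum fun u hu => le_ee (by rw [mem_range] at hu; omega)
  rw [sum_sub_distrib, ← mul_sum, sum_dd hk] at h1
  have h3 := mul_le_mul_of_nonneg_left (choose_ge hm hk) (Nat.cast_nonneg (α := ℝ) c)
  have h4 : (k : ℝ) ≤ m := by exact_mod_cast hk
  simp only [sum_const, card_range, nsmul_eq_mul, mul_one] at h1
  nlinarith

theorem sum_div_range (f : ℕ → ℝ) {L : ℕ} (hL : 0 < L) (k t : ℕ) (ht : t ≤ L) :
    ∑ r ∈ range (L * k + t), f (r / L) = L * ∑ u ∈ range k, f u + t * f k := by
  induction k generalizing t with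
  | zero =>
    rw [Nat.mul_zero, Nat.zero_add, sum_range_zero, mul_zero, zero_add]
    rcases Nat.lt_or_ge t L with h | h
    · rw [sum_congr rfl (g := fun _ => f 0) fun r hr => by
        rw [Nat.div_eq_of_lt (by rw [mem_range] at hr; omega)]]
      rw [sum_const, card_range, nsmul_eq_mul]
    · have h' : t = L := by omega
      subst h'
      rw [sum_congr rfl (g := fun _ => f 0) fun r hr => by
        rw [Nat.div_eq_of_lt (by rw [mem_range] at hr; omega)]]
      rw [sum_const, card_range, nsmul_eq_mul]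
  | succ k ih =>
    have h1 : L * (k + 1) + t = (L * k + L) + t := by ring
    rw [h1, sum_range_add, ih L le_rfl, sum_range_succ]
    have h2' : ∑ x ∈ range t, f ((L * k + L + x) / L) = t * f (k + 1) := by
      rcases Nat.lt_or_ge t L with h | h
      · rw [sum_congr rfl (g := fun _ => f (k + 1)) fun r hr => by
          have e : L * k + L + r = r + L * (k + 1) := by ring
          rw [e, Nat.add_mul_div_left _ _ hL,
            Nat.div_eq_of_lt (by rw [mem_range] at hr; omega), Nat.zero_add]]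
        rw [sum_const, card_range, nsmul_eq_mul]
      · have h' : t = L := by omega
        subst h'
        rw [sum_congr rfl (g := fun _ => f (k + 1)) fun r hr => by
          have e : t * k + t + r = r + t * (k + 1) := by ring
          rw [e, Nat.add_mul_div_left _ _ hL,
            Nat.div_eq_of_lt (by rw [mem_range] at hr; omega), Nat.zero_add]]
        rw [sum_const, card_range, nsmul_eq_mul]
    rw [h2']
    ring

/-- **The gain of a threshold rule.** -/
theorem gain_ge {m c L K : ℕ} (hm : 2 ≤ m) (hL : 0 < L) (hK : K ≤ m * L) :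
    c * h2 ((K : ℝ) / (m * L)) - c * (Real.logb 2 ((m : ℝ) + 1) / m + h2 (1 / m)) - 1 ≤
      (∑ r ∈ range K, (ee m c (r / L) : ℝ)) / (m * L) := by
  have hm0 : 0 < m := by omega
  have hm' : (0 : ℝ) < m := by exact_mod_cast hm0
  have hL' : (0 : ℝ) < L := by exact_mod_cast hL
  set k := K / L with hk
  set t := K % L with ht
  have hKe : K = L * k + t := (Nat.div_add_mod K L).symm
  have htL : t < L := Nat.mod_lt _ hL
  have hkm : k ≤ m := by
    rw [hk]
    exact Nat.div_le_of_le_mul (by rw [mul_comm]; exact hK)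
  have hsum : ∑ r ∈ range K, (ee m c (r / L) : ℝ) =
      L * ∑ u ∈ range k, (ee m c u : ℝ) + t * (ee m c k : ℝ) := by
    rw [hKe]
    exact sum_div_range (fun u => (ee m c u : ℝ)) hL k t htL.le
  have hx : (K : ℝ) / (m * L) = (k + (t : ℝ) / L) / m := by
    have : (K : ℝ) = L * k + t := by exact_mod_cast hKe
    rw [this]
    field_simp
  rw [le_div_iff₀ (by positivity), hsum, hx]
  have hlog : 0 ≤ Real.logb 2 ((m : ℝ) + 1) := Real.logb_nonneg (by norm_num) (by linarith)
  have hh1 : 0 ≤ h2 (1 / m) := h2_nonneg (by positivity) (by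
    rw [div_le_one hm']
    exact_mod_cast hm0)
  have hcr : (0 : ℝ) ≤ c := Nat.cast_nonneg c
  have s1 := sum_ee_ge (c := c) hm0 hkm
  rcases Nat.eq_zero_or_pos t with h0 | h0
  · rw [h0, Nat.cast_zero, zero_div, zero_mul, add_zero, add_zero]
    have e1 := mul_le_mul_of_nonneg_left s1 hL'.le
    have e2 : (c * h2 ((k : ℝ) / m) - c * (Real.logb 2 ((m : ℝ) + 1) / m + h2 (1 / m)) - 1) *
        (m * L) = L * (c * (m * h2 ((k : ℝ) / m) - Real.logb 2 ((m : ℝ) + 1)) - m) -
          c * h2 (1 / m) * (m * L) := by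
      field_simp
      ring
    rw [e2]
    have e3 : 0 ≤ c * h2 (1 / m) * (m * L) := by positivity
    linarith
  · have hk1 : k + 1 ≤ m := by
      by_contra h
      have h' : k = m := by omega
      rw [h'] at hKe
      have : L * m + t ≤ m * L := by rw [← hKe]; exact hK
      have e : L * m = m * L := mul_comm _ _
      omega
    have s2 := sum_ee_ge (c := c) hm0 hk1
    rw [sum_range_succ] at s2
    set S := ∑ u ∈ range k, (ee m c u : ℝ) with hS
    set θ : ℝ := (t : ℝ) / L with hθ
    have hθ0 : 0 ≤ θ := by positivity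
    have hθ1 : θ ≤ 1 := by
      rw [hθ, div_le_one hL']
      exact_mod_cast htL.le
    have htθ : (t : ℝ) = θ * L := by rw [hθ]; field_simp
    have hint := h2_interp (k := k) hm hk1 hθ0 hθ1
    have e0 : (L : ℝ) * S + t * (ee m c k : ℝ) =
        L * ((1 - θ) * S + θ * (S + (ee m c k : ℝ))) := by
      rw [htθ]
      ring
    rw [e0]
    have e1 := mul_le_mul_of_nonneg_left s1 (sub_nonneg.2 hθ1)
    have e2 := mul_le_mul_of_nonneg_left s2 hθ0
    have e3 : (1 - θ) * (c * (m * h2 ((k : ℝ) / m) - Real.logb 2 ((m : ℝ) + 1)) - m) +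
        θ * (c * (m * h2 (((k + 1 : ℕ) : ℝ) / m) - Real.logb 2 ((m : ℝ) + 1)) - m) ≤
        (1 - θ) * S + θ * (S + (ee m c k : ℝ)) := add_le_add e1 e2
    have e4 := mul_le_mul_of_nonneg_left e3 hL'.le
    refine le_trans ?_ e4
    · have e5 := mul_le_mul_of_nonneg_left hint (show (0 : ℝ) ≤ c * (m * L) by positivity)
      have e6 : (c * h2 ((k + θ) / m) - c * (Real.logb 2 ((m : ℝ) + 1) / m + h2 (1 / m)) - 1) *
          (m * L) = c * (m * L) * h2 ((k + θ) / m) - c * (m * L) * h2 (1 / m) -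
            L * (c * Real.logb 2 ((m : ℝ) + 1) + m) := by
        field_simp
        ring
      rw [e6]
      have e7 : (L : ℝ) * ((1 - θ) * (c * (m * h2 ((k : ℝ) / m) - Real.logb 2 ((m : ℝ) + 1)) - m) +
          θ * (c * (m * h2 (((k + 1 : ℕ) : ℝ) / m) - Real.logb 2 ((m : ℝ) + 1)) - m)) =
          c * (m * L) * ((1 - θ) * h2 ((k : ℝ) / m) + θ * h2 (((k + 1 : ℕ) : ℝ) / m)) -
            L * (c * Real.logb 2 ((m : ℝ) + 1) + m) := by
        ring
      rw [e7]
      linarith

end Pool.Agent.Lib.SubBisB.Sm
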