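import Pool.Agent.Lib.SubBisB.SamChain
import Pool.Agent.Lib.SubBisB.SamDig
import Pool.Agent.Lib.SubBisX.Bounds

/-!
# The exact sampler

Digits `ω v : Fin m × Fin L` for every vertex, `L` a common denominator of all conditional
probabilities. `zs ω` is the unique set `S` with `v ∈ S` iff the rank of `ω v` is below the
conditional probability of `v`, given `S` on the earlier vertices (in the order of pairs (block,
number)). Its law is the measure given by `w`. `z0 ω` looks at `zs ω` in the earlier blocks only.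
-/

open scoped BigOperators

namespace Pool.Agent.Lib.SubBisB.Sm

open Finset SubBis Pool.Agent.Lib.SubBisX.Reg Pool.Agent.Lib.SubBisX.Bounds

variable {n B m : ℕ} (β : Fin n → Fin B) (w : Finset (Fin n) → ℕ)

/-- A common denominator of the conditional probabilities. -/
def LL : ℕ := ∏ R : Finset (Fin n), ∏ s : Finset (Fin n), cl w R s

/-- The numerator of the conditional probability for the denominator `LL w`. -/
def NU (R : Finset (Fin n)) (v : Fin n) (s : Finset (Fin n)) : ℕ := cv w R v s * (LL w / cl w R s)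

variable {w}

theorem LL_pos (hw : ∀ s, 0 < w s) : 0 < LL w :=
  Finset.prod_pos fun R _ => Finset.prod_pos fun s _ => cl_pos hw R s

theorem cl_dvd (R s : Finset (Fin n)) : cl w R s ∣ LL w :=
  (Finset.dvd_prod_of_mem (fun s => cl w R s) (mem_univ s)).trans
    (Finset.dvd_prod_of_mem (fun R => ∏ s : Finset (Fin n), cl w R s) (mem_univ R))

theorem NU_eq (hw : ∀ s, 0 < w s) (R : Finset (Fin n)) (v : Fin n) (s : Finset (Fin n)) :
    (NU w R v s : ℝ) = pr w R v s * LL w := by
  obtain ⟨e, he⟩ := cl_dvd (w := w) R s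
  have h0 := cl_pos hw R s
  have h1 : LL w / cl w R s = e := by
    rw [he]
    exact Nat.mul_div_cancel_left e h0
  have h2 : (cl w R s : ℝ) ≠ 0 := by positivity
  unfold NU pr
  rw [h1, he]
  push_cast
  field_simp

theorem NU_le (hw : ∀ s, 0 < w s) (R : Finset (Fin n)) (v : Fin n) (s : Finset (Fin n)) :
    NU w R v s ≤ LL w := by
  have h1 := NU_eq hw R v s
  have h2 := pr_le_one hw R v s
  have h3 : (NU w R v s : ℝ) ≤ LL w := by
    rw [h1]
    have : (0 : ℝ) ≤ LL w := Nat.cast_nonneg _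
    nlinarith
  exact_mod_cast h3

theorem NU_congr {R s t : Finset (Fin n)} (v : Fin n) (h : s ∩ R = t ∩ R) :
    NU w R v s = NU w R v t := by
  unfold NU
  rw [cl_congr h, cv_congr v h]

/-- The rank of a digit. -/
def rk {m L : ℕ} (d : Fin m × Fin L) : ℕ := (finProdFinEquiv d : ℕ)

theorem rk_lt {m L : ℕ} (d : Fin m × Fin L) : rk d < m * L := (finProdFinEquiv d).2

theorem rk_div {m L : ℕ} (d : Fin m × Fin L) : rk d / L = (d.1 : ℕ) := by
  have hL : 0 < L := by
    have := d.2.2
    omega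
  unfold rk
  rw [finProdFinEquiv_apply_val, Nat.add_mul_div_left _ _ hL, Nat.div_eq_of_lt d.2.2, Nat.zero_add]

/-- Sums over digits by rank. -/
theorem sum_rk {m L : ℕ} (f : ℕ → ℝ) : ∑ d : Fin m × Fin L, f (rk d) = ∑ r ∈ range (m * L), f r := by
  rw [Finset.sum_range]
  exact Equiv.sum_comp finProdFinEquiv fun x : Fin (m * L) => f x

theorem card_rk {m L : ℕ} (P : ℕ → Prop) [DecidablePred P] :
    (univ.filter fun d : Fin m × Fin L => P (rk d)).card = ((range (m * L)).filter P).card := by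
  have h := sum_rk (m := m) (L := L) fun r => if P r then (1 : ℝ) else 0
  rw [sum_boole, sum_boole] at h
  exact_mod_cast h

theorem card_rk_lt {m L K : ℕ} (hK : K ≤ m * L) :
    (univ.filter fun d : Fin m × Fin L => rk d < K).card = K := by
  rw [card_rk fun r => r < K]
  have h : (range (m * L)).filter (fun r => r < K) = range K := by
    ext r
    rw [mem_filter, mem_range, mem_range]
    omega
  rw [h, card_range]

theorem card_rk_ge {m L K : ℕ} (hK : K ≤ m * L) :
    (univ.filter fun d : Fin m × Fin L => ¬ rk d < K).card = m * L - K := by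
  have h1 := card_rk_lt hK
  have h2 := card_filter_add_card_filter_not (s := (univ : Finset (Fin m × Fin L)))
    (fun d => rk d < K)
  rw [h1, card_univ, Fintype.card_prod, Fintype.card_fin, Fintype.card_fin] at h2
  omega

section sol

/-- `S` is the outcome of the sampler for the digits `ω`. -/
def Sol (w : Finset (Fin n) → ℕ) (ω : Fin n → Fin m × Fin (LL w)) (S : Finset (Fin n)) : Prop :=
  ∀ v, v ∈ S ↔ rk (ω v) < m * NU w (Rl β v) v S

theorem Sol.congr {ω ω' : Fin n → Fin m × Fin (LL w)} {S S' : Finset (Fin n)}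
    (h : Sol β w ω S) (h' : Sol β w ω' S') (v : Fin n) (hv : ω v = ω' v)
    (hR : ∀ x ∈ Rl β v, ω x = ω' x) : v ∈ S ↔ v ∈ S' := by
  classical
  by_contra hne
  set T := (insert v (Rl β v)).filter fun x => ¬ (x ∈ S ↔ x ∈ S') with hT
  have hTne : T.Nonempty := ⟨v, mem_filter.2 ⟨mem_insert_self _ _, hne⟩⟩
  obtain ⟨x, hx, hfirst⟩ := exists_first β hTne
  obtain ⟨hx1, hx2⟩ := mem_filter.1 hx
  have hsub : Rl β x ⊆ insert v (Rl β v) := by
    rcases mem_insert.1 hx1 with rfl | h1
    · exact subset_insert _ _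
    · exact (Rl_trans β h1).trans (subset_insert _ _)
  have hωx : ω x = ω' x := by
    rcases mem_insert.1 hx1 with rfl | h1
    · exact hv
    · exact hR x h1
  have hS : S ∩ Rl β x = S' ∩ Rl β x := by
    ext y
    rw [mem_inter, mem_inter]
    constructor
    · rintro ⟨h1, h2⟩
      refine ⟨?_, h2⟩
      by_contra h3
      exact hfirst y h2 (mem_filter.2 ⟨hsub h2, fun h4 => h3 (h4.1 h1)⟩)
    · rintro ⟨h1, h2⟩
      refine ⟨?_, h2⟩
      by_contra h3
      exact hfirst y h2 (mem_filter.2 ⟨hsub h2, fun h4 => h3 (h4.2 h1)⟩)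
  exact hx2 (by rw [h x, h' x, hωx, NU_congr x hS])

theorem Sol.unique {ω : Fin n → Fin m × Fin (LL w)} {S S' : Finset (Fin n)}
    (h : Sol β w ω S) (h' : Sol β w ω S') : S = S' := by
  ext v
  exact h.congr β h' v rfl fun _ _ => rfl

open Classical in
/-- The number of digit vectors with a given outcome. -/
theorem card_sol (hw : ∀ s, 0 < w s) (S : Finset (Fin n)) :
    (((univ : Finset (Fin n → Fin m × Fin (LL w))).filter fun ω => Sol β w ω S).card : ℝ) =
      ((m : ℝ) * LL w) ^ n * ((w S : ℝ) / ∑ t, (w t : ℝ)) := by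
  have h1 : ((univ : Finset (Fin n → Fin m × Fin (LL w))).filter fun ω => Sol β w ω S) =
      Fintype.piFinset fun v => univ.filter fun d : Fin m × Fin (LL w) =>
        (v ∈ S ↔ rk d < m * NU w (Rl β v) v S) := by
    ext ω
    rw [mem_filter, Fintype.mem_piFinset]
    constructor
    · rintro ⟨_, h⟩ v
      exact mem_filter.2 ⟨mem_univ _, h v⟩
    · intro h
      exact ⟨mem_univ _, fun v => (mem_filter.1 (h v)).2⟩
  rw [h1, Fintype.card_piFinset, ← prod_qr_univ β hw S, Nat.cast_prod]
  have h2 : ∀ v : Fin n, (((univ.filter fun d : Fin m × Fin (LL w) =>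
      (v ∈ S ↔ rk d < m * NU w (Rl β v) v S)).card : ℕ) : ℝ) =
      ((m : ℝ) * LL w) * qr w (Rl β v) v S := by
    intro v
    have hK : m * NU w (Rl β v) v S ≤ m * LL w := Nat.mul_le_mul_left m (NU_le hw _ _ _)
    unfold qr
    split_ifs with hS
    · have h3 : (univ.filter fun d : Fin m × Fin (LL w) =>
          (v ∈ S ↔ rk d < m * NU w (Rl β v) v S)) =
          univ.filter fun d : Fin m × Fin (LL w) => rk d < m * NU w (Rl β v) v S := by
        ext d
        simp [hS]
      rw [h3, card_rk_lt hK, Nat.cast_mul, NU_eq hw]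
      ring
    · have h3 : (univ.filter fun d : Fin m × Fin (LL w) =>
          (v ∈ S ↔ rk d < m * NU w (Rl β v) v S)) =
          univ.filter fun d : Fin m × Fin (LL w) => ¬ rk d < m * NU w (Rl β v) v S := by
        ext d
        simp [hS]
      rw [h3, card_rk_ge hK, Nat.cast_sub hK, Nat.cast_mul, Nat.cast_mul, NU_eq hw]
      ring
  rw [prod_congr rfl fun v _ => h2 v, prod_mul_distrib, prod_const, card_univ, Fintype.card_fin]

theorem exists_sol [NeZero m] (hw : ∀ s, 0 < w s) (ω : Fin n → Fin m × Fin (LL w)) :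
    ∃ S, Sol β w ω S := by
  classical
  by_contra hno
  push Not at hno
  have h1 : ∑ S : Finset (Fin n),
      ((univ : Finset (Fin n → Fin m × Fin (LL w))).filter fun ω => Sol β w ω S).card =
      ((univ : Finset (Finset (Fin n))).biUnion fun S =>
        (univ : Finset (Fin n → Fin m × Fin (LL w))).filter fun ω => Sol β w ω S).card := by
    rw [card_biUnion]
    intro S _ S' _ hSS'
    rw [Function.onFun, disjoint_left]
    intro ω' h2 h3
    exact hSS' ((mem_filter.1 h2).2.unique β (mem_filter.1 h3).2)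
  have h2 : ((univ : Finset (Finset (Fin n))).biUnion fun S =>
      (univ : Finset (Fin n → Fin m × Fin (LL w))).filter fun ω => Sol β w ω S).card <
      (univ : Finset (Fin n → Fin m × Fin (LL w))).card := by
    refine card_lt_card ?_
    rw [ssubset_univ_iff]
    intro h3
    have h4 := mem_univ ω
    rw [← h3, mem_biUnion] at h4
    obtain ⟨S, _, h5⟩ := h4
    exact hno S (mem_filter.1 h5).2
  rw [← h1, card_univ, Fintype.card_fun, Fintype.card_prod, Fintype.card_fin, Fintype.card_fin,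
    Fintype.card_fin] at h2
  have h3 : (∑ S : Finset (Fin n),
      (((univ : Finset (Fin n → Fin m × Fin (LL w))).filter fun ω => Sol β w ω S).card : ℝ)) <
      ((m : ℝ) * LL w) ^ n := by exact_mod_cast h2
  rw [sum_congr rfl fun S _ => card_sol β hw S, ← mul_sum, ← sum_div,
    div_self (W_pos hw).ne', mul_one] at h3
  exact lt_irrefl _ h3

end sol

/-- The outcome of the sampler. -/
noncomputable def zs [NeZero m] (hw : ∀ s, 0 < w s) (ω : Fin n → Fin m × Fin (LL w)) :
    Finset (Fin n) := (exists_sol β hw ω).choose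

theorem zs_sol [NeZero m] (hw : ∀ s, 0 < w s) (ω : Fin n → Fin m × Fin (LL w)) :
    Sol β w ω (zs β hw ω) := (exists_sol β hw ω).choose_spec

theorem mem_zs [NeZero m] (hw : ∀ s, 0 < w s) (ω : Fin n → Fin m × Fin (LL w)) (v : Fin n) :
    v ∈ zs β hw ω ↔ rk (ω v) < m * NU w (Rl β v) v (zs β hw ω) := zs_sol β hw ω v

open Classical in
/-- The outcome of the sampler which looks at the earlier blocks only. -/
noncomputable def z0 [NeZero m] (hw : ∀ s, 0 < w s) (ω : Fin n → Fin m × Fin (LL w)) :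
    Finset (Fin n) := univ.filter fun v => rk (ω v) < m * NU w (Rb β v) v (zs β hw ω)

theorem mem_z0 [NeZero m] (hw : ∀ s, 0 < w s) (ω : Fin n → Fin m × Fin (LL w)) (v : Fin n) :
    v ∈ z0 β hw ω ↔ rk (ω v) < m * NU w (Rb β v) v (zs β hw ω) := by
  unfold z0
  rw [mem_filter]
  exact ⟨fun h => h.2, fun h => ⟨mem_univ v, h⟩⟩

/-- `zs ω` on the earlier vertices depends on the earlier digits only. -/
theorem zs_inter_Rl [NeZero m] (hw : ∀ s, 0 < w s) {ω ω' : Fin n → Fin m × Fin (LL w)} {v : Fin n}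
    (h : ∀ x ∈ Rl β v, ω x = ω' x) : zs β hw ω ∩ Rl β v = zs β hw ω' ∩ Rl β v := by
  ext x
  rw [mem_inter, mem_inter]
  constructor
  · rintro ⟨h1, h2⟩
    exact ⟨((zs_sol β hw ω).congr β (zs_sol β hw ω') x (h x h2)
      fun y hy => h y (Rl_trans β h2 hy)).1 h1, h2⟩
  · rintro ⟨h1, h2⟩
    exact ⟨((zs_sol β hw ω).congr β (zs_sol β hw ω') x (h x h2)
      fun y hy => h y (Rl_trans β h2 hy)).2 h1, h2⟩

/-- `zs ω` on the earlier blocks depends on the digits of the earlier blocks only. -/
theorem zs_inter_Rb [NeZero m] (hw : ∀ s, 0 < w s) {ω ω' : Fin n → Fin m × Fin (LL w)} {v : Fin n}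
    (h : ∀ x, β x < β v → ω x = ω' x) : zs β hw ω ∩ Rb β v = zs β hw ω' ∩ Rb β v := by
  have key : ∀ x ∈ Rb β v, (x ∈ zs β hw ω ↔ x ∈ zs β hw ω') := by
    intro x hx
    have hx' : β x < β v := (mem_filter.1 hx).2
    refine (zs_sol β hw ω).congr β (zs_sol β hw ω') x (h x hx') fun y hy => h y ?_
    rcases (mem_filter.1 hy).2 with h1 | ⟨h1, _⟩
    · exact h1.trans hx'
    · exact h1 ▸ hx'
  ext x
  rw [mem_inter, mem_inter]
  constructor
  · rintro ⟨h1, h2⟩
    exact ⟨(key x h2).1 h1, h2⟩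
  · rintro ⟨h1, h2⟩
    exact ⟨(key x h2).2 h1, h2⟩

/-- `z0` is legal: its state at `v` depends on the digits of the earlier blocks and of `v`. -/
theorem z0_upto [NeZero m] (hw : ∀ s, 0 < w s) {ω ω' : Fin n → Fin m × Fin (LL w)} {v : Fin n}
    (h : ∀ x, β x < β v → ω x = ω' x) (hv : ω v = ω' v) :
    v ∈ z0 β hw ω ↔ v ∈ z0 β hw ω' := by
  rw [mem_z0, mem_z0, hv, NU_congr v (zs_inter_Rb β hw h)]

/-- The law of the sampler. -/
theorem av_zs [NeZero m] (hw : ∀ s, 0 < w s) (H : Finset (Fin n) → ℝ) :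
    (av fun ω : Fin n → Fin m × Fin (LL w) => H (zs β hw ω)) = ex w H := by
  classical
  have hm : (0 : ℝ) < m := by exact_mod_cast Nat.pos_of_ne_zero (NeZero.ne m)
  have hL : (0 : ℝ) < LL w := by exact_mod_cast LL_pos hw
  have h1 : ∀ ω : Fin n → Fin m × Fin (LL w), H (zs β hw ω) =
      ∑ S, if Sol β w ω S then H S else 0 := by
    intro ω
    rw [sum_eq_single (zs β hw ω)]
    · rw [if_pos (zs_sol β hw ω)]
    · intro S _ hS
      rw [if_neg fun h => hS (h.unique β (zs_sol β hw ω))]
    · intro h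
      exact absurd (mem_univ _) h
  unfold av
  rw [sum_congr rfl fun ω _ => h1 ω, sum_comm]
  have h2 : ∀ S : Finset (Fin n), (∑ ω : Fin n → Fin m × Fin (LL w),
      if Sol β w ω S then H S else 0) =
      ((m : ℝ) * LL w) ^ n * ((w S : ℝ) / ∑ t, (w t : ℝ)) * H S := by
    intro S
    rw [← card_sol β hw S, ← sum_filter, sum_const, nsmul_eq_mul]
  rw [sum_congr rfl fun S _ => h2 S, Fintype.card_fun, Fintype.card_prod, Fintype.card_fin,
    Fintype.card_fin, Fintype.card_fin]
  unfold ex
  rw [sum_div, sum_div]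
  refine sum_congr rfl fun S _ => ?_
  have h3 := (W_pos hw).ne'
  push_cast
  field_simp

/-- The mean over the digit of `v`. -/
theorem av_site [NeZero m] (hw : ∀ s, 0 < w s) (v : Fin n)
    (G : ℕ → Finset (Fin n) → ℝ)
    (hG : ∀ r S S', S ∩ Rl β v = S' ∩ Rl β v → G r S = G r S') :
    (av fun ω : Fin n → Fin m × Fin (LL w) => G (rk (ω v)) (zs β hw ω)) =
      ex w fun S => (∑ r ∈ range (m * LL w), G r S) / (m * LL w) := by
  have : NeZero (LL w) := ⟨(LL_pos hw).ne'⟩
  rw [← av_update v]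
  have h1 : ∀ (ω : Fin n → Fin m × Fin (LL w)),
      (av fun d => G (rk (Function.update ω v d v)) (zs β hw (Function.update ω v d))) =
      (∑ r ∈ range (m * LL w), G r (zs β hw ω)) / (m * LL w) := by
    intro ω
    have h2 : ∀ d, G (rk (Function.update ω v d v)) (zs β hw (Function.update ω v d)) =
        G (rk d) (zs β hw ω) := by
      intro d
      rw [Function.update_self]
      refine hG _ _ _ (zs_inter_Rl β hw fun x hx => ?_)
      have hxv : x ≠ v := fun h => notMem_Rl β v (h ▸ hx)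
      rw [Function.update_of_ne hxv]
    unfold av
    rw [sum_congr rfl fun d _ => h2 d, sum_rk fun r => G r (zs β hw ω), Fintype.card_prod,
      Fintype.card_fin, Fintype.card_fin]
    push_cast
    rfl
  rw [funext h1]
  exact av_zs β hw fun S => (∑ r ∈ range (m * LL w), G r S) / (m * LL w)

theorem inter_Rb {S S' : Finset (Fin n)} {v : Fin n} (h : S ∩ Rl β v = S' ∩ Rl β v) :
    S ∩ Rb β v = S' ∩ Rb β v := by
  have h1 : Rl β v ∩ Rb β v = Rb β v := inter_eq_right.2 (Rb_subset β v)
  rw [← h1, ← inter_assoc, ← inter_assoc, h]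

/-- **The gain of `z0`.** -/
theorem av_gain [NeZero m] (hm : 2 ≤ m) (hw : ∀ s, 0 < w s) (c : ℕ) (v : Fin n) :
    (c * ex w fun s => h2 (pr w (Rb β v) v s)) -
        c * (Real.logb 2 ((m : ℝ) + 1) / m + h2 (1 / m)) - 1 ≤
      av fun ω : Fin n → Fin m × Fin (LL w) =>
        if v ∈ z0 β hw ω then (ee m c (ω v).1 : ℝ) else 0 := by
  classical
  have h1 : (fun ω : Fin n → Fin m × Fin (LL w) =>
      if v ∈ z0 β hw ω then (ee m c (ω v).1 : ℝ) else 0) = fun ω =>
      (fun (r : ℕ) (S : Finset (Fin n)) =>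
        if r < m * NU w (Rb β v) v S then (ee m c (r / LL w) : ℝ) else 0) (rk (ω v))
          (zs β hw ω) := by
    funext ω
    simp only [mem_z0, rk_div]
  have hmR : (0 : ℝ) < m := by
    have : 0 < m := by omega
    exact_mod_cast this
  have hLR : (0 : ℝ) < LL w := by exact_mod_cast LL_pos hw
  rw [h1, av_site β hw v (fun (r : ℕ) (S : Finset (Fin n)) =>
        if r < m * NU w (Rb β v) v S then (ee m c (r / LL w) : ℝ) else 0)
    fun r S S' h => by
      show (if r < m * NU w (Rb β v) v S then _ else _) = if r < m * NU w (Rb β v) v S' then _ else _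
      rw [NU_congr v (inter_Rb β h)]]
  have h2' : ((c : ℝ) * ex w fun s => h2 (pr w (Rb β v) v s)) -
      c * (Real.logb 2 ((m : ℝ) + 1) / m + h2 (1 / m)) - 1 = ex w fun s =>
        (c * h2 (pr w (Rb β v) v s) - c * (Real.logb 2 ((m : ℝ) + 1) / m + h2 (1 / m))) - 1 := by
    rw [ex_sub, ex_sub, ex_smul, ex_const hw, ex_const hw]
  rw [h2']
  refine ex_mono fun S => ?_
  have hK : m * NU w (Rb β v) v S ≤ m * LL w := Nat.mul_le_mul_left m (NU_le hw _ _ _)
  have h3 := gain_ge (c := c) hm (LL_pos hw) hK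
  have h4 : ((m * NU w (Rb β v) v S : ℕ) : ℝ) / (m * LL w) = pr w (Rb β v) v S := by
    rw [Nat.cast_mul, NU_eq hw]
    field_simp
  rw [h4] at h3
  have h5 : ∑ r ∈ range (m * LL w),
      (if r < m * NU w (Rb β v) v S then (ee m c (r / LL w) : ℝ) else 0) =
      ∑ r ∈ range (m * NU w (Rb β v) v S), (ee m c (r / LL w) : ℝ) := by
    rw [← sum_filter]
    refine sum_congr ?_ fun _ _ => rfl
    ext r
    rw [mem_filter, mem_range, mem_range]
    omega
  rw [h5]
  exact h3

theorem card_xor {N a b : ℕ} (ha : a ≤ N) (hb : b ≤ N) :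
    (∑ r ∈ range N, if (r < a ↔ r < b) then (0 : ℝ) else 1) = |(a : ℝ) - b| := by
  wlog hab : a ≤ b generalizing a b
  · have h := this hb ha (by omega)
    rw [abs_sub_comm] at h
    rw [← h]
    refine sum_congr rfl fun r _ => ?_
    simp only [iff_comm]
  have h1 : (∑ r ∈ range N, if (r < a ↔ r < b) then (0 : ℝ) else 1) =
      ∑ r ∈ range N, if r ∈ Ico a b then (1 : ℝ) else 0 := by
    refine sum_congr rfl fun r _ => ?_
    by_cases h : r ∈ Ico a b
    · rw [if_pos h, if_neg]
      rw [mem_Ico] at h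
      omega
    · rw [if_neg h, if_pos]
      rw [mem_Ico] at h
      omega
  have h2' : (range N).filter (fun r => r ∈ Ico a b) = Ico a b := by
    ext r
    simp only [mem_filter, mem_range, mem_Ico]
    omega
  rw [h1, sum_boole, h2', Nat.card_Ico, Nat.cast_sub hab, abs_sub_comm, abs_of_nonneg]
  have : (a : ℝ) ≤ b := by exact_mod_cast hab
  linarith

/-- **The difference of `z0` and `zs`.** -/
theorem av_diff [NeZero m] (hw : ∀ s, 0 < w s) (v : Fin n) :
    (av fun ω : Fin n → Fin m × Fin (LL w) =>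
        if v ∈ symmDiff (z0 β hw ω) (zs β hw ω) then (1 : ℝ) else 0) =
      ex w fun s => |pr w (Rl β v) v s - pr w (Rb β v) v s| := by
  classical
  have h1 : (fun ω : Fin n → Fin m × Fin (LL w) =>
      if v ∈ symmDiff (z0 β hw ω) (zs β hw ω) then (1 : ℝ) else 0) = fun ω =>
      (fun (r : ℕ) (S : Finset (Fin n)) =>
        if (r < m * NU w (Rl β v) v S ↔ r < m * NU w (Rb β v) v S) then (0 : ℝ) else 1) (rk (ω v))
          (zs β hw ω) := by
    funext ω
    have e1 := mem_z0 β hw ω v
    have e2 := mem_zs β hw ω v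
    simp only [mem_symmDiff]
    by_cases h3 : v ∈ z0 β hw ω <;> by_cases h4 : v ∈ zs β hw ω
    · rw [if_neg (by tauto), if_pos (by tauto)]
    · rw [if_pos (by tauto), if_neg (by tauto)]
    · rw [if_pos (by tauto), if_neg (by tauto)]
    · rw [if_neg (by tauto), if_pos (by tauto)]
  have hmR : (0 : ℝ) < m := by exact_mod_cast Nat.pos_of_ne_zero (NeZero.ne m)
  have hLR : (0 : ℝ) < LL w := by exact_mod_cast LL_pos hw
  rw [h1, av_site β hw v (fun (r : ℕ) (S : Finset (Fin n)) =>
        if (r < m * NU w (Rl β v) v S ↔ r < m * NU w (Rb β v) v S) then (0 : ℝ) else 1)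
    fun r S S' h => by
      show (if (r < m * NU w (Rl β v) v S ↔ r < m * NU w (Rb β v) v S) then _ else _) =
        if (r < m * NU w (Rl β v) v S' ↔ r < m * NU w (Rb β v) v S') then _ else _
      rw [NU_congr v h, NU_congr v (inter_Rb β h)]]
  congr 1
  funext S
  rw [card_xor (Nat.mul_le_mul_left m (NU_le hw _ _ _)) (Nat.mul_le_mul_left m (NU_le hw _ _ _)),
    Nat.cast_mul, Nat.cast_mul, NU_eq hw, NU_eq hw]
  have h3 : (m : ℝ) * (pr w (Rl β v) v S * LL w) - m * (pr w (Rb β v) v S * LL w) =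
      (pr w (Rl β v) v S - pr w (Rb β v) v S) * (m * LL w) := by ring
  rw [h3, abs_mul, abs_of_pos (show (0 : ℝ) < m * LL w by positivity)]
  field_simp

theorem h2_eq_hb (x : ℝ) : h2 x = hb x := by
  unfold h2 hb
  ring

end Pool.Agent.Lib.SubBisB.Sm
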