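import Pool.Agent.Lib.SubBisB.GDefs
import Pool.Agent.Lib.SubBisB.Sam
import Pool.Agent.Lib.SubBisB.DigB

/-!
# The comparison family
-/

open scoped BigOperators

namespace Pool.Agent.Lib.SubBisB

open Finset SubBis Pool.Agent.Lib.SubBisX Pool.Agent.Lib.SubBisX.Reg

variable {n m B : ℕ}

/-- The integer weights of `F`. -/
def wF (F : Finset (Fin n) → ℤ) (S : Finset (Fin n)) : ℕ :=
  2 ^ (univ.sup' univ_nonempty F - F S).toNat

theorem wF_pos (F : Finset (Fin n) → ℤ) (S : Finset (Fin n)) : 0 < wF F S :=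
  Nat.pow_pos (by norm_num)

theorem wF_eq (F : Finset (Fin n) → ℤ) (S : Finset (Fin n)) :
    (wF F S : ℝ) = (2 : ℝ) ^ ((univ.sup' univ_nonempty F : ℤ) : ℝ) * (2 : ℝ) ^ (-(F S : ℝ)) := by
  have h1 : F S ≤ univ.sup' univ_nonempty F := le_sup' F (mem_univ S)
  have h2 : (((univ.sup' univ_nonempty F - F S).toNat : ℤ)) = univ.sup' univ_nonempty F - F S :=
    Int.toNat_of_nonneg (by linarith)
  have h3 : (((univ.sup' univ_nonempty F - F S).toNat : ℕ) : ℝ) =
      ((univ.sup' univ_nonempty F : ℤ) : ℝ) - (F S : ℝ) := by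
    have : ((((univ.sup' univ_nonempty F - F S).toNat : ℕ) : ℤ) : ℝ) =
        ((univ.sup' univ_nonempty F - F S : ℤ) : ℝ) := by exact_mod_cast h2
    push_cast at this
    exact this
  unfold wF
  rw [Nat.cast_pow, Nat.cast_ofNat, ← Real.rpow_natCast, h3, ← Real.rpow_add (by norm_num)]
  congr 1

theorem logb_wF (F : Finset (Fin n) → ℤ) (S : Finset (Fin n)) :
    Real.logb 2 (wF F S : ℝ) = ((univ.sup' univ_nonempty F : ℤ) : ℝ) - (F S : ℝ) := by
  rw [wF_eq, ← Real.rpow_add (by norm_num), Real.logb_rpow (by norm_num) (by norm_num)]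
  ring

theorem logb_sum_wF (F : Finset (Fin n) → ℤ) :
    Real.logb 2 (∑ S, (wF F S : ℝ)) =
      ((univ.sup' univ_nonempty F : ℤ) : ℝ) + Bounds.logZ F := by
  have h1 : (0 : ℝ) < ∑ S : Finset (Fin n), (2 : ℝ) ^ (-(F S : ℝ)) :=
    sum_pos (fun S _ => Real.rpow_pos_of_pos (by norm_num) _) univ_nonempty
  have h2 : (0 : ℝ) < (2 : ℝ) ^ ((univ.sup' univ_nonempty F : ℤ) : ℝ) :=
    Real.rpow_pos_of_pos (by norm_num) _
  rw [sum_congr rfl fun S _ => wF_eq F S, ← mul_sum, Real.logb_mul h2.ne' h1.ne',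
    Real.logb_rpow (by norm_num) (by norm_num)]
  rfl

/-- The conditional probabilities of the two descriptions agree. -/
theorem pv_eq (F : Finset (Fin n) → ℤ) (v : Fin n) (R S : Finset (Fin n)) :
    pv F v R S = Sm.pr (wF F) R v S := by
  classical
  set C : ℝ := (2 : ℝ) ^ ((univ.sup' univ_nonempty F : ℤ) : ℝ) with hC
  have hC0 : C ≠ 0 := (Real.rpow_pos_of_pos two_pos _).ne'
  have hw : ∀ T, (wF F T : ℝ) = C * wt2 F T := fun T => wF_eq F T
  have h1 : (Sm.cl (wF F) R S : ℝ) = C * ∑ S' ∈ sm R S, wt2 F S' := by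
    unfold Sm.cl sm
    rw [Nat.cast_sum, mul_sum]
    exact sum_congr rfl fun T _ => hw T
  have h2 : (Sm.cv (wF F) R v S : ℝ) = C * ∑ S' ∈ sm R S, wt2 F S' * ind1 v S' := by
    unfold Sm.cv sm
    rw [Nat.cast_sum, mul_sum, ← filter_filter, sum_filter]
    refine sum_congr rfl fun T _ => ?_
    unfold ind1
    rw [hw]
    split_ifs <;> ring
  unfold pv ce Sm.pr
  rw [h1, h2, mul_div_mul_left _ _ hC0]

/-- The means of the two descriptions agree. -/
theorem EG_eq (F : Finset (Fin n) → ℤ) (f : Finset (Fin n) → ℝ) : EG F f = Sm.ex (wF F) f := by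
  set C : ℝ := (2 : ℝ) ^ ((univ.sup' univ_nonempty F : ℤ) : ℝ) with hC
  have hC0 : C ≠ 0 := (Real.rpow_pos_of_pos two_pos _).ne'
  have hw : ∀ T, (wF F T : ℝ) = C * wt2 F T := fun T => wF_eq F T
  have h1 : ∑ S, (wF F S : ℝ) = C * ZF F := by
    unfold ZF
    rw [mul_sum]
    exact sum_congr rfl fun T _ => hw T
  have h2 : ∑ S, (wF F S : ℝ) * f S = C * ∑ S, wt2 F S * f S := by
    rw [mul_sum]
    refine sum_congr rfl fun T _ => ?_
    rw [hw]
    ring
  unfold EG Sm.ex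
  rw [h1, h2, mul_div_mul_left _ _ hC0]

theorem psi_eq_psi (F : Finset (Fin n) → ℤ) (v : Fin n) (R : Finset (Fin n)) :
    psi F v R = Sm.psi (wF F) R v := by
  unfold psi Sm.psi
  rw [EG_eq]
  exact congrArg _ (funext fun S => by rw [pv_eq])

theorem psi_nonneg' (F : Finset (Fin n) → ℤ) (v : Fin n) (R : Finset (Fin n)) :
    0 ≤ psi F v R := by
  rw [psi_eq_psi]
  exact Sm.psi_nonneg R v

theorem psi_le_one' (F : Finset (Fin n) → ℤ) (v : Fin n) (R : Finset (Fin n)) :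
    psi F v R ≤ 1 := by
  rw [psi_eq_psi]
  exact Sm.psi_le_one (wF_pos F) R v

theorem psi_mono' (F : Finset (Fin n) → ℤ) (v : Fin n) (R R' : Finset (Fin n)) (h : R ⊆ R') :
    psi F v R ≤ psi F v R' := by
  rw [psi_eq_psi, psi_eq_psi]
  exact Sm.psi_mono (wF_pos F) h v

/-- The loss of the comparison family. -/
noncomputable def gap (F : Finset (Fin n) → ℤ) (β : Fin n → Fin B) : ℝ :=
  ∑ v, Real.sqrt (psi F v (Rp β v) - psi F v (Rb β v))

theorem gap_nonneg (F : Finset (Fin n) → ℤ) (β : Fin n → Fin B) : 0 ≤ gap F β :=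
  sum_nonneg fun _ _ => Real.sqrt_nonneg _

/-- The chain rule for the weights of `F`. -/
theorem chain_F (F : Finset (Fin n) → ℤ) (β : Fin n → Fin B) :
    ∑ v, Sm.ex (wF F) (fun S => Sm.hb (Sm.pr (wF F) (Rp β v) v S)) =
      Sm.ex (wF F) (fun S => (F S : ℝ)) + Bounds.logZ F := by
  have h1 := Sm.chain (w := wF F) β (wF_pos F)
  rw [show (fun v => Sm.ex (wF F) fun S => Sm.hb (Sm.pr (wF F) (Rp β v) v S)) =
    fun v => Sm.ex (wF F) fun S => Sm.hb (Sm.pr (wF F) (Sm.Rl β v) v S) from rfl, h1, logb_sum_wF]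
  have h2 : (fun S => Real.logb 2 (wF F S : ℝ)) = fun S =>
      ((univ.sup' univ_nonempty F : ℤ) : ℝ) - (F S : ℝ) := funext fun S => logb_wF F S
  rw [h2, Sm.ex_sub, Sm.ex_const (wF_pos F)]
  ring

/-- The objective of the pair of sets. -/
noncomputable def obj (c kap : ℕ) (F : Finset (Fin n) → ℤ) (U : Fin n → Fin m)
    (S S' : Finset (Fin n)) : ℝ :=
  ((∑ v, ee m c (U v) * (if v ∈ S then 1 else 0) : ℤ) : ℝ) -
    c * (F S' + kap * (symmDiff S S').card)

theorem obj_eq (c kap : ℕ) (F : Finset (Fin n) → ℤ) (U : Fin n → Fin m)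
    (S S' : Finset (Fin n)) :
    obj c kap F U S S' = (∑ v, if v ∈ S then (ee m c (U v) : ℝ) else 0) - c * (F S' : ℝ) -
      c * kap * ∑ v, if v ∈ symmDiff S S' then (1 : ℝ) else 0 := by
  classical
  unfold obj
  rw [Int.cast_sum]
  have h1 : ∑ v, ((ee m c (U v) * (if v ∈ S then 1 else 0) : ℤ) : ℝ) =
      ∑ v, if v ∈ S then (ee m c (U v) : ℝ) else 0 := by
    refine sum_congr rfl fun v _ => ?_
    split_ifs <;> simp
  have h2 : ∑ v, (if v ∈ symmDiff S S' then (1 : ℝ) else 0) = (symmDiff S S').card := by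
    rw [sum_boole]
    congr 2
    ext v
    simp
  rw [h1, h2]
  ring

/-- The mean of the objective of the samplers. -/
theorem av_obj [NeZero m] (hm : 2 ≤ m) (c kap : ℕ) (F : Finset (Fin n) → ℤ) (β : Fin n → Fin B) :
    c * Bounds.logZ F - n * (1 + c * dl m) - c * kap * gap F β ≤
      av fun ω : Fin n → Fin m × Fin (Sm.LL (wF F)) =>
        obj c kap F (fun v => (ω v).1) (Sm.z0 β (wF_pos F) ω) (Sm.zs β (wF_pos F) ω) := by
  have hw := wF_pos F
  have h1 : (fun ω : Fin n → Fin m × Fin (Sm.LL (wF F)) =>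
      obj c kap F (fun v => (ω v).1) (Sm.z0 β (wF_pos F) ω) (Sm.zs β (wF_pos F) ω)) = fun ω =>
      ((∑ v, if v ∈ Sm.z0 β hw ω then (ee m c (ω v).1 : ℝ) else 0) -
        c * (F (Sm.zs β hw ω) : ℝ)) - c * kap * ∑ v,
          if v ∈ symmDiff (Sm.z0 β hw ω) (Sm.zs β hw ω) then (1 : ℝ) else 0 := by
    funext ω
    exact obj_eq c kap F _ _ _
  rw [h1, av_sub, av_sub, av_sum, av_smul, av_smul, av_sum]
  have h2 := Sm.av_zs (m := m) β hw fun S => (F S : ℝ)
  rw [h2]
  have h3 : ∑ v, ((c * Sm.ex (wF F) fun s => Sm.hb (Sm.pr (wF F) (Rb β v) v s)) - c * dl m - 1) ≤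
      ∑ v, av fun ω : Fin n → Fin m × Fin (Sm.LL (wF F)) =>
        if v ∈ Sm.z0 β hw ω then (ee m c (ω v).1 : ℝ) else 0 := by
    refine sum_le_sum fun v _ => ?_
    have h := Sm.av_gain β hm hw c v
    rw [show (fun s => SubBis.h2 (Sm.pr (wF F) (Sm.Rb β v) v s)) =
      fun s => Sm.hb (Sm.pr (wF F) (Sm.Rb β v) v s) from
        funext fun s => Sm.h2_eq_hb _] at h
    exact h
  have h4 : ∑ v, (av fun ω : Fin n → Fin m × Fin (Sm.LL (wF F)) =>
      if v ∈ symmDiff (Sm.z0 β hw ω) (Sm.zs β hw ω) then (1 : ℝ) else 0) ≤ gap F β := by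
    unfold gap
    refine sum_le_sum fun v _ => ?_
    rw [Sm.av_diff β hw v, psi_eq_psi, psi_eq_psi]
    exact Sm.ex_abs_diff hw (Sm.Rb_subset β v) v
  have h5 : ∑ v, Sm.ex (wF F) (fun S => Sm.hb (Sm.pr (wF F) (Rp β v) v S)) ≤
      ∑ v, Sm.ex (wF F) fun s => Sm.hb (Sm.pr (wF F) (Rb β v) v s) :=
    sum_le_sum fun v _ => Sm.ex_hb_mono hw (Sm.Rb_subset β v) (Sm.notMem_Rl β v)
  rw [chain_F F β] at h5
  rw [sum_sub_distrib, sum_sub_distrib, ← mul_sum, sum_const, sum_const, card_univ,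
    Fintype.card_fin, nsmul_eq_mul, nsmul_eq_mul, mul_one] at h3
  have hc : (0 : ℝ) ≤ c := Nat.cast_nonneg c
  have hk : (0 : ℝ) ≤ c * kap := by positivity
  have h6 := mul_le_mul_of_nonneg_left h5 hc
  have h7 := mul_le_mul_of_nonneg_left h4 hk
  have h8 : (n : ℝ) * (1 + c * dl m) = n * (c * dl m) + n := by ring
  rw [mul_add] at h6
  rw [h8]
  linarith

/-- The comparison family: `S` uses only the earlier blocks and the own digit, `S'` is a Gibbs
sample. -/
theorem exists_compare (hm : 2 ≤ m) (c kap : ℕ) (F : Finset (Fin n) → ℤ) (β : Fin n → Fin B) :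
    ∃ S S' : (Fin n → Fin m) → Finset (Fin n), (∀ v, PreD β v fun U => (v ∈ S U)) ∧
      c * Bounds.logZ F - n * (1 + c * dl m) - c * kap * gap F β ≤
        av fun U : Fin n → Fin m =>
          (((∑ v, ee m c (U v) * (if v ∈ S U then 1 else 0) : ℤ) : ℝ) -
            c * (F (S' U) + kap * (symmDiff (S U) (S' U)).card)) := by
  have : NeZero m := ⟨by omega⟩
  have hw := wF_pos F
  have : NeZero (Sm.LL (wF F)) := ⟨(Sm.LL_pos hw).ne'⟩
  have h1 := av_obj hm c kap F β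
  set G : (Fin n → Fin m) → (Fin n → Fin (Sm.LL (wF F))) → ℝ := fun U l =>
    obj c kap F U (Sm.z0 β hw fun v => (U v, l v)) (Sm.zs β hw fun v => (U v, l v)) with hG
  have h2 := av_equiv (Equiv.arrowProdEquivProdArrow (Fin n) (fun _ => Fin m)
    (fun _ => Fin (Sm.LL (wF F)))) (fun p : (Fin n → Fin m) ×
      (Fin n → Fin (Sm.LL (wF F))) => G p.1 p.2)
  have h3 : (fun ω : Fin n → Fin m × Fin (Sm.LL (wF F)) =>
      obj c kap F (fun v => (ω v).1) (Sm.z0 β (wF_pos F) ω) (Sm.zs β (wF_pos F) ω)) = fun ω =>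
      (fun p : (Fin n → Fin m) × (Fin n → Fin (Sm.LL (wF F))) => G p.1 p.2)
        (Equiv.arrowProdEquivProdArrow (Fin n) (fun _ => Fin m)
          (fun _ => Fin (Sm.LL (wF F))) ω) := rfl
  rw [h3, h2, av_prod, av_comm] at h1
  set X : ℝ := c * Bounds.logZ F - n * (1 + c * dl m) - c * kap * gap F β with hX
  have h4 : ∃ l, X ≤ av fun U => G U l := by
    by_contra hno
    push Not at hno
    have h5 : (av fun l => av fun U => G U l) < X := by
      have h6 : (av fun _ : Fin n → Fin (Sm.LL (wF F)) => X) = X := av_const X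
      rw [← h6]
      unfold av
      refine div_lt_div_of_pos_right ?_ (by exact_mod_cast Fintype.card_pos)
      exact sum_lt_sum_of_nonempty univ_nonempty fun l _ => hno l
    exact absurd h1 (not_le.2 h5)
  obtain ⟨l, hl⟩ := h4
  refine ⟨fun U => Sm.z0 β hw fun v => (U v, l v), fun U => Sm.zs β hw fun v => (U v, l v), ?_, hl⟩
  intro v a b hab hv
  refine propext (Sm.z0_upto β hw (fun x hx => ?_) ?_)
  · rw [hab x hx]
  · rw [hv]

end Pool.Agent.Lib.SubBisB
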