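import Pool.Agent.Lib.SubBisB.FinB
import Pool.Agent.Lib.SubBisB.CoreB
import Pool.Agent.Lib.SubBisX.SharpP

/-!
A randomised algorithm approximates the number of independent sets of all bipartite graphs up to a
factor `2 ^ o(n)` in polynomial time.
-/

namespace Pool.Agent.Lib.SubBisB.ResB

open Pool.Agent.Lib.Pa7c826 Pool.Agent.Lib.SubBisX

theorem core (q n : ℕ) (hq : 1 ≤ q) : Fin2.Core q n := fun F h0 hF hk => coreB hq F h0 hF hk

/-- There is a constant `C` such that a randomised algorithm approximates the number of independent
sets of every bipartite graph up to a factor `2 ^ (C n (log log N) ^ 2 / log N)`, `N = n + t + 4`, in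
time polynomial in `n + t`, `n` the number of vertices. -/
theorem rscheme_loglog : ∃ C : ℝ, RScheme fun n t => C * n *
    (Real.logb 2 (Real.logb 2 ((n : ℝ) + t + 4))) ^ 2 / Real.logb 2 ((n : ℝ) + t + 4) :=
  Fin2.rscheme_log core

/-- **Result.** 1. There is a constant `C` such that a randomised algorithm approximates the number of
independent sets of every bipartite graph up to a factor `2 ^ (C n (log log N) ^ 2 / log N)`,
`N = n + t + 4`, in time polynomial in `n + t`, `n` the number of vertices.

2. The number of independent sets has an FPRAS on all bipartite graphs if and only if for every `q` a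
factor `2 ^ (n / q)` is reached in time polynomial in `n` and `q`.

3. For every real `δ > 0`, a randomised polynomial time algorithm that is correct up to a factor
`2 ^ (n ^ (1 - δ))` exists if and only if the number of independent sets has an FPRAS on all
bipartite graphs. -/
theorem result :
    (∃ C : ℝ, RScheme fun n t => C * n *
      (Real.logb 2 (Real.logb 2 ((n : ℝ) + t + 4))) ^ 2 / Real.logb 2 ((n : ℝ) + t + 4)) ∧
      (HasFPRAS (fun _ => True) ↔ RScheme fun n t => (n : ℝ) / t) ∧
      ∀ δ : ℝ, 0 < δ → (HasFPRAS (fun _ => True) ↔ RScheme fun n _ => (n : ℝ) ^ (1 - δ)) :=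
  ⟨rscheme_loglog, fpras_iff_rscheme_div, fun δ hδ => fpras_iff_rscheme_rpow δ hδ⟩

end Pool.Agent.Lib.SubBisB.ResB
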