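import Pool.Agent.Lib.SubBisX.Regret

/-!
The probability measure given by a positive weight on the subsets of `Fin n` and its conditional
probabilities.
-/

open scoped BigOperators

namespace Pool.Agent.Lib.SubBisB.Sm

open Finset

variable {n : ℕ}

/-- the total weight of the sets that agree with `s` on `R` -/
def cl (w : Finset (Fin n) → ℕ) (R s : Finset (Fin n)) : ℕ :=
  ∑ t ∈ univ.filter (fun t : Finset (Fin n) => t ∩ R = s ∩ R), w t

/-- the part of the sets that contain `v` -/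
def cv (w : Finset (Fin n) → ℕ) (R : Finset (Fin n)) (v : Fin n) (s : Finset (Fin n)) : ℕ :=
  ∑ t ∈ univ.filter (fun t : Finset (Fin n) => t ∩ R = s ∩ R ∧ v ∈ t), w t

/-- the conditional probability that the set contains `v`, given its part in `R` -/
noncomputable def pr (w : Finset (Fin n) → ℕ) (R : Finset (Fin n)) (v : Fin n)
    (s : Finset (Fin n)) : ℝ := (cv w R v s : ℝ) / cl w R s

/-- the mean -/
noncomputable def ex (w : Finset (Fin n) → ℕ) (f : Finset (Fin n) → ℝ) : ℝ :=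
  (∑ s, (w s : ℝ) * f s) / ∑ s, (w s : ℝ)

section ex

variable {w : Finset (Fin n) → ℕ} (hw : ∀ s, 0 < w s)

include hw in
theorem W_pos : (0 : ℝ) < ∑ s, (w s : ℝ) :=
  sum_pos (fun s _ => by exact_mod_cast hw s) univ_nonempty

theorem ex_add (f g : Finset (Fin n) → ℝ) : ex w (fun s => f s + g s) = ex w f + ex w g := by
  simp only [ex, mul_add, sum_add_distrib, add_div]

theorem ex_sub (f g : Finset (Fin n) → ℝ) : ex w (fun s => f s - g s) = ex w f - ex w g := by
  simp only [ex, mul_sub, sum_sub_distrib, sub_div]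

theorem ex_smul (c : ℝ) (f : Finset (Fin n) → ℝ) : ex w (fun s => c * f s) = c * ex w f := by
  unfold ex
  rw [← mul_div_assoc, mul_sum]
  congr 1
  exact sum_congr rfl fun s _ => by ring

theorem ex_sum {ι : Type*} (T : Finset ι) (f : ι → Finset (Fin n) → ℝ) :
    ex w (fun s => ∑ i ∈ T, f i s) = ∑ i ∈ T, ex w (f i) := by
  simp only [ex, mul_sum]
  rw [sum_comm, sum_div]

theorem ex_mono {f g : Finset (Fin n) → ℝ} (h : ∀ s, f s ≤ g s) : ex w f ≤ ex w g := by
  unfold ex
  refine div_le_div_of_nonneg_right (sum_le_sum fun s _ => ?_) (sum_nonneg fun s _ => ?_)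
  · exact mul_le_mul_of_nonneg_left (h s) (Nat.cast_nonneg _)
  · exact Nat.cast_nonneg _

theorem ex_nonneg {f : Finset (Fin n) → ℝ} (h : ∀ s, 0 ≤ f s) : 0 ≤ ex w f := by
  unfold ex
  refine div_nonneg (sum_nonneg fun s _ => ?_) (sum_nonneg fun s _ => Nat.cast_nonneg _)
  exact mul_nonneg (Nat.cast_nonneg _) (h s)

include hw in
theorem ex_const (c : ℝ) : ex w (fun _ => c) = c := by
  unfold ex
  rw [← sum_mul]
  have := W_pos hw
  field_simp

/-- Cauchy-Schwarz. -/
theorem ex_abs_le {f : Finset (Fin n) → ℝ} (hw : ∀ s, 0 < w s) :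
    ex w (fun s => |f s|) ≤ Real.sqrt (ex w (fun s => f s ^ 2)) := by
  refine Real.le_sqrt_of_sq_le ?_
  set a := ex w fun s => |f s| with ha
  have h1 : 0 ≤ ex w fun s => (|f s| - a) ^ 2 := ex_nonneg fun s => sq_nonneg _
  have h2 : (ex w fun s => (|f s| - a) ^ 2) = (ex w fun s => f s ^ 2) - a ^ 2 := by
    have h3 : (fun s => (|f s| - a) ^ 2) = fun s => (f s ^ 2 - (2 * a) * |f s|) + a ^ 2 := by
      funext s
      rw [← sq_abs (f s)]
      ring
    rw [h3, ex_add, ex_sub, ex_smul, ex_const hw, ← ha]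
    ring
  linarith

end ex

section cond

variable {w : Finset (Fin n) → ℕ}

/-- `f` is a function of the part in `R` -/
def Dep (R : Finset (Fin n)) (f : Finset (Fin n) → ℝ) : Prop :=
  ∀ s t, s ∩ R = t ∩ R → f s = f t

theorem Dep.mono {R R' : Finset (Fin n)} (h : R ⊆ R') {f : Finset (Fin n) → ℝ} (hf : Dep R f) :
    Dep R' f := by
  intro s t hst
  refine hf s t ?_
  have h1 : R' ∩ R = R := inter_eq_right.2 h
  rw [← h1, ← inter_assoc, ← inter_assoc, hst]

theorem cl_congr {R s t : Finset (Fin n)} (h : s ∩ R = t ∩ R) : cl w R s = cl w R t := by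
  unfold cl
  rw [h]

theorem cv_congr {R s t : Finset (Fin n)} (v : Fin n) (h : s ∩ R = t ∩ R) :
    cv w R v s = cv w R v t := by
  unfold cv
  rw [h]

theorem dep_pr (R : Finset (Fin n)) (v : Fin n) : Dep R (pr w R v) := by
  intro s t h
  unfold pr
  rw [cl_congr h, cv_congr v h]

theorem cl_pos (hw : ∀ s, 0 < w s) (R s : Finset (Fin n)) : 0 < cl w R s := by
  unfold cl
  refine sum_pos (fun t _ => hw t) ⟨s, ?_⟩
  rw [mem_filter]
  exact ⟨mem_univ _, rfl⟩

theorem inter_insert_eq {R s : Finset (Fin n)} {v : Fin n} (hv : v ∉ R) :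
    insert v s ∩ R = s ∩ R := by
  ext x
  simp only [mem_inter, mem_insert]
  constructor
  · rintro ⟨rfl | h, h'⟩
    · exact absurd h' hv
    · exact ⟨h, h'⟩
  · rintro ⟨h, h'⟩
    exact ⟨Or.inr h, h'⟩

theorem inter_erase_eq {R s : Finset (Fin n)} {v : Fin n} (hv : v ∉ R) :
    s.erase v ∩ R = s ∩ R := by
  ext x
  simp only [mem_inter, mem_erase]
  constructor
  · rintro ⟨⟨_, h⟩, h'⟩
    exact ⟨h, h'⟩
  · rintro ⟨h, h'⟩
    exact ⟨⟨fun h1 => hv (h1 ▸ h'), h⟩, h'⟩

theorem cv_pos (hw : ∀ s, 0 < w s) {R : Finset (Fin n)} {v : Fin n} (hv : v ∉ R)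
    (s : Finset (Fin n)) : 0 < cv w R v s := by
  unfold cv
  refine sum_pos (fun t _ => hw t) ⟨insert v s, ?_⟩
  rw [mem_filter]
  exact ⟨mem_univ _, inter_insert_eq hv, mem_insert_self _ _⟩

theorem cl_eq (R : Finset (Fin n)) (v : Fin n) (s : Finset (Fin n)) :
    cl w R s = cv w R v s +
      ∑ t ∈ univ.filter (fun t : Finset (Fin n) => t ∩ R = s ∩ R ∧ v ∉ t), w t := by
  unfold cl cv
  rw [← sum_filter_add_sum_filter_not (univ.filter fun t : Finset (Fin n) => t ∩ R = s ∩ R)
    (fun t => v ∈ t), filter_filter, filter_filter]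

theorem cv_le (R : Finset (Fin n)) (v : Fin n) (s : Finset (Fin n)) : cv w R v s ≤ cl w R s := by
  rw [cl_eq R v s]
  exact Nat.le_add_right _ _

theorem cv_lt (hw : ∀ s, 0 < w s) {R : Finset (Fin n)} {v : Fin n} (hv : v ∉ R)
    (s : Finset (Fin n)) : cv w R v s < cl w R s := by
  rw [cl_eq R v s]
  refine Nat.lt_add_of_pos_right (sum_pos (fun t _ => hw t) ⟨s.erase v, ?_⟩)
  rw [mem_filter]
  exact ⟨mem_univ _, inter_erase_eq hv, notMem_erase _ _⟩

theorem pr_pos (hw : ∀ s, 0 < w s) {R : Finset (Fin n)} {v : Fin n} (hv : v ∉ R)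
    (s : Finset (Fin n)) : 0 < pr w R v s := by
  unfold pr
  have h1 := cv_pos hw hv s
  have h2 := cl_pos hw R s
  positivity

theorem pr_lt_one (hw : ∀ s, 0 < w s) {R : Finset (Fin n)} {v : Fin n} (hv : v ∉ R)
    (s : Finset (Fin n)) : pr w R v s < 1 := by
  unfold pr
  have h2 : (0 : ℝ) < cl w R s := by exact_mod_cast cl_pos hw R s
  rw [div_lt_one h2]
  exact_mod_cast cv_lt hw hv s

/-- The tower property. -/
theorem tower (hw : ∀ s, 0 < w s) (R : Finset (Fin n)) (v : Fin n) {f : Finset (Fin n) → ℝ}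
    (hf : Dep R f) :
    ∑ s, (w s : ℝ) * (pr w R v s * f s) =
      ∑ s, (w s : ℝ) * ((if v ∈ s then 1 else 0) * f s) := by
  have h1 : ∀ s, (w s : ℝ) * (pr w R v s * f s) =
      ∑ t, if t ∩ R = s ∩ R then
        ((w t : ℝ) * (if v ∈ t then 1 else 0) * f t) * ((w s : ℝ) / cl w R t) else 0 := by
    intro s
    have h2 : (cv w R v s : ℝ) = ∑ t ∈ univ.filter (fun t : Finset (Fin n) => t ∩ R = s ∩ R),
        (w t : ℝ) * (if v ∈ t then 1 else 0) := by
      unfold cv
      rw [← filter_filter, sum_filter]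
      push_cast
      refine sum_congr rfl fun t _ => ?_
      split_ifs <;> simp
    unfold pr
    rw [h2, ← sum_filter, sum_div, sum_mul, mul_sum]
    refine sum_congr rfl fun t ht => ?_
    rw [mem_filter] at ht
    rw [← cl_congr (w := w) ht.2, hf s t ht.2.symm]
    ring
  rw [sum_congr rfl fun s _ => h1 s, sum_comm]
  refine sum_congr rfl fun t _ => ?_
  have h3 : ∀ s : Finset (Fin n), (if t ∩ R = s ∩ R then
      ((w t : ℝ) * (if v ∈ t then 1 else 0) * f t) * ((w s : ℝ) / cl w R t) else 0) =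
      ((w t : ℝ) * (if v ∈ t then 1 else 0) * f t) / cl w R t *
        (if s ∩ R = t ∩ R then (w s : ℝ) else 0) := by
    intro s
    by_cases h : t ∩ R = s ∩ R
    · rw [if_pos h, if_pos h.symm]
      ring
    · rw [if_neg h, if_neg (fun h' : s ∩ R = t ∩ R => h h'.symm), mul_zero]
  rw [sum_congr rfl fun s _ => h3 s, ← mul_sum, ← sum_filter]
  have h4 : ∑ s ∈ univ.filter (fun s : Finset (Fin n) => s ∩ R = t ∩ R), (w s : ℝ) =
      cl w R t := by
    unfold cl
    push_cast
    rfl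
  rw [h4]
  have h5 : (cl w R t : ℝ) ≠ 0 := by
    have := cl_pos hw R t
    positivity
  field_simp

/-- The tower property for means. -/
theorem ex_tower (hw : ∀ s, 0 < w s) (R : Finset (Fin n)) (v : Fin n) {f : Finset (Fin n) → ℝ}
    (hf : Dep R f) :
    ex w (fun s => pr w R v s * f s) = ex w fun s => (if v ∈ s then 1 else 0) * f s := by
  unfold ex
  rw [tower hw R v hf]

/-- Two sets of conditions. -/
theorem ex_two (hw : ∀ s, 0 < w s) {R R' : Finset (Fin n)} (h : R ⊆ R') (v : Fin n)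
    {f : Finset (Fin n) → ℝ} (hf : Dep R f) :
    ex w (fun s => pr w R' v s * f s) = ex w fun s => pr w R v s * f s := by
  rw [ex_tower hw R v hf, ex_tower hw R' v (hf.mono h)]

/-- the second moment of the conditional probability -/
noncomputable def psi (w : Finset (Fin n) → ℕ) (R : Finset (Fin n)) (v : Fin n) : ℝ :=
  ex w fun s => pr w R v s ^ 2

theorem ex_diff_sq (hw : ∀ s, 0 < w s) {R R' : Finset (Fin n)} (h : R ⊆ R') (v : Fin n) :
    ex w (fun s => (pr w R' v s - pr w R v s) ^ 2) = psi w R' v - psi w R v := by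
  have h1 := ex_two hw h v (dep_pr (w := w) R v)
  have h2 : (fun s => (pr w R' v s - pr w R v s) ^ 2) = fun s =>
      (pr w R' v s ^ 2 - 2 * (pr w R' v s * pr w R v s)) + pr w R v s ^ 2 := by
    funext s
    ring
  have h3 : (ex w fun s => pr w R v s * pr w R v s) = psi w R v := by
    unfold psi
    congr 1
    funext s
    ring
  rw [h2, ex_add, ex_sub, ex_smul, h1, h3]
  unfold psi
  ring

theorem psi_mono (hw : ∀ s, 0 < w s) {R R' : Finset (Fin n)} (h : R ⊆ R') (v : Fin n) :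
    psi w R v ≤ psi w R' v := by
  have h1 := ex_diff_sq hw h v
  have h2 : 0 ≤ ex w fun s => (pr w R' v s - pr w R v s) ^ 2 := ex_nonneg fun s => sq_nonneg _
  linarith

theorem pr_nonneg (R : Finset (Fin n)) (v : Fin n) (s : Finset (Fin n)) : 0 ≤ pr w R v s := by
  unfold pr
  positivity

theorem pr_le_one (hw : ∀ s, 0 < w s) (R : Finset (Fin n)) (v : Fin n) (s : Finset (Fin n)) :
    pr w R v s ≤ 1 := by
  unfold pr
  have h2 : (0 : ℝ) < cl w R s := by exact_mod_cast cl_pos hw R s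
  rw [div_le_one h2]
  exact_mod_cast cv_le R v s

theorem psi_nonneg (R : Finset (Fin n)) (v : Fin n) : 0 ≤ psi w R v :=
  ex_nonneg fun s => sq_nonneg _

theorem psi_le_one (hw : ∀ s, 0 < w s) (R : Finset (Fin n)) (v : Fin n) : psi w R v ≤ 1 := by
  refine (ex_mono (g := fun _ => 1) fun s => ?_).trans (le_of_eq (ex_const hw 1))
  have h1 := pr_nonneg (w := w) R v s
  have h2 := pr_le_one hw R v s
  show pr w R v s ^ 2 ≤ 1
  nlinarith

theorem ex_abs_diff (hw : ∀ s, 0 < w s) {R R' : Finset (Fin n)} (h : R ⊆ R') (v : Fin n) :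
    ex w (fun s => |pr w R' v s - pr w R v s|) ≤ Real.sqrt (psi w R' v - psi w R v) := by
  rw [← ex_diff_sq hw h v]
  exact ex_abs_le hw

end cond

end Pool.Agent.Lib.SubBisB.Sm
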