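import Pool.Agent.Lib.SubBisB.GibChain

/-!
# Samplers of the Gibbs measure in the order of the blocks
-/

open scoped BigOperators

namespace Pool.Agent.Lib.SubBisB

open Finset SubBis Pool.Agent.Lib.SubBisX.Reg

variable {n B D : ℕ} {F : Finset (Fin n) → ℤ} {β : Fin n → Fin B}

theorem tt_le (v : Fin n) (R S : Finset (Fin n)) : tt F D v R S ≤ D := by
  refine Nat.floor_le_of_le ?_
  have h := mul_le_mul_of_nonneg_left (pv_le_one (F := F) v R S) (Nat.cast_nonneg (α := ℝ) D)
  rwa [mul_one] at h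

theorem dep_tt (v : Fin n) (R : Finset (Fin n)) : Dep R (tt F D v R) := by
  intro S S' h
  unfold tt
  rw [dep_pv v R S S' h]

theorem CD.mul {m : ℕ} (h : CD F D) (hm : 0 < m) : CD F (m * D) := by
  refine ⟨Nat.mul_pos hm h.1, fun v R S => ?_⟩
  have h1 : ((m * D : ℕ) : ℝ) * pv F v R S = ((m * tt F D v R S : ℕ) : ℝ) := by
    push_cast
    rw [h.2, mul_assoc]
  unfold tt
  rw [h1, Nat.floor_natCast]

theorem exists_CD (F : Finset (Fin n) → ℤ) : ∃ D, CD F D := by
  classical
  set K : ℕ := ∑ S, (F S).natAbs with hK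
  have hF : ∀ S, F S ≤ K := by
    intro S
    have h1 : (F S).natAbs ≤ K :=
      single_le_sum (f := fun S => (F S).natAbs) (fun _ _ => Nat.zero_le _) (mem_univ S)
    omega
  set a : Finset (Fin n) → ℕ := fun S => 2 ^ ((K : ℤ) - F S).toNat with ha
  have hw : ∀ S, wt2 F S = (a S : ℝ) / 2 ^ K := by
    intro S
    have h0 : (((((K : ℤ) - F S).toNat : ℤ)) : ℤ) = (K : ℤ) - F S :=
      Int.toNat_of_nonneg (sub_nonneg.2 (hF S))
    have h1 : (((((K : ℤ) - F S).toNat : ℕ)) : ℝ) = (K : ℝ) - F S := by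
      exact_mod_cast congrArg (Int.cast (R := ℝ)) h0
    have h2 : (a S : ℝ) = (2 : ℝ) ^ (((((K : ℤ) - F S).toNat : ℕ)) : ℝ) := by
      rw [Real.rpow_natCast, ha]
      push_cast
      rfl
    rw [h2, h1, Real.rpow_sub two_pos, Real.rpow_natCast]
    unfold wt2
    rw [Real.rpow_neg two_pos.le]
    have h3 : (2 : ℝ) ^ ((F S : ℤ) : ℝ) ≠ 0 := (Real.rpow_pos_of_pos two_pos _).ne'
    field_simp
  have hpv : ∀ v R S, pv F v R S =
      ((∑ S' ∈ sm R S, if v ∈ S' then a S' else 0 : ℕ) : ℝ) / ((∑ S' ∈ sm R S, a S' : ℕ) : ℝ) := by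
    intro v R S
    unfold pv ce
    have h2 : (2 : ℝ) ^ K ≠ 0 := (pow_pos two_pos K).ne'
    have h3 : ∑ S' ∈ sm R S, wt2 F S' * ind1 v S' =
        ((∑ S' ∈ sm R S, if v ∈ S' then a S' else 0 : ℕ) : ℝ) / 2 ^ K := by
      push_cast
      rw [sum_div]
      refine sum_congr rfl fun S' _ => ?_
      rw [hw]
      unfold ind1
      split_ifs <;> simp
    have h4 : ∑ S' ∈ sm R S, wt2 F S' = ((∑ S' ∈ sm R S, a S' : ℕ) : ℝ) / 2 ^ K := by
      push_cast
      rw [sum_div]
      exact sum_congr rfl fun S' _ => hw S'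
    rw [h3, h4, div_div_div_cancel_right₀ h2]
  have hself : ∀ R S : Finset (Fin n), S ∈ sm R S := fun R S => by simp [sm]
  have hpos : ∀ R S : Finset (Fin n), 0 < ∑ S' ∈ sm R S, a S' := fun R S =>
    sum_pos (fun S' _ => by positivity) ⟨S, hself R S⟩
  refine ⟨∏ R : Finset (Fin n), ∏ S : Finset (Fin n), ∑ S' ∈ sm R S, a S',
    prod_pos fun R _ => prod_pos fun S _ => hpos R S, fun v R S => ?_⟩
  obtain ⟨q, hq⟩ : (∑ S' ∈ sm R S, a S') ∣
      ∏ R : Finset (Fin n), ∏ S : Finset (Fin n), ∑ S' ∈ sm R S, a S' :=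
    (dvd_prod_of_mem (fun S => ∑ S' ∈ sm R S, a S') (mem_univ S)).trans
      (dvd_prod_of_mem (fun R => ∏ S : Finset (Fin n), ∑ S' ∈ sm R S, a S') (mem_univ R))
  have h5 : ((∑ S' ∈ sm R S, a S' : ℕ) : ℝ) ≠ 0 := by
    exact_mod_cast (hpos R S).ne'
  have h6 : ((∏ R : Finset (Fin n), ∏ S : Finset (Fin n), ∑ S' ∈ sm R S, a S' : ℕ) : ℝ) *
      pv F v R S = ((q * ∑ S' ∈ sm R S, if v ∈ S' then a S' else 0 : ℕ) : ℝ) := by
    rw [hq, hpv, Nat.cast_mul, Nat.cast_mul]
    field_simp
  unfold tt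
  rw [h6, Nat.floor_natCast]

/-- The position of a vertex in the order of the blocks. -/
def rkB (β : Fin n → Fin B) (v : Fin n) : ℕ := (β v : ℕ) * n + v

theorem mem_Rp_iff {β : Fin n → Fin B} {v x : Fin n} : x ∈ Rp β v ↔ rkB β x < rkB β v := by
  unfold Rp rkB
  rw [mem_filter]
  simp only [mem_univ, true_and, Fin.lt_def]
  have hx := x.isLt
  have hv := v.isLt
  constructor
  · rintro (h | ⟨h, h'⟩)
    · have h1 : ((β x : ℕ) + 1) * n ≤ (β v : ℕ) * n := Nat.mul_le_mul_right n h
      rw [Nat.add_mul, Nat.one_mul] at h1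
      omega
    · rw [h]
      omega
  · intro h
    rcases lt_trichotomy (β x : ℕ) (β v : ℕ) with h1 | h1 | h1
    · exact Or.inl h1
    · rw [h1] at h
      exact Or.inr ⟨Fin.ext h1, by omega⟩
    · exfalso
      have h2 : ((β v : ℕ) + 1) * n ≤ (β x : ℕ) * n := Nat.mul_le_mul_right n h1
      rw [Nat.add_mul, Nat.one_mul] at h2
      omega

theorem not_mem_Rp (β : Fin n → Fin B) (v : Fin n) : v ∉ Rp β v := fun h =>
  lt_irrefl _ (mem_Rp_iff.1 h)

/-- Two sets that follow the same rule on a set `T` closed under predecessors agree on `T`. -/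
theorem rule_congr {Q Q' : Fin n → ℕ} {S S' T : Finset (Fin n)}
    (hT : ∀ x ∈ T, Rp β x ⊆ T) (hQ : ∀ x ∈ T, Q x = Q' x)
    (h : ∀ v ∈ T, v ∈ S ↔ Q v < tt F D v (Rp β v) S)
    (h' : ∀ v ∈ T, v ∈ S' ↔ Q' v < tt F D v (Rp β v) S') : S ∩ T = S' ∩ T := by
  have key : ∀ k, ∀ x ∈ T, rkB β x < k → (x ∈ S ↔ x ∈ S') := by
    intro k
    induction k with
    | zero => exact fun x _ hx => absurd hx (Nat.not_lt_zero _)
    | succ k ih =>
      intro x hx hk
      have h1 : S ∩ Rp β x = S' ∩ Rp β x := by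
        ext y
        simp only [mem_inter]
        constructor
        · rintro ⟨hy, hy'⟩
          have h2 := mem_Rp_iff.1 hy'
          exact ⟨(ih y (hT x hx hy') (by omega)).1 hy, hy'⟩
        · rintro ⟨hy, hy'⟩
          have h2 := mem_Rp_iff.1 hy'
          exact ⟨(ih y (hT x hx hy') (by omega)).2 hy, hy'⟩
      rw [h x hx, h' x hx, hQ x hx, dep_tt x (Rp β x) S S' h1]
  ext x
  simp only [mem_inter]
  constructor
  · rintro ⟨hx, hx'⟩
    exact ⟨(key _ x hx' (Nat.lt_succ_self _)).1 hx, hx'⟩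
  · rintro ⟨hx, hx'⟩
    exact ⟨(key _ x hx' (Nat.lt_succ_self _)).2 hx, hx'⟩

theorem exists_samp (F : Finset (Fin n) → ℤ) (β : Fin n → Fin B) (D : ℕ) :
    ∃ z, Samp F β D z := by
  classical
  set G : (Fin n → Fin D) → Finset (Fin n) → Finset (Fin n) := fun U S =>
    univ.filter fun v => (U v : ℕ) < tt F D v (Rp β v) S with hG
  have step : ∀ U k, ∀ x, rkB β x < k → (x ∈ (G U)^[k + 1] ∅ ↔ x ∈ (G U)^[k] ∅) := by
    intro U k
    induction k with
    | zero => exact fun x hx => absurd hx (Nat.not_lt_zero _)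
    | succ k ih =>
      intro x hk
      have h1 : (G U)^[k + 1] ∅ ∩ Rp β x = (G U)^[k] ∅ ∩ Rp β x := by
        ext y
        simp only [mem_inter]
        constructor
        · rintro ⟨hy, hy'⟩
          have h2 := mem_Rp_iff.1 hy'
          exact ⟨(ih y (by omega)).1 hy, hy'⟩
        · rintro ⟨hy, hy'⟩
          have h2 := mem_Rp_iff.1 hy'
          exact ⟨(ih y (by omega)).2 hy, hy'⟩
      rw [Function.iterate_succ_apply' (G U) (k + 1), Function.iterate_succ_apply' (G U) k]
      have h3 := dep_tt (F := F) (D := D) x (Rp β x) _ _ h1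
      rw [Function.iterate_succ_apply' (G U) k] at h3
      simp only [hG, mem_filter, mem_univ, true_and]
      simp only [hG] at h3
      rw [h3]
  refine ⟨fun U => (G U)^[B * n + n] ∅, fun U v => ?_⟩
  have hv : rkB β v < B * n + n := by
    unfold rkB
    have h1 : (β v : ℕ) * n ≤ B * n := Nat.mul_le_mul_right n (β v).isLt.le
    have h2 := v.isLt
    omega
  have h4 := step U (B * n + n) v hv
  rw [← h4, Function.iterate_succ_apply' (G U)]
  simp only [hG, mem_filter, mem_univ, true_and]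

theorem Samp.inter_closed {z : (Fin n → Fin D) → Finset (Fin n)} (hz : Samp F β D z)
    {T : Finset (Fin n)} (hT : ∀ x ∈ T, Rp β x ⊆ T)
    {U U' : Fin n → Fin D} (h : ∀ x ∈ T, U x = U' x) : z U ∩ T = z U' ∩ T :=
  rule_congr (F := F) (D := D) (β := β) (Q := fun v => (U v : ℕ)) (Q' := fun v => (U' v : ℕ)) hT
    (fun x hx => congrArg Fin.val (h x hx)) (fun v _ => hz U v) fun v _ => hz U' v

theorem Samp.inter_Rp {z : (Fin n → Fin D) → Finset (Fin n)} (hz : Samp F β D z) {v : Fin n}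
    {U U' : Fin n → Fin D} (h : ∀ x ∈ Rp β v, U x = U' x) : z U ∩ Rp β v = z U' ∩ Rp β v :=
  hz.inter_closed (fun _ hx _ hy =>
    mem_Rp_iff.2 ((mem_Rp_iff.1 hy).trans (mem_Rp_iff.1 hx))) h

theorem Samp.inter_Rb {z : (Fin n → Fin D) → Finset (Fin n)} (hz : Samp F β D z) {v : Fin n}
    {U U' : Fin n → Fin D} (h : ∀ x ∈ Rb β v, U x = U' x) : z U ∩ Rb β v = z U' ∩ Rb β v := by
  refine hz.inter_closed (fun x hx y hy => ?_) h
  have h1 : β x < β v := (mem_filter.1 hx).2
  refine mem_filter.2 ⟨mem_univ y, ?_⟩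
  rcases (mem_filter.1 hy).2 with h2 | ⟨h2, _⟩
  · exact h2.trans h1
  · rw [h2]
    exact h1

theorem Samp.eq_iff {z : (Fin n → Fin D) → Finset (Fin n)} (hz : Samp F β D z)
    (U : Fin n → Fin D) (S : Finset (Fin n)) :
    z U = S ↔ ∀ v, v ∈ S ↔ (U v : ℕ) < tt F D v (Rp β v) S := by
  constructor
  · rintro rfl v
    exact hz U v
  · intro h
    have h1 := rule_congr (F := F) (D := D) (β := β) (T := univ) (Q := fun v => (U v : ℕ))
      (Q' := fun v => (U v : ℕ)) (fun _ _ => subset_univ _) (fun _ _ => rfl)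
      (fun v _ => hz U v) fun v _ => h v
    simpa using h1

/-- The number of vectors that give the set `S`. -/
theorem Samp.card_fibre (hD : CD F D) {z : (Fin n → Fin D) → Finset (Fin n)} (hz : Samp F β D z)
    (S : Finset (Fin n)) :
    (((univ.filter fun U => z U = S).card : ℕ) : ℝ) = (D : ℝ) ^ n * (wt2 F S / ZF F) := by
  classical
  have h1 : (univ.filter fun U => z U = S) =
      Fintype.piFinset fun v => univ.filter fun u : Fin D =>
        (v ∈ S ↔ (u : ℕ) < tt F D v (Rp β v) S) := by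
    ext U
    rw [mem_filter, Fintype.mem_piFinset]
    simp only [mem_univ, true_and, mem_filter]
    exact hz.eq_iff U S
  rw [h1, Fintype.card_piFinset, ← prod_pv F β S, Nat.cast_prod]
  have h2 : (D : ℝ) ^ n = ∏ _v : Fin n, (D : ℝ) := by
    rw [prod_const, card_univ, Fintype.card_fin]
  rw [h2, ← prod_mul_distrib]
  refine prod_congr rfl fun v _ => ?_
  have ht := tt_le (F := F) (D := D) v (Rp β v) S
  have h3 : ((univ.filter fun u : Fin D => (u : ℕ) < tt F D v (Rp β v) S).card : ℕ) =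
      tt F D v (Rp β v) S := by
    rw [Fin.card_filter_val_lt]
    exact min_eq_right ht
  by_cases hv : v ∈ S
  · simp only [hv, true_iff, if_true]
    rw [h3, hD.2]
  · simp only [hv, false_iff, if_false]
    have h4 := card_filter_add_card_filter_not (s := (univ : Finset (Fin D)))
      (fun u : Fin D => (u : ℕ) < tt F D v (Rp β v) S)
    rw [h3, card_univ, Fintype.card_fin] at h4
    have h5 : ((tt F D v (Rp β v) S : ℕ) : ℝ) + (((univ.filter fun u : Fin D =>
        ¬ (u : ℕ) < tt F D v (Rp β v) S).card : ℕ) : ℝ) = D := by exact_mod_cast h4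
    rw [hD.2] at h5
    rw [mul_sub, mul_one]
    exact eq_sub_of_add_eq' h5

/-- The sampler has the Gibbs distribution. -/
theorem Samp.av_eq (hD : CD F D) {z : (Fin n → Fin D) → Finset (Fin n)} (hz : Samp F β D z)
    (f : Finset (Fin n) → ℝ) : av (fun U => f (z U)) = EG F f := by
  classical
  have h1 : ∑ U, f (z U) = ∑ S, (D : ℝ) ^ n * (wt2 F S / ZF F) * f S := by
    rw [← sum_fiberwise univ z fun U => f (z U)]
    refine sum_congr rfl fun S _ => ?_
    rw [← hz.card_fibre hD S, ← nsmul_eq_mul, ← sum_const]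
    refine sum_congr rfl fun U hU => ?_
    rw [(mem_filter.1 hU).2]
  unfold av EG
  rw [h1, Fintype.card_fun, Fintype.card_fin, Fintype.card_fin, Nat.cast_pow, sum_div, sum_div]
  have hDn : (D : ℝ) ^ n ≠ 0 := (pow_pos (by exact_mod_cast hD.1) n).ne'
  refine sum_congr rfl fun S _ => ?_
  field_simp

/-- Resampling of one coordinate. -/
theorem av_update {X : Type*} [Fintype X] [Nonempty X] (v : Fin n) (f : (Fin n → X) → ℝ) :
    av f = av fun U => av fun u => f (Function.update U v u) := by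
  classical
  let e : ((Fin n → X) × X) ≃ ((Fin n → X) × X) :=
    { toFun := fun p => (Function.update p.1 v p.2, p.1 v)
      invFun := fun p => (Function.update p.1 v p.2, p.1 v)
      left_inv := fun p => by
        ext x
        · simp
        · simp
      right_inv := fun p => by
        ext x
        · simp
        · simp }
  have h1 := av_equiv e fun p : (Fin n → X) × X => f p.1
  rw [av_fst] at h1
  rw [← h1, av_prod]
  rfl

/-- The number of `v` is independent of the set before `v`. -/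
theorem Samp.av_ind (hD : CD F D) {z : (Fin n → Fin D) → Finset (Fin n)} (hz : Samp F β D z)
    (v : Fin n) (φ : Fin D → Finset (Fin n) → ℝ) (hφ : ∀ u, Dep (Rp β v) (φ u)) :
    av (fun U => φ (U v) (z U)) = EG F fun S => av fun u => φ u S := by
  have : Nonempty (Fin D) := ⟨⟨0, hD.1⟩⟩
  rw [← hz.av_eq hD fun S => av fun u => φ u S, av_update v]
  refine congrArg av (funext fun U => congrArg av (funext fun u => ?_))
  rw [Function.update_self]
  refine hφ u _ _ (hz.inter_Rp fun x hx => ?_)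
  have hne : x ≠ v := fun h => not_mem_Rp β v (h ▸ hx)
  rw [Function.update_of_ne hne]

end Pool.Agent.Lib.SubBisB
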